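import Mathlib
import Pool.Agent.Hrd.Main
import Pool.Agent.Helper20.Cons.UnivG

set_option autoImplicit false

/-!
# NP ∩ coNP relative to a random oracle: definitions
-/

namespace Pool.Agent.RO

open MeasureTheory Function N68a2faeb N793a5b8e N487b59b3 Pool.Agent.Helper22
open Pool.Agent.Helper20.Cons (join Po cRun)
open scoped ENNReal

/-! ## The random oracle -/

/-- The distribution of a random oracle: independent fair coins for all words. -/
noncomputable def coin : Measure Oracle :=
  Measure.infinitePi fun _ : List Bool => (PMF.uniformOfFintype Bool).toMeasure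

/-- Polynomial time Turing reducibility relative to the oracle `R`: the procedure may ask `B` and
`R`. -/
def TuringRel (R : Oracle) (A B : DecisionProblem) : Prop :=
  ∃ M : OracleProc (List Bool) Bool, ∀ x, A x = M.run (join R B) x

/-! ## Finite probability -/

/-- the proportion of the elements of a finite type with a property -/
noncomputable def pr {Ω : Type*} [Fintype Ω] (p : Ω → Prop) : ℝ := by
  classical
  exact ((Finset.univ.filter p).card : ℝ) / (Fintype.card Ω : ℝ)

section core

variable {Λ : Type} [Fintype Λ] [DecidableEq Λ]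

/-- the proportion of the `k`-element subsets with a property -/
noncomputable def fr (k : ℕ) (Φ : Finset Λ → Prop) : ℝ := by
  classical
  exact ((((Finset.univ : Finset Λ).powersetCard k).filter Φ).card : ℝ) /
    ((Fintype.card Λ).choose k : ℝ)

/-- the first `a` values of a sequence, as a set -/
def pre (a : ℕ) {n : ℕ} (v : Fin n ↪ Λ) : Finset Λ :=
  (Finset.univ.filter fun i : Fin n => (i : ℕ) < a).image v

/-- Certificates of size `P`: if `a x G` holds, it holds for all sets which agree with `G` on some
set with at most `P` elements. -/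
def Cert {ξ : Type} (P : ℕ) (a : ξ → Finset Λ → Prop) : Prop :=
  ∀ x G, a x G → ∃ W : Finset Λ, W.card ≤ P ∧ ∀ G' : Finset Λ, (∀ w ∈ W, w ∈ G' ↔ w ∈ G) → a x G'

/-- some translate of the sequence `x` is contained in `G` -/
def AA (op : Λ → Λ → Λ) {j : ℕ} (x : Fin j ↪ Λ) (G : Finset Λ) : Prop :=
  ∃ y, ∀ i, op y (x i) ∈ G

/-- `a` and `b` do not decide `AA` and its complement -/
def Fl (op : Λ → Λ → Λ) {j : ℕ} (a b : (Fin j ↪ Λ) → Finset Λ → Prop) (G : Finset Λ) : Prop :=
  ∃ x, ¬ (a x G ↔ AA op x G) ∨ ¬ (b x G ↔ ¬ AA op x G)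

/-- `a` and `b` are not complementary -/
def Iv {j : ℕ} (a b : (Fin j ↪ Λ) → Finset Λ → Prop) (G : Finset Λ) : Prop :=
  ∃ x, (a x G ↔ b x G)

/-- the weight of a family of sets, each set having the weight `ρ ^ card` -/
noncomputable def wt (ρ : ℝ≥0∞) (Φ : Finset Λ → Prop) : ℝ≥0∞ := by
  classical
  exact ∑ G ∈ Finset.univ.filter Φ, ρ ^ G.card

end core

/-- the probability of the value `k` for the binomial distribution -/
noncomputable def bw (N : ℕ) (q : ℝ) (k : ℕ) : ℝ :=
  (N.choose k : ℝ) * q ^ k * (1 - q) ^ (N - k)

/-! ## The gadget -/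

/-- bitwise sum of words -/
def wx (a b : List Bool) : List Bool := List.zipWith xor a b

/-- `w` is a mark of the oracle `R`: the words `w, w1, w11, ...` (`κ` words) are not in `R` -/
def Mark (R : Oracle) (κ : ℕ) (w : List Bool) : Prop := ∀ a < κ, R (w ++ un a) = false

/-- the number of words of an instance -/
def jj (l : ℕ) : ℕ := 2 * 4 ^ (l + 3)

/-- the expected number of marks -/
def mu (l : ℕ) : ℕ := 8 ^ (l + 3)

/-- the admitted deviation of the number of marks -/
def dd (l : ℕ) : ℕ := 4 ^ (l + 3)

/-- a word of length `s` is a mark with probability `2 ^ (- kap s l)` -/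
def kap (s l : ℕ) : ℕ := s - 3 * (l + 3)

/-- the marks of length `s` -/
noncomputable def marks (R : Oracle) (s κ : ℕ) : Finset (List.Vector Bool s) := by
  classical
  exact Finset.univ.filter fun w => Mark R κ w.1

/-- `u` codes `jj l` different words of length `s` -/
def IsInst (s l : ℕ) (u : List Bool) : Prop :=
  lc (ld u) = u ∧ (ld u).length = jj l ∧ (ld u).Nodup ∧ ∀ x ∈ ld u, x.length = s

/-- all words of some translate of the instance `u` are marks -/
def Sat (R : Oracle) (s l : ℕ) (u : List Bool) : Prop :=
  ∃ y : List Bool, y.length = s ∧ ∀ x ∈ ld u, Mark R (kap s l) (wx y x)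

/-- the number of marks is as expected -/
def Win (R : Oracle) (s l : ℕ) : Prop :=
  mu l - dd l ≤ (marks R s (kap s l)).card ∧ (marks R s (kap s l)).card < mu l + dd l

/-! ## The reductions -/

/-- the trivial reductions -/
def pad (j : List Bool) (e : ℕ) (x : List Bool) : List Bool :=
  cd j (cd x (un (x.length ^ e + e)))

/-- the code in the number `l` -/
def pj (l : ℕ) : List Bool := cf (enum l)

/-- the exponent in the number `l` -/
def pe (l : ℕ) : ℕ := (cf (cs (enum l))).length

/-- the trivial reduction number `l` -/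
def pads (l : ℕ) (x : List Bool) : List Bool := pad (pj l) (pe l) x

/-- two verifiers, with bounds for the witnesses -/
abbrev Vp : Type := Bool → OracleProc (List Bool × List Bool) Bool × Polynomial ℕ

/-- acceptance of the image of `u` under the reduction number `l` -/
def acc (V : Vp) (b : Bool) (R : Oracle) (l : ℕ) (u : List Bool) : Prop :=
  Accepts (V b).1 (V b).2 R (pads l u)

/-- the reduction number `l` to the language of the verifiers `V` fails for some instance -/
def Fail (V : Vp) (R : Oracle) (s l : ℕ) : Prop :=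
  ∃ u, IsInst s l u ∧ (¬ (acc V true R l u ↔ Sat R s l u) ∨ ¬ (acc V false R l u ↔ ¬ Sat R s l u))

/-- the verifiers are not complementary on the image of some instance -/
def Inv (V : Vp) (R : Oracle) (s l : ℕ) : Prop :=
  ∃ u, IsInst s l u ∧ (acc V true R l u ↔ acc V false R l u)

/-! ## The levels -/

/-- the length of the words of level `i` -/
def lev (S : ℕ) : ℕ → ℕ
  | 0 => S
  | i + 1 => 2 ^ (2 ^ lev S i)

open Classical in
/-- the number of the levels less than `i` with a failure -/
noncomputable def cnt (V : Vp) (S : ℕ) (R : Oracle) : ℕ → ℕ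
  | 0 => 0
  | i + 1 => cnt V S R i + if Fail V R (lev S i) (cnt V S R i) then 1 else 0

/-- the new language: instances of the levels from `i₀` on -/
def Lng (V : Vp) (S i₀ : ℕ) (R : Oracle) (z : List Bool) : Prop :=
  ∃ i, i₀ ≤ i ∧ IsInst (lev S i) (cnt V S R i) z ∧ Sat R (lev S i) (cnt V S R i) z

/-! ## Bounds -/

/-- the queries of a procedure -/
def qs {α β : Type} [N487b59b3 α] [N487b59b3 β] (M : OracleProc α β) (X : Oracle) (a : α) :
    List (List Bool) :=
  (List.range (M.clock a).length).map fun n => M.query (a, M.answers X a n)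

/-- everything which occurs for the level with words of length `s` and the number `l` is bounded by
`h` -/
structure HB (V : Vp) (s l h : ℕ) : Prop where
  two : 2 * s ≤ h
  inst : ∀ u, IsInst s l u → u.length ≤ h
  pad : ∀ u, IsInst s l u → (pads l u).length ≤ h
  wit : ∀ u, IsInst s l u → ∀ b, (V b).2.eval (pads l u).length ≤ h
  num : ∀ u, IsInst s l u → ∀ (b : Bool) (R : Oracle) (w : List Bool),
    w.length ≤ (V b).2.eval (pads l u).length → (qs (V b).1 R (pads l u, w)).length ≤ h
  len : ∀ u, IsInst s l u → ∀ (b : Bool) (R : Oracle) (w : List Bool),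
    w.length ≤ (V b).2.eval (pads l u).length → ∀ q ∈ qs (V b).1 R (pads l u, w), q.length ≤ h

/-- the levels are large enough -/
def Big (V : Vp) (S : ℕ) : Prop :=
  ∀ i l, l ≤ i → ∃ h, HB V (lev S i) l h ∧ 200 * 64 ^ (l + 3) * (h + 1) ≤ 2 ^ lev S i

end Pool.Agent.RO
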