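import Mathlib
import Pool.Agent.RO.Defs

set_option autoImplicit false

/-!
# Definitions for the key formula and the link with the core lemma
-/

namespace Pool.Agent.RO

open Pool.Agent.Helper22

open Classical in
/-- the words of `H` become marks -/
noncomputable def zer {s : ℕ} (κ : ℕ) (H : Finset (List.Vector Bool s)) (R : Oracle) : Oracle :=
  fun w => if ∃ v ∈ H, ∃ a, a < κ ∧ w = v.1 ++ un a then false else R w

/-- bitwise sum of words of the same length -/
def vx {s : ℕ} (a b : List.Vector Bool s) : List.Vector Bool s :=
  ⟨wx a.1 b.1, by simp [wx, a.2, b.2]⟩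

/-- the word coding a sequence of words -/
def code {s j : ℕ} (x : Fin j ↪ List.Vector Bool s) : List Bool :=
  lc (List.ofFn fun i => (x i).1)

end Pool.Agent.RO
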