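import Mathlib
import Pool.Agent.RO.KeyDefs

set_option autoImplicit false

/-!
# Module RO-LinkA: words and codes (first part; the second is module Link)

`R` is a fixed oracle; for `H : Finset (List.Vector Bool s)` the oracle `zer κ H R` has the patterns of the words of `H` set to
`false`.

PLAN.
* `vx` is commutative and involutive (bitwise xor; `List.zipWith`, induction or `List.ext_getElem`).
* `run_congr`: a run depends only on the answers to its queries (induction on the number of answers:
  `M.answers X a n = M.answers Y a n` for `n ≤ clock` if `X` and `Y` agree on `qs M X a`).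
* `isInst_code`: `ld (lc l) = l` (`ld_lc`).  `exists_code_of_isInst`: `x i = ⟨(ld u)[i], _⟩`; injective by `Nodup`.
* `cert_acc`: if `acc V b (zer κ H R) l (code x)`, take the witness `w` and the list `qs` of the queries (at most `h`, `HB.num`);
  `W = {v | ∃ q ∈ qs, ∃ a < κ, q = v ++ un a}`: at most one `v` for each `q` (`v = q.take s`), so `W.card ≤ h` (e.g.
  `W ⊆ image (fun q => q.take s) qs.toFinset`).  If `H'` agrees with `H` on `W` then `zer κ H' R q = zer κ H R q` for all the
  queries `q`, hence the same run (`run_congr`) and `acc V b (zer κ H' R) l (code x)`.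
* `sat_iff`: `Sat (zer κ H R) s l (code x) ↔ AA vx x H` if `marks R s κ = ∅` (`κ = kap s l`): a word `v` of length `s` is a mark
  of `zer κ H R` iff `v ∈ H` (`marks_zer` of module `Key`; prove it here directly if you like, it is a private copy of a few lines).
* `fail_iff`, `inv_iff`, `win_iff`: from these.
-/

namespace Pool.Agent.RO

open Pool.Agent.Helper22 N487b59b3

private theorem wx_comm (a b : List Bool) : wx a b = wx b a := by
  unfold wx
  exact List.zipWith_comm_of_comm Bool.xor_comm

private theorem wx_wx {a b : List Bool} (h : a.length = b.length) : wx a (wx a b) = b := by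
  apply List.ext_getElem
  · simp [wx, h]
  · intro i h1 h2
    simp [wx]

theorem vx_comm {s : ℕ} (a b : List.Vector Bool s) : vx a b = vx b a := by
  apply Subtype.ext
  exact wx_comm a.1 b.1

theorem vx_vx {s : ℕ} (a b : List.Vector Bool s) : vx a (vx a b) = b := by
  apply Subtype.ext
  exact wx_wx (a.2.trans b.2.symm)

theorem run_congr {α β : Type} [N487b59b3 α] [N487b59b3 β] (M : OracleProc α β) {X Y : Oracle}
    {a : α} (h : ∀ q ∈ qs M X a, X q = Y q) : M.run X a = M.run Y a := by
  have key : ∀ n ≤ (M.clock a).length, M.answers X a n = M.answers Y a n := by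
    intro n
    induction n with
    | zero => intro _; rfl
    | succ n ih =>
      intro hn
      have h1 := ih (by omega)
      rw [OracleProc.answers, OracleProc.answers, ← h1]
      have h2 : X (M.query (a, M.answers X a n)) = Y (M.query (a, M.answers X a n)) := by
        apply h
        unfold qs
        exact List.mem_map.2 ⟨n, List.mem_range.2 (by omega), rfl⟩
      rw [h2]
  rw [OracleProc.run, OracleProc.run, key _ le_rfl]

theorem isInst_code {s l : ℕ} (x : Fin (jj l) ↪ List.Vector Bool s) : IsInst s l (code x) := by
  unfold IsInst code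
  rw [ld_lc]
  refine ⟨rfl, by simp, ?_, ?_⟩
  · rw [List.nodup_ofFn]
    exact fun i j hij => x.injective (Subtype.ext hij)
  · intro y hy
    rw [List.mem_ofFn] at hy
    obtain ⟨i, rfl⟩ := hy
    exact (x i).2

theorem exists_code_of_isInst {s l : ℕ} {u : List Bool} (h : IsInst s l u) :
    ∃ x : Fin (jj l) ↪ List.Vector Bool s, code x = u := by
  obtain ⟨h1, h2, h3, h4⟩ := h
  refine ⟨⟨fun i => ⟨(ld u)[(i : ℕ)]'(by rw [h2]; exact i.2), h4 _ (List.getElem_mem _)⟩, ?_⟩, ?_⟩
  · intro i j hij
    have h5 : (ld u)[(i : ℕ)]'(by rw [h2]; exact i.2) = (ld u)[(j : ℕ)]'(by rw [h2]; exact j.2) :=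
      congrArg Subtype.val hij
    exact Fin.ext ((List.Nodup.getElem_inj_iff h3).1 h5)
  · unfold code
    conv_rhs => rw [← h1]
    congr 1
    apply List.ext_getElem
    · simp [h2]
    · intro i h5 h6
      rw [List.getElem_ofFn]
      rfl

end Pool.Agent.RO
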