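import Mathlib
import Pool.Agent.RO.LinkA

set_option autoImplicit false

/-!
# Module RO-C2: everything at one level depends only on the words of length at most `h`

PLAN.  `Mark R (kap s l) w` for a word `w` with `w.length ≤ s` asks words `w ++ un a`, `a < kap s l ≤ s`, of length `< 2 s ≤ h`
(`HB.two`); `(wx y x).length ≤ s` (zipWith).  So `Sat` and `marks` are the same for `R`, `R'` (`win_congr`).  Acceptance: for an
instance `u` and a witness `w` of admissible length all queries of `(V b).1` with oracle `R` have length `≤ h` (`HB.len`), so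
`run_congr` (LinkA) gives the same run; hence `acc V b R l u ↔ acc V b R' l u`.
-/

namespace Pool.Agent.RO

open Pool.Agent.Helper22 N487b59b3

private theorem mark_congr {s κ h : ℕ} (h2 : 2 * s ≤ h) (hκ : κ ≤ s) {R R' : Oracle}
    (hR : ∀ u : List Bool, u.length ≤ h → R u = R' u) {w : List Bool} (hw : w.length ≤ s) :
    Mark R κ w ↔ Mark R' κ w := by
  unfold Mark
  refine forall_congr' fun a => forall_congr' fun ha => ?_
  rw [hR (w ++ un a)]
  rw [List.length_append]
  simp only [un, List.length_replicate]
  omega

private theorem kap_le (s l : ℕ) : kap s l ≤ s := by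
  unfold kap
  omega

private theorem marks_congr {s κ h : ℕ} (h2 : 2 * s ≤ h) (hκ : κ ≤ s) {R R' : Oracle}
    (hR : ∀ u : List Bool, u.length ≤ h → R u = R' u) : marks R s κ = marks R' s κ := by
  classical
  rw [marks, marks]
  refine Finset.filter_congr fun w _ => ?_
  exact mark_congr h2 hκ hR (le_of_eq w.2)

private theorem acc_imp {V : Vp} {s l h : ℕ} (H : HB V s l h) {R R' : Oracle}
    (hR : ∀ u : List Bool, u.length ≤ h → R u = R' u) {u : List Bool} (hu : IsInst s l u)
    (b : Bool) : acc V b R l u → acc V b R' l u := by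
  rintro ⟨w, hw, hrun⟩
  refine ⟨w, hw, ?_⟩
  rw [← hrun]
  symm
  apply run_congr
  intro q hq
  exact hR q (H.len u hu b R w hw q hq)

theorem sat_congr {V : Vp} {s l h : ℕ} (H : HB V s l h) {R R' : Oracle}
    (hR : ∀ u : List Bool, u.length ≤ h → R u = R' u) {u : List Bool} (hu : IsInst s l u) :
    Sat R s l u ↔ Sat R' s l u := by
  unfold Sat
  refine exists_congr fun y => and_congr_right fun hy => ?_
  refine forall_congr' fun x => forall_congr' fun hx => ?_
  refine mark_congr H.two (kap_le s l) hR ?_
  unfold wx
  rw [List.length_zipWith, hy]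
  exact min_le_left _ _

theorem acc_congr {V : Vp} {s l h : ℕ} (H : HB V s l h) {R R' : Oracle}
    (hR : ∀ u : List Bool, u.length ≤ h → R u = R' u) {u : List Bool} (hu : IsInst s l u)
    (b : Bool) : acc V b R l u ↔ acc V b R' l u :=
  ⟨acc_imp H hR hu b, acc_imp H (fun v hv => (hR v hv).symm) hu b⟩

theorem fail_congr {V : Vp} {s l h : ℕ} (H : HB V s l h) {R R' : Oracle}
    (hR : ∀ u : List Bool, u.length ≤ h → R u = R' u) : Fail V R s l ↔ Fail V R' s l := by
  unfold Fail
  refine exists_congr fun u => and_congr_right fun hu => ?_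
  rw [acc_congr H hR hu true, acc_congr H hR hu false, sat_congr H hR hu]

theorem inv_congr {V : Vp} {s l h : ℕ} (H : HB V s l h) {R R' : Oracle}
    (hR : ∀ u : List Bool, u.length ≤ h → R u = R' u) : Inv V R s l ↔ Inv V R' s l := by
  unfold Inv
  refine exists_congr fun u => and_congr_right fun hu => ?_
  rw [acc_congr H hR hu true, acc_congr H hR hu false]

theorem win_congr {V : Vp} {s l h : ℕ} (H : HB V s l h) {R R' : Oracle}
    (hR : ∀ u : List Bool, u.length ≤ h → R u = R' u) : Win R s l ↔ Win R' s l := by
  unfold Win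
  rw [marks_congr H.two (kap_le s l) hR]

end Pool.Agent.RO
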