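import Mathlib
import Pool.Agent.RO.Defs

/-!
# RO, block C: definitions for the polynomial time machines

Bounded versions of all notions: `r` is a bound in unary, `T` a list of the words which are in the
oracle, `s`, `l`, `k` numbers in unary.
-/

set_option autoImplicit false

namespace Pool.Agent.RO

open N68a2faeb N793a5b8e N487b59b3 Pool.Agent.Helper22
open Pool.Agent.Helper20.Cons (join Po cRun)

/-! ## Lists of words -/

/-- the words `[], 1, 11, ...`, as many as `|r|` -/
def uns (r : List Bool) : List (List Bool) := (List.range r.length).map un

/-- no repetition -/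
def nodupB (l : List (List Bool)) : Bool :=
  (l.foldl (fun (s : List (List Bool) × Bool) w => (w :: s.1, s.2 && !wmem s.1 w)) ([], true)).2

/-! ## The gadget -/

/-- `kap` in unary -/
def kapU (s l : List Bool) : List Bool := s.drop (l ++ (l ++ (l ++ un 9))).length

/-- `w` is a mark, `k` marks words in unary -/
def markB (T : List (List Bool)) (k w : List Bool) : Bool :=
  (uns k).all fun a => !wmem T (w ++ a)

/-- `|b| ^ (|l| + 3)` in unary, truncated at `|t| + 1` -/
def powU (b l t : List Bool) : List Bool := pw b (true :: true :: true :: l) t

/-- `u` is an instance -/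
def instB (s l u : List Bool) : Bool :=
  (weq (lc (ld u)) u && leneq (un (ld u).length) (powU (un 4) l u ++ powU (un 4) l u)) &&
    (nodupB (ld u) && (ld u).all fun x => leneq x s)

/-- all words of some translate of `u` are marks -/
def satB (r : List Bool) (T : List (List Bool)) (s l u : List Bool) : Bool :=
  (strs r).any fun y => leneq y s && (ld u).all fun x => markB T (kapU s l) (wx y x)

/-! ## The verifiers on the images of the trivial reductions -/

/-- the trivial reduction, bounded -/
def padB (l u r : List Bool) : List Bool :=
  cd (cf (enumU l)) (cd u (pw u (cf (cs (enumU l))) r ++ un (cf (cs (enumU l))).length))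

/-- acceptance -/
def accB (V : Vp) (b : Bool) (r : List Bool) (T : List (List Bool)) (l u : List Bool) : Bool :=
  (strs r).any fun w => decide (w.length ≤ (un ((V b).2.eval (padB l u r).length)).length) &&
    (V b).1.run (wmem T) (padB l u r, w)

/-- failure of the reduction number `|l|` for the words of length `|s|` -/
def failB (V : Vp) (r : List Bool) (T : List (List Bool)) (s l : List Bool) : Bool :=
  (strs r).any fun u => instB s l u &&
    (!(accB V true r T l u == satB r T s l u) || (accB V false r T l u == satB r T s l u))

/-! ## Looking back -/

/-- the next level, truncated -/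
def nxtU (s r : List Bool) : List Bool := pw [true, true] (pw [true, true] s r) r

/-- one step: from the level and its number to the next level and its number -/
def lstep (V : Vp) (r : List Bool) (T : List (List Bool)) (p : List Bool × List Bool) :
    List Bool × List Bool :=
  if decide ((nxtU p.1 r).length ≤ r.length) then
    (nxtU p.1 r, if failB V r T p.1 p.2 then true :: p.2 else p.2)
  else p

/-- the largest level which is at most `|r|`, and its number -/
def look (V : Vp) (S : ℕ) (r : List Bool) (T : List (List Bool)) : List Bool × List Bool :=
  (lstep V r T)^[r.length] (un S, [])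

/-- the length of the first word of the list coded by `z`, in unary -/
def nz (z : List Bool) : List Bool := un ((ld z).headD []).length

/-- `z` is an instance of a level `≥ i₀`, if `T` holds the positive answers for `strs (nz z)` -/
def levB (V : Vp) (S i₀ : ℕ) (z : List Bool) (T : List (List Bool)) : Bool :=
  (leneq (look V S (nz z) T).1 (nz z) && decide ((un (lev S i₀)).length ≤ (nz z).length)) &&
    instB (look V S (nz z) T).1 (look V S (nz z) T).2 z

/-! ## The two verifiers of the new language -/

/-- the queries of the first verifier -/
def qY (a : List Bool × List Bool) : List (List Bool) :=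
  strs (nz a.1) ++ (ld a.1).flatMap fun x => (uns (nz a.1)).map fun t => wx a.2 x ++ t

/-- the output of the first verifier, from the list of the queries which are in the oracle -/
def dY (V : Vp) (S i₀ : ℕ) (c : (List Bool × List Bool) × List (List Bool)) : Bool :=
  levB V S i₀ c.1.1 c.2 && (leneq c.1.2 (nz c.1.1) && (ld c.1.1).all fun x =>
    markB c.2 (kapU (nz c.1.1) (look V S (nz c.1.1) c.2).2) (wx c.1.2 x))

/-- the queries of the second verifier; the witness codes two lists of words -/
def qN (a : List Bool × List Bool) : List (List Bool) :=
  strs (nz a.1) ++ (ld (cf a.2) ++ ld (cs a.2)).flatMap fun e => (uns (nz a.1)).map fun t => e ++ t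

/-- the certificate of the second verifier, `s` and `l` in unary -/
def crtB (T : List (List Bool)) (s l u : List Bool) (E F : List (List Bool)) : Bool :=
  ((nodupB E && leneq (un E.length ++ powU (un 4) l u) (powU (un 8) l (un (u.length * u.length)))) &&
    ((E.all fun e => leneq e s && markB T (kapU s l) e) &&
      (F.all fun f => !markB T (kapU s l) f))) &&
    (E.all fun e => (ld u).all fun x => (ld u).any fun x' => wmem F (wx (wx e x) x'))

/-- the output of the second verifier -/
def dN (V : Vp) (S i₀ : ℕ) (c : (List Bool × List Bool) × List (List Bool)) : Bool :=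
  !levB V S i₀ c.1.1 c.2 ||
    crtB c.2 (nz c.1.1) (look V S (nz c.1.1) c.2).2 c.1.1 (ld (cf c.1.2)) (ld (cs c.1.2))

/-! ## Certificates -/

/-- the lists `E` (marks) and `F` (no marks) show that the instance `u` has no translate of
marks -/
def Crt (R : Oracle) (s l : ℕ) (u : List Bool) (E F : List (List Bool)) : Prop :=
  (E.Nodup ∧ E.length + dd l = mu l) ∧
    (∀ e ∈ E, e.length = s ∧ Mark R (kap s l) e) ∧ (∀ f ∈ F, ¬ Mark R (kap s l) f) ∧
    ∀ e ∈ E, ∀ x ∈ ld u, ∃ x' ∈ ld u, wx (wx e x) x' ∈ F

end Pool.Agent.RO
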