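import Mathlib
import Pool.Agent.RO.CDefs

/-!
# RO-CWx: the bitwise sum of words
-/

set_option autoImplicit false

namespace Pool.Agent.RO

theorem wl_length {a b : List Bool} (h : a.length = b.length) : (wx a b).length = a.length := by
  rw [wx, List.length_zipWith, h, min_self]

theorem wl_cancel {a b : List Bool} (h : a.length = b.length) : wx (wx a b) b = a := by
  induction a generalizing b with
  | nil => cases b <;> simp_all [wx]
  | cons x a ih =>
    cases b with
    | nil => simp at h
    | cons y b =>
      have h1 := ih (b := b) (by simpa using h)
      rw [wx] at h1 ⊢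
      simp only [wx, List.zipWith_cons_cons, List.cons.injEq] at h1 ⊢
      exact ⟨by cases x <;> cases y <;> rfl, h1⟩

theorem wl_comm (a b : List Bool) : wx a b = wx b a := by
  induction a generalizing b with
  | nil => cases b <;> rfl
  | cons x a ih =>
    cases b with
    | nil => rfl
    | cons y b =>
      simp only [wx, List.zipWith_cons_cons, List.cons.injEq]
      exact ⟨Bool.xor_comm _ _, ih b⟩

theorem wl_left {a b : List Bool} (h : a.length = b.length) : wx a (wx a b) = b := by
  rw [wl_comm a (wx a b), wl_comm a b, wl_cancel h.symm]

theorem wl_inj {y x x' : List Bool} (h : y.length = x.length) (h' : y.length = x'.length)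
    (he : wx y x = wx y x') : x = x' := by
  rw [← wl_left h, he, wl_left h']

end Pool.Agent.RO
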