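import Mathlib
import Pool.Agent.RO.Defs

set_option autoImplicit false

/-!
# Module RO-Pr: proportions in finite types

All statements are elementary (`Finset.card`, `Finset.card_product`, `Finset.card_eq_sum_card_fiberwise`).
`pr p = #{ω | p ω} / #Ω` (real division, so `0` if `Ω` is empty).
-/

namespace Pool.Agent.RO

variable {Ω Ω' α β : Type*} [Fintype Ω] [Fintype Ω'] [Fintype α] [Fintype β]

private theorem Pr_card (p : Ω → Prop) :
    pr p = (Nat.card {ω // p ω} : ℝ) / (Fintype.card Ω : ℝ) := by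
  classical
  rw [pr, Nat.card_eq_fintype_card, Fintype.card_subtype]

private theorem Pr_sum (p : Ω → Prop) [DecidablePred p] :
    pr p = (∑ ω, if p ω then (1 : ℝ) else 0) / (Fintype.card Ω : ℝ) := by
  rw [pr, Finset.card_filter]
  push_cast
  congr 1

theorem pr_nonneg (p : Ω → Prop) : 0 ≤ pr p := by
  rw [Pr_card]
  positivity

theorem pr_le_one (p : Ω → Prop) : pr p ≤ 1 := by
  rw [Pr_card]
  refine div_le_one_of_le₀ ?_ (Nat.cast_nonneg _)
  rw [← Nat.card_eq_fintype_card]
  exact_mod_cast Finite.card_subtype_le p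

theorem pr_mono {p q : Ω → Prop} (h : ∀ ω, p ω → q ω) : pr p ≤ pr q := by
  rw [Pr_card, Pr_card]
  refine div_le_div_of_nonneg_right ?_ (Nat.cast_nonneg _)
  exact_mod_cast Nat.card_le_card_of_injective _ (Subtype.map_injective h Function.injective_id)

theorem pr_congr {p q : Ω → Prop} (h : ∀ ω, p ω ↔ q ω) : pr p = pr q := by
  rw [show p = q from funext fun ω => propext (h ω)]

theorem pr_or_le (p q : Ω → Prop) : pr (fun ω => p ω ∨ q ω) ≤ pr p + pr q := by
  classical
  rw [Pr_sum, Pr_sum, Pr_sum, ← add_div, ← Finset.sum_add_distrib]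
  refine div_le_div_of_nonneg_right ?_ (Nat.cast_nonneg _)
  refine Finset.sum_le_sum fun ω _ => ?_
  by_cases h1 : p ω <;> by_cases h2 : q ω <;> simp [h1, h2]

/-- the proportion of the complement -/
theorem pr_not [Nonempty Ω] (p : Ω → Prop) : pr (fun ω => ¬ p ω) = 1 - pr p := by
  classical
  have h0 : (Fintype.card Ω : ℝ) ≠ 0 := by exact_mod_cast Fintype.card_ne_zero
  rw [Pr_sum, Pr_sum, eq_sub_iff_add_eq, ← add_div, ← Finset.sum_add_distrib, div_eq_one_iff_eq h0]
  rw [Finset.sum_congr rfl (g := fun _ => (1 : ℝ)) fun ω _ => by by_cases h1 : p ω <;> simp [h1]]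
  simp

/-- transport along an equivalence -/
theorem pr_equiv (e : Ω ≃ Ω') (p : Ω' → Prop) : pr (fun ω => p (e ω)) = pr p := by
  rw [Pr_card, Pr_card, Fintype.card_congr e]
  congr 2
  exact Nat.card_congr (e.subtypeEquiv fun _ => Iff.rfl)

/-- a map with constant fibres -/
theorem pr_fibre {f : Ω → Ω'} {c : ℕ} (hc : 0 < c)
    (h : ∀ ω', Nat.card {ω // f ω = ω'} = c) (p : Ω' → Prop) :
    pr (fun ω => p (f ω)) = pr p := by
  classical
  have h1 : Nat.card {ω // p (f ω)} = Nat.card {ω' // p ω'} * c := by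
    rw [← Nat.card_congr (Equiv.sigmaSubtypeFiberEquivSubtype f (p := fun ω => p (f ω)) (q := p)
      fun _ => Iff.rfl), Nat.card_sigma, Finset.sum_congr rfl fun ω' _ => h ω'.1,
      Finset.sum_const, Finset.card_univ, smul_eq_mul, Nat.card_eq_fintype_card]
  have h2 : Fintype.card Ω = Fintype.card Ω' * c := by
    rw [← Nat.card_eq_fintype_card, ← Nat.card_congr (Equiv.sigmaFiberEquiv f), Nat.card_sigma,
      Finset.sum_congr rfl fun ω' _ => h ω', Finset.sum_const, Finset.card_univ, smul_eq_mul]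
  have hc' : (c : ℝ) ≠ 0 := by exact_mod_cast hc.ne'
  rw [Pr_card, Pr_card, h1, h2]
  push_cast
  exact mul_div_mul_right _ _ hc'

/-- Fubini -/
theorem pr_prod (p : α × β → Prop) :
    pr p = (∑ a, pr fun b => p (a, b)) / (Fintype.card α : ℝ) := by
  classical
  rw [Pr_sum, Fintype.sum_prod_type, Fintype.card_prod, Finset.sum_congr rfl fun a _ =>
    Pr_sum fun b => p (a, b), ← Finset.sum_div, div_div]
  push_cast
  rw [mul_comm (Fintype.card α : ℝ)]

theorem pr_prod' (p : α × β → Prop) :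
    pr p = (∑ b, pr fun a => p (a, b)) / (Fintype.card β : ℝ) := by
  classical
  rw [Pr_sum, Fintype.sum_prod_type_right, Fintype.card_prod, Finset.sum_congr rfl fun b _ =>
    Pr_sum fun a => p (a, b), ← Finset.sum_div, div_div]
  push_cast
  rfl

private theorem Pr_avg {γ : Type*} [Fintype γ] {F : γ → ℝ} {ε : ℝ} (hε : 0 ≤ ε)
    (h : ∀ a, F a ≤ ε) : (∑ a, F a) / (Fintype.card γ : ℝ) ≤ ε := by
  refine div_le_of_le_mul₀ (Nat.cast_nonneg _) hε ?_
  refine (Finset.sum_le_sum fun a _ => h a).trans (le_of_eq ?_)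
  rw [Finset.sum_const, Finset.card_univ, nsmul_eq_mul, mul_comm]

theorem pr_prod_le {p : α × β → Prop} {ε : ℝ} (hε : 0 ≤ ε) (h : ∀ a, pr (fun b => p (a, b)) ≤ ε) :
    pr p ≤ ε := by
  rw [pr_prod]
  exact Pr_avg hε h

theorem pr_prod_le' {p : α × β → Prop} {ε : ℝ} (hε : 0 ≤ ε) (h : ∀ b, pr (fun a => p (a, b)) ≤ ε) :
    pr p ≤ ε := by
  rw [pr_prod']
  exact Pr_avg hε h

theorem pr_fst [Nonempty β] (p : α → Prop) : pr (fun x : α × β => p x.1) = pr p := by
  have h0 : (Fintype.card β : ℝ) ≠ 0 := by exact_mod_cast Fintype.card_ne_zero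
  rw [pr_prod']
  dsimp only
  rw [Finset.sum_const, Finset.card_univ, nsmul_eq_mul, mul_div_cancel_left₀ _ h0]

theorem pr_snd [Nonempty α] (p : β → Prop) : pr (fun x : α × β => p x.2) = pr p := by
  have h0 : (Fintype.card α : ℝ) ≠ 0 := by exact_mod_cast Fintype.card_ne_zero
  rw [pr_prod]
  dsimp only
  rw [Finset.sum_const, Finset.card_univ, nsmul_eq_mul, mul_div_cancel_left₀ _ h0]

theorem pr_exists_le {n : ℕ} {p : Fin n → Ω → Prop} {ε : ℝ} (h : ∀ i, pr (p i) ≤ ε) :
    pr (fun ω => ∃ i, p i ω) ≤ n * ε := by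
  classical
  have h1 : pr (fun ω => ∃ i, p i ω) ≤ ∑ i, pr (p i) := by
    rw [Pr_sum, Finset.sum_congr rfl fun i _ => Pr_sum (p i), ← Finset.sum_div]
    refine div_le_div_of_nonneg_right ?_ (Nat.cast_nonneg _)
    rw [Finset.sum_comm]
    refine Finset.sum_le_sum fun ω _ => ?_
    split_ifs with h2
    · obtain ⟨i, hi⟩ := h2
      refine le_trans (le_of_eq ?_) (Finset.single_le_sum (f := fun i => if p i ω then (1 : ℝ) else 0)
        (fun j _ => ?_) (Finset.mem_univ i))
      · simp [hi]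
      · split_ifs <;> norm_num
    · exact Finset.sum_nonneg fun j _ => by split_ifs <;> norm_num
  refine h1.trans ((Finset.sum_le_sum fun i _ => h i).trans (le_of_eq ?_))
  rw [Finset.sum_const, Finset.card_univ, Fintype.card_fin, nsmul_eq_mul]

/-- a random element lies in a set -/
theorem pr_mem (W : Finset Ω) : pr (fun ω => ω ∈ W) = (W.card : ℝ) / (Fintype.card Ω : ℝ) := by
  rw [Pr_card, Nat.card_eq_fintype_card, Fintype.card_coe]

end Pool.Agent.RO
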