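import Mathlib
import Pool.Agent.RO.Pr

set_option autoImplicit false

/-!
# Module RO-Emb: random injective sequences (part 1)

`pre a v` is the set of the values `v i` with `i < a`.

PLAN.
* `card_pre`: the filter has `a` elements (`Fin.card_filter_val_lt` or a bijection with `range a`), `v`
  is injective.
* `pr_pre`: by symmetry all `a`-sets `G` have the same number of sequences `v` with `pre a v = G`:
  a permutation `σ : Equiv.Perm Λ` gives the bijection `v ↦ v.trans σ.toEmbedding` with
  `pre a (v.trans σ) = (pre a v).map σ`, and for two sets of the same card there is such a `σ`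
  (`Finset.exists_equiv...`, `Equiv.Perm` extending a bijection: `Equiv.extendSubtype` or
  `Finset.card_eq_iff...`).  So `#{v | Φ (pre a v)} = c * #{G ∈ powersetCard a univ | Φ G}` with
  `c` constant, and `#{v} = c * choose N a` (take `Φ = True`); `c ≠ 0` because `n ≤ N`.
* `pr_miss`: for a fixed index `i` with `a ≤ i` show `pr (v i ∈ W (pre a v)) ≤ P / (N - a)`; then sum over the
  `n - a` indices.  For fixed `i`: for all permutations `τ` of `Λ` which fix the points of `pre a v`...;
  or directly: the map `v ↦ (v restricted to the indices ≠ i, v i)`, for given `u : {i' // i' ≠ i} ↪ Λ` the value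
  `v i` is any of the `N - (n-1)` elements outside the range; this gives only `P/(N-n+1)`, which is NOT
  good enough; instead restrict `v` to the `a + 1` indices `{i' < a} ∪ {i}`: the restriction map has
  constant fibres (`pr_fibre`), and for `a + 1` indices the value `v i` is uniform among the `N - a` elements outside
  `pre a v`.  (Alternative: compare `v` with `v` followed by the swap of two elements `z, z'` outside `pre a v`: the number of
  `v` with `pre a v = G` and `v i = z` does not depend on `z ∉ G`.)  This last argument is the shortest: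
  for a fixed `a`-set `G`, `#{v | pre a v = G, v i = z}` is the same for all `z ∉ G` (and `0` for `z ∈ G`), hence
  `#{v | pre a v = G, v i ∈ W G} ≤ P * #{v | pre a v = G} / (N - a)`; sum over `G`.
-/

namespace Pool.Agent.RO

variable {Λ : Type} [Fintype Λ] [DecidableEq Λ]

omit [Fintype Λ] in
theorem card_pre {a n : ℕ} (ha : a ≤ n) (v : Fin n ↪ Λ) : (pre a v).card = a := by
  unfold pre
  rw [Finset.card_image_of_injective _ v.injective]
  have : (Finset.univ.filter fun i : Fin n => (i : ℕ) < a) =
      (Finset.univ : Finset (Fin a)).map (Fin.castLEEmb ha) := by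
    ext i
    simp only [Finset.mem_filter, Finset.mem_univ, true_and, Finset.mem_map, Fin.castLEEmb_apply]
    constructor
    · intro h
      exact ⟨⟨i, h⟩, by ext; simp⟩
    · rintro ⟨j, rfl⟩
      simp
  rw [this, Finset.card_map, Finset.card_univ, Fintype.card_fin]

omit [Fintype Λ] in
theorem pre_mono {a b n : ℕ} (h : a ≤ b) (v : Fin n ↪ Λ) : pre a v ⊆ pre b v := by
  unfold pre
  apply Finset.image_subset_image
  intro i hi
  simp only [Finset.mem_filter, Finset.mem_univ, true_and] at hi ⊢
  omega

omit [Fintype Λ] in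
private theorem pre_perm {a n : ℕ} (σ : Equiv.Perm Λ) (v : Fin n ↪ Λ) :
    pre a (v.trans σ.toEmbedding) = (pre a v).map σ.toEmbedding := by
  unfold pre
  ext x
  simp only [Finset.mem_image, Finset.mem_filter, Finset.mem_univ, true_and, Finset.mem_map]
  constructor
  · rintro ⟨i, hi, rfl⟩
    exact ⟨v i, ⟨i, hi, rfl⟩, rfl⟩
  · rintro ⟨y, ⟨i, hi, rfl⟩, rfl⟩
    exact ⟨i, hi, rfl⟩

/-- a permutation which maps one set to another of the same size -/
private theorem exists_perm {G G' : Finset Λ} (h : G.card = G'.card) :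
    ∃ σ : Equiv.Perm Λ, G.map σ.toEmbedding = G' := by
  classical
  let e : {x // x ∈ G} ≃ {x // x ∈ G'} := Finset.equivOfCardEq h
  refine ⟨Equiv.extendSubtype e, ?_⟩
  apply Finset.eq_of_subset_of_card_le
  · intro y hy
    rw [Finset.mem_map] at hy
    obtain ⟨x, hx, rfl⟩ := hy
    exact Equiv.extendSubtype_mem e x hx
  · rw [Finset.card_map, h]

private theorem card_fib {a n : ℕ} {G G' : Finset Λ} (h : G.card = G'.card) :
    (Finset.univ.filter fun v : Fin n ↪ Λ => pre a v = G).card =
      (Finset.univ.filter fun v : Fin n ↪ Λ => pre a v = G').card := by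
  classical
  obtain ⟨σ, hσ⟩ := exists_perm h
  refine Finset.card_bij (fun v _ => v.trans σ.toEmbedding) ?_ ?_ ?_
  · intro v hv
    simp only [Finset.mem_filter, Finset.mem_univ, true_and] at hv ⊢
    rw [pre_perm, hv, hσ]
  · intro v _ w _ hvw
    ext i
    have := congrArg (fun u : Fin n ↪ Λ => u i) hvw
    simpa using this
  · intro w hw
    simp only [Finset.mem_filter, Finset.mem_univ, true_and] at hw
    refine ⟨w.trans σ.symm.toEmbedding, ?_, ?_⟩
    · simp only [Finset.mem_filter, Finset.mem_univ, true_and]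
      rw [pre_perm, hw, ← hσ]
      ext x
      simp
    · ext i
      simp

/-- the first `a` values form a random `a`-set -/
theorem pr_pre {a n : ℕ} (ha : a ≤ n) (hn : n ≤ Fintype.card Λ) (Φ : Finset Λ → Prop) :
    pr (fun v : Fin n ↪ Λ => Φ (pre a v)) = fr a Φ := by
  classical
  have hex : ∃ G₀ : Finset Λ, G₀.card = a :=
    ⟨_, (Finset.exists_subset_card_eq (s := (Finset.univ : Finset Λ)) (n := a)
      (by rw [Finset.card_univ]; omega)).choose_spec.2⟩
  obtain ⟨G₀, hG₀⟩ := hex
  set c : ℕ := (Finset.univ.filter fun v : Fin n ↪ Λ => pre a v = G₀).card with hc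
  have key : ∀ Ψ : Finset Λ → Prop,
      (Finset.univ.filter fun v : Fin n ↪ Λ => Ψ (pre a v)).card =
        (((Finset.univ : Finset Λ).powersetCard a).filter Ψ).card * c := by
    intro Ψ
    rw [Finset.card_eq_sum_card_fiberwise (f := fun v : Fin n ↪ Λ => pre a v)
      (t := ((Finset.univ : Finset Λ).powersetCard a).filter Ψ)]
    · rw [Finset.sum_const_nat (m := c)]
      intro G hG
      rw [Finset.mem_filter, Finset.mem_powersetCard] at hG
      rw [hc, card_fib (n := n) (a := a) (G := G₀) (G' := G) (by rw [hG₀, hG.1.2])]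
      congr 1
      ext v
      simp only [Finset.mem_filter, Finset.mem_univ, true_and]
      constructor
      · rintro ⟨_, h⟩; exact h
      · intro h; exact ⟨by rw [h]; exact hG.2, h⟩
    · intro v hv
      rw [Finset.mem_coe, Finset.mem_filter] at hv ⊢
      exact ⟨Finset.mem_powersetCard.2 ⟨Finset.subset_univ _, card_pre ha v⟩, hv.2⟩
  have htot := key (fun _ => True)
  simp only [Finset.filter_true, Finset.card_powersetCard, Finset.card_univ] at htot
  have hne : Nonempty (Fin n ↪ Λ) := by
    rw [Function.Embedding.nonempty_iff_card_le]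
    simpa using hn
  have hpos : 0 < Fintype.card (Fin n ↪ Λ) := Fintype.card_pos
  have hc0 : (c : ℝ) ≠ 0 := by
    intro h
    have : c = 0 := by exact_mod_cast h
    rw [this, Nat.mul_zero] at htot
    omega
  have hch : (((Fintype.card Λ).choose a : ℕ) : ℝ) ≠ 0 := by
    have : 0 < (Fintype.card Λ).choose a := Nat.choose_pos (ha.trans hn)
    positivity
  unfold pr fr
  rw [div_eq_div_iff (by exact_mod_cast hpos.ne') hch, htot, key Φ]
  push_cast
  ring

omit [Fintype Λ] in
private theorem notMem_pre {a n : ℕ} (v : Fin n ↪ Λ) {i : Fin n} (hi : a ≤ (i : ℕ)) :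
    v i ∉ pre a v := by
  intro h
  unfold pre at h
  rw [Finset.mem_image] at h
  obtain ⟨j, hj, hji⟩ := h
  rw [Finset.mem_filter] at hj
  have : j = i := v.injective hji
  omega

private theorem card_swap {a n : ℕ} (G : Finset Λ) {z z' : Λ} (hz : z ∉ G) (hz' : z' ∉ G)
    (i : Fin n) :
    (Finset.univ.filter fun v : Fin n ↪ Λ => pre a v = G ∧ v i = z).card ≤
      (Finset.univ.filter fun v : Fin n ↪ Λ => pre a v = G ∧ v i = z').card := by
  classical
  refine Finset.card_le_card_of_injOn (fun v => v.trans (Equiv.swap z z').toEmbedding) ?_ ?_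
  · intro v hv
    rw [Finset.mem_coe, Finset.mem_filter] at hv
    obtain ⟨-, h1, h2⟩ := hv
    rw [Finset.mem_coe, Finset.mem_filter]
    refine ⟨Finset.mem_univ _, ?_, ?_⟩
    · rw [pre_perm, h1]
      ext x
      rw [Finset.mem_map]
      constructor
      · rintro ⟨y, hy, rfl⟩
        rw [Equiv.coe_toEmbedding, Equiv.swap_apply_of_ne_of_ne]
        · exact hy
        · rintro rfl; exact hz hy
        · rintro rfl; exact hz' hy
      · intro hx
        refine ⟨x, hx, ?_⟩
        rw [Equiv.coe_toEmbedding, Equiv.swap_apply_of_ne_of_ne]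
        · rintro rfl; exact hz hx
        · rintro rfl; exact hz' hx
    · change Equiv.swap z z' (v i) = z'
      rw [h2, Equiv.swap_apply_left]
  · intro v _ w _ hvw
    ext j
    have := congrArg (fun u : Fin n ↪ Λ => u j) hvw
    simpa using this

private theorem card_one {a n P : ℕ} (haN : a < Fintype.card Λ)
    (W : Finset Λ → Finset Λ) (hW : ∀ G, (W G).card ≤ P) {i : Fin n} (hi : a ≤ (i : ℕ))
    (G : Finset Λ) (hG : G.card = a) :
    (Fintype.card Λ - a) *
      (Finset.univ.filter fun v : Fin n ↪ Λ => pre a v = G ∧ v i ∈ W G).card ≤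
      P * (Finset.univ.filter fun v : Fin n ↪ Λ => pre a v = G).card := by
  classical
  have hz : ∃ z, z ∉ G := by
    by_contra hcon
    push Not at hcon
    have : G = Finset.univ := Finset.eq_univ_iff_forall.2 hcon
    rw [this, Finset.card_univ] at hG
    omega
  obtain ⟨z, hz⟩ := hz
  set D := (Finset.univ.filter fun v : Fin n ↪ Λ => pre a v = G ∧ v i = z).card with hD
  have hd : ∀ z' ∉ G, (Finset.univ.filter fun v : Fin n ↪ Λ => pre a v = G ∧ v i = z').card = D :=
    fun z' hz' => le_antisymm (card_swap G hz' hz i) (card_swap G hz hz' i)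
  have h0 : ∀ z' ∈ G, (Finset.univ.filter fun v : Fin n ↪ Λ => pre a v = G ∧ v i = z').card = 0 := by
    intro z' hz'
    rw [Finset.card_eq_zero, Finset.filter_eq_empty_iff]
    rintro v - ⟨h1, h2⟩
    apply notMem_pre v hi
    rw [h1, h2]
    exact hz'
  have e1 : (Finset.univ.filter fun v : Fin n ↪ Λ => pre a v = G).card =
      (Fintype.card Λ - a) * D := by
    rw [Finset.card_eq_sum_card_fiberwise (f := fun v : Fin n ↪ Λ => v i)
      (t := (Finset.univ : Finset Λ)) (fun v _ => by simp)]
    have : ∀ z' ∈ (Finset.univ : Finset Λ),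
        ((Finset.univ.filter fun v : Fin n ↪ Λ => pre a v = G).filter fun v => v i = z').card =
          if z' ∈ G then 0 else D := by
      intro z' _
      rw [Finset.filter_filter]
      split_ifs with h
      · exact h0 z' h
      · exact hd z' h
    rw [Finset.sum_congr rfl this, Finset.sum_ite, Finset.sum_const_zero, zero_add,
      Finset.sum_const, smul_eq_mul]
    congr 1
    have : (Finset.univ.filter fun x => x ∉ G) = Gᶜ := by ext x; simp
    rw [this, Finset.card_compl, hG]
  have e2 : (Finset.univ.filter fun v : Fin n ↪ Λ => pre a v = G ∧ v i ∈ W G).card ≤ P * D := by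
    rw [Finset.card_eq_sum_card_fiberwise (f := fun v : Fin n ↪ Λ => v i) (t := W G)
      (fun v hv => by
        rw [Finset.mem_coe, Finset.mem_filter] at hv
        exact hv.2.2)]
    calc _ ≤ ∑ z' ∈ W G, D := by
          apply Finset.sum_le_sum
          intro z' _
          rw [Finset.filter_filter]
          have : (Finset.univ.filter fun v : Fin n ↪ Λ => (pre a v = G ∧ v i ∈ W G) ∧ v i = z').card ≤
              (Finset.univ.filter fun v : Fin n ↪ Λ => pre a v = G ∧ v i = z').card := by
            apply Finset.card_le_card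
            intro v hv
            rw [Finset.mem_filter] at hv ⊢
            exact ⟨hv.1, hv.2.1.1, hv.2.2⟩
          refine this.trans ?_
          by_cases h : z' ∈ G
          · rw [h0 z' h]; exact Nat.zero_le _
          · exact (hd z' h).le
      _ = (W G).card * D := by rw [Finset.sum_const, smul_eq_mul]
      _ ≤ P * D := Nat.mul_le_mul_right _ (hW G)
  rw [e1]
  calc _ ≤ (Fintype.card Λ - a) * (P * D) := Nat.mul_le_mul_left _ e2
    _ = P * ((Fintype.card Λ - a) * D) := by ring

private theorem pr_one {a n P : ℕ} (haN : a < Fintype.card Λ)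
    (W : Finset Λ → Finset Λ) (hW : ∀ G, (W G).card ≤ P) {i : Fin n} (hi : a ≤ (i : ℕ)) :
    pr (fun v : Fin n ↪ Λ => v i ∈ W (pre a v)) ≤ P / ((Fintype.card Λ : ℝ) - a) := by
  classical
  have hN : (0 : ℝ) < (Fintype.card Λ : ℝ) - a := by
    have : (a : ℝ) < Fintype.card Λ := by exact_mod_cast haN
    linarith
  have key : (Fintype.card Λ - a) *
      (Finset.univ.filter fun v : Fin n ↪ Λ => v i ∈ W (pre a v)).card ≤
      P * (Finset.univ : Finset (Fin n ↪ Λ)).card := by
    rw [Finset.card_eq_sum_card_fiberwise (f := fun v : Fin n ↪ Λ => pre a v)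
      (s := Finset.univ.filter fun v : Fin n ↪ Λ => v i ∈ W (pre a v))
      (t := (Finset.univ : Finset Λ).powersetCard a) (fun v _ => by
        rw [Finset.mem_coe, Finset.mem_powersetCard]
        exact ⟨Finset.subset_univ _, card_pre (by omega) v⟩),
      Finset.card_eq_sum_card_fiberwise (f := fun v : Fin n ↪ Λ => pre a v)
      (s := (Finset.univ : Finset (Fin n ↪ Λ)))
      (t := (Finset.univ : Finset Λ).powersetCard a) (fun v _ => by
        rw [Finset.mem_coe, Finset.mem_powersetCard]
        exact ⟨Finset.subset_univ _, card_pre (by omega) v⟩), Finset.mul_sum, Finset.mul_sum]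
    apply Finset.sum_le_sum
    intro G hG
    have h := card_one haN W hW hi G (Finset.mem_powersetCard.1 hG).2
    have e : ((Finset.univ.filter fun v : Fin n ↪ Λ => v i ∈ W (pre a v)).filter
        fun v => pre a v = G) = Finset.univ.filter fun v : Fin n ↪ Λ => pre a v = G ∧ v i ∈ W G := by
      ext v
      simp only [Finset.mem_filter, Finset.mem_univ, true_and]
      constructor
      · rintro ⟨h1, h2⟩; exact ⟨h2, h2 ▸ h1⟩
      · rintro ⟨h1, h2⟩; exact ⟨h1 ▸ h2, h1⟩
    rw [e]
    exact h
  have key' : ((Fintype.card Λ : ℝ) - a) *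
      ((Finset.univ.filter fun v : Fin n ↪ Λ => v i ∈ W (pre a v)).card : ℝ) ≤
      P * (Fintype.card (Fin n ↪ Λ) : ℝ) := by
    have h := key
    rw [Finset.card_univ] at h
    have h2 : (((Fintype.card Λ - a) *
      (Finset.univ.filter fun v : Fin n ↪ Λ => v i ∈ W (pre a v)).card : ℕ) : ℝ) ≤
      ((P * Fintype.card (Fin n ↪ Λ) : ℕ) : ℝ) := by exact_mod_cast h
    rw [Nat.cast_mul, Nat.cast_mul, Nat.cast_sub haN.le] at h2
    exact h2
  unfold pr
  rcases Nat.eq_zero_or_pos (Fintype.card (Fin n ↪ Λ)) with h | h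
  · rw [h, Nat.cast_zero, div_zero]
    positivity
  · rw [div_le_div_iff₀ (by exact_mod_cast h) hN]
    have h3 : ∀ inst : DecidablePred fun v : Fin n ↪ Λ => v i ∈ W (pre a v),
        ((@Finset.filter _ (fun v : Fin n ↪ Λ => v i ∈ W (pre a v)) inst Finset.univ).card : ℝ) *
          ((Fintype.card Λ : ℝ) - a) ≤ P * (Fintype.card (Fin n ↪ Λ) : ℝ) := by
      intro inst
      rw [Subsingleton.elim inst (fun v => Finset.decidableMem (v i) (W (pre a v)))]
      linarith [key']
    exact h3 _

private def idx {a n : ℕ} (k : Fin (n - a)) : Fin n := ⟨a + k, by have := k.2; omega⟩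

/-- a set which depends only on the first `a` values is probably missed by the other values -/
theorem pr_miss {a n P : ℕ} (ha : a ≤ n) (hn : n ≤ Fintype.card Λ) (haN : a < Fintype.card Λ)
    (W : Finset Λ → Finset Λ) (hW : ∀ G, (W G).card ≤ P) :
    pr (fun v : Fin n ↪ Λ => ∃ w ∈ W (pre a v), w ∈ pre n v ∧ w ∉ pre a v) ≤
      ((n : ℝ) - a) * (P / ((Fintype.card Λ : ℝ) - a)) := by
  have h1 : pr (fun v : Fin n ↪ Λ => ∃ w ∈ W (pre a v), w ∈ pre n v ∧ w ∉ pre a v) ≤
      pr (fun v : Fin n ↪ Λ => ∃ k : Fin (n - a), v (idx k) ∈ W (pre a v)) := by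
    apply pr_mono
    rintro v ⟨w, hw, hwn, hwa⟩
    unfold pre at hwn
    rw [Finset.mem_image] at hwn
    obtain ⟨i, -, rfl⟩ := hwn
    have hi : a ≤ (i : ℕ) := by
      by_contra hcon
      apply hwa
      unfold pre
      rw [Finset.mem_image]
      exact ⟨i, Finset.mem_filter.2 ⟨Finset.mem_univ _, by omega⟩, rfl⟩
    have hi2 := i.2
    refine ⟨⟨i - a, by omega⟩, ?_⟩
    have : idx (⟨i - a, by omega⟩ : Fin (n - a)) = i := by
      apply Fin.ext
      show a + (i - a) = (i : ℕ)
      omega
    rw [this]
    exact hw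
  refine h1.trans ?_
  have h2 := pr_exists_le (n := n - a)
    (p := fun (k : Fin (n - a)) (v : Fin n ↪ Λ) => v (idx k) ∈ W (pre a v))
    (ε := P / ((Fintype.card Λ : ℝ) - a))
    (fun k => pr_one haN W hW (show a ≤ a + (k : ℕ) by omega))
  rw [Nat.cast_sub ha] at h2
  exact h2

end Pool.Agent.RO
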