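import Mathlib
import Pool.Agent.RO.Pr

set_option autoImplicit false

/-!
# Module RO-EmbB: a random translate is a random set

`tr op y x` is the translate `{op y (x i)}`.

PLAN.
* `op y` is injective (`hop2`), so `card_tr`.
* `pr_tr_mem`: for fixed `v, x, i`: `y ↦ op y (x i) = op (x i) y` is a bijection of `Λ` (`hop1`, `hop2`), so the
  proportion of the `y` with `op y (x i) ∈ W` is `#W / N ≤ P / N` (`pr_mem`, `pr_equiv`); Fubini
  `pr_prod_le`, `pr_exists_le` for the `j` indices.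
* `pr_union_le`: For fixed `y` the map `x ↦ op y ∘ x` is a bijection of `Fin j ↪ Λ`, so by `pr_prod_le'`-type
  arguments it suffices to bound `pr` over `(v, x)` of
  `Disjoint (pre a v) (img x) ∧ Φ (pre a v ∪ img x)`, where `img x = univ.image x`, i.e. the case `op y z = z`.
  Count: by `pr_pre`-like symmetry (or: `#{(v, x)}`): for `G` with `a + j` elements, the number of pairs `(v, x)` with
  disjoint images and union `G` does not depend on `G` (permutations of `Λ` act), call it `c`; so the number of pairs is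
  `c * #{G | Φ G}`, and `c * choose N (a+j) ≤ #{all pairs}`; divide.
-/

namespace Pool.Agent.RO

variable {Λ : Type} [Fintype Λ] [DecidableEq Λ]

/-- a translate of a sequence, as a set -/
def tr (op : Λ → Λ → Λ) (y : Λ) {j : ℕ} (x : Fin j ↪ Λ) : Finset Λ :=
  Finset.univ.image fun i => op y (x i)

private theorem op_inj {op : Λ → Λ → Λ} (hop2 : ∀ x y, op x (op x y) = y) (y : Λ) :
    Function.Injective (op y) := by
  intro u v h
  have := congrArg (op y) h
  simpa [hop2] using this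

theorem card_tr {op : Λ → Λ → Λ} (hop2 : ∀ x y, op x (op x y) = y) (y : Λ) {j : ℕ}
    (x : Fin j ↪ Λ) : (tr op y x).card = j := by
  unfold tr
  have h : Function.Injective (fun i => op y (x i)) := fun i i' e =>
    x.injective (op_inj hop2 y e)
  rw [Finset.card_image_of_injective _ h]
  simp

/-- the translate probably misses a set which does not depend on `y` -/
theorem pr_tr_mem {op : Λ → Λ → Λ} (hop1 : ∀ x y, op x y = op y x)
    (hop2 : ∀ x y, op x (op x y) = y) {n j P : ℕ}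
    (W : (Fin n ↪ Λ) → (Fin j ↪ Λ) → Finset Λ) (hW : ∀ v x, (W v x).card ≤ P) :
    pr (fun ω : (Fin n ↪ Λ) × ((Fin j ↪ Λ) × Λ) =>
      ∃ i, op ω.2.2 (ω.2.1 i) ∈ W ω.1 ω.2.1) ≤ j * (P / (Fintype.card Λ : ℝ)) := by
  apply pr_exists_le (p := fun i (ω : (Fin n ↪ Λ) × ((Fin j ↪ Λ) × Λ)) =>
    op ω.2.2 (ω.2.1 i) ∈ W ω.1 ω.2.1)
  intro i
  have h0 : (0 : ℝ) ≤ P / (Fintype.card Λ : ℝ) := by positivity
  apply pr_prod_le h0
  intro v
  apply pr_prod_le h0
  intro x
  have hinv : Function.Involutive (op (x i)) := fun y => hop2 (x i) y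
  have h1 : pr (fun y : Λ => op y (x i) ∈ W v x) = pr (fun z : Λ => z ∈ W v x) := by
    rw [← pr_equiv hinv.toPerm (fun z => z ∈ W v x)]
    apply pr_congr
    intro y
    simp [hop1 y (x i)]
  show pr (fun y : Λ => op y (x i) ∈ W v x) ≤ _
  rw [h1, pr_mem]
  apply div_le_div_of_nonneg_right _ (by positivity)
  exact_mod_cast hW v x

private theorem exists_perm {G G' : Finset Λ} (h : G.card = G'.card) :
    ∃ σ : Equiv.Perm Λ, G.image σ = G' := by
  classical
  let e : {x // x ∈ G} ≃ {x // x ∈ G'} := Finset.equivOfCardEq h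
  refine ⟨e.extendSubtype, ?_⟩
  apply Finset.eq_of_subset_of_card_le
  · intro z hz
    obtain ⟨x, hx, rfl⟩ := Finset.mem_image.1 hz
    exact e.extendSubtype_mem x hx
  · rw [Finset.card_image_of_injective _ e.extendSubtype.injective, h]

private theorem pre_trans {a n : ℕ} (v : Fin n ↪ Λ) (σ : Equiv.Perm Λ) :
    pre a (v.trans σ.toEmbedding) = (pre a v).image σ := by
  unfold pre
  rw [Finset.image_image]
  rfl

/-- the values of a sequence -/
private def im {j : ℕ} (x : Fin j ↪ Λ) : Finset Λ := Finset.univ.image x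

private theorem im_trans {j : ℕ} (x : Fin j ↪ Λ) (σ : Equiv.Perm Λ) :
    im (x.trans σ.toEmbedding) = (im x).image σ := by
  unfold im
  rw [Finset.image_image]
  rfl

private theorem card_im {j : ℕ} (x : Fin j ↪ Λ) : (im x).card = j := by
  unfold im
  rw [Finset.card_image_of_injective _ x.injective]
  simp

private theorem card_pre' {a n : ℕ} (ha : a ≤ n) (v : Fin n ↪ Λ) : (pre a v).card = a := by
  unfold pre
  rw [Finset.card_image_of_injective _ v.injective]
  have : (Finset.univ.filter fun i : Fin n => (i : ℕ) < a).card = a := by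
    rw [Fin.card_filter_val_lt]
    exact min_eq_right ha
  exact this

/-- the number of pairs of sequences over a given set -/
private theorem fib_eq (a n j : ℕ) {G G' : Finset Λ} (h : G.card = G'.card) :
    (Finset.univ.filter fun ω : (Fin n ↪ Λ) × (Fin j ↪ Λ) =>
      Disjoint (pre a ω.1) (im ω.2) ∧ pre a ω.1 ∪ im ω.2 = G).card =
    (Finset.univ.filter fun ω : (Fin n ↪ Λ) × (Fin j ↪ Λ) =>
      Disjoint (pre a ω.1) (im ω.2) ∧ pre a ω.1 ∪ im ω.2 = G').card := by
  obtain ⟨σ, rfl⟩ := exists_perm h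
  let E : (Fin n ↪ Λ) × (Fin j ↪ Λ) ≃ (Fin n ↪ Λ) × (Fin j ↪ Λ) :=
    Equiv.prodCongr (Equiv.embeddingCongr (Equiv.refl _) σ) (Equiv.embeddingCongr (Equiv.refl _) σ)
  have hE1 : ∀ ω, (E ω).1 = ω.1.trans σ.toEmbedding := by
    intro ω; ext i; simp [E, Equiv.embeddingCongr]
  have hE2 : ∀ ω, (E ω).2 = ω.2.trans σ.toEmbedding := by
    intro ω; ext i; simp [E, Equiv.embeddingCongr]
  apply Finset.card_bijective E E.bijective
  intro ω
  simp only [Finset.mem_filter, Finset.mem_univ, true_and]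
  rw [hE1, hE2, pre_trans, im_trans, Finset.disjoint_image σ.injective, ← Finset.image_union]
  constructor
  · rintro ⟨h1, h2⟩
    exact ⟨h1, by rw [h2]⟩
  · rintro ⟨h1, h2⟩
    exact ⟨h1, Finset.image_injective σ.injective h2⟩

private theorem pair_le {a n j : ℕ} (ha : a ≤ n) (haj : a + j ≤ Fintype.card Λ)
    (Φ : Finset Λ → Prop) :
    pr (fun ω : (Fin n ↪ Λ) × (Fin j ↪ Λ) =>
      Disjoint (pre a ω.1) (im ω.2) ∧ Φ (pre a ω.1 ∪ im ω.2)) ≤ fr (a + j) Φ := by
  classical
  set t : Finset (Finset Λ) := (Finset.univ : Finset Λ).powersetCard (a + j) with ht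
  set u : Finset (Finset Λ) := t.filter Φ with hu
  set s : Finset ((Fin n ↪ Λ) × (Fin j ↪ Λ)) := Finset.univ.filter fun ω =>
      Disjoint (pre a ω.1) (im ω.2) ∧ Φ (pre a ω.1 ∪ im ω.2) with hs
  set r : Finset ((Fin n ↪ Λ) × (Fin j ↪ Λ)) := Finset.univ.filter fun ω =>
      Disjoint (pre a ω.1) (im ω.2) with hr
  let c : Finset Λ → ℕ := fun G => (Finset.univ.filter fun ω : (Fin n ↪ Λ) × (Fin j ↪ Λ) =>
      Disjoint (pre a ω.1) (im ω.2) ∧ pre a ω.1 ∪ im ω.2 = G).card
  have hU : ∀ ω : (Fin n ↪ Λ) × (Fin j ↪ Λ), Disjoint (pre a ω.1) (im ω.2) →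
      pre a ω.1 ∪ im ω.2 ∈ t := by
    intro ω h
    rw [ht, Finset.mem_powersetCard]
    refine ⟨Finset.subset_univ _, ?_⟩
    rw [Finset.card_union_of_disjoint h, card_pre' ha, card_im]
  have h1 : s.card = ∑ G ∈ u, c G := by
    rw [Finset.card_eq_sum_card_fiberwise (f := fun ω => pre a ω.1 ∪ im ω.2) (t := u)]
    · apply Finset.sum_congr rfl
      intro G hG
      congr 1
      ext ω
      simp only [hs, Finset.mem_filter, Finset.mem_univ, true_and]
      constructor
      · rintro ⟨⟨h1, -⟩, h3⟩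
        exact ⟨h1, h3⟩
      · rintro ⟨h1, h3⟩
        refine ⟨⟨h1, ?_⟩, h3⟩
        rw [h3]
        exact (Finset.mem_filter.1 hG).2
    · intro ω hω
      have hω' := (Finset.mem_filter.1 (Finset.mem_coe.1 hω)).2
      exact Finset.mem_coe.2 (Finset.mem_filter.2 ⟨hU ω hω'.1, hω'.2⟩)
  have h2 : r.card = ∑ G ∈ t, c G := by
    rw [Finset.card_eq_sum_card_fiberwise (f := fun ω => pre a ω.1 ∪ im ω.2) (t := t)]
    · apply Finset.sum_congr rfl
      intro G hG
      congr 1
      ext ω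
      simp only [hr, Finset.mem_filter, Finset.mem_univ, true_and]
    · intro ω hω
      exact Finset.mem_coe.2 (hU ω (Finset.mem_filter.1 (Finset.mem_coe.1 hω)).2)
  have h3 : s.card * t.card = u.card * r.card := by
    rw [h1, h2, Finset.sum_mul, Finset.card_eq_sum_ones u, Finset.sum_mul]
    apply Finset.sum_congr rfl
    intro G hG
    rw [one_mul, mul_comm, Finset.card_eq_sum_ones t, Finset.sum_mul]
    apply Finset.sum_congr rfl
    intro G' hG'
    rw [one_mul]
    apply fib_eq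
    have e1 := (Finset.mem_powersetCard.1 (Finset.mem_filter.1 hG).1).2
    have e2 := (Finset.mem_powersetCard.1 hG').2
    rw [e1, e2]
  have h4 : s.card * t.card ≤ u.card * Fintype.card ((Fin n ↪ Λ) × (Fin j ↪ Λ)) := by
    rw [h3]
    exact Nat.mul_le_mul_left _ (Finset.card_le_univ r)
  have h5 : t.card = (Fintype.card Λ).choose (a + j) := by
    rw [ht, Finset.card_powersetCard, Finset.card_univ]
  have h6 : 0 < t.card := by
    rw [h5]; exact Nat.choose_pos haj
  have e1 : pr (fun ω : (Fin n ↪ Λ) × (Fin j ↪ Λ) =>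
      Disjoint (pre a ω.1) (im ω.2) ∧ Φ (pre a ω.1 ∪ im ω.2)) =
      (s.card : ℝ) / (Fintype.card ((Fin n ↪ Λ) × (Fin j ↪ Λ)) : ℝ) := by
    unfold pr
    congr!
  have e2 : fr (a + j) Φ = (u.card : ℝ) / (t.card : ℝ) := by
    unfold fr
    rw [h5]
  rw [e1, e2]
  have h6' : (0 : ℝ) < t.card := by exact_mod_cast h6
  rcases Nat.eq_zero_or_pos (Fintype.card ((Fin n ↪ Λ) × (Fin j ↪ Λ))) with h0 | h0
  · rw [h0]
    simp only [Nat.cast_zero, div_zero]
    positivity
  · have h0' : (0 : ℝ) < (Fintype.card ((Fin n ↪ Λ) × (Fin j ↪ Λ)) : ℝ) := by exact_mod_cast h0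
    rw [div_le_div_iff₀ h0' h6']
    exact_mod_cast h4

/-- the union with a disjoint random translate is (at most) a random set -/
theorem pr_union_le {op : Λ → Λ → Λ} (hop1 : ∀ x y, op x y = op y x)
    (hop2 : ∀ x y, op x (op x y) = y) {a n j : ℕ} (ha : a ≤ n) (hn : n ≤ Fintype.card Λ)
    (haj : a + j ≤ Fintype.card Λ) (Φ : Finset Λ → Prop) :
    pr (fun ω : (Fin n ↪ Λ) × ((Fin j ↪ Λ) × Λ) =>
      Disjoint (pre a ω.1) (tr op ω.2.2 ω.2.1) ∧ Φ (pre a ω.1 ∪ tr op ω.2.2 ω.2.1)) ≤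
      fr (a + j) Φ := by
  have hfr : 0 ≤ fr (a + j) Φ := by unfold fr; positivity
  rw [← pr_equiv (Equiv.prodAssoc (Fin n ↪ Λ) (Fin j ↪ Λ) Λ)]
  apply pr_prod_le' hfr
  intro y
  have hinv : Function.Involutive (op y) := fun z => hop2 y z
  let E : (Fin n ↪ Λ) × (Fin j ↪ Λ) ≃ (Fin n ↪ Λ) × (Fin j ↪ Λ) :=
    Equiv.prodCongr (Equiv.refl _) (Equiv.embeddingCongr (Equiv.refl _) hinv.toPerm)
  have hE1 : ∀ ω, (E ω).1 = ω.1 := fun ω => rfl
  have hE2 : ∀ ω, im (E ω).2 = tr op y ω.2 := by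
    intro ω
    unfold im tr
    apply Finset.image_congr
    intro i _
    simp [E, Equiv.embeddingCongr]
  refine le_trans (le_of_eq ?_) (pair_le (n := n) ha haj Φ)
  rw [← pr_equiv E (fun ω : (Fin n ↪ Λ) × (Fin j ↪ Λ) =>
      Disjoint (pre a ω.1) (im ω.2) ∧ Φ (pre a ω.1 ∪ im ω.2))]
  apply pr_congr
  intro ω
  rw [hE1, hE2]
  rfl

private theorem card_second_le {j : ℕ} (hj : 2 ≤ j) (g : Λ → Λ) :
    (Finset.univ.filter fun x : Fin j ↪ Λ =>
      x ⟨1, by omega⟩ = g (x ⟨0, by omega⟩)).card * (Fintype.card Λ - 1) ≤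
      Fintype.card (Fin j ↪ Λ) := by
  set A := Finset.univ.filter fun x : Fin j ↪ Λ => x ⟨1, by omega⟩ = g (x ⟨0, by omega⟩) with hA
  have h1 : (A.sigma fun x : Fin j ↪ Λ => Finset.univ.erase (x ⟨0, by omega⟩)).card =
      A.card * (Fintype.card Λ - 1) := by
    rw [Finset.card_sigma, Finset.card_eq_sum_ones A, Finset.sum_mul]
    apply Finset.sum_congr rfl
    intro x _
    rw [Finset.card_erase_of_mem (Finset.mem_univ _), Finset.card_univ, one_mul]
  rw [← h1, ← Finset.card_univ]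
  apply Finset.card_le_card_of_injOn
    (fun p : (_ : Fin j ↪ Λ) × Λ => p.1.trans (Equiv.swap (p.1 ⟨1, by omega⟩) p.2).toEmbedding)
  · intro p _
    exact Finset.mem_coe.2 (Finset.mem_univ _)
  · rintro ⟨x, z⟩ hp ⟨x', z'⟩ hp' h
    simp only [Finset.mem_coe, Finset.mem_sigma, Finset.mem_erase, Finset.mem_univ, and_true, hA,
      Finset.mem_filter, true_and] at hp hp'
    obtain ⟨hx, hz⟩ := hp
    obtain ⟨hx', hz'⟩ := hp'
    simp only at h
    have key : ∀ i, Equiv.swap (x ⟨1, by omega⟩) z (x i) =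
        Equiv.swap (x' ⟨1, by omega⟩) z' (x' i) := fun i => by
      have := DFunLike.congr_fun h i
      simpa using this
    have n1 : x ⟨0, by omega⟩ ≠ x ⟨1, by omega⟩ := fun e => by
      have := x.injective e
      simp at this
    have n2 : x' ⟨0, by omega⟩ ≠ x' ⟨1, by omega⟩ := fun e => by
      have := x'.injective e
      simp at this
    have k0 : x ⟨0, by omega⟩ = x' ⟨0, by omega⟩ := by
      have := key ⟨0, by omega⟩
      rwa [Equiv.swap_apply_of_ne_of_ne n1 (Ne.symm hz),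
        Equiv.swap_apply_of_ne_of_ne n2 (Ne.symm hz')] at this
    have k1 : x ⟨1, by omega⟩ = x' ⟨1, by omega⟩ := by rw [hx, hx', k0]
    have k2 : z = z' := by
      have := key ⟨1, by omega⟩
      rwa [Equiv.swap_apply_left, Equiv.swap_apply_left] at this
    have k3 : x = x' := by
      ext i
      have := key i
      rw [k1, k2] at this
      exact (Equiv.swap _ _).injective this
    subst k3
    subst k2
    rfl

/-- a random sequence has probably no translate inside a given small set -/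
theorem pr_AA_le {op : Λ → Λ → Λ} (hop1 : ∀ x y, op x y = op y x)
    (hop2 : ∀ x y, op x (op x y) = y) {j h : ℕ} (hj : 2 ≤ j) (hjN : j ≤ Fintype.card Λ)
    (K : Finset Λ) (hK : K.card ≤ h) :
    pr (fun x : Fin j ↪ Λ => AA op x K) ≤ (h : ℝ) ^ 2 / ((Fintype.card Λ : ℝ) - 1) := by
  classical
  set A : Λ × Λ → Finset (Fin j ↪ Λ) := fun p => Finset.univ.filter fun x : Fin j ↪ Λ =>
    x ⟨1, by omega⟩ = op (op (x ⟨0, by omega⟩) p.1) p.2 with hA
  set s : Finset (Fin j ↪ Λ) := Finset.univ.filter fun x => AA op x K with hs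
  have h1 : s ⊆ (K ×ˢ K).biUnion A := by
    intro x hx
    obtain ⟨y, hy⟩ := (Finset.mem_filter.1 hx).2
    rw [Finset.mem_biUnion]
    refine ⟨(op y (x ⟨0, by omega⟩), op y (x ⟨1, by omega⟩)),
      Finset.mem_product.2 ⟨hy _, hy _⟩, ?_⟩
    rw [hA]
    simp only [Finset.mem_filter, Finset.mem_univ, true_and]
    rw [hop1 y (x ⟨0, by omega⟩), hop2, hop2]
  have h2 : s.card * (Fintype.card Λ - 1) ≤ h ^ 2 * Fintype.card (Fin j ↪ Λ) := by
    calc s.card * (Fintype.card Λ - 1)
        ≤ (∑ p ∈ K ×ˢ K, (A p).card) * (Fintype.card Λ - 1) :=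
          Nat.mul_le_mul_right _ ((Finset.card_le_card h1).trans Finset.card_biUnion_le)
      _ = ∑ p ∈ K ×ˢ K, (A p).card * (Fintype.card Λ - 1) := by rw [Finset.sum_mul]
      _ ≤ ∑ _p ∈ K ×ˢ K, Fintype.card (Fin j ↪ Λ) :=
          Finset.sum_le_sum fun p _ => card_second_le hj (fun z => op (op z p.1) p.2)
      _ = (K ×ˢ K).card * Fintype.card (Fin j ↪ Λ) := by
          rw [Finset.sum_const, smul_eq_mul]
      _ ≤ h ^ 2 * Fintype.card (Fin j ↪ Λ) := by
          apply Nat.mul_le_mul_right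
          rw [Finset.card_product, sq]
          exact Nat.mul_le_mul hK hK
  have e1 : pr (fun x : Fin j ↪ Λ => AA op x K) =
      (s.card : ℝ) / (Fintype.card (Fin j ↪ Λ) : ℝ) := by
    unfold pr
    congr!
  have hN1 : (1 : ℝ) ≤ (Fintype.card Λ : ℝ) - 1 := by
    have : (2 : ℝ) ≤ (Fintype.card Λ : ℝ) := by exact_mod_cast hj.trans hjN
    linarith
  have hcast : (((Fintype.card Λ - 1 : ℕ)) : ℝ) = (Fintype.card Λ : ℝ) - 1 := by
    rw [Nat.cast_sub (by omega)]
    simp
  have hpos : (0 : ℝ) < (Fintype.card (Fin j ↪ Λ) : ℝ) := by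
    have hne : Nonempty (Fin j ↪ Λ) := by
      apply Function.Embedding.nonempty_of_card_le
      simpa using hjN
    exact_mod_cast Fintype.card_pos
  rw [e1, div_le_div_iff₀ hpos (by linarith), ← hcast]
  exact_mod_cast h2

end Pool.Agent.RO
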