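import Mathlib
import Pool.Agent.RO.Defs

set_option autoImplicit false

/-!
# Module RO-BinA: the binomial distribution (variance)

`bw N q k = choose N k * q^k * (1-q)^(N-k)`.

PLAN.  `sum_bw`: binomial theorem.  `var_bw`: Mathlib's `bernsteinPolynomial.variance`
(`∑ ν ∈ range (n+1), (n • X - ν)^2 * bernsteinPolynomial R n ν = n • X * (1 - X)`), evaluated at `q`.  Then Chebyshev:
if `(k : ℝ)` differs from `N q = μ` by at least `δ` then `(N q - k)^2 ≥ δ^2`.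
-/

namespace Pool.Agent.RO

open Finset

theorem bw_nonneg {N : ℕ} {q : ℝ} (hq0 : 0 ≤ q) (hq1 : q ≤ 1) (k : ℕ) : 0 ≤ bw N q k := by
  have h : 0 ≤ 1 - q := by linarith
  unfold bw
  positivity

theorem sum_bw (N : ℕ) (q : ℝ) : ∑ k ∈ range (N + 1), bw N q k = 1 := by
  have h := add_pow q (1 - q) N
  have h1 : q + (1 - q) = 1 := by ring
  rw [h1, one_pow] at h
  rw [h]
  refine Finset.sum_congr rfl fun k _ => ?_
  unfold bw
  ring

private theorem var_bw (N : ℕ) (q : ℝ) :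
    ∑ k ∈ range (N + 1), ((N : ℝ) * q - k) ^ 2 * bw N q k = N * q * (1 - q) := by
  have h := congrArg (Polynomial.eval q) (bernsteinPolynomial.variance ℝ N)
  rw [Polynomial.eval_finsetSum] at h
  simp only [Polynomial.eval_mul, Polynomial.eval_pow, Polynomial.eval_sub,
    Polynomial.eval_X, Polynomial.eval_natCast, Polynomial.eval_one, bernsteinPolynomial,
    nsmul_eq_mul] at h
  rw [← h]
  refine Finset.sum_congr rfl fun k _ => ?_
  unfold bw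
  ring

private theorem cheb {N : ℕ} {q δ : ℝ} (hq0 : 0 ≤ q) (hq1 : q ≤ 1) (hδ : 0 < δ)
    (S : Finset ℕ) (hS : S ⊆ range (N + 1)) (hd : ∀ k ∈ S, δ ^ 2 ≤ ((N : ℝ) * q - k) ^ 2) :
    ∑ k ∈ S, bw N q k ≤ N * q / δ ^ 2 := by
  have hq2 : 0 ≤ 1 - q := by linarith
  rw [le_div_iff₀ (by positivity), Finset.sum_mul]
  calc ∑ k ∈ S, bw N q k * δ ^ 2
      ≤ ∑ k ∈ S, ((N : ℝ) * q - k) ^ 2 * bw N q k := by
        refine Finset.sum_le_sum fun k hk => ?_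
        rw [mul_comm]
        exact mul_le_mul_of_nonneg_right (hd k hk) (bw_nonneg hq0 hq1 k)
    _ ≤ ∑ k ∈ range (N + 1), ((N : ℝ) * q - k) ^ 2 * bw N q k := by
        refine Finset.sum_le_sum_of_subset_of_nonneg hS fun k _ _ => ?_
        exact mul_nonneg (sq_nonneg _) (bw_nonneg hq0 hq1 k)
    _ = N * q * (1 - q) := var_bw N q
    _ ≤ N * q := by
        have : 0 ≤ (N : ℝ) * q := by positivity
        nlinarith

private theorem q_facts {N t : ℕ} (ht : 8 ≤ t) (hN : 2 * t ^ 3 ≤ N) :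
    (0 : ℝ) ≤ (t : ℝ) ^ 3 / N ∧ (t : ℝ) ^ 3 / N ≤ 1 ∧ (N : ℝ) * ((t : ℝ) ^ 3 / N) = (t : ℝ) ^ 3 := by
  have h0 : 0 < t ^ 3 := by positivity
  have h1 : (0 : ℝ) < N := by
    have : 0 < N := by omega
    exact_mod_cast this
  refine ⟨by positivity, ?_, ?_⟩
  · rw [div_le_one h1]
    have : t ^ 3 ≤ N := by omega
    exact_mod_cast this
  · field_simp

/-- Chebyshev's inequality: outside the window -/
theorem bw_out {N t : ℕ} (ht : 8 ≤ t) (hN : 2 * t ^ 3 ≤ N) :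
    ∑ k ∈ (range (N + 1)).filter (fun k => k < t ^ 3 - t ^ 2 ∨ t ^ 3 + t ^ 2 ≤ k),
      bw N ((t : ℝ) ^ 3 / N) k ≤ 1 / t := by
  obtain ⟨hq0, hq1, hq⟩ := q_facts ht hN
  have ht0 : (0 : ℝ) < t := by
    have : 0 < t := by omega
    exact_mod_cast this
  refine le_trans (cheb (δ := (t : ℝ) ^ 2) hq0 hq1 (by positivity) _ (Finset.filter_subset _ _) ?_) ?_
  · intro k hk
    rw [hq]
    have hk' := (Finset.mem_filter.1 hk).2
    rcases hk' with h | h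
    · have h2 : k + t ^ 2 ≤ t ^ 3 := by omega
      have h3 : (k : ℝ) + (t : ℝ) ^ 2 ≤ (t : ℝ) ^ 3 := by exact_mod_cast h2
      have h4 : (0 : ℝ) ≤ (t : ℝ) ^ 2 := by positivity
      nlinarith
    · have h3 : (t : ℝ) ^ 3 + (t : ℝ) ^ 2 ≤ (k : ℝ) := by exact_mod_cast h
      have h4 : (0 : ℝ) ≤ (t : ℝ) ^ 2 := by positivity
      nlinarith
  · rw [hq]
    apply le_of_eq
    field_simp

/-- Chebyshev's inequality: in the middle of the window -/
theorem bw_mid {N t : ℕ} (ht : 8 ≤ t) (h2 : Even t) (hN : 2 * t ^ 3 ≤ N) :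
    1 / 2 ≤ ∑ k ∈ Icc (t ^ 3 - t ^ 2 / 2) (t ^ 3 + t ^ 2 / 2), bw N ((t : ℝ) ^ 3 / N) k := by
  obtain ⟨hq0, hq1, hq⟩ := q_facts ht hN
  have ht0 : (0 : ℝ) < t := by
    have : 0 < t := by omega
    exact_mod_cast this
  obtain ⟨r, hr⟩ := h2
  have hsq : t ^ 2 / 2 = 2 * r ^ 2 := by
    have : t ^ 2 = 2 * (2 * r ^ 2) := by rw [hr]; ring
    omega
  have hsqR : (t : ℝ) ^ 2 / 2 = ((t ^ 2 / 2 : ℕ) : ℝ) := by
    rw [hsq, hr]; push_cast; ring
  have hle : t ^ 2 ≤ t ^ 3 := Nat.pow_le_pow_right (by omega) (by omega)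
  have hsub : Icc (t ^ 3 - t ^ 2 / 2) (t ^ 3 + t ^ 2 / 2) ⊆ range (N + 1) := by
    intro k hk
    rw [Finset.mem_Icc] at hk
    rw [Finset.mem_range]
    omega
  have htot := sum_bw N ((t : ℝ) ^ 3 / N)
  rw [← Finset.sum_sdiff hsub] at htot
  have hout : ∑ k ∈ range (N + 1) \ Icc (t ^ 3 - t ^ 2 / 2) (t ^ 3 + t ^ 2 / 2),
      bw N ((t : ℝ) ^ 3 / N) k ≤ 1 / 2 := by
    refine le_trans (cheb (δ := (t : ℝ) ^ 2 / 2) hq0 hq1 (by positivity) _ Finset.sdiff_subset ?_) ?_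
    · intro k hk
      rw [hq]
      rw [Finset.mem_sdiff, Finset.mem_Icc] at hk
      have h4 : (0 : ℝ) ≤ (t : ℝ) ^ 2 / 2 := by positivity
      rcases lt_or_ge k (t ^ 3 - t ^ 2 / 2) with h | h
      · have h2 : k + t ^ 2 / 2 ≤ t ^ 3 := by omega
        have h3 : (k : ℝ) + (t : ℝ) ^ 2 / 2 ≤ (t : ℝ) ^ 3 := by
          rw [hsqR]; exact_mod_cast h2
        nlinarith
      · have h2 : t ^ 3 + t ^ 2 / 2 ≤ k := by
          by_contra hc
          exact hk.2 ⟨h, by omega⟩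
        have h3 : (t : ℝ) ^ 3 + (t : ℝ) ^ 2 / 2 ≤ (k : ℝ) := by
          rw [hsqR]; exact_mod_cast h2
        nlinarith
    · rw [hq, div_le_iff₀ (by positivity)]
      have h8 : (8 : ℝ) ≤ t := by exact_mod_cast ht
      have h3 : (0 : ℝ) < (t : ℝ) ^ 3 := by positivity
      have : 1 / 2 * ((t : ℝ) ^ 2 / 2) ^ 2 = (t : ℝ) ^ 3 * t / 8 := by ring
      rw [this]
      nlinarith
  linarith

end Pool.Agent.RO
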