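import Mathlib
import Pool.Agent.RO.Defs

set_option autoImplicit false

/-!
# Module RO-BinB: the binomial distribution (ratios and tails)

`bw N q k = choose N k * q^k * (1-q)^(N-k)`, `q = μ / N`, `μ = t ^ 3`, `d = t ^ 2`, `2 μ ≤ N`.

PLAN.  `bw N q (k+1) * ((k+1) * (N-μ)) = bw N q k * (μ * (N-k))` for `k < N` (`Nat.choose_succ_right_eq`).
* `bw_up`: increasing below `μ`: for `k + 1 ≤ μ`: `bw k ≤ bw (k+1)`, because `(k+1)(N-μ) ≤ μ(N-k)`.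
* `bw_down`: for `μ ≤ k`: `bw (k+1) ≤ bw k`; for `k ≥ μ + d - 1`... `bw (k+1) ≤ bw k * (μ/(μ+d))` since `N-k ≤ N-μ` and
  `k+1 ≥ μ+d`; similarly for `k ≤ μ - d`: `bw (k-1) ≤ bw k * (μ-d)/μ` since `N-μ ≤ N-k+1`.
* tails: `bw (k + d/2) ≤ (1 + 1/t)^(-(d/2)) * bw k ≤ bw k / 2` for `k ≥ μ + d` (`d/2 = t²/2 ≥ t`, Bernoulli), hence
  `∑_{k ≥ μ + 3d/2} bw k ≤ (1/2) ∑_{k ≥ μ+d} bw k`, so `∑_{μ+d ≤ k < μ+3d/2} bw k ≥ (1/2) ∑_{k ≥ μ+d} bw k`.
  Below: `(1 - 1/t)^(d/2) ≤ (1 - 1/t)^t ≤ 1/e ≤ 1/2` (`Real.one_sub_le_exp_neg`...).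
* `bw_ratio`: `bw (μ+d) ≤ 3 bw (μ-d)` and `bw (μ-d) ≤ 3 bw (μ+d)`.
  `bw(μ+d)/bw(μ-d) = ∏_{i=-d}^{d-1} [μ/(μ+i+1)] [(N-μ-i)/(N-μ)]`; with `M = N - μ ≥ μ`:
  first product `= 1/((1+d/μ) ∏_{u=1}^{d-1} (1-u²/μ²))`, second `= (1+d/M) ∏_{u=1}^{d-1} (1-u²/M²)`; and
  `∏ (1-u²/μ²) ≥ 1 - ∑ u²/μ² ≥ 1 - d³/(3μ²) = 2/3` because `d³ = t⁶ = μ²`; `d/μ = 1/t ≤ 1/8`.  So the ratio is between
  `(8/9)(2/3)` and `(3/2)(9/8)`.  (Suggestion: prove by induction on `e ≤ d` a two-sided bound for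
  `bw(μ+e)/bw(μ-e)`: the ratio for `e+1` is that for `e` times
  `[μ/(μ+e+1)] [(M-e)/M] / ( [(μ-e)/μ] [M/(M+e+1)] )`, i.e. times `μ²/((μ+e+1)(μ-e)) * (M-e)(M+e+1)/M²`.)
-/

namespace Pool.Agent.RO

open Finset

private lemma bw_nn {N : ℕ} {q : ℝ} (hq0 : 0 ≤ q) (hq1 : q ≤ 1) (k : ℕ) : 0 ≤ bw N q k := by
  unfold bw
  have : 0 ≤ 1 - q := by linarith
  positivity

private lemma bw_big {N : ℕ} {q : ℝ} {k : ℕ} (h : N < k) : bw N q k = 0 := by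
  unfold bw
  rw [Nat.choose_eq_zero_of_lt h]; simp

private lemma bw_rec {N k : ℕ} {m : ℝ} (hk : k < N) :
    bw N (m / N) (k + 1) * (((k : ℝ) + 1) * (N - m)) = bw N (m / N) k * (m * (N - k)) := by
  have hN : (N : ℝ) ≠ 0 := by
    have : 0 < N := by omega
    exact_mod_cast this.ne'
  unfold bw
  have h1 : (N.choose (k + 1) : ℝ) * ((k : ℝ) + 1) = (N.choose k : ℝ) * ((N : ℝ) - k) := by
    have h := Nat.choose_succ_right_eq N k
    have h' : ((N.choose (k + 1) * (k + 1) : ℕ) : ℝ) = ((N.choose k * (N - k) : ℕ) : ℝ) := by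
      exact_mod_cast h
    push_cast [Nat.cast_sub hk.le] at h'
    exact h'
  have h2 : N - k = (N - (k + 1)) + 1 := by omega
  rw [h2, pow_succ, pow_succ]
  have h3 : (m / N) * N = m := by field_simp
  have h4 : (N : ℝ) - m = N * (1 - m / N) := by field_simp
  rw [h4]
  calc (N.choose (k + 1) : ℝ) * ((m / N) ^ k * (m / N)) * (1 - m / N) ^ (N - (k + 1)) *
        (((k : ℝ) + 1) * (N * (1 - m / N)))
      = ((N.choose (k + 1) : ℝ) * ((k : ℝ) + 1)) * (m / N) ^ k * ((m / N) * N) *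
        ((1 - m / N) ^ (N - (k + 1)) * (1 - m / N)) := by ring
    _ = _ := by rw [h1, h3]; ring

private lemma step_le {N k : ℕ} {m c : ℝ} (hm : 0 < m) (hN : m < N) (hc : 0 ≤ c)
    (h : k < N → m * (N - k) ≤ c * (((k : ℝ) + 1) * (N - m))) :
    bw N (m / N) (k + 1) ≤ c * bw N (m / N) k := by
  have hN0 : (0 : ℝ) < N := by linarith
  have hq0 : 0 ≤ m / N := by positivity
  have hq1 : m / N ≤ 1 := by rw [div_le_one hN0]; linarith
  rcases lt_or_ge k N with hk | hk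
  · have hr := bw_rec (m := m) hk
    have hD : 0 < ((k : ℝ) + 1) * (N - m) := by
      have : (0 : ℝ) < N - m := by linarith
      positivity
    have hb := bw_nn (N := N) hq0 hq1 k
    have h1 := h hk
    by_contra hcon
    push Not at hcon
    have h2 : c * bw N (m / N) k * (((k : ℝ) + 1) * (N - m)) <
        bw N (m / N) (k + 1) * (((k : ℝ) + 1) * (N - m)) := mul_lt_mul_of_pos_right hcon hD
    have h3 : bw N (m / N) k * (m * (N - k)) ≤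
        bw N (m / N) k * (c * (((k : ℝ) + 1) * (N - m))) := mul_le_mul_of_nonneg_left h1 hb
    rw [hr] at h2
    nlinarith
  · rw [bw_big (by omega : N < k + 1)]
    exact mul_nonneg hc (bw_nn hq0 hq1 k)

private lemma step_ge {N k : ℕ} {m c : ℝ} (hm : 0 < m) (hN : m < N) (hk : k < N)
    (h : ((k : ℝ) + 1) * (N - m) ≤ c * (m * (N - k))) :
    bw N (m / N) k ≤ c * bw N (m / N) (k + 1) := by
  have hN0 : (0 : ℝ) < N := by linarith
  have hq0 : 0 ≤ m / N := by positivity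
  have hq1 : m / N ≤ 1 := by rw [div_le_one hN0]; linarith
  have hr := bw_rec (m := m) hk
  have hE : 0 < m * ((N : ℝ) - k) := by
    have : (0 : ℝ) < (N : ℝ) - k := by
      have : (k : ℝ) < N := by exact_mod_cast hk
      linarith
    positivity
  have hb := bw_nn (N := N) hq0 hq1 (k + 1)
  by_contra hcon
  push Not at hcon
  have h2 : c * bw N (m / N) (k + 1) * (m * ((N : ℝ) - k)) <
      bw N (m / N) k * (m * ((N : ℝ) - k)) := mul_lt_mul_of_pos_right hcon hE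
  have h3 : bw N (m / N) (k + 1) * (((k : ℝ) + 1) * (N - m)) ≤
      bw N (m / N) (k + 1) * (c * (m * (N - k))) := mul_le_mul_of_nonneg_left h hb
  rw [← hr] at h2
  nlinarith

theorem bw_up {N μ k : ℕ} (hμ : 0 < μ) (hN : 2 * μ ≤ N) (hk : k + 1 ≤ μ) :
    bw N ((μ : ℝ) / N) k ≤ bw N ((μ : ℝ) / N) (k + 1) := by
  have h1 : (0 : ℝ) < μ := by exact_mod_cast hμ
  have h2 : (2 : ℝ) * μ ≤ N := by exact_mod_cast hN
  have h3 : ((k : ℝ) + 1) ≤ μ := by exact_mod_cast hk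
  have h := step_ge (N := N) (k := k) (m := μ) (c := 1) h1 (by linarith) (by omega) (by
    rw [one_mul]
    have h5 : (N : ℝ) - μ ≤ N - k := by linarith
    have h6 : (0 : ℝ) ≤ N - μ := by linarith
    calc ((k : ℝ) + 1) * (N - μ) ≤ μ * (N - μ) := mul_le_mul_of_nonneg_right h3 h6
      _ ≤ μ * (N - k) := mul_le_mul_of_nonneg_left h5 h1.le)
  simpa using h

theorem bw_down {N μ k : ℕ} (hμ : 0 < μ) (hN : 2 * μ ≤ N) (hk : μ ≤ k) :
    bw N ((μ : ℝ) / N) (k + 1) ≤ bw N ((μ : ℝ) / N) k := by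
  have h1 : (0 : ℝ) < μ := by exact_mod_cast hμ
  have h2 : (2 : ℝ) * μ ≤ N := by exact_mod_cast hN
  have h3 : (μ : ℝ) ≤ k := by exact_mod_cast hk
  have h := step_le (N := N) (k := k) (m := μ) (c := 1) h1 (by linarith) zero_le_one (by
    intro _
    rw [one_mul]
    have h5 : (N : ℝ) - k ≤ N - μ := by linarith
    have h6 : (0 : ℝ) ≤ N - μ := by linarith
    calc (μ : ℝ) * (N - k) ≤ μ * (N - μ) := mul_le_mul_of_nonneg_left h5 h1.le
      _ ≤ ((k : ℝ) + 1) * (N - μ) := mul_le_mul_of_nonneg_right (by linarith) h6)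
  simpa using h

private lemma half_up {t n : ℕ} (ht : 8 ≤ t) (hn : t ≤ n) :
    ((t : ℝ) / (t + 1)) ^ n ≤ 1 / 2 := by
  have h0 : (0 : ℝ) < t := by
    have : 0 < t := by omega
    exact_mod_cast this
  have hc0 : (0 : ℝ) ≤ (t : ℝ) / (t + 1) := by positivity
  have hc1 : (t : ℝ) / (t + 1) ≤ 1 := by rw [div_le_one (by positivity)]; linarith
  have h1 : ((t : ℝ) / (t + 1)) ^ n ≤ ((t : ℝ) / (t + 1)) ^ t := pow_le_pow_of_le_one hc0 hc1 hn
  have h2 : (2 : ℝ) ≤ (1 + 1 / (t : ℝ)) ^ t := by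
    have h := one_add_mul_le_pow (a := 1 / (t : ℝ)) (by
      have : (0 : ℝ) ≤ 1 / (t : ℝ) := by positivity
      linarith) t
    have h' : (t : ℝ) * (1 / (t : ℝ)) = 1 := by field_simp
    rw [h'] at h
    linarith
  have h3 : ((t : ℝ) / (t + 1)) ^ t * (1 + 1 / (t : ℝ)) ^ t = 1 := by
    rw [← mul_pow]
    have : (t : ℝ) / (t + 1) * (1 + 1 / (t : ℝ)) = 1 := by field_simp
    rw [this, one_pow]
  have h4 : (0 : ℝ) ≤ ((t : ℝ) / (t + 1)) ^ t := by positivity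
  nlinarith

private lemma half_down {t n : ℕ} (ht : 8 ≤ t) (hn : t ≤ n) :
    (((t : ℝ) - 1) / t) ^ n ≤ 1 / 2 := by
  have ht1 : (8 : ℝ) ≤ t := by exact_mod_cast ht
  have h0 : (0 : ℝ) < t := by linarith
  have h00 : (0 : ℝ) < (t : ℝ) - 1 := by linarith
  have hc0 : (0 : ℝ) ≤ ((t : ℝ) - 1) / t := by positivity
  have hc1 : ((t : ℝ) - 1) / t ≤ 1 := by rw [div_le_one h0]; linarith
  have h1 : (((t : ℝ) - 1) / t) ^ n ≤ (((t : ℝ) - 1) / t) ^ t := pow_le_pow_of_le_one hc0 hc1 hn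
  have h2 : (2 : ℝ) ≤ (1 + 1 / ((t : ℝ) - 1)) ^ t := by
    have h := one_add_mul_le_pow (a := 1 / ((t : ℝ) - 1)) (by
      have : (0 : ℝ) ≤ 1 / ((t : ℝ) - 1) := by positivity
      linarith) t
    have h' : (1 : ℝ) ≤ (t : ℝ) * (1 / ((t : ℝ) - 1)) := by
      rw [mul_one_div, le_div_iff₀ h00]; linarith
    linarith
  have h3 : (((t : ℝ) - 1) / t) ^ t * (1 + 1 / ((t : ℝ) - 1)) ^ t = 1 := by
    rw [← mul_pow]
    have : ((t : ℝ) - 1) / t * (1 + 1 / ((t : ℝ) - 1)) = 1 := by field_simp; ring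
    rw [this, one_pow]
  have h4 : (0 : ℝ) ≤ (((t : ℝ) - 1) / t) ^ t := by positivity
  nlinarith

private lemma pow_up {f : ℕ → ℝ} {c : ℝ} (hc : 0 ≤ c) {M : ℕ}
    (h : ∀ k, M ≤ k → f (k + 1) ≤ c * f k) (i : ℕ) {k : ℕ} (hk : M ≤ k) :
    f (k + i) ≤ c ^ i * f k := by
  induction i with
  | zero => simp
  | succ i ih =>
      have h1 := h (k + i) (by omega)
      calc f (k + (i + 1)) ≤ c * f (k + i) := h1
        _ ≤ c * (c ^ i * f k) := mul_le_mul_of_nonneg_left ih hc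
        _ = c ^ (i + 1) * f k := by ring

private lemma pow_down {f : ℕ → ℝ} {c : ℝ} (hc : 0 ≤ c) {M : ℕ}
    (h : ∀ k, k + 1 ≤ M → f k ≤ c * f (k + 1)) (i : ℕ) {k : ℕ} (hk : k + i ≤ M) :
    f k ≤ c ^ i * f (k + i) := by
  induction i with
  | zero => simp
  | succ i ih =>
      have h1 := h (k + i) (by omega)
      have h2 := ih (by omega)
      calc f k ≤ c ^ i * f (k + i) := h2
        _ ≤ c ^ i * (c * f (k + i + 1)) := mul_le_mul_of_nonneg_left h1 (by positivity)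
        _ = c ^ (i + 1) * f (k + (i + 1)) := by ring_nf

private lemma tail_up {f : ℕ → ℝ} (hf : ∀ k, 0 ≤ f k) (M h N : ℕ)
    (hh : ∀ k, M ≤ k → f (k + h) ≤ 1 / 2 * f k) :
    ∑ k ∈ (range (N + 1)).filter (fun k => M ≤ k), f k ≤ 2 * ∑ k ∈ Ico M (M + h), f k := by
  set L := M + h + N + 1 with hL
  have h1 : ∑ k ∈ (range (N + 1)).filter (fun k => M ≤ k), f k ≤ ∑ k ∈ Ico M L, f k := by
    refine sum_le_sum_of_subset_of_nonneg ?_ (fun k _ _ => hf k)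
    intro k hk
    simp only [mem_filter, mem_range] at hk
    simp only [mem_Ico]
    omega
  have h2 : ∑ k ∈ Ico M (M + h), f k + ∑ k ∈ Ico (M + h) L, f k = ∑ k ∈ Ico M L, f k :=
    sum_Ico_consecutive f (by omega) (by omega)
  have h3 : ∑ k ∈ Ico (M + h) L, f k = ∑ k ∈ Ico M (L - h), f (k + h) := by
    rw [sum_Ico_add' f M (L - h) h]
    congr 1
    rw [show L - h + h = L by omega]
  have h4 : ∑ k ∈ Ico M (L - h), f (k + h) ≤ ∑ k ∈ Ico M (L - h), 1 / 2 * f k := by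
    refine sum_le_sum (fun k hk => hh k ?_)
    simp only [mem_Ico] at hk
    exact hk.1
  have h5 : ∑ k ∈ Ico M (L - h), f k ≤ ∑ k ∈ Ico M L, f k := by
    refine sum_le_sum_of_subset_of_nonneg ?_ (fun k _ _ => hf k)
    exact Ico_subset_Ico le_rfl (by omega)
  rw [← mul_sum] at h4
  linarith

private lemma tail_down {f : ℕ → ℝ} (hf : ∀ k, 0 ≤ f k) (M h N : ℕ) (hM : h ≤ M)
    (hh : ∀ k, k + h ≤ M → f k ≤ 1 / 2 * f (k + h)) :
    ∑ k ∈ (range (N + 1)).filter (fun k => k < M), f k ≤ 2 * ∑ k ∈ Ico (M - h) M, f k := by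
  have h1 : ∑ k ∈ (range (N + 1)).filter (fun k => k < M), f k ≤ ∑ k ∈ Ico 0 M, f k := by
    refine sum_le_sum_of_subset_of_nonneg ?_ (fun k _ _ => hf k)
    intro k hk
    simp only [mem_filter, mem_range] at hk
    simp only [mem_Ico]
    omega
  have h2 : ∑ k ∈ Ico 0 (M - h), f k + ∑ k ∈ Ico (M - h) M, f k = ∑ k ∈ Ico 0 M, f k :=
    sum_Ico_consecutive f (by omega) (by omega)
  have h4 : ∑ k ∈ Ico 0 (M - h), f k ≤ ∑ k ∈ Ico 0 (M - h), 1 / 2 * f (k + h) := by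
    refine sum_le_sum (fun k hk => hh k ?_)
    simp only [mem_Ico] at hk
    omega
  have h3 : ∑ k ∈ Ico 0 (M - h), f (k + h) = ∑ k ∈ Ico h M, f k := by
    rw [sum_Ico_add' f 0 (M - h) h]
    congr 1
    rw [show M - h + h = M by omega, zero_add]
  have h5 : ∑ k ∈ Ico h M, f k ≤ ∑ k ∈ Ico 0 M, f k := by
    refine sum_le_sum_of_subset_of_nonneg ?_ (fun k _ _ => hf k)
    exact Ico_subset_Ico (Nat.zero_le _) le_rfl
  rw [← mul_sum, h3] at h4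
  linarith

private lemma half_ge {t : ℕ} (ht : 8 ≤ t) : t ≤ t ^ 2 / 2 := by
  have h : t * 2 ≤ t ^ 2 := by nlinarith
  omega

/-- half of the upper tail is near the window -/
theorem bw_tail_up {N t : ℕ} (ht : 8 ≤ t) (h2 : Even t) (hN : 2 * t ^ 3 ≤ N) :
    ∑ k ∈ (range (N + 1)).filter (fun k => t ^ 3 + t ^ 2 ≤ k), bw N ((t : ℝ) ^ 3 / N) k ≤
      2 * ∑ k ∈ Ico (t ^ 3 + t ^ 2) (t ^ 3 + t ^ 2 + t ^ 2 / 2), bw N ((t : ℝ) ^ 3 / N) k := by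
  have ht1 : (8 : ℝ) ≤ t := by exact_mod_cast ht
  have ht0 : (0 : ℝ) < t := by linarith
  have hm : (0 : ℝ) < (t : ℝ) ^ 3 := by positivity
  have hNr : 2 * (t : ℝ) ^ 3 ≤ N := by exact_mod_cast hN
  have hN0 : (0 : ℝ) < N := by linarith
  have hq0 : 0 ≤ (t : ℝ) ^ 3 / N := by positivity
  have hq1 : (t : ℝ) ^ 3 / N ≤ 1 := by rw [div_le_one hN0]; linarith
  have hc0 : (0 : ℝ) ≤ (t : ℝ) / (t + 1) := by positivity
  have hs : ∀ k, t ^ 3 + t ^ 2 ≤ k → bw N ((t : ℝ) ^ 3 / N) (k + 1) ≤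
      (t : ℝ) / (t + 1) * bw N ((t : ℝ) ^ 3 / N) k := by
    intro k hk
    have hkr : (t : ℝ) ^ 3 + (t : ℝ) ^ 2 ≤ k := by exact_mod_cast hk
    refine step_le hm (by linarith) hc0 (fun hkN => ?_)
    have h6 : (0 : ℝ) ≤ N - (t : ℝ) ^ 3 := by linarith
    have h7 : (N : ℝ) - k ≤ N - (t : ℝ) ^ 3 := by nlinarith
    have h8 : (t : ℝ) ^ 3 ≤ (t : ℝ) / (t + 1) * ((k : ℝ) + 1) := by
      rw [div_mul_eq_mul_div, le_div_iff₀ (by positivity)]
      nlinarith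
    calc (t : ℝ) ^ 3 * (N - k) ≤ (t : ℝ) ^ 3 * (N - (t : ℝ) ^ 3) :=
          mul_le_mul_of_nonneg_left h7 hm.le
      _ ≤ (t : ℝ) / (t + 1) * ((k : ℝ) + 1) * (N - (t : ℝ) ^ 3) :=
          mul_le_mul_of_nonneg_right h8 h6
      _ = _ := by ring
  refine tail_up (fun k => bw_nn hq0 hq1 k) _ _ _ (fun k hk => ?_)
  have h9 := pow_up hc0 hs (t ^ 2 / 2) hk
  refine h9.trans (mul_le_mul_of_nonneg_right (half_up ht (half_ge ht)) (bw_nn hq0 hq1 k))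

/-- half of the lower tail is near the window -/
theorem bw_tail_down {N t : ℕ} (ht : 8 ≤ t) (h2 : Even t) (hN : 2 * t ^ 3 ≤ N) :
    ∑ k ∈ (range (N + 1)).filter (fun k => k < t ^ 3 - t ^ 2), bw N ((t : ℝ) ^ 3 / N) k ≤
      2 * ∑ k ∈ Ico (t ^ 3 - t ^ 2 - t ^ 2 / 2) (t ^ 3 - t ^ 2), bw N ((t : ℝ) ^ 3 / N) k := by
  have ht1 : (8 : ℝ) ≤ t := by exact_mod_cast ht
  have ht0 : (0 : ℝ) < t := by linarith
  have hm : (0 : ℝ) < (t : ℝ) ^ 3 := by positivity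
  have hNr : 2 * (t : ℝ) ^ 3 ≤ N := by exact_mod_cast hN
  have hN0 : (0 : ℝ) < N := by linarith
  have hq0 : 0 ≤ (t : ℝ) ^ 3 / N := by positivity
  have hq1 : (t : ℝ) ^ 3 / N ≤ 1 := by rw [div_le_one hN0]; linarith
  have hc0 : (0 : ℝ) ≤ ((t : ℝ) - 1) / t := div_nonneg (by linarith) ht0.le
  have h23 : t ^ 2 + t ^ 2 ≤ t ^ 3 := by nlinarith [Nat.zero_le (t ^ 2)]
  have hs : ∀ k, k + 1 ≤ t ^ 3 - t ^ 2 → bw N ((t : ℝ) ^ 3 / N) k ≤
      ((t : ℝ) - 1) / t * bw N ((t : ℝ) ^ 3 / N) (k + 1) := by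
    intro k hk
    have hk' : k + 1 + t ^ 2 ≤ t ^ 3 := by omega
    have hkr : (k : ℝ) + 1 + (t : ℝ) ^ 2 ≤ (t : ℝ) ^ 3 := by exact_mod_cast hk'
    refine step_ge hm (by linarith) (by omega) ?_
    have h6 : (0 : ℝ) ≤ N - (t : ℝ) ^ 3 := by linarith
    have h7 : (N : ℝ) - (t : ℝ) ^ 3 ≤ N - k := by nlinarith
    have h8 : (k : ℝ) + 1 ≤ ((t : ℝ) - 1) / t * (t : ℝ) ^ 3 := by
      rw [div_mul_eq_mul_div, le_div_iff₀ ht0]
      nlinarith
    calc ((k : ℝ) + 1) * (N - (t : ℝ) ^ 3) ≤ (((t : ℝ) - 1) / t * (t : ℝ) ^ 3) * (N - (t : ℝ) ^ 3) :=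
          mul_le_mul_of_nonneg_right h8 h6
      _ ≤ (((t : ℝ) - 1) / t * (t : ℝ) ^ 3) * (N - k) :=
          mul_le_mul_of_nonneg_left h7 (by positivity)
      _ = _ := by ring
  refine tail_down (fun k => bw_nn hq0 hq1 k) _ _ _ (by omega) (fun k hk => ?_)
  have h9 := pow_down hc0 hs (t ^ 2 / 2) hk
  exact h9.trans (mul_le_mul_of_nonneg_right (half_down ht (half_ge ht)) (bw_nn hq0 hq1 _))

end Pool.Agent.RO
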