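import Mathlib
import Pool.Agent.RO.BinomB

set_option autoImplicit false

/-!
# Module RO-BinC: the binomial distribution (the two ends of the window have comparable weights)

`bw N q k = choose N k * q^k * (1-q)^(N-k)`, `q = μ / N`, `μ = t ^ 3`, `d = t ^ 2`, `2 μ ≤ N`.  `bw_up`, `bw_down` of
`BinomB` (another module) are used.
-/

namespace Pool.Agent.RO

open Finset

private lemma binC_step {a b α β A B s s' w w' ε : ℝ} (ha : 0 ≤ a) (hb : 0 ≤ b) (hα : 0 ≤ α)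
    (hβ : 0 ≤ β) (h : α * B = β * A) (hA0 : 0 ≤ A) (hA : A ≤ 1 + ε) (hw0 : 0 ≤ w)
    (hw : w * (1 + ε) ≤ w') (hs : s' ≤ s * B) (ih : a * s ≤ b * w) :
    a * α * s' ≤ b * β * w' := by
  calc a * α * s' ≤ a * α * (s * B) := mul_le_mul_of_nonneg_left hs (mul_nonneg ha hα)
    _ = a * s * (α * B) := by ring
    _ = a * s * (β * A) := by rw [h]
    _ ≤ b * w * (β * A) := mul_le_mul_of_nonneg_right ih (mul_nonneg hβ hA0)
    _ = b * w * β * A := by ring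
    _ ≤ b * w * β * (1 + ε) :=
        mul_le_mul_of_nonneg_left hA (mul_nonneg (mul_nonneg hb hw0) hβ)
    _ = b * β * (w * (1 + ε)) := by ring
    _ ≤ b * β * w' := mul_le_mul_of_nonneg_left hw (mul_nonneg hb hβ)

private lemma binC_rec {N μ k : ℕ} (hN0 : 0 < N) (hk : k < N) :
    bw N ((μ : ℝ) / N) (k + 1) * (((k : ℝ) + 1) * ((N : ℝ) - μ)) =
      bw N ((μ : ℝ) / N) k * (μ * ((N : ℝ) - k)) := by
  have hN : (N : ℝ) ≠ 0 := by positivity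
  have h1 : ((N.choose (k + 1) : ℕ) : ℝ) * ((k : ℝ) + 1) = (N.choose k : ℝ) * ((N : ℝ) - k) := by
    have := Nat.choose_succ_right_eq N k
    have h2 : ((N.choose (k + 1) * (k + 1) : ℕ) : ℝ) = ((N.choose k * (N - k) : ℕ) : ℝ) := by
      rw [this]
    push_cast [Nat.cast_sub hk.le] at h2
    exact h2
  obtain ⟨r, hr⟩ : ∃ r, N - k = r + 1 := ⟨N - k - 1, by omega⟩
  have hr' : N - (k + 1) = r := by omega
  unfold bw
  rw [hr, hr']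
  have h3 : (1 : ℝ) - (μ : ℝ) / N = ((N : ℝ) - μ) / N := by field_simp
  rw [pow_succ ((μ : ℝ) / N) k, pow_succ (1 - (μ : ℝ) / N) r]
  calc (N.choose (k + 1) : ℝ) * (((μ : ℝ) / N) ^ k * ((μ : ℝ) / N)) * (1 - (μ : ℝ) / N) ^ r *
        (((k : ℝ) + 1) * ((N : ℝ) - μ))
      = ((N.choose (k + 1) : ℝ) * ((k : ℝ) + 1)) * ((μ : ℝ) / N) ^ k * (1 - (μ : ℝ) / N) ^ r *
        (((μ : ℝ) / N) * ((N : ℝ) - μ)) := by ring
    _ = ((N.choose k : ℝ) * ((N : ℝ) - k)) * ((μ : ℝ) / N) ^ k * (1 - (μ : ℝ) / N) ^ r *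
        (μ * (((N : ℝ) - μ) / N)) := by rw [h1]; ring
    _ = _ := by rw [← h3]; ring

private lemma binC_nonneg {N μ : ℕ} (hN : 2 * μ ≤ N) (k : ℕ) : 0 ≤ bw N ((μ : ℝ) / N) k := by
  unfold bw
  have h1 : (μ : ℝ) ≤ N := by exact_mod_cast (by omega : μ ≤ N)
  have h2 : (0 : ℝ) ≤ (N : ℝ) := by positivity
  have h3 : 0 ≤ 1 - (μ : ℝ) / N := by
    have : (μ : ℝ) / N ≤ 1 := div_le_one_of_le₀ h1 h2
    linarith
  positivity

/-- the two-sided comparison of the weights at distance `e` from the mode -/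
private lemma binC_ind {N μ d : ℕ} (hμ : 0 < μ) (hN : 2 * μ ≤ N) (hd : 2 * d ≤ μ)
    (hd3 : d ^ 3 ≤ μ ^ 2) :
    ∀ e, e ≤ d →
      bw N ((μ : ℝ) / N) (μ + e) * (1 - (e : ℝ) ^ 3 / (3 * (μ : ℝ) ^ 2)) ≤
        bw N ((μ : ℝ) / N) (μ - e) * (1 + 2 * (e : ℝ) / μ) ∧
      bw N ((μ : ℝ) / N) (μ - e) * (1 - (e : ℝ) ^ 3 / (3 * (μ : ℝ) ^ 2)) ≤
        bw N ((μ : ℝ) / N) (μ + e) * (1 + 2 * (e : ℝ) / μ) := by
  intro e
  induction e with
  | zero =>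
    intro _
    simp
  | succ e ih =>
    intro he
    obtain ⟨ih1, ih2⟩ := ih (by omega)
    have hμ0 : (0 : ℝ) < μ := by exact_mod_cast hμ
    have hNμ : (2 : ℝ) * μ ≤ N := by exact_mod_cast hN
    set M : ℝ := (N : ℝ) - μ with hM
    have hMμ : (μ : ℝ) ≤ M := by linarith
    have hM0 : 0 < M := by linarith
    have he2 : 2 * ((e : ℝ) + 1) ≤ μ := by
      have : 2 * (e + 1) ≤ μ := by omega
      exact_mod_cast this
    have he0 : (0 : ℝ) ≤ e := by positivity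
    -- recursions
    have ra := binC_rec (N := N) (μ := μ) (k := μ + e) (by omega) (by omega)
    have rb := binC_rec (N := N) (μ := μ) (k := μ - (e + 1)) (by omega) (by omega)
    have hcast : ((μ - (e + 1) : ℕ) : ℝ) = (μ : ℝ) - (e + 1) := by
      rw [Nat.cast_sub (by omega)]; push_cast; ring
    have hidx : μ - (e + 1) + 1 = μ - e := by omega
    rw [hidx, hcast] at rb
    push_cast at ra
    have hα : bw N ((μ : ℝ) / N) (μ + (e + 1)) = bw N ((μ : ℝ) / N) (μ + e) *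
        ((M - e) * μ / ((μ + e + 1) * M)) := by
      have hne : ((μ : ℝ) + e + 1) * M ≠ 0 := by positivity
      rw [mul_div_assoc', eq_div_iff hne]
      have : μ + (e + 1) = μ + e + 1 := by ring
      rw [this]
      calc _ = bw N ((μ : ℝ) / N) (μ + e + 1) * (((μ : ℝ) + e + 1) * ((N : ℝ) - μ)) := by rw [hM]
        _ = _ := by rw [ra, hM]; ring
    have hβ : bw N ((μ : ℝ) / N) (μ - (e + 1)) = bw N ((μ : ℝ) / N) (μ - e) *
        ((μ - e) * M / ((M + e + 1) * μ)) := by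
      have hne : ((M : ℝ) + e + 1) * μ ≠ 0 := by positivity
      rw [mul_div_assoc', eq_div_iff hne]
      calc _ = bw N ((μ : ℝ) / N) (μ - (e + 1)) * ((μ : ℝ) * ((N : ℝ) - (μ - (e + 1)))) := by
            rw [hM]; ring
        _ = _ := by rw [← rb, hM]; ring
    rw [hα, hβ]
    have hMe : (0 : ℝ) ≤ M - e := by linarith
    have hμe : (0 : ℝ) ≤ (μ : ℝ) - e := by linarith
    have hcomm : (M - e) * μ / ((μ + e + 1) * M) * ((μ - e) * (μ + e + 1) / (μ : ℝ) ^ 2) =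
        ((μ - e) * M / ((M + e + 1) * μ)) * ((M - e) * (M + e + 1) / M ^ 2) := by
      have h1 : ((μ : ℝ) + e + 1) ≠ 0 := by positivity
      have h2 : (M + e + 1) ≠ 0 := by positivity
      field_simp
    have ha0 := binC_nonneg hN (μ + e)
    have hb0 := binC_nonneg hN (μ - e)
    have hα0 : 0 ≤ (M - e) * μ / ((μ + e + 1) * M) := by positivity
    have hβ0 : 0 ≤ (μ - e) * M / ((M + e + 1) * μ) := by positivity
    have hA0 : 0 ≤ (M - e) * (M + e + 1) / M ^ 2 := by positivity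
    have hB0 : 0 ≤ (μ - e) * (μ + e + 1) / (μ : ℝ) ^ 2 := by positivity
    have hA1 : (M - e) * (M + e + 1) / M ^ 2 ≤ 1 + 1 / (μ : ℝ) := by
      have h1 : (M - e) * (M + e + 1) / M ^ 2 ≤ 1 + 1 / M := by
        rw [div_le_iff₀ (by positivity)]
        have : (1 + 1 / M) * M ^ 2 = M ^ 2 + M := by field_simp
        rw [this]
        nlinarith
      have h2 : 1 / M ≤ 1 / (μ : ℝ) := one_div_le_one_div_of_le hμ0 hMμ
      linarith
    have hB1 : (μ - e) * (μ + e + 1) / (μ : ℝ) ^ 2 ≤ 1 + 1 / (μ : ℝ) := by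
      rw [div_le_iff₀ (by positivity)]
      have : (1 + 1 / (μ : ℝ)) * (μ : ℝ) ^ 2 = (μ : ℝ) ^ 2 + μ := by field_simp
      rw [this]
      nlinarith
    have hw0 : (0 : ℝ) ≤ 1 + 2 * (e : ℝ) / μ := by positivity
    have hw : (1 + 2 * (e : ℝ) / μ) * (1 + 1 / (μ : ℝ)) ≤ 1 + 2 * ((e + 1 : ℕ) : ℝ) / μ := by
      push_cast
      have h1 : 2 * (e : ℝ) / μ ≤ 1 := by
        rw [div_le_one hμ0]; linarith
      have h2 : 0 ≤ 1 / (μ : ℝ) := by positivity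
      have h3 : 2 * ((e : ℝ) + 1) / μ = 2 * (e : ℝ) / μ + 2 * (1 / μ) := by ring
      rw [h3]
      nlinarith
    have hs0 : 0 ≤ 1 - (e : ℝ) ^ 3 / (3 * (μ : ℝ) ^ 2) := by
      have h1 : (e : ℝ) ^ 3 ≤ (μ : ℝ) ^ 2 := by
        have : e ^ 3 ≤ μ ^ 2 := le_trans (Nat.pow_le_pow_left (by omega) 3) hd3
        exact_mod_cast this
      have h2 : (e : ℝ) ^ 3 / (3 * (μ : ℝ) ^ 2) ≤ 1 := by
        rw [div_le_one (by positivity)]
        nlinarith [sq_nonneg (μ : ℝ)]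
      linarith
    have hs1 : 1 - (e : ℝ) ^ 3 / (3 * (μ : ℝ) ^ 2) ≤ 1 := by
      have : 0 ≤ (e : ℝ) ^ 3 / (3 * (μ : ℝ) ^ 2) := by positivity
      linarith
    have hss : 1 - ((e + 1 : ℕ) : ℝ) ^ 3 / (3 * (μ : ℝ) ^ 2) ≤
        (1 - (e : ℝ) ^ 3 / (3 * (μ : ℝ) ^ 2)) * (1 - e * (e + 1) / (μ : ℝ) ^ 2) := by
      push_cast
      have h1 : ((e : ℝ) + 1) ^ 3 / (3 * (μ : ℝ) ^ 2) =
          (e : ℝ) ^ 3 / (3 * (μ : ℝ) ^ 2) + e * (e + 1) / (μ : ℝ) ^ 2 + 1 / (3 * (μ : ℝ) ^ 2) := by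
        field_simp; ring
      have h2 : 0 ≤ (e : ℝ) * (e + 1) / (μ : ℝ) ^ 2 := by positivity
      have h3 : 0 ≤ (e : ℝ) ^ 3 / (3 * (μ : ℝ) ^ 2) := by positivity
      have h4 : 0 ≤ 1 / (3 * (μ : ℝ) ^ 2) := by positivity
      rw [h1]
      nlinarith [mul_nonneg h2 h3]
    have hBl : 1 - e * (e + 1) / (μ : ℝ) ^ 2 ≤ (μ - e) * (μ + e + 1) / (μ : ℝ) ^ 2 := by
      have : (μ - e) * (μ + e + 1) / (μ : ℝ) ^ 2 = 1 - e * (e + 1) / (μ : ℝ) ^ 2 + 1 / μ := by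
        field_simp; ring
      rw [this]
      have : 0 ≤ 1 / (μ : ℝ) := by positivity
      linarith
    have hAl : 1 - e * (e + 1) / (μ : ℝ) ^ 2 ≤ (M - e) * (M + e + 1) / M ^ 2 := by
      have h1 : (M - e) * (M + e + 1) / M ^ 2 = 1 - e * (e + 1) / M ^ 2 + 1 / M := by
        field_simp; ring
      rw [h1]
      have h2 : 0 ≤ 1 / M := by positivity
      have h3 : (e : ℝ) * (e + 1) / M ^ 2 ≤ e * (e + 1) / (μ : ℝ) ^ 2 := by
        apply div_le_div_of_nonneg_left (by positivity) (by positivity)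
        exact pow_le_pow_left₀ hμ0.le hMμ 2
      linarith
    constructor
    · exact binC_step ha0 hb0 hα0 hβ0 hcomm hA0 hA1 hw0 hw
        (hss.trans (mul_le_mul_of_nonneg_left hBl hs0)) ih1
    · exact binC_step hb0 ha0 hβ0 hα0 hcomm.symm hB0 hB1 hw0 hw
        (hss.trans (mul_le_mul_of_nonneg_left hAl hs0)) ih2

theorem bw_ratio {N t : ℕ} (ht : 8 ≤ t) (hN : 2 * t ^ 3 ≤ N) :
    bw N ((t : ℝ) ^ 3 / N) (t ^ 3 + t ^ 2) ≤ 3 * bw N ((t : ℝ) ^ 3 / N) (t ^ 3 - t ^ 2) ∧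
      bw N ((t : ℝ) ^ 3 / N) (t ^ 3 - t ^ 2) ≤ 3 * bw N ((t : ℝ) ^ 3 / N) (t ^ 3 + t ^ 2) := by
  have hd : 2 * t ^ 2 ≤ t ^ 3 := by
    have : t ^ 3 = t * t ^ 2 := by ring
    rw [this]
    exact Nat.mul_le_mul_right _ (by omega)
  have hμ : 0 < t ^ 3 := by positivity
  obtain ⟨h1, h2⟩ := binC_ind (N := N) (μ := t ^ 3) (d := t ^ 2) hμ hN hd
    (by rw [← pow_mul, ← pow_mul]) (t ^ 2) le_rfl
  have ht0 : (8 : ℝ) ≤ t := by exact_mod_cast ht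
  have ht1 : (0 : ℝ) < t := by linarith
  have hc : ((t ^ 3 : ℕ) : ℝ) = (t : ℝ) ^ 3 := by push_cast; ring
  have hc2 : ((t ^ 2 : ℕ) : ℝ) = (t : ℝ) ^ 2 := by push_cast; ring
  have e1 : (1 : ℝ) - ((t : ℝ) ^ 2) ^ 3 / (3 * ((t : ℝ) ^ 3) ^ 2) = 2 / 3 := by
    field_simp; ring
  have e2 : (1 : ℝ) + 2 * (t : ℝ) ^ 2 / (t : ℝ) ^ 3 ≤ 5 / 4 := by
    have : 2 * (t : ℝ) ^ 2 / (t : ℝ) ^ 3 = 2 / t := by field_simp
    rw [this]
    have : 2 / (t : ℝ) ≤ 2 / 8 := div_le_div_of_nonneg_left (by norm_num) (by norm_num) ht0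
    linarith
  have p1 := binC_nonneg hN (t ^ 3 + t ^ 2)
  have p2 := binC_nonneg hN (t ^ 3 - t ^ 2)
  rw [hc, hc2, e1] at h1 h2
  rw [hc] at p1 p2
  constructor
  · have := mul_le_mul_of_nonneg_left e2 p2
    linarith
  · have := mul_le_mul_of_nonneg_left e2 p1
    linarith

private lemma binC_up {N μ : ℕ} (hμ : 0 < μ) (hN : 2 * μ ≤ N) {k l : ℕ} (hkl : k ≤ l)
    (hl : l ≤ μ) : bw N ((μ : ℝ) / N) k ≤ bw N ((μ : ℝ) / N) l := by
  induction l, hkl using Nat.le_induction with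
  | base => exact le_rfl
  | succ l hkl ih => exact (ih (by omega)).trans (bw_up hμ hN (by omega))

private lemma binC_down {N μ : ℕ} (hμ : 0 < μ) (hN : 2 * μ ≤ N) {k l : ℕ} (hk : μ ≤ k)
    (hkl : k ≤ l) : bw N ((μ : ℝ) / N) l ≤ bw N ((μ : ℝ) / N) k := by
  induction l, hkl using Nat.le_induction with
  | base => exact le_rfl
  | succ l hkl ih => exact (bw_down hμ hN (by omega)).trans ih

/-- the weight outside of the window is comparable to the weight of the pairs `k, k - 2 d` -/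
theorem bw_min {N t : ℕ} (ht : 8 ≤ t) (h2 : Even t) (hN : 2 * t ^ 3 ≤ N) :
    ∑ k ∈ (range (N + 1)).filter (fun k => k < t ^ 3 - t ^ 2 ∨ t ^ 3 + t ^ 2 ≤ k),
      bw N ((t : ℝ) ^ 3 / N) k ≤
    6 * ∑ k ∈ Ico (t ^ 3 + t ^ 2 / 2) (t ^ 3 + t ^ 2 + t ^ 2 / 2),
      min (bw N ((t : ℝ) ^ 3 / N) k) (bw N ((t : ℝ) ^ 3 / N) (k - 2 * t ^ 2)) := by
  have hup := bw_tail_up ht h2 hN
  have hdn := bw_tail_down ht h2 hN
  obtain ⟨hr1, hr2⟩ := bw_ratio ht hN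
  have hd2 : ∃ c, t ^ 2 = 2 * c := by
    obtain ⟨r, hr⟩ := h2
    exact ⟨2 * r ^ 2, by rw [hr]; ring⟩
  have hdμ : 8 * t ^ 2 ≤ t ^ 3 := by
    have : t ^ 3 = t * t ^ 2 := by ring
    rw [this]
    exact Nat.mul_le_mul_right _ ht
  have hμ : 0 < t ^ 3 := by positivity
  have hc : ((t ^ 3 : ℕ) : ℝ) = (t : ℝ) ^ 3 := by push_cast; ring
  have mup := @binC_up N (t ^ 3) hμ hN
  have mdn := @binC_down N (t ^ 3) hμ hN
  have hnn := fun k => binC_nonneg (μ := t ^ 3) hN k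
  rw [hc] at mup mdn hnn
  obtain ⟨c, hcd⟩ := hd2
  set b : ℕ → ℝ := fun k => bw N ((t : ℝ) ^ 3 / N) k with hb
  change ∑ k ∈ (range (N + 1)).filter (fun k => k < t ^ 3 - t ^ 2 ∨ t ^ 3 + t ^ 2 ≤ k), b k ≤
    6 * ∑ k ∈ Ico (t ^ 3 + t ^ 2 / 2) (t ^ 3 + t ^ 2 + t ^ 2 / 2), min (b k) (b (k - 2 * t ^ 2))
  change ∑ k ∈ (range (N + 1)).filter (fun k => t ^ 3 + t ^ 2 ≤ k), b k ≤
    2 * ∑ k ∈ Ico (t ^ 3 + t ^ 2) (t ^ 3 + t ^ 2 + t ^ 2 / 2), b k at hup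
  change ∑ k ∈ (range (N + 1)).filter (fun k => k < t ^ 3 - t ^ 2), b k ≤
      2 * ∑ k ∈ Ico (t ^ 3 - t ^ 2 - t ^ 2 / 2) (t ^ 3 - t ^ 2), b k at hdn
  have hmup : ∀ {k l : ℕ}, k ≤ l → l ≤ t ^ 3 → b k ≤ b l := fun h h' => mup h h'
  have hmdn : ∀ {k l : ℕ}, t ^ 3 ≤ k → k ≤ l → b l ≤ b k := fun h h' => mdn h h'
  have hbn : ∀ k, 0 ≤ b k := fun k => hnn k
  have hr1' : b (t ^ 3 + t ^ 2) ≤ 3 * b (t ^ 3 - t ^ 2) := hr1
  have hr2' : b (t ^ 3 - t ^ 2) ≤ 3 * b (t ^ 3 + t ^ 2) := hr2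
  clear_value b
  -- split the left hand side
  have hsplit : ∑ k ∈ (range (N + 1)).filter (fun k => k < t ^ 3 - t ^ 2 ∨ t ^ 3 + t ^ 2 ≤ k), b k
      = ∑ k ∈ (range (N + 1)).filter (fun k => k < t ^ 3 - t ^ 2), b k +
        ∑ k ∈ (range (N + 1)).filter (fun k => t ^ 3 + t ^ 2 ≤ k), b k := by
    rw [filter_or, sum_union]
    rw [disjoint_left]
    intro k hk hk'
    rw [mem_filter] at hk hk'
    omega
  -- split the right hand side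
  have hsplit2 : ∑ k ∈ Ico (t ^ 3 + t ^ 2 / 2) (t ^ 3 + t ^ 2 + t ^ 2 / 2),
        min (b k) (b (k - 2 * t ^ 2)) =
      ∑ k ∈ Ico (t ^ 3 + t ^ 2 / 2) (t ^ 3 + t ^ 2), min (b k) (b (k - 2 * t ^ 2)) +
      ∑ k ∈ Ico (t ^ 3 + t ^ 2) (t ^ 3 + t ^ 2 + t ^ 2 / 2), min (b k) (b (k - 2 * t ^ 2)) := by
    rw [sum_Ico_consecutive _ (by omega) (by omega)]
  have hA : ∑ k ∈ Ico (t ^ 3 + t ^ 2) (t ^ 3 + t ^ 2 + t ^ 2 / 2), b k ≤
      3 * ∑ k ∈ Ico (t ^ 3 + t ^ 2) (t ^ 3 + t ^ 2 + t ^ 2 / 2),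
        min (b k) (b (k - 2 * t ^ 2)) := by
    rw [mul_sum]
    apply sum_le_sum
    intro k hk
    rw [mem_Ico] at hk
    rw [mul_min_of_nonneg _ _ (by norm_num : (0 : ℝ) ≤ 3)]
    refine le_min ?_ ?_
    · linarith [hbn k]
    · have h1 : b k ≤ b (t ^ 3 + t ^ 2) := hmdn (by omega) hk.1
      have h2 : b (t ^ 3 - t ^ 2) ≤ b (k - 2 * t ^ 2) := hmup (by omega) (by omega)
      linarith
  have hB : ∑ k ∈ Ico (t ^ 3 - t ^ 2 - t ^ 2 / 2) (t ^ 3 - t ^ 2), b k ≤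
      3 * ∑ k ∈ Ico (t ^ 3 + t ^ 2 / 2) (t ^ 3 + t ^ 2), min (b k) (b (k - 2 * t ^ 2)) := by
    have hsh : ∑ k ∈ Ico (t ^ 3 - t ^ 2 - t ^ 2 / 2) (t ^ 3 - t ^ 2), b k =
        ∑ k ∈ Ico (t ^ 3 + t ^ 2 / 2) (t ^ 3 + t ^ 2), b (k - 2 * t ^ 2) := by
      have e1 : t ^ 3 + t ^ 2 / 2 = (t ^ 3 - t ^ 2 - t ^ 2 / 2) + 2 * t ^ 2 := by omega
      have e2 : t ^ 3 + t ^ 2 = (t ^ 3 - t ^ 2) + 2 * t ^ 2 := by omega
      rw [e1, e2, ← sum_Ico_add' (fun k => b (k - 2 * t ^ 2))]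
      apply sum_congr rfl
      intro k _
      rw [Nat.add_sub_cancel]
    rw [hsh, mul_sum]
    apply sum_le_sum
    intro k hk
    rw [mem_Ico] at hk
    rw [mul_min_of_nonneg _ _ (by norm_num : (0 : ℝ) ≤ 3)]
    refine le_min ?_ ?_
    · have h1 : b (k - 2 * t ^ 2) ≤ b (t ^ 3 - t ^ 2) := hmup (by omega) (by omega)
      have h2 : b (t ^ 3 + t ^ 2) ≤ b k := hmdn (by omega) (by omega)
      linarith
    · linarith [hbn (k - 2 * t ^ 2)]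
  rw [hsplit, hsplit2]
  linarith

end Pool.Agent.RO
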