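import Mathlib
import Pool.Agent.RO.Defs

set_option autoImplicit false

/-!
# Module RO-Mx: mixtures of the uniform distributions on the `k`-element sets

`fr k Φ` is the proportion of the `k`-sets with `Φ`; `mx q Φ = ∑_k bw N q k * fr k Φ`.  All easy: `Finset.card_powersetCard`,
`Finset.card_filter_le`, `Nat.choose_pos` for `k ≤ N`; `fr k Φ = 0` for `k > N` (`0 / 0`).
-/

namespace Pool.Agent.RO

open Finset

variable {Λ : Type} [Fintype Λ] [DecidableEq Λ]

/-- the probability of `Φ` for a random set containing each element with probability `q` -/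
noncomputable def mx (q : ℝ) (Φ : Finset Λ → Prop) : ℝ :=
  ∑ k ∈ range (Fintype.card Λ + 1), bw (Fintype.card Λ) q k * fr k Φ

theorem fr_nonneg (k : ℕ) (Φ : Finset Λ → Prop) : 0 ≤ fr k Φ := by
  unfold fr
  positivity

theorem fr_le_one (k : ℕ) (Φ : Finset Λ → Prop) : fr k Φ ≤ 1 := by
  classical
  unfold fr
  apply div_le_one_of_le₀ _ (Nat.cast_nonneg _)
  rw [← Finset.card_univ (α := Λ), ← Finset.card_powersetCard k (Finset.univ : Finset Λ)]
  exact_mod_cast Finset.card_filter_le _ _

theorem fr_mono (k : ℕ) {Φ Ψ : Finset Λ → Prop} (h : ∀ G, Φ G → Ψ G) : fr k Φ ≤ fr k Ψ := by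
  classical
  unfold fr
  apply div_le_div_of_nonneg_right _ (Nat.cast_nonneg _)
  exact_mod_cast Finset.card_le_card (Finset.monotone_filter_right _ fun G hG => h G)

open Classical in
theorem fr_card {k : ℕ} (hk : k ≤ Fintype.card Λ) (c : ℕ → Prop) :
    fr k (fun G : Finset Λ => c G.card) = if c k then 1 else 0 := by
  unfold fr
  have h0 : (((Fintype.card Λ).choose k : ℕ) : ℝ) ≠ 0 := by
    exact_mod_cast (Nat.choose_pos hk).ne'
  split_ifs with hc
  · rw [Finset.filter_true_of_mem, Finset.card_powersetCard, Finset.card_univ, div_self h0]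
    intro G hG
    rw [(Finset.mem_powersetCard.1 hG).2]
    exact hc
  · rw [Finset.filter_false_of_mem, Finset.card_empty, Nat.cast_zero, zero_div]
    intro G hG
    rw [(Finset.mem_powersetCard.1 hG).2]
    exact hc

theorem mx_mono {q : ℝ} (hq0 : 0 ≤ q) (hq1 : q ≤ 1) {Φ Ψ : Finset Λ → Prop}
    (h : ∀ G, Φ G → Ψ G) : mx q Φ ≤ mx q Ψ := by
  unfold mx
  apply Finset.sum_le_sum
  intro k _
  apply mul_le_mul_of_nonneg_left (fr_mono k h)
  unfold bw
  have : 0 ≤ 1 - q := by linarith
  positivity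

open Classical in
theorem mx_card (q : ℝ) (c : ℕ → Prop) :
    mx q (fun G : Finset Λ => c G.card) =
      ∑ k ∈ (range (Fintype.card Λ + 1)).filter c, bw (Fintype.card Λ) q k := by
  unfold mx
  rw [Finset.sum_filter]
  apply Finset.sum_congr rfl
  intro k hk
  rw [fr_card (Nat.lt_succ_iff.1 (Finset.mem_range.1 hk)) c]
  split_ifs <;> simp

end Pool.Agent.RO
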