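import Mathlib
import Pool.Agent.RO.Emb
import Pool.Agent.RO.EmbB

set_option autoImplicit false

/-!
# Module RO-StepI: `step_i` (THIS MODULE PROVES ONLY `step_i`; the whole plan of the key step follows)

`Λ` has `N` elements.  `a`, `b` are predicates with certificates of size `P`; `x` is a random injective sequence of
length `j`.  Write `φ = fr h₀ (Fl op a b)`.  Let `k` with `h₀ ≤ k ≤ h₀ + j`.  Work in the probability space of the
triples `ω = (v, (x, y))` with `v : Fin (k - j) ↪ Λ`, `x : Fin j ↪ Λ`, `y : Λ`; `K = pre (k - j) v` (the whole range),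
`T = tr op y x`.  (Note `pre n v` is the whole range for `v : Fin n ↪ Λ`.)

STEPS (each is a lemma here; `ε`-terms explicit):
(o) `pr (¬ Disjoint K T) ≤ j * ((k-j) / N)`: `pr_tr_mem` with `W v x = pre (k-j) v`.
(i) `pr (Disjoint K T ∧ ¬ a x (K ∪ T)) ≤ φ + j * (P / (N - (h₀ - j)))`.
   `K₀ = pre (h₀ - j) v`.  Let `Wa x G` be a chosen certificate set for `a x G` (of card `≤ P`, `∅` if `¬ a x G`).
   If `K, T` are disjoint and not `a x (K ∪ T)` then either `Fl op a b (K₀ ∪ T)` [with `K₀, T` disjoint], or `a x (K₀ ∪ T)`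
   (because `AA op x (K₀ ∪ T)` holds with witness `y`), and then the certificate `Wa x (K₀ ∪ T)` must contain an element of
   `K \ K₀` (otherwise `K ∪ T` agrees with `K₀ ∪ T` on it).  First part: `pr_union_le` with `a := h₀ - j`; second part:
   for fixed `(x, y)` use `pr_miss` with `a := h₀ - j`, `n := k - j`, `W G = Wa x (G ∪ T)`; `n - a = k - h₀ ≤ j`.
(ii) `pr over (v, x) of a x (pre (k-j) v)` (`v : Fin (k-j) ↪ Λ`) `≤ φ + j * (P / (N - (k - j))) + h₀ ^ 2 / (N - 1)`.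
   By `pr_pre` (for each fixed `x`, both sides are `fr (k-j) (a x)`) replace `v` by `v' : Fin h₀ ↪ Λ`, `K = pre (k-j) v'`,
   `K₁ = pre h₀ v'`.  If `a x K` then either `Wa x K` contains an element of `K₁ \ K` (`pr_miss`, `h₀ - (k-j) ≤ j`), or
   `a x K₁`, and then `Fl op a b K₁` (`pr_pre`: probability `φ`), or `AA op x K₁` (`pr_AA_le`).
(iii) `pr (b x K ∧ ¬ b x (K ∪ T)) ≤ j * (P / N)`: `Wb x K` must contain an element of `T`: `pr_tr_mem`.
Then `fr k (Iv a b) ≥ pr (Disjoint K T ∧ Iv a b (K ∪ T))` (`pr_union_le` with `a := k - j`, `(k-j)+j = k`)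
`≥ pr (Disjoint ∧ a x (K∪T) ∧ b x (K∪T)) ≥ pr (b x K) - (o) - (i) - (iii)` and
`fr (k-j) (Iv a b) = pr (Iv a b K) ≥ pr (¬ a x K ∧ ¬ b x K) ≥ 1 - pr (b x K) - (ii)`.
Sum: `≥ 1 - 2 φ - j(k-j)/N - jP/(N-(h₀-j)) - jP/N - jP/(N-(k-j)) - h₀²/(N-1) ≥ 1 - 2/5 - 1/10 = 1/2`, since
`k - j ≤ h₀` and `50 (j h₀ + h₀² + j P) ≤ N` (then `N - h₀ ≥ N/2`, `N - 1 ≥ N/2`, and all the error terms together are
`≤ 5 (j h₀ + h₀² + jP)/N ≤ 1/10`).
-/

namespace Pool.Agent.RO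

variable {Λ : Type} [Fintype Λ] [DecidableEq Λ]

open Classical in
/-- a chosen certificate -/
private noncomputable def Wc {j P : ℕ} {a : (Fin j ↪ Λ) → Finset Λ → Prop} (ha : Cert P a)
    (x : Fin j ↪ Λ) (G : Finset Λ) : Finset Λ :=
  if h : a x G then Classical.choose (ha x G h) else ∅

private theorem Wc_card {j P : ℕ} {a : (Fin j ↪ Λ) → Finset Λ → Prop} (ha : Cert P a)
    (x : Fin j ↪ Λ) (G : Finset Λ) : (Wc ha x G).card ≤ P := by
  unfold Wc
  split_ifs with h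
  · exact (Classical.choose_spec (ha x G h)).1
  · simp

private theorem Wc_spec {j P : ℕ} {a : (Fin j ↪ Λ) → Finset Λ → Prop} (ha : Cert P a)
    (x : Fin j ↪ Λ) (G : Finset Λ) (h : a x G) (G' : Finset Λ)
    (hG : ∀ w ∈ Wc ha x G, w ∈ G' ↔ w ∈ G) : a x G' := by
  have h1 := (Classical.choose_spec (ha x G h)).2 G'
  apply h1
  intro w hw
  apply hG w
  unfold Wc
  rw [dif_pos h]
  exact hw

theorem step_i {op : Λ → Λ → Λ} (hop1 : ∀ x y, op x y = op y x)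
    (hop2 : ∀ x y, op x (op x y) = y) {j h₀ k P : ℕ} (hj : 2 ≤ j) (hjh : j ≤ h₀) (hk : h₀ ≤ k)
    (hkj : k ≤ h₀ + j) (hN : 50 * (j * h₀ + h₀ ^ 2 + j * P) ≤ Fintype.card Λ)
    {a b : (Fin j ↪ Λ) → Finset Λ → Prop} (ha : Cert P a) :
    pr (fun ω : (Fin (k - j) ↪ Λ) × ((Fin j ↪ Λ) × Λ) =>
      Disjoint (pre (k - j) ω.1) (tr op ω.2.2 ω.2.1) ∧
        ¬ a ω.2.1 (pre (k - j) ω.1 ∪ tr op ω.2.2 ω.2.1)) ≤
      fr h₀ (Fl op a b) + j * (P / ((Fintype.card Λ : ℝ) - h₀)) := by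
  have hNh : h₀ + 1 ≤ Fintype.card Λ := by
    refine le_trans ?_ hN
    have h2 : 2 ≤ h₀ := le_trans hj hjh
    nlinarith [Nat.zero_le (j * h₀), Nat.zero_le (j * P)]
  have hn : k - j ≤ Fintype.card Λ := by omega
  have ha0 : h₀ - j ≤ k - j := by omega
  have haj : h₀ - j + j ≤ Fintype.card Λ := by omega
  have heq : h₀ - j + j = h₀ := by omega
  have hE1 := pr_union_le hop1 hop2 (a := h₀ - j) (n := k - j) (j := j) ha0 hn haj (Fl op a b)
  rw [heq] at hE1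
  have hE2 : pr (fun ω : (Fin (k - j) ↪ Λ) × ((Fin j ↪ Λ) × Λ) =>
      ∃ w ∈ Wc ha ω.2.1 (pre (h₀ - j) ω.1 ∪ tr op ω.2.2 ω.2.1),
        w ∈ pre (k - j) ω.1 ∧ w ∉ pre (h₀ - j) ω.1) ≤ j * (P / ((Fintype.card Λ : ℝ) - h₀)) := by
    have hpos : (0 : ℝ) < (Fintype.card Λ : ℝ) - h₀ := by
      have : ((h₀ + 1 : ℕ) : ℝ) ≤ (Fintype.card Λ : ℝ) := by exact_mod_cast hNh
      push_cast at this
      linarith
    apply pr_prod_le'
    · positivity
    · rintro ⟨x, y⟩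
      have h1 := pr_miss (Λ := Λ) (a := h₀ - j) (n := k - j) (P := P) ha0 hn (by omega)
        (fun G => Wc ha x (G ∪ tr op y x)) (fun G => Wc_card ha x _)
      refine le_trans h1 ?_
      have e1 : (((k - j : ℕ) : ℝ)) - ((h₀ - j : ℕ) : ℝ) ≤ (j : ℝ) := by
        have : (k - j : ℕ) ≤ j + (h₀ - j) := by omega
        have h3 : (((k - j : ℕ) : ℝ)) ≤ ((j + (h₀ - j) : ℕ) : ℝ) := by exact_mod_cast this
        push_cast at h3
        linarith
      have e0 : (0 : ℝ) ≤ (((k - j : ℕ) : ℝ)) - ((h₀ - j : ℕ) : ℝ) := by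
        have h3 : (((h₀ - j : ℕ) : ℝ)) ≤ ((k - j : ℕ) : ℝ) := by exact_mod_cast ha0
        linarith
      have e2 : (Fintype.card Λ : ℝ) - h₀ ≤ (Fintype.card Λ : ℝ) - ((h₀ - j : ℕ) : ℝ) := by
        have : ((h₀ - j : ℕ) : ℝ) ≤ (h₀ : ℝ) := by exact_mod_cast Nat.sub_le _ _
        linarith
      have e3 : (P : ℝ) / ((Fintype.card Λ : ℝ) - ((h₀ - j : ℕ) : ℝ)) ≤
          (P : ℝ) / ((Fintype.card Λ : ℝ) - h₀) :=
        div_le_div_of_nonneg_left (by positivity) hpos e2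
      have e4 : (0 : ℝ) ≤ (P : ℝ) / ((Fintype.card Λ : ℝ) - h₀) := by positivity
      calc _ ≤ ((((k - j : ℕ) : ℝ)) - ((h₀ - j : ℕ) : ℝ)) *
            ((P : ℝ) / ((Fintype.card Λ : ℝ) - h₀)) :=
            mul_le_mul_of_nonneg_left e3 e0
        _ ≤ (j : ℝ) * ((P : ℝ) / ((Fintype.card Λ : ℝ) - h₀)) :=
            mul_le_mul_of_nonneg_right e1 e4
  refine le_trans (pr_mono (q := fun ω : (Fin (k - j) ↪ Λ) × ((Fin j ↪ Λ) × Λ) =>
      (Disjoint (pre (h₀ - j) ω.1) (tr op ω.2.2 ω.2.1) ∧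
        Fl op a b (pre (h₀ - j) ω.1 ∪ tr op ω.2.2 ω.2.1)) ∨
      ∃ w ∈ Wc ha ω.2.1 (pre (h₀ - j) ω.1 ∪ tr op ω.2.2 ω.2.1),
        w ∈ pre (k - j) ω.1 ∧ w ∉ pre (h₀ - j) ω.1) ?_)
    (le_trans (pr_or_le _ _) (add_le_add hE1 hE2))
  rintro ⟨v, x, y⟩ ⟨hd, hna⟩
  simp only at hd hna ⊢
  have hsub : pre (h₀ - j) v ⊆ pre (k - j) v := pre_mono ha0 v
  by_cases hax : a x (pre (h₀ - j) v ∪ tr op y x)
  · right
    by_contra hcon
    apply hna
    apply Wc_spec ha x _ hax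
    intro w hw
    constructor
    · intro hw1
      rcases Finset.mem_union.1 hw1 with h1 | h1
      · by_contra hw2
        apply hcon
        refine ⟨w, hw, h1, ?_⟩
        intro h3
        exact hw2 (Finset.mem_union_left _ h3)
      · exact Finset.mem_union_right _ h1
    · intro hw1
      exact Finset.union_subset_union_left hsub hw1
  · left
    refine ⟨Finset.disjoint_of_subset_left hsub hd, x, Or.inl ?_⟩
    intro hiff
    apply hax
    rw [hiff]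
    refine ⟨y, fun i => ?_⟩
    apply Finset.mem_union_right
    unfold tr
    exact Finset.mem_image_of_mem _ (Finset.mem_univ i)

end Pool.Agent.RO
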