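import Mathlib
import Pool.Agent.RO.Emb
import Pool.Agent.RO.EmbB

set_option autoImplicit false

/-!
# Module RO-StepII: `step_ii`

`Λ` has `N` elements, `a`, `b` are predicates with certificates of size `P`, `x` is a random injective sequence of
length `j`, and `φ = fr h₀ (Fl op a b)`.  For `h₀ ≤ k ≤ h₀ + j` the probability of `a x K`, `K` a random set with `k - j`
elements which does not depend on `x`, is at most `φ + j * (P / (N - h₀)) + h₀ ^ 2 / (N - 1)`: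
replace `K` by the first `k - j` values of an injective sequence of length `h₀`, with set `K₁` of values.
If `a x K` then either a certificate of `a x K` contains an element of `K₁ \ K` (`pr_miss`), or `a x K₁`, and then
`Fl op a b K₁` (`pr_pre`) or `AA op x K₁` (`pr_AA_le`).
-/

namespace Pool.Agent.RO

variable {Λ : Type} [Fintype Λ] [DecidableEq Λ]

theorem step_ii {op : Λ → Λ → Λ} (hop1 : ∀ x y, op x y = op y x)
    (hop2 : ∀ x y, op x (op x y) = y) {j h₀ k P : ℕ} (hj : 2 ≤ j) (hjh : j ≤ h₀) (hk : h₀ ≤ k)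
    (hkj : k ≤ h₀ + j) (hN : 50 * (j * h₀ + h₀ ^ 2 + j * P) ≤ Fintype.card Λ)
    {a b : (Fin j ↪ Λ) → Finset Λ → Prop} (ha : Cert P a) :
    pr (fun ω : (Fin (k - j) ↪ Λ) × ((Fin j ↪ Λ) × Λ) => a ω.2.1 (pre (k - j) ω.1)) ≤
      fr h₀ (Fl op a b) + j * (P / ((Fintype.card Λ : ℝ) - h₀)) +
        (h₀ : ℝ) ^ 2 / ((Fintype.card Λ : ℝ) - 1) := by
  classical
  have hh2 : 2 ≤ h₀ := le_trans hj hjh
  have hNh : 50 * h₀ ≤ Fintype.card Λ := by
    refine le_trans ?_ hN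
    nlinarith [Nat.zero_le (j * P), Nat.zero_le (j * h₀)]
  have hh0N : h₀ < Fintype.card Λ := by omega
  have hNpos : 0 < Fintype.card Λ := by omega
  have hne : Nonempty Λ := Fintype.card_pos_iff.mp hNpos
  have hnev : Nonempty (Fin h₀ ↪ Λ) := by
    apply Function.Embedding.nonempty_of_card_le
    simp; omega
  have hnex : Nonempty (Fin j ↪ Λ) := by
    apply Function.Embedding.nonempty_of_card_le
    simp; omega
  -- certificates
  have hcert : ∀ x G, ∃ W : Finset Λ, W.card ≤ P ∧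
      (a x G → ∀ G' : Finset Λ, (∀ w ∈ W, w ∈ G' ↔ w ∈ G) → a x G') := by
    intro x G
    by_cases h : a x G
    · obtain ⟨W, hW, hW2⟩ := ha x G h
      exact ⟨W, hW, fun _ => hW2⟩
    · exact ⟨∅, by simp, fun h' => absurd h' h⟩
  choose W hWc hWa using hcert
  -- replace the short sequence by a sequence of length `h₀`
  have hrep : pr (fun ω : (Fin (k - j) ↪ Λ) × ((Fin j ↪ Λ) × Λ) => a ω.2.1 (pre (k - j) ω.1)) =
      pr (fun ω : (Fin h₀ ↪ Λ) × ((Fin j ↪ Λ) × Λ) => a ω.2.1 (pre (k - j) ω.1)) := by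
    rw [pr_prod', pr_prod']
    congr 1
    refine Finset.sum_congr rfl fun xy _ => ?_
    have h1 := pr_pre (Λ := Λ) (a := k - j) (n := k - j) le_rfl (by omega) (a xy.1)
    have h2 := pr_pre (Λ := Λ) (a := k - j) (n := h₀) (by omega) (by omega) (a xy.1)
    exact h1.trans h2.symm
  rw [hrep]
  -- decomposition
  have hdec : ∀ ω : (Fin h₀ ↪ Λ) × ((Fin j ↪ Λ) × Λ), a ω.2.1 (pre (k - j) ω.1) →
      ((∃ w ∈ W ω.2.1 (pre (k - j) ω.1), w ∈ pre h₀ ω.1 ∧ w ∉ pre (k - j) ω.1) ∨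
        (Fl op a b (pre h₀ ω.1) ∨ AA op ω.2.1 (pre h₀ ω.1))) := by
    intro ω hω
    by_cases hw : ∃ w ∈ W ω.2.1 (pre (k - j) ω.1), w ∈ pre h₀ ω.1 ∧ w ∉ pre (k - j) ω.1
    · exact Or.inl hw
    · right
      push Not at hw
      have ha1 : a ω.2.1 (pre h₀ ω.1) := by
        refine hWa _ _ hω _ fun w hwW => ⟨fun h => hw w hwW h, fun h => ?_⟩
        exact pre_mono (show k - j ≤ h₀ by omega) ω.1 h
      by_cases hA : AA op ω.2.1 (pre h₀ ω.1)
      · exact Or.inr hA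
      · left
        exact ⟨ω.2.1, Or.inl fun h => hA (h.mp ha1)⟩
  have hstep1 : pr (fun ω : (Fin h₀ ↪ Λ) × ((Fin j ↪ Λ) × Λ) => a ω.2.1 (pre (k - j) ω.1)) ≤
      pr (fun ω : (Fin h₀ ↪ Λ) × ((Fin j ↪ Λ) × Λ) =>
        ∃ w ∈ W ω.2.1 (pre (k - j) ω.1), w ∈ pre h₀ ω.1 ∧ w ∉ pre (k - j) ω.1) +
      (pr (fun ω : (Fin h₀ ↪ Λ) × ((Fin j ↪ Λ) × Λ) => Fl op a b (pre h₀ ω.1)) +
        pr (fun ω : (Fin h₀ ↪ Λ) × ((Fin j ↪ Λ) × Λ) => AA op ω.2.1 (pre h₀ ω.1))) := by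
    refine (pr_mono hdec).trans ((pr_or_le _ _).trans ?_)
    exact add_le_add le_rfl (pr_or_le _ _)
  have hNr : (0 : ℝ) < (Fintype.card Λ : ℝ) - h₀ := by
    have : (h₀ : ℝ) < (Fintype.card Λ : ℝ) := by exact_mod_cast hh0N
    linarith
  have hcast : ((k - j : ℕ) : ℝ) = (k : ℝ) - j := by
    push_cast [Nat.cast_sub (show j ≤ k by omega)]; ring
  have hk' : (h₀ : ℝ) ≤ k := by exact_mod_cast hk
  have hkj' : (k : ℝ) ≤ h₀ + j := by exact_mod_cast hkj
  have hA : pr (fun ω : (Fin h₀ ↪ Λ) × ((Fin j ↪ Λ) × Λ) =>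
        ∃ w ∈ W ω.2.1 (pre (k - j) ω.1), w ∈ pre h₀ ω.1 ∧ w ∉ pre (k - j) ω.1) ≤
      j * (P / ((Fintype.card Λ : ℝ) - h₀)) := by
    have hP0 : (0 : ℝ) ≤ P / ((Fintype.card Λ : ℝ) - h₀) := by positivity
    refine pr_prod_le' (by positivity) fun xy => ?_
    have h1 := pr_miss (Λ := Λ) (a := k - j) (n := h₀) (P := P) (by omega) (by omega) (by omega)
      (W xy.1) (hWc xy.1)
    refine h1.trans ?_
    rw [hcast]
    have h2 : (P : ℝ) / ((Fintype.card Λ : ℝ) - ((k : ℝ) - j)) ≤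
        P / ((Fintype.card Λ : ℝ) - h₀) := by
      apply div_le_div_of_nonneg_left (by positivity) hNr
      linarith
    have h3 : (h₀ : ℝ) - ((k : ℝ) - j) ≤ j := by linarith
    have h4 : (0 : ℝ) ≤ (P : ℝ) / ((Fintype.card Λ : ℝ) - ((k : ℝ) - j)) := by
      apply div_nonneg (by positivity)
      linarith
    calc ((h₀ : ℝ) - ((k : ℝ) - j)) * (P / ((Fintype.card Λ : ℝ) - ((k : ℝ) - j)))
        ≤ j * (P / ((Fintype.card Λ : ℝ) - ((k : ℝ) - j))) :=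
          mul_le_mul_of_nonneg_right h3 h4
      _ ≤ j * (P / ((Fintype.card Λ : ℝ) - h₀)) :=
          mul_le_mul_of_nonneg_left h2 (by positivity)
  have hB : pr (fun ω : (Fin h₀ ↪ Λ) × ((Fin j ↪ Λ) × Λ) => Fl op a b (pre h₀ ω.1)) ≤
      fr h₀ (Fl op a b) := by
    have h1 := pr_fst (α := Fin h₀ ↪ Λ) (β := (Fin j ↪ Λ) × Λ)
      (fun v => Fl op a b (pre h₀ v))
    have h2 := pr_pre (Λ := Λ) (a := h₀) (n := h₀) le_rfl (by omega) (Fl op a b)
    exact le_of_eq (h1.trans h2)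
  have hN1 : (0 : ℝ) < (Fintype.card Λ : ℝ) - 1 := by
    have : (1 : ℝ) < (Fintype.card Λ : ℝ) := by
      have : 1 < Fintype.card Λ := by omega
      exact_mod_cast this
    linarith
  have hC : pr (fun ω : (Fin h₀ ↪ Λ) × ((Fin j ↪ Λ) × Λ) => AA op ω.2.1 (pre h₀ ω.1)) ≤
      (h₀ : ℝ) ^ 2 / ((Fintype.card Λ : ℝ) - 1) := by
    refine pr_prod_le (by positivity) fun v => ?_
    have h1 := pr_fst (α := Fin j ↪ Λ) (β := Λ) (fun x => AA op x (pre h₀ v))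
    have h2 := pr_AA_le hop1 hop2 hj (by omega) (pre h₀ v) (h := h₀) (le_of_eq (card_pre le_rfl v))
    exact (le_of_eq h1).trans h2
  linarith

end Pool.Agent.RO
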