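import Mathlib
import Pool.Agent.RO.StepI
import Pool.Agent.RO.StepII

set_option autoImplicit false

/-!
# Module RO-Step: `step_iii` and the key step (`step_i`, `step_ii` are proved in other modules)

`Λ` has `N` elements.  `a`, `b` are predicates with certificates of size `P`; `x` is a random injective sequence of
length `j`.  Write `φ = fr h₀ (Fl op a b)`.  Let `k` with `h₀ ≤ k ≤ h₀ + j`.  Work in the probability space of the
triples `ω = (v, (x, y))` with `v : Fin (k - j) ↪ Λ`, `x : Fin j ↪ Λ`, `y : Λ`; `K = pre (k - j) v` (the whole range),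
`T = tr op y x`.  (Note `pre n v` is the whole range for `v : Fin n ↪ Λ`.)

STEPS (each is a lemma here; `ε`-terms explicit):
(o) `pr (¬ Disjoint K T) ≤ j * ((k-j) / N)`: `pr_tr_mem` with `W v x = pre (k-j) v`.
(i) `pr (Disjoint K T ∧ ¬ a x (K ∪ T)) ≤ φ + j * (P / (N - (h₀ - j)))`.
   `K₀ = pre (h₀ - j) v`.  Let `Wa x G` be a chosen certificate set for `a x G` (of card `≤ P`, `∅` if `¬ a x G`).
   If `K, T` are disjoint and not `a x (K ∪ T)` then either `Fl op a b (K₀ ∪ T)` [with `K₀, T` disjoint], or `a x (K₀ ∪ T)`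
   (because `AA op x (K₀ ∪ T)` holds with witness `y`), and then the certificate `Wa x (K₀ ∪ T)` must contain an element of
   `K \ K₀` (otherwise `K ∪ T` agrees with `K₀ ∪ T` on it).  First part: `pr_union_le` with `a := h₀ - j`; second part:
   for fixed `(x, y)` use `pr_miss` with `a := h₀ - j`, `n := k - j`, `W G = Wa x (G ∪ T)`; `n - a = k - h₀ ≤ j`.
(ii) `pr over (v, x) of a x (pre (k-j) v)` (`v : Fin (k-j) ↪ Λ`) `≤ φ + j * (P / (N - (k - j))) + h₀ ^ 2 / (N - 1)`.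
   By `pr_pre` (for each fixed `x`, both sides are `fr (k-j) (a x)`) replace `v` by `v' : Fin h₀ ↪ Λ`, `K = pre (k-j) v'`,
   `K₁ = pre h₀ v'`.  If `a x K` then either `Wa x K` contains an element of `K₁ \ K` (`pr_miss`, `h₀ - (k-j) ≤ j`), or
   `a x K₁`, and then `Fl op a b K₁` (`pr_pre`: probability `φ`), or `AA op x K₁` (`pr_AA_le`).
(iii) `pr (b x K ∧ ¬ b x (K ∪ T)) ≤ j * (P / N)`: `Wb x K` must contain an element of `T`: `pr_tr_mem`.
Then `fr k (Iv a b) ≥ pr (Disjoint K T ∧ Iv a b (K ∪ T))` (`pr_union_le` with `a := k - j`, `(k-j)+j = k`)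
`≥ pr (Disjoint ∧ a x (K∪T) ∧ b x (K∪T)) ≥ pr (b x K) - (o) - (i) - (iii)` and
`fr (k-j) (Iv a b) = pr (Iv a b K) ≥ pr (¬ a x K ∧ ¬ b x K) ≥ 1 - pr (b x K) - (ii)`.
Sum: `≥ 1 - 2 φ - j(k-j)/N - jP/(N-(h₀-j)) - jP/N - jP/(N-(k-j)) - h₀²/(N-1) ≥ 1 - 2/5 - 1/10 = 1/2`, since
`k - j ≤ h₀` and `50 (j h₀ + h₀² + j P) ≤ N` (then `N - h₀ ≥ N/2`, `N - 1 ≥ N/2`, and all the error terms together are
`≤ 5 (j h₀ + h₀² + jP)/N ≤ 1/10`).
-/

namespace Pool.Agent.RO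

variable {Λ : Type} [Fintype Λ] [DecidableEq Λ]

open Classical in
/-- a chosen certificate -/
private noncomputable def Wd {j P : ℕ} {a : (Fin j ↪ Λ) → Finset Λ → Prop} (ha : Cert P a)
    (x : Fin j ↪ Λ) (G : Finset Λ) : Finset Λ :=
  if h : a x G then Classical.choose (ha x G h) else ∅

private theorem Wd_card {j P : ℕ} {a : (Fin j ↪ Λ) → Finset Λ → Prop} (ha : Cert P a)
    (x : Fin j ↪ Λ) (G : Finset Λ) : (Wd ha x G).card ≤ P := by
  unfold Wd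
  split_ifs with h
  · exact (Classical.choose_spec (ha x G h)).1
  · simp

private theorem Wd_spec {j P : ℕ} {a : (Fin j ↪ Λ) → Finset Λ → Prop} (ha : Cert P a)
    (x : Fin j ↪ Λ) (G : Finset Λ) (h : a x G) (G' : Finset Λ)
    (hG : ∀ w ∈ Wd ha x G, w ∈ G' ↔ w ∈ G) : a x G' := by
  have h1 := (Classical.choose_spec (ha x G h)).2 G'
  apply h1
  intro w hw
  apply hG w
  unfold Wd
  rw [dif_pos h]
  exact hw

theorem step_iii {op : Λ → Λ → Λ} (hop1 : ∀ x y, op x y = op y x)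
    (hop2 : ∀ x y, op x (op x y) = y) {j n P : ℕ}
    {b : (Fin j ↪ Λ) → Finset Λ → Prop} (hb : Cert P b) :
    pr (fun ω : (Fin n ↪ Λ) × ((Fin j ↪ Λ) × Λ) =>
      b ω.2.1 (pre n ω.1) ∧ ¬ b ω.2.1 (pre n ω.1 ∪ tr op ω.2.2 ω.2.1)) ≤
      j * (P / (Fintype.card Λ : ℝ)) := by
  refine le_trans (pr_mono ?_) (pr_tr_mem hop1 hop2 (n := n) (j := j) (P := P)
    (fun v x => Wd hb x (pre n v)) (fun v x => Wd_card hb x _))
  rintro ⟨v, x, y⟩ ⟨h1, h2⟩
  simp only at h1 h2 ⊢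
  by_contra hcon
  push Not at hcon
  apply h2
  apply Wd_spec hb x _ h1
  intro w hw
  constructor
  · intro h3
    rcases Finset.mem_union.1 h3 with h4 | h4
    · exact h4
    · exfalso
      rw [tr, Finset.mem_image] at h4
      obtain ⟨i, _, hi⟩ := h4
      exact hcon i (hi ▸ hw)
  · exact fun h3 => Finset.mem_union_left _ h3

/-- the key step -/
theorem key_step {op : Λ → Λ → Λ} (hop1 : ∀ x y, op x y = op y x)
    (hop2 : ∀ x y, op x (op x y) = y) {j h₀ k P : ℕ} (hj : 2 ≤ j) (hjh : j ≤ h₀) (hk : h₀ ≤ k)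
    (hkj : k ≤ h₀ + j) (hN : 50 * (j * h₀ + h₀ ^ 2 + j * P) ≤ Fintype.card Λ)
    {a b : (Fin j ↪ Λ) → Finset Λ → Prop} (ha : Cert P a) (hb : Cert P b)
    (hφ : fr h₀ (Fl op a b) ≤ 1 / 5) :
    1 / 2 ≤ fr k (Iv a b) + fr (k - j) (Iv a b) := by
  have h2h : 2 ≤ h₀ := le_trans hj hjh
  have hNb : 50 * h₀ ^ 2 ≤ Fintype.card Λ := by
    refine le_trans ?_ hN
    nlinarith [Nat.zero_le (j * h₀), Nat.zero_le (j * P)]
  have hN4 : 4 * h₀ ≤ Fintype.card Λ := by nlinarith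
  have hkN : k ≤ Fintype.card Λ := by omega
  have hkjN : k - j ≤ Fintype.card Λ := by omega
  have hjN : j ≤ Fintype.card Λ := by omega
  have hkk : k - j + j = k := by omega
  haveI hne1 : Nonempty (Fin (k - j) ↪ Λ) :=
    ⟨(Fin.castLEEmb hkjN).trans (Fintype.equivFin Λ).symm.toEmbedding⟩
  haveI hne2 : Nonempty (Fin j ↪ Λ) :=
    ⟨(Fin.castLEEmb hjN).trans (Fintype.equivFin Λ).symm.toEmbedding⟩
  haveI hne3 : Nonempty Λ := Fintype.card_pos_iff.1 (by omega)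
  have s1 := step_i hop1 hop2 hj hjh hk hkj hN (a := a) (b := b) ha
  have s2 := step_ii hop1 hop2 hj hjh hk hkj hN (a := a) (b := b) ha
  have s3 := step_iii hop1 hop2 (n := k - j) hb
  -- disjointness
  have s0 : pr (fun ω : (Fin (k - j) ↪ Λ) × ((Fin j ↪ Λ) × Λ) =>
      ¬ Disjoint (pre (k - j) ω.1) (tr op ω.2.2 ω.2.1)) ≤ j * ((h₀ : ℝ) / Fintype.card Λ) := by
    refine le_trans (pr_mono ?_) (pr_tr_mem hop1 hop2 (n := k - j) (j := j) (P := h₀)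
      (fun v _ => pre (k - j) v) (fun v _ => ?_))
    · rintro ⟨v, x, y⟩ h
      simp only at h ⊢
      rw [Finset.not_disjoint_iff] at h
      obtain ⟨w, h1, h2⟩ := h
      rw [tr, Finset.mem_image] at h2
      obtain ⟨i, _, hi⟩ := h2
      exact ⟨i, hi ▸ h1⟩
    · rw [card_pre le_rfl]
      omega
  -- the union
  have s4 := pr_union_le hop1 hop2 (a := k - j) (n := k - j) (j := j) le_rfl hkjN
    (by omega) (Iv a b)
  rw [hkk] at s4
  -- the smaller set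
  have s5 : pr (fun ω : (Fin (k - j) ↪ Λ) × ((Fin j ↪ Λ) × Λ) => Iv a b (pre (k - j) ω.1)) =
      fr (k - j) (Iv a b) := by
    rw [← pr_pre le_rfl hkjN (Iv a b)]
    exact pr_fst (α := Fin (k - j) ↪ Λ) (β := (Fin j ↪ Λ) × Λ) fun v => Iv a b (pre (k - j) v)
  -- combination
  set Q : ((Fin (k - j) ↪ Λ) × ((Fin j ↪ Λ) × Λ)) → Prop := fun ω => b ω.2.1 (pre (k - j) ω.1)
    with hQ
  have c1 : pr Q ≤ pr (fun ω : (Fin (k - j) ↪ Λ) × ((Fin j ↪ Λ) × Λ) =>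
      Disjoint (pre (k - j) ω.1) (tr op ω.2.2 ω.2.1) ∧
        Iv a b (pre (k - j) ω.1 ∪ tr op ω.2.2 ω.2.1)) +
      (pr (fun ω : (Fin (k - j) ↪ Λ) × ((Fin j ↪ Λ) × Λ) =>
        ¬ Disjoint (pre (k - j) ω.1) (tr op ω.2.2 ω.2.1)) +
      (pr (fun ω : (Fin (k - j) ↪ Λ) × ((Fin j ↪ Λ) × Λ) =>
        Disjoint (pre (k - j) ω.1) (tr op ω.2.2 ω.2.1) ∧
          ¬ a ω.2.1 (pre (k - j) ω.1 ∪ tr op ω.2.2 ω.2.1)) +
      pr (fun ω : (Fin (k - j) ↪ Λ) × ((Fin j ↪ Λ) × Λ) =>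
        b ω.2.1 (pre (k - j) ω.1) ∧ ¬ b ω.2.1 (pre (k - j) ω.1 ∪ tr op ω.2.2 ω.2.1)))) := by
    refine le_trans (pr_mono ?_) (le_trans (pr_or_le _ _) (add_le_add le_rfl
      (le_trans (pr_or_le _ _) (add_le_add le_rfl (pr_or_le _ _)))))
    rintro ⟨v, x, y⟩ h
    simp only [hQ] at h ⊢
    by_cases d : Disjoint (pre (k - j) v) (tr op y x)
    · by_cases e : a x (pre (k - j) v ∪ tr op y x)
      · by_cases f : b x (pre (k - j) v ∪ tr op y x)
        · exact Or.inl ⟨d, x, iff_of_true e f⟩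
        · exact Or.inr (Or.inr (Or.inr ⟨h, f⟩))
      · exact Or.inr (Or.inr (Or.inl ⟨d, e⟩))
    · exact Or.inr (Or.inl d)
  have c2 : pr (fun ω => ¬ Q ω) ≤ fr (k - j) (Iv a b) +
      pr (fun ω : (Fin (k - j) ↪ Λ) × ((Fin j ↪ Λ) × Λ) => a ω.2.1 (pre (k - j) ω.1)) := by
    rw [← s5]
    refine le_trans (pr_mono ?_) (pr_or_le _ _)
    rintro ⟨v, x, y⟩ h
    simp only [hQ] at h ⊢
    by_cases e : a x (pre (k - j) v)
    · exact Or.inr e
    · exact Or.inl ⟨x, iff_of_false e h⟩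
  rw [pr_not] at c2
  -- arithmetic
  have hNr : (50 : ℝ) * (j * h₀ + h₀ ^ 2 + j * P) ≤ Fintype.card Λ := by exact_mod_cast hN
  have hN4r : (4 : ℝ) * h₀ ≤ Fintype.card Λ := by exact_mod_cast hN4
  have h2r : (2 : ℝ) ≤ h₀ := by exact_mod_cast h2h
  set N : ℝ := (Fintype.card Λ : ℝ) with hNdef
  have hNpos : 0 < N := by linarith
  have jp : (0 : ℝ) ≤ j := Nat.cast_nonneg _
  have hp : (0 : ℝ) ≤ h₀ := Nat.cast_nonneg _
  have pp : (0 : ℝ) ≤ P := Nat.cast_nonneg _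
  have b1 : (j : ℝ) * (P / (N - h₀)) ≤ 2 * (j * P) / N := by
    rw [mul_div_assoc', div_le_div_iff₀ (by linarith) hNpos]
    have : 0 ≤ (j : ℝ) * P := mul_nonneg jp pp
    nlinarith
  have b2 : (h₀ : ℝ) ^ 2 / (N - 1) ≤ 2 * h₀ ^ 2 / N := by
    rw [div_le_div_iff₀ (by linarith) hNpos]
    have : 0 ≤ (h₀ : ℝ) ^ 2 := sq_nonneg _
    nlinarith
  have b3 : (j : ℝ) * (h₀ / N) = (j * h₀) / N := by ring
  have b4 : (j : ℝ) * (P / N) = (j * P) / N := by ring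
  have b5 : (j * h₀) / N + 5 * ((j * P) / N) + 2 * h₀ ^ 2 / N ≤ 1 / 10 := by
    have e1 : (j * h₀) / N + 5 * ((j * P) / N) + 2 * (h₀ : ℝ) ^ 2 / N =
        (j * h₀ + 5 * (j * P) + 2 * h₀ ^ 2) / N := by ring
    rw [e1, div_le_iff₀ hNpos]
    have : 0 ≤ (j : ℝ) * P := mul_nonneg jp pp
    have : 0 ≤ (j : ℝ) * h₀ := mul_nonneg jp hp
    nlinarith [sq_nonneg (h₀ : ℝ)]
  have b6 : 2 * ((j : ℝ) * P) / N = 2 * ((j * P) / N) := by ring
  rw [b3] at s0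
  rw [b4] at s3
  linarith

end Pool.Agent.RO
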