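import Mathlib
import Pool.Agent.RO.Step
import Pool.Agent.RO.Binom
import Pool.Agent.RO.BinomC
import Pool.Agent.RO.Mx

set_option autoImplicit false

/-!
# Module RO-Core: the core lemma

`mx q Φ = ∑_k bw N q k * fr k Φ` is the probability of `Φ` for a random set which contains each element with
probability `q`.

PLAN (`t, μ = t³, d = t², j = 2d`, `q = μ/N`).  `mx` is additive and monotone; `fr k Φ ∈ [0,1]`, `fr k True = 1` for `k ≤ N`;
`fr k (fun G => c G.card) = if c k then 1 else 0` for `k ≤ N`; `mx q True = 1` (`sum_bw`).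
* `core_mx`.  Suppose `mx q (Fl op a b) < 1/10`.  By `bw_mid` some `h₀ ∈ Icc (μ - d/2) (μ + d/2)` has `fr h₀ (Fl op a b) ≤ 1/5`
  (otherwise `mx q Fl ≥ ∑_{Icc} bw k * (1/5) ≥ 1/10`; note `μ + d/2 ≤ N`).  `key_step` for all `k ∈ Ico h₀ (h₀ + 2d)` (check
  `50 (j h₀ + h₀² + jP) ≤ 200 t⁶ (P+1) ≤ N`, with `j = 2t²`, `h₀ ≤ t³ + t²/2`, `t ≥ 8`).  Hence
  `mx q (Iv a b) ≥ ∑_{k ∈ Ico h₀ (h₀+2d)} (bw k * ι_k + bw (k-2d) * ι_{k-2d}) ≥ ∑ min(bw k, bw (k-2d)) * (1/2)`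
  (the index sets `Ico h₀ (h₀+2d)` and `Ico (h₀-2d) h₀` are disjoint), and `Ico (μ+d/2) (μ+3d/2) ⊆ Ico h₀ (h₀+2d)`, so
  `bw_min` gives `mx q (outside) ≤ 6 * ∑ min ≤ 12 * mx q (Iv a b)`, where `mx q (outside) = ∑_{filter} bw k`.
-/

namespace Pool.Agent.RO

open Finset

variable {Λ : Type} [Fintype Λ] [DecidableEq Λ]

theorem core_mx {op : Λ → Λ → Λ} (hop1 : ∀ x y, op x y = op y x)
    (hop2 : ∀ x y, op x (op x y) = y) {t j P : ℕ} (ht : 8 ≤ t) (h2 : Even t) (hj : j = 2 * t ^ 2)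
    (hN : 200 * t ^ 6 * (P + 1) ≤ Fintype.card Λ)
    {a b : (Fin j ↪ Λ) → Finset Λ → Prop} (ha : Cert P a) (hb : Cert P b) :
    1 / 10 ≤ mx ((t : ℝ) ^ 3 / Fintype.card Λ) (Fl op a b) ∨
      mx ((t : ℝ) ^ 3 / Fintype.card Λ)
        (fun G : Finset Λ => G.card < t ^ 3 - t ^ 2 ∨ t ^ 3 + t ^ 2 ≤ G.card) ≤
      12 * mx ((t : ℝ) ^ 3 / Fintype.card Λ) (Iv a b) := by
  subst hj
  obtain ⟨A, hA⟩ : ∃ A, A = t ^ 2 := ⟨_, rfl⟩
  obtain ⟨B, hB⟩ : ∃ B, B = t ^ 3 := ⟨_, rfl⟩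
  obtain ⟨N, hNN⟩ : ∃ N, N = Fintype.card Λ := ⟨_, rfl⟩
  have hA64 : 64 ≤ A := by rw [hA]; nlinarith
  have hAB : 8 * A ≤ B := by
    have : B = t * A := by rw [hA, hB]; ring
    rw [this]; exact Nat.mul_le_mul_right _ ht
  have h6 : t ^ 6 = B * B := by rw [hB]; ring
  have hNB : 200 * (B * B) * (P + 1) ≤ N := by rw [← h6, hNN]; exact hN
  have hBB : B ≤ B * B := Nat.le_mul_self B
  have hNB2 : 200 * (B * B) ≤ N := le_trans (Nat.le_mul_of_pos_right _ (Nat.succ_pos P)) hNB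
  have hN2 : 2 * t ^ 3 ≤ Fintype.card Λ := by rw [← hNN, ← hB]; omega
  have hNpos : (0 : ℝ) < N := by
    have : 0 < N := by omega
    exact_mod_cast this
  set q : ℝ := (t : ℝ) ^ 3 / Fintype.card Λ with hq
  have hq0 : 0 ≤ q := by positivity
  have hq1 : q ≤ 1 := by
    rw [hq, ← hNN, div_le_one hNpos]
    have : B ≤ N := by omega
    rw [hB] at this
    exact_mod_cast this
  by_cases hFl : 1 / 10 ≤ mx q (Fl op a b)
  · exact Or.inl hFl
  refine Or.inr ?_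
  have hbw : ∀ k, 0 ≤ bw (Fintype.card Λ) q k := fun k => bw_nonneg hq0 hq1 k
  have hmid := bw_mid (N := Fintype.card Λ) ht h2 hN2
  rw [← hq] at hmid
  -- the level `h₀`
  obtain ⟨h₀, hh, hφ⟩ : ∃ h₀ ∈ Icc (t ^ 3 - t ^ 2 / 2) (t ^ 3 + t ^ 2 / 2),
      fr h₀ (Fl op a b) ≤ 1 / 5 := by
    by_contra hcon
    push Not at hcon
    apply hFl
    have hsub : Icc (t ^ 3 - t ^ 2 / 2) (t ^ 3 + t ^ 2 / 2) ⊆ range (Fintype.card Λ + 1) := by
      intro k hk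
      rw [mem_Icc] at hk
      rw [mem_range, ← hNN]
      rw [← hA, ← hB] at hk
      omega
    have h1 : ∑ k ∈ Icc (t ^ 3 - t ^ 2 / 2) (t ^ 3 + t ^ 2 / 2),
        bw (Fintype.card Λ) q k * fr k (Fl op a b) ≤ mx q (Fl op a b) := by
      rw [mx]
      exact sum_le_sum_of_subset_of_nonneg hsub
        fun k _ _ => mul_nonneg (hbw k) (fr_nonneg k _)
    have h3 : ∑ k ∈ Icc (t ^ 3 - t ^ 2 / 2) (t ^ 3 + t ^ 2 / 2),
        bw (Fintype.card Λ) q k * (1 / 5) ≤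
        ∑ k ∈ Icc (t ^ 3 - t ^ 2 / 2) (t ^ 3 + t ^ 2 / 2),
        bw (Fintype.card Λ) q k * fr k (Fl op a b) :=
      sum_le_sum fun k hk => mul_le_mul_of_nonneg_left (hcon k hk).le (hbw k)
    rw [← sum_mul] at h3
    linarith
  rw [mem_Icc, ← hA, ← hB] at hh
  obtain ⟨hh1, hh2⟩ := hh
  -- the key step
  have hkey : ∀ k ∈ Ico h₀ (h₀ + 2 * A), 1 / 2 ≤ fr k (Iv a b) + fr (k - 2 * t ^ 2) (Iv a b) := by
    intro k hk
    rw [mem_Ico] at hk
    refine key_step hop1 hop2 (h₀ := h₀) ?_ ?_ hk.1 ?_ ?_ ha hb hφ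
    · rw [← hA]; omega
    · rw [← hA]; omega
    · rw [← hA]; omega
    · rw [← hNN, ← hA]
      refine le_trans ?_ hNB
      have e1 : h₀ ≤ 2 * B := by omega
      have e2 : 2 * A * h₀ ≤ B * B := by
        have : 2 * A * h₀ ≤ 2 * A * (2 * B) := Nat.mul_le_mul_left _ e1
        nlinarith
      have e3 : h₀ ^ 2 ≤ 3 * (B * B) := by
        have e4 : 16 * h₀ ≤ 17 * B := by omega
        nlinarith
      have e5 : 2 * A * P ≤ 4 * (B * B) * P := Nat.mul_le_mul_right _ (by nlinarith)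
      nlinarith
  -- the lower bound for the probability of invalidity
  have hg : ∀ k, 0 ≤ bw (Fintype.card Λ) q k * fr k (Iv a b) := fun k =>
    mul_nonneg (hbw k) (fr_nonneg k _)
  have hlow : ∑ k ∈ Ico h₀ (h₀ + 2 * A), min (bw (Fintype.card Λ) q k)
      (bw (Fintype.card Λ) q (k - 2 * t ^ 2)) * (1 / 2) ≤ mx q (Iv a b) := by
    have s1 : ∑ k ∈ Ico (h₀ - 2 * A) (h₀ + 2 * A), bw (Fintype.card Λ) q k * fr k (Iv a b) ≤
        mx q (Iv a b) := by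
      rw [mx]
      refine sum_le_sum_of_subset_of_nonneg ?_ fun k _ _ => hg k
      intro k hk
      rw [mem_Ico] at hk
      rw [mem_range, ← hNN]
      omega
    refine le_trans ?_ s1
    rw [← sum_Ico_consecutive _ (Nat.sub_le h₀ (2 * A)) (Nat.le_add_right h₀ (2 * A))]
    have s2 : ∑ k ∈ Ico (h₀ - 2 * A) h₀, bw (Fintype.card Λ) q k * fr k (Iv a b) =
        ∑ k ∈ Ico h₀ (h₀ + 2 * A),
          bw (Fintype.card Λ) q (k - 2 * A) * fr (k - 2 * A) (Iv a b) := by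
      refine sum_nbij' (fun k => k + 2 * A) (fun k => k - 2 * A) ?_ ?_ ?_ ?_ ?_
      · intro k hk; rw [mem_Ico] at hk ⊢; omega
      · intro k hk; rw [mem_Ico] at hk ⊢; omega
      · intro k hk; omega
      · intro k hk; rw [mem_Ico] at hk; omega
      · intro k hk; simp only [Nat.add_sub_cancel]
    rw [s2, ← sum_add_distrib]
    refine sum_le_sum fun k hk => ?_
    have e := hkey k hk
    rw [hA]
    have m1 := min_le_left (bw (Fintype.card Λ) q k) (bw (Fintype.card Λ) q (k - 2 * t ^ 2))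
    have m2 := min_le_right (bw (Fintype.card Λ) q k) (bw (Fintype.card Λ) q (k - 2 * t ^ 2))
    have m0 : 0 ≤ min (bw (Fintype.card Λ) q k) (bw (Fintype.card Λ) q (k - 2 * t ^ 2)) :=
      le_min (hbw _) (hbw _)
    have f1 := fr_nonneg k (Iv a b)
    have f2 := fr_nonneg (k - 2 * t ^ 2) (Iv a b)
    have g1 := mul_le_mul_of_nonneg_right m1 f1
    have g2 := mul_le_mul_of_nonneg_right m2 f2
    have g3 := mul_le_mul_of_nonneg_left e m0
    linarith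
  rw [← sum_mul] at hlow
  have hmin := bw_min (N := Fintype.card Λ) ht h2 hN2
  rw [← hq] at hmin
  have hsub2 : ∑ k ∈ Ico (t ^ 3 + t ^ 2 / 2) (t ^ 3 + t ^ 2 + t ^ 2 / 2),
      min (bw (Fintype.card Λ) q k) (bw (Fintype.card Λ) q (k - 2 * t ^ 2)) ≤
      ∑ k ∈ Ico h₀ (h₀ + 2 * A), min (bw (Fintype.card Λ) q k)
      (bw (Fintype.card Λ) q (k - 2 * t ^ 2)) := by
    refine sum_le_sum_of_subset_of_nonneg ?_ fun k _ _ => le_min (hbw _) (hbw _)
    intro k hk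
    rw [mem_Ico, ← hA, ← hB] at hk
    rw [mem_Ico]
    omega
  classical
  have hout := mx_card (Λ := Λ) q (fun k => k < t ^ 3 - t ^ 2 ∨ t ^ 3 + t ^ 2 ≤ k)
  rw [hout]
  refine le_trans (le_of_eq ?_) (le_trans hmin ?_)
  · refine sum_congr ?_ fun _ _ => rfl
    ext k
    simp only [mem_filter]
  · linarith

/-- the window is missed with probability at most `1 / t` -/
theorem mx_out {t : ℕ} (ht : 8 ≤ t) (hN : 2 * t ^ 3 ≤ Fintype.card Λ) :
    mx ((t : ℝ) ^ 3 / Fintype.card Λ)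
      (fun G : Finset Λ => G.card < t ^ 3 - t ^ 2 ∨ t ^ 3 + t ^ 2 ≤ G.card) ≤ 1 / t := by
  classical
  have hout := mx_card (Λ := Λ) ((t : ℝ) ^ 3 / Fintype.card Λ)
    (fun k => k < t ^ 3 - t ^ 2 ∨ t ^ 3 + t ^ 2 ≤ k)
  rw [hout]
  refine le_trans (le_of_eq ?_) (bw_out (N := Fintype.card Λ) ht hN)
  refine sum_congr ?_ fun _ _ => rfl
  ext k
  simp only [mem_filter]

end Pool.Agent.RO
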