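import Mathlib
import Pool.Agent.RO.Defs

set_option autoImplicit false

/-!
# Module RO-Meas: the measure of a random oracle

`coin` is a probability measure, it is preserved if the answers on a set of words are complemented
(`flp_mp`), and the sets which depend only on the words of length less than `n` form a σ-algebra
`dep n` contained in the product σ-algebra.
-/

namespace Pool.Agent.RO

open MeasureTheory Pool.Agent.Helper22
open scoped ENNReal

instance isProb : IsProbabilityMeasure coin := by
  unfold coin
  infer_instance

open Classical in
/-- the oracle `R`, complemented on the words of the set `F` -/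
noncomputable def flp (F : Set (List Bool)) (R : Oracle) : Oracle :=
  fun w => if w ∈ F then !R w else R w

private theorem map_not_unif :
    ((PMF.uniformOfFintype Bool).toMeasure).map (fun b : Bool => !b) =
      (PMF.uniformOfFintype Bool).toMeasure := by
  refine Measure.ext_of_singleton fun b => ?_
  rw [Measure.map_apply (Measurable.of_discrete) (measurableSet_singleton b)]
  have : (fun b : Bool => !b) ⁻¹' {b} = {!b} := by
    ext c
    cases b <;> cases c <;> simp
  rw [this, PMF.toMeasure_apply_singleton _ _ (measurableSet_singleton _),
    PMF.toMeasure_apply_singleton _ _ (measurableSet_singleton _)]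
  simp

theorem flp_mp (F : Set (List Bool)) : MeasurePreserving (flp F) coin coin := by
  classical
  set f : List Bool → Bool → Bool := fun w b => if w ∈ F then !b else b with hf
  have hfm : ∀ w, Measurable (f w) := fun w => Measurable.of_discrete
  have h1 : flp F = fun (x : List Bool → Bool) w => f w (x w) := by
    funext R w
    simp only [flp, hf]
  have h2 : Measurable (flp F) := by
    rw [h1]
    exact measurable_pi_lambda _ fun w => (hfm w).comp (measurable_pi_apply w)
  refine ⟨h2, ?_⟩
  rw [h1]
  unfold coin
  rw [Measure.infinitePi_map_pi _ hfm]
  congr 1
  funext w
  by_cases hw : w ∈ F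
  · have : f w = fun b : Bool => !b := by
      funext b
      simp only [hf, if_pos hw]
    rw [this]
    exact map_not_unif
  · have : f w = id := by
      funext b
      simp only [hf, if_neg hw]
      rfl
    rw [this, Measure.map_id]

/-- `Y` depends only on the words of length less than `n` -/
def Dep (n : ℕ) (Y : Set Oracle) : Prop :=
  ∀ R R' : Oracle, (∀ w : List Bool, w.length < n → R w = R' w) → (R ∈ Y ↔ R' ∈ Y)

/-- the σ-algebra of the sets which depend only on the words of length less than `n` -/
def dep (n : ℕ) : MeasurableSpace Oracle where
  MeasurableSet' := Dep n
  measurableSet_empty := fun _ _ _ => Iff.rfl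
  measurableSet_compl := fun Y hY R R' h => not_congr (hY R R' h)
  measurableSet_iUnion := fun f hf R R' h => by
    simp only [Set.mem_iUnion]
    exact exists_congr fun i => hf i R R' h

theorem measurable_of_dep {n : ℕ} {Y : Set Oracle} (h : Dep n Y) : MeasurableSet Y := by
  classical
  have hfin : Finite {w : List Bool // w.length < n} := (List.finite_length_lt Bool n).to_subtype
  set r : Oracle → ({w : List Bool // w.length < n} → Bool) := fun R w => R w.1 with hr
  have hrm : Measurable r := measurable_pi_lambda _ fun w => measurable_pi_apply w.1
  have hY : Y = r ⁻¹' (r '' Y) := by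
    ext R
    constructor
    · exact fun hR => ⟨R, hR, rfl⟩
    · rintro ⟨R', hR', he⟩
      refine (h R' R fun w hw => ?_).1 hR'
      exact congrFun he ⟨w, hw⟩
  rw [hY]
  exact hrm (Set.toFinite _).measurableSet

theorem dep_mono : Monotone dep := by
  intro m n hmn Y hY R R' h
  exact hY R R' fun w hw => h w (lt_of_lt_of_le hw hmn)

theorem dep_le (n : ℕ) : dep n ≤ (inferInstance : MeasurableSpace Oracle) := by
  intro Y hY
  exact measurable_of_dep hY

end Pool.Agent.RO
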