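import Mathlib
import Pool.Agent.RO.Meas
import Pool.Agent.RO.KeyDefs

set_option autoImplicit false

/-!
# Module RO-Key: the key formula

`zer κ H R` is `R` with the patterns `v ++ un a` (`a < κ`) of the words `v ∈ H` set to `false`; `marks R s κ` is the set of the
words `v` of length `s` whose pattern is `false` everywhere.

NOTE that the word `v ++ un a` (with `v` of length `s`) determines `v` (first `s` letters) and `a` (length).

PLAN of `key`.  `coin Φ = ∑_H coin (Φ ∩ {R | marks R s κ = H})` (finite disjoint union; all sets are measurable), so it suffices: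
for every `H`: `coin {R ∈ Φ | marks R s κ = H} * (2^κ-1)^|H| = coin {R | marks R s κ = ∅ ∧ zer κ H R ∈ Φ}`.
For `π : H → (nonempty subsets of range κ)` (a Finset.pi / a function type with `(2^κ-1)^|H|` elements) let
`F π = {v ++ un a | v ∈ H, a ∈ π v}` and `T_π = flp (F π)`.  Then
`{R | marks R s κ = ∅, zer κ H R ∈ Φ} = ⋃_π {R | T_π R ∈ Φ ∧ marks (T_π R) s κ = H}`, a disjoint union: for `R` in the left side
take `π v = {a < κ | R (v ++ un a) = true}` (nonempty since `v` is no mark): then `T_π R = zer κ H R`, whose marks are `H`;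
conversely if `marks (T_π R) s κ = H` then the pattern of `R` on `v ∈ H` is exactly `π v`, so `R` has no marks, and
`zer κ H R = T_π R`.  Since `T_π` preserves `coin` (`flp_mp`), each set has the measure
`coin {R ∈ Φ | marks R s κ = H}`.  (`flp F` is measurable; `measure_preimage`.)
-/

namespace Pool.Agent.RO

open MeasureTheory Pool.Agent.Helper22
open scoped ENNReal

/-- a word and a number are determined by the padded word -/
private theorem app_inj {s : ℕ} {v v' : List.Vector Bool s} {a a' : ℕ}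
    (h : v.1 ++ un a = v'.1 ++ un a') : v = v' ∧ a = a' := by
  have h1 := List.append_inj h (by rw [v.2, v'.2])
  refine ⟨Subtype.ext h1.1, ?_⟩
  have h2 := congrArg List.length h1.2
  simpa using h2

private theorem mem_marks {s κ : ℕ} {R : Oracle} {v : List.Vector Bool s} :
    v ∈ marks R s κ ↔ ∀ a < κ, R (v.1 ++ un a) = false := by
  classical
  simp [marks, Mark]

private theorem zer_mem {s κ : ℕ} {H : Finset (List.Vector Bool s)} {R : Oracle}
    {v : List.Vector Bool s} (hv : v ∈ H) {a : ℕ} (ha : a < κ) :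
    zer κ H R (v.1 ++ un a) = false := by
  unfold zer
  exact if_pos ⟨v, hv, a, ha, rfl⟩

private theorem zer_not_mem {s κ : ℕ} {H : Finset (List.Vector Bool s)} {R : Oracle}
    {v : List.Vector Bool s} (hv : v ∉ H) {a : ℕ} :
    zer κ H R (v.1 ++ un a) = R (v.1 ++ un a) := by
  unfold zer
  refine if_neg ?_
  rintro ⟨v', hv', a', ha', h⟩
  rw [(app_inj h).1] at hv
  exact hv hv'

/-- the marks of `zer κ H R` -/
theorem marks_zer {s κ : ℕ} {H : Finset (List.Vector Bool s)} {R : Oracle}
    (h : marks R s κ = ∅) : marks (zer κ H R) s κ = H := by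
  ext v
  rw [mem_marks]
  constructor
  · intro h1
    by_contra hv
    have h2 : v ∈ marks R s κ := by
      rw [mem_marks]
      intro a ha
      rw [← zer_not_mem (R := R) (κ := κ) (a := a) hv]
      exact h1 a ha
    rw [h] at h2
    exact absurd h2 (Finset.notMem_empty v)
  · intro hv a ha
    exact zer_mem hv ha

/-- `zer` changes only words of length at least `s` -/
theorem zer_of_lt {s κ : ℕ} (H : Finset (List.Vector Bool s)) (R : Oracle) {w : List Bool}
    (hw : w.length < s) : zer κ H R w = R w := by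
  unfold zer
  refine if_neg ?_
  rintro ⟨v, hv, a, ha, h⟩
  rw [h, List.length_append, v.2] at hw
  omega

theorem zer_measurable {s κ : ℕ} (H : Finset (List.Vector Bool s)) : Measurable (zer κ H) := by
  refine measurable_pi_lambda _ fun w => ?_
  by_cases hw : ∃ v ∈ H, ∃ a, a < κ ∧ w = v.1 ++ un a
  · have h1 : (fun R : Oracle => zer κ H R w) = fun _ => false := by
      funext R
      unfold zer
      exact if_pos hw
    rw [h1]
    exact measurable_const
  · have h1 : (fun R : Oracle => zer κ H R w) = fun R => R w := by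
      funext R
      unfold zer
      exact if_neg hw
    rw [h1]
    exact measurable_pi_apply w

/-- the words of a pattern -/
private def FF {s : ℕ} (π : List.Vector Bool s → Finset ℕ) : Set (List Bool) :=
  {w | ∃ v : List.Vector Bool s, ∃ a ∈ π v, w = v.1 ++ un a}

private theorem flp_mem {s : ℕ} {π : List.Vector Bool s → Finset ℕ} {R : Oracle}
    {v : List.Vector Bool s} {a : ℕ} (ha : a ∈ π v) :
    flp (FF π) R (v.1 ++ un a) = !R (v.1 ++ un a) := by
  unfold flp
  exact if_pos ⟨v, a, ha, rfl⟩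

private theorem flp_not_mem {s : ℕ} {π : List.Vector Bool s → Finset ℕ} {R : Oracle}
    {v : List.Vector Bool s} {a : ℕ} (ha : a ∉ π v) :
    flp (FF π) R (v.1 ++ un a) = R (v.1 ++ un a) := by
  unfold flp
  refine if_neg ?_
  rintro ⟨v', a', ha', h⟩
  obtain ⟨h1, h2⟩ := app_inj h
  rw [h1, h2] at ha
  exact ha ha'

private theorem flp_else {s : ℕ} {π : List.Vector Bool s → Finset ℕ} {R : Oracle}
    {w : List Bool} (hw : ¬ ∃ v : List.Vector Bool s, ∃ a ∈ π v, w = v.1 ++ un a) :
    flp (FF π) R w = R w := by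
  unfold flp
  exact if_neg hw

open Classical in
/-- the admitted patterns -/
private noncomputable def TT {s : ℕ} (κ : ℕ) (H : Finset (List.Vector Bool s)) :
    Finset (List.Vector Bool s → Finset ℕ) :=
  Fintype.piFinset fun v => if v ∈ H then (Finset.range κ).powerset.erase ∅ else {∅}

private theorem card_TT {s : ℕ} (κ : ℕ) (H : Finset (List.Vector Bool s)) :
    (TT κ H).card = (2 ^ κ - 1) ^ H.card := by
  classical
  unfold TT
  rw [Fintype.card_piFinset]
  have h1 : ∀ v : List.Vector Bool s,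
      (if v ∈ H then (Finset.range κ).powerset.erase ∅ else {∅} : Finset (Finset ℕ)).card =
      if v ∈ H then 2 ^ κ - 1 else 1 := by
    intro v
    by_cases hv : v ∈ H
    · rw [if_pos hv, if_pos hv, Finset.card_erase_of_mem (Finset.empty_mem_powerset _),
        Finset.card_powerset, Finset.card_range]
    · rw [if_neg hv, if_neg hv, Finset.card_singleton]
  rw [Finset.prod_congr rfl fun v _ => h1 v, Finset.prod_ite_mem, Finset.univ_inter,
    Finset.prod_const]

private theorem mem_TT {s κ : ℕ} {H : Finset (List.Vector Bool s)}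
    {π : List.Vector Bool s → Finset ℕ} :
    π ∈ TT κ H ↔ ∀ v, (v ∈ H → π v ≠ ∅ ∧ ∀ a ∈ π v, a < κ) ∧ (v ∉ H → π v = ∅) := by
  classical
  unfold TT
  rw [Fintype.mem_piFinset]
  refine forall_congr' fun v => ?_
  by_cases hv : v ∈ H
  · simp [hv, Finset.subset_iff]
  · simp [hv]

/-- a flipped oracle is a zeroed oracle -/
private theorem flp_eq_zer {s κ : ℕ} {H : Finset (List.Vector Bool s)}
    {π : List.Vector Bool s → Finset ℕ} (hπ : π ∈ TT κ H) {R : Oracle}
    (h : ∀ v ∈ H, ∀ a < κ, flp (FF π) R (v.1 ++ un a) = false) :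
    flp (FF π) R = zer κ H R := by
  funext w
  by_cases hw : ∃ v ∈ H, ∃ a, a < κ ∧ w = v.1 ++ un a
  · obtain ⟨v, hv, a, ha, rfl⟩ := hw
    rw [h v hv a ha, zer_mem hv ha]
  · have h1 : zer κ H R w = R w := by
      unfold zer
      exact if_neg hw
    rw [h1]
    refine flp_else ?_
    rintro ⟨v, a, ha, rfl⟩
    rw [mem_TT] at hπ
    by_cases hv : v ∈ H
    · exact hw ⟨v, hv, a, ((hπ v).1 hv).2 a ha, rfl⟩
    · rw [(hπ v).2 hv] at ha
      exact absurd ha (Finset.notMem_empty a)

private theorem union_eq {s κ : ℕ} (H : Finset (List.Vector Bool s)) (Φ : Set Oracle) :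
    {R : Oracle | marks R s κ = ∅ ∧ zer κ H R ∈ Φ} =
      ⋃ π ∈ TT κ H, flp (FF π) ⁻¹' (Φ ∩ {R | marks R s κ = H}) := by
  classical
  ext R
  simp only [Set.mem_iUnion, Set.mem_ofPred_eq, Set.mem_preimage, Set.mem_inter_iff]
  constructor
  · rintro ⟨h1, h2⟩
    let π : List.Vector Bool s → Finset ℕ := fun v =>
      if v ∈ H then (Finset.range κ).filter (fun a => R (v.1 ++ un a) = true) else ∅
    have hπ1 : ∀ v ∈ H, π v = (Finset.range κ).filter (fun a => R (v.1 ++ un a) = true) :=
      fun v hv => if_pos hv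
    have hπ2 : ∀ v ∉ H, π v = ∅ := fun v hv => if_neg hv
    have hπ : π ∈ TT κ H := by
      rw [mem_TT]
      intro v
      refine ⟨fun hv => ⟨?_, ?_⟩, fun hv => hπ2 v hv⟩
      · intro h3
        rw [hπ1 v hv, Finset.filter_eq_empty_iff] at h3
        have h4 : v ∈ marks R s κ := by
          rw [mem_marks]
          intro a ha
          have h5 := h3 (Finset.mem_range.2 ha)
          simpa using h5
        rw [h1] at h4
        exact absurd h4 (Finset.notMem_empty v)
      · intro a ha
        rw [hπ1 v hv, Finset.mem_filter, Finset.mem_range] at ha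
        exact ha.1
    have h3 : flp (FF π) R = zer κ H R := by
      refine flp_eq_zer hπ ?_
      intro v hv a ha
      by_cases hR : R (v.1 ++ un a) = true
      · rw [flp_mem (by rw [hπ1 v hv, Finset.mem_filter, Finset.mem_range]; exact ⟨ha, hR⟩), hR]
        rfl
      · rw [flp_not_mem (by rw [hπ1 v hv, Finset.mem_filter]; exact fun h => hR h.2)]
        simpa using hR
    refine ⟨π, hπ, ?_, ?_⟩
    · rw [h3]
      exact h2
    · rw [h3]
      exact marks_zer h1
  · rintro ⟨π, hπ, h1, h2⟩
    have h3 : ∀ v ∈ H, ∀ a < κ, flp (FF π) R (v.1 ++ un a) = false := by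
      intro v hv
      rw [← mem_marks, h2]
      exact hv
    have h4 := flp_eq_zer hπ h3
    refine ⟨?_, by rw [← h4]; exact h1⟩
    rw [Finset.eq_empty_iff_forall_notMem]
    intro v hv
    rw [mem_marks] at hv
    rw [mem_TT] at hπ
    by_cases hvH : v ∈ H
    · obtain ⟨h5, h6⟩ := (hπ v).1 hvH
      obtain ⟨a, ha⟩ := Finset.nonempty_iff_ne_empty.2 h5
      have h7 := h3 v hvH a (h6 a ha)
      rw [flp_mem ha, hv a (h6 a ha)] at h7
      exact absurd h7 (by decide)
    · apply hvH
      rw [← h2, mem_marks]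
      intro a ha
      rw [flp_not_mem (by rw [(hπ v).2 hvH]; exact Finset.notMem_empty a)]
      exact hv a ha

private theorem disj {s κ : ℕ} (H : Finset (List.Vector Bool s)) (Φ : Set Oracle) :
    Set.PairwiseDisjoint (↑(TT κ H) : Set (List.Vector Bool s → Finset ℕ))
      fun π => flp (FF π) ⁻¹' (Φ ∩ {R | marks R s κ = H}) := by
  intro π hπ π' hπ' hne
  rw [Function.onFun, Set.disjoint_left]
  rintro R ⟨_, h1⟩ ⟨_, h2⟩
  apply hne
  have key : ∀ ρ : List.Vector Bool s → Finset ℕ, ρ ∈ TT κ H → marks (flp (FF ρ) R) s κ = H →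
      ∀ v ∈ H, ∀ a, a ∈ ρ v ↔ a < κ ∧ R (v.1 ++ un a) = true := by
    intro ρ hρ h3 v hv a
    have h4 : ∀ a < κ, flp (FF ρ) R (v.1 ++ un a) = false := by
      rw [← mem_marks, h3]
      exact hv
    rw [mem_TT] at hρ
    constructor
    · intro ha
      have ha' := ((hρ v).1 hv).2 a ha
      refine ⟨ha', ?_⟩
      have h5 := h4 a ha'
      rw [flp_mem ha] at h5
      simpa using h5
    · rintro ⟨ha, hR⟩
      by_contra hn
      have h5 := h4 a ha
      rw [flp_not_mem hn, hR] at h5
      exact absurd h5 (by decide)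
  funext v
  by_cases hv : v ∈ H
  · ext a
    rw [key π hπ h1 v hv a, key π' hπ' h2 v hv a]
  · rw [((mem_TT.1 hπ) v).2 hv, ((mem_TT.1 hπ') v).2 hv]

private theorem meas_marks {s κ : ℕ} (H : Finset (List.Vector Bool s)) :
    MeasurableSet {R : Oracle | marks R s κ = H} := by
  refine measurable_of_dep (n := s + κ) ?_
  intro R R' h
  have h1 : marks R s κ = marks R' s κ := by
    ext v
    rw [mem_marks, mem_marks]
    refine forall_congr' fun a => forall_congr' fun ha => ?_
    rw [h (v.1 ++ un a) (by rw [List.length_append, v.2, un_length]; omega)]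
  rw [Set.mem_ofPred_eq, Set.mem_ofPred_eq, h1]

private theorem one_H {s κ : ℕ} {Φ : Set Oracle} (hΦ : MeasurableSet Φ)
    (H : Finset (List.Vector Bool s)) :
    coin {R | marks R s κ = ∅ ∧ zer κ H R ∈ Φ} =
      (((2 ^ κ - 1 : ℕ) : ℝ≥0∞)) ^ H.card * coin (Φ ∩ {R | marks R s κ = H}) := by
  have hm : MeasurableSet (Φ ∩ {R | marks R s κ = H}) := hΦ.inter (meas_marks H)
  rw [union_eq, measure_biUnion_finset (disj H Φ)
    fun π _ => (flp_mp (FF π)).measurable hm]
  rw [Finset.sum_congr rfl fun π _ => (flp_mp (FF π)).measure_preimage hm.nullMeasurableSet,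
    Finset.sum_const, card_TT, nsmul_eq_mul, Nat.cast_pow]

theorem key {s κ : ℕ} (hκ : 1 ≤ κ) {Φ : Set Oracle} (hΦ : MeasurableSet Φ) :
    coin Φ = ∑ H : Finset (List.Vector Bool s), (((2 ^ κ - 1 : ℕ) : ℝ≥0∞)⁻¹) ^ H.card *
      coin {R | marks R s κ = ∅ ∧ zer κ H R ∈ Φ} := by
  classical
  have h1 : Φ = ⋃ H ∈ (Finset.univ : Finset (Finset (List.Vector Bool s))),
      (Φ ∩ {R | marks R s κ = H}) := by
    ext R
    simp
  have h2 : coin Φ = ∑ H : Finset (List.Vector Bool s), coin (Φ ∩ {R | marks R s κ = H}) := by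
    conv_lhs => rw [h1]
    refine measure_biUnion_finset ?_ fun H _ => hΦ.inter (meas_marks H)
    intro H _ H' _ hne
    rw [Function.onFun, Set.disjoint_left]
    rintro R ⟨_, h3⟩ ⟨_, h4⟩
    exact hne (h3.symm.trans h4)
  rw [h2]
  refine Finset.sum_congr rfl fun H _ => ?_
  rw [one_H hΦ H, ← mul_assoc, ← mul_pow]
  have h3 : ((2 ^ κ - 1 : ℕ) : ℝ≥0∞) ≠ 0 := by
    have h4 : 2 ≤ 2 ^ κ := by
      calc 2 = 2 ^ 1 := by norm_num
        _ ≤ 2 ^ κ := Nat.pow_le_pow_right (by norm_num) hκ
    have h5 : 2 ^ κ - 1 ≠ 0 := by omega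
    exact_mod_cast h5
  rw [ENNReal.inv_mul_cancel h3 (ENNReal.natCast_ne_top _), one_pow, one_mul]

end Pool.Agent.RO
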