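import Mathlib
import Pool.Agent.RO.LinkA

set_option autoImplicit false

/-!
# Module RO-LinkB: the machines as predicates with certificates (second part; the first is module LinkA)

`R` is a fixed oracle without marks; for `H : Finset (List.Vector Bool s)` the oracle `zer κ H R` has
exactly the marks `H`. Acceptance has certificates (the words whose patterns are touched by the
queries), and the events of a level are the events of the core lemma.
-/

namespace Pool.Agent.RO

open Pool.Agent.Helper22 N487b59b3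

private theorem link_un_inj {s : ℕ} {v v' : List.Vector Bool s} {a a' : ℕ}
    (h : v.1 ++ un a = v'.1 ++ un a') : v = v' := by
  have h1 : v.1.length = v'.1.length := by rw [v.2, v'.2]
  exact Subtype.ext (List.append_inj h h1).1

private theorem link_mark {s κ : ℕ} {R : Oracle} (hR : marks R s κ = ∅)
    (G : Finset (List.Vector Bool s)) (v : List.Vector Bool s) :
    Mark (zer κ G R) κ v.1 ↔ v ∈ G := by
  classical
  constructor
  · intro hm
    by_contra hv
    have h1 : v ∉ marks R s κ := by rw [hR]; exact Finset.notMem_empty v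
    have h2 : ¬ Mark R κ v.1 := by
      intro h
      apply h1
      unfold marks
      exact Finset.mem_filter.2 ⟨Finset.mem_univ v, h⟩
    apply h2
    intro a ha
    have h3 := hm a ha
    unfold zer at h3
    rw [if_neg] at h3
    · exact h3
    · rintro ⟨v', hv', a', -, he⟩
      rw [link_un_inj he] at hv
      exact hv hv'
  · intro hv a ha
    unfold zer
    exact if_pos ⟨v, hv, a, ha, rfl⟩

private theorem link_marks {s κ : ℕ} {R : Oracle} (hR : marks R s κ = ∅)
    (G : Finset (List.Vector Bool s)) : marks (zer κ G R) s κ = G := by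
  classical
  ext v
  unfold marks
  rw [Finset.mem_filter]
  exact ⟨fun h => (link_mark hR G v).1 h.2, fun h => ⟨Finset.mem_univ v, (link_mark hR G v).2 h⟩⟩

theorem cert_acc {V : Vp} {s l h : ℕ} (H : HB V s l h) (κ : ℕ) (R : Oracle) (b : Bool) :
    Cert h (fun (x : Fin (jj l) ↪ List.Vector Bool s) (G : Finset (List.Vector Bool s)) =>
      acc V b (zer κ G R) l (code x)) := by
  classical
  intro x G hacc
  obtain ⟨w, hw, hrun⟩ := hacc
  set qq := qs (V b).1 (zer κ G R) (pads l (code x), w) with hqq
  have hlen : qq.length ≤ h := H.num (code x) (isInst_code x) b (zer κ G R) w hw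
  refine ⟨Finset.univ.filter fun v : List.Vector Bool s => ∃ q ∈ qq, ∃ a, a < κ ∧ q = v.1 ++ un a,
    ?_, ?_⟩
  · refine le_trans ?_ hlen
    have h1 : (Finset.univ.filter fun v : List.Vector Bool s =>
        ∃ q ∈ qq, ∃ a, a < κ ∧ q = v.1 ++ un a).card ≤
        (qq.toFinset.image fun q => q.take s).card := by
      refine Finset.card_le_card_of_injOn (fun v => v.1) ?_ ?_
      · intro v hv
        obtain ⟨q, hq, a, -, he⟩ := (Finset.mem_filter.1 hv).2
        refine Finset.mem_coe.2 (Finset.mem_image.2 ⟨q, List.mem_toFinset.2 hq, ?_⟩)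
        rw [he, List.take_left' v.2]
      · intro v _ v' _ he
        exact Subtype.ext he
    exact h1.trans (Finset.card_image_le.trans (List.toFinset_card_le qq))
  · intro G' hG'
    refine ⟨w, hw, ?_⟩
    rw [← hrun]
    symm
    apply run_congr
    intro q hq
    have hiff : (∃ v ∈ G, ∃ a, a < κ ∧ q = v.1 ++ un a) ↔
        (∃ v ∈ G', ∃ a, a < κ ∧ q = v.1 ++ un a) := by
      constructor
      · rintro ⟨v, hv, a, ha, he⟩
        exact ⟨v, (hG' v (Finset.mem_filter.2 ⟨Finset.mem_univ v, q, hq, a, ha, he⟩)).2 hv,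
          a, ha, he⟩
      · rintro ⟨v, hv, a, ha, he⟩
        exact ⟨v, (hG' v (Finset.mem_filter.2 ⟨Finset.mem_univ v, q, hq, a, ha, he⟩)).1 hv,
          a, ha, he⟩
    unfold zer
    by_cases hc : ∃ v ∈ G, ∃ a, a < κ ∧ q = v.1 ++ un a
    · rw [if_pos hc, if_pos (hiff.1 hc)]
    · rw [if_neg hc, if_neg fun h' => hc (hiff.2 h')]

theorem sat_iff {s l : ℕ} {R : Oracle} (hR : marks R s (kap s l) = ∅)
    (x : Fin (jj l) ↪ List.Vector Bool s) (G : Finset (List.Vector Bool s)) :
    Sat (zer (kap s l) G R) s l (code x) ↔ AA vx x G := by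
  have hld : ld (code x) = List.ofFn fun i => (x i).1 := ld_lc _
  constructor
  · rintro ⟨y, hy, hm⟩
    refine ⟨⟨y, hy⟩, fun i => ?_⟩
    rw [← link_mark hR G]
    exact hm (x i).1 (by rw [hld, List.mem_ofFn]; exact ⟨i, rfl⟩)
  · rintro ⟨y, hy⟩
    refine ⟨y.1, y.2, fun u hu => ?_⟩
    rw [hld, List.mem_ofFn] at hu
    obtain ⟨i, rfl⟩ := hu
    exact (link_mark hR G (vx y (x i))).2 (hy i)

theorem fail_iff {V : Vp} {s l : ℕ} {R : Oracle} (hR : marks R s (kap s l) = ∅)
    (G : Finset (List.Vector Bool s)) :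
    Fail V (zer (kap s l) G R) s l ↔
      Fl vx (fun (x : Fin (jj l) ↪ List.Vector Bool s) (G : Finset (List.Vector Bool s)) =>
          acc V true (zer (kap s l) G R) l (code x))
        (fun (x : Fin (jj l) ↪ List.Vector Bool s) (G : Finset (List.Vector Bool s)) =>
          acc V false (zer (kap s l) G R) l (code x)) G := by
  constructor
  · rintro ⟨u, hu, h⟩
    obtain ⟨x, rfl⟩ := exists_code_of_isInst hu
    rw [sat_iff hR] at h
    exact ⟨x, h⟩
  · rintro ⟨x, h⟩
    rw [← sat_iff hR] at h
    exact ⟨code x, isInst_code x, h⟩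

theorem inv_iff {V : Vp} {s l : ℕ} {R : Oracle} (G : Finset (List.Vector Bool s)) :
    Inv V (zer (kap s l) G R) s l ↔
      Iv (fun (x : Fin (jj l) ↪ List.Vector Bool s) (G : Finset (List.Vector Bool s)) =>
          acc V true (zer (kap s l) G R) l (code x))
        (fun (x : Fin (jj l) ↪ List.Vector Bool s) (G : Finset (List.Vector Bool s)) =>
          acc V false (zer (kap s l) G R) l (code x)) G := by
  constructor
  · rintro ⟨u, hu, h⟩
    obtain ⟨x, rfl⟩ := exists_code_of_isInst hu
    exact ⟨x, h⟩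
  · rintro ⟨x, h⟩
    exact ⟨code x, isInst_code x, h⟩

theorem win_iff {s l : ℕ} {R : Oracle} (hR : marks R s (kap s l) = ∅)
    (G : Finset (List.Vector Bool s)) :
    Win (zer (kap s l) G R) s l ↔ (mu l - dd l ≤ G.card ∧ G.card < mu l + dd l) := by
  unfold Win
  rw [link_marks hR G]

end Pool.Agent.RO
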