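import Mathlib

set_option autoImplicit false

/-!
# Module RO-MPa: the abstract probabilistic argument, part 1 (only Mathlib)

`c i ω` counts the failures before the time `i`: `c 0 = 0`, `c (i+1) = c i + 1[ω ∈ F i (c i)]`.  So `c i ≤ i`, `c` is monotone and
the sets `{c i = l}` belong to `𝓕 i`.

PLAN of `mp_fail` (every value is left by a failure).  It suffices: for all `i₀, l`: `μ {ω | ∀ i ≥ i₀, c i ω = l} = 0`; then for almost
every `ω` no value `l` is kept for ever (countably many `(i₀, l)`), and since `c` grows by steps `≤ 1` from `0`, every `l` is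
attained and left, and it is left at a time `i` with `c i ω = l`, `ω ∈ F i l` (take the last `i` with `c i ω = l`).
For the claim let `Y n = {ω | ∀ i, i₀ ≤ i → i ≤ i₀ + n → c i ω = l}` (in `𝓕 (i₀ + n)`; we may assume `l ≤ i₀`, otherwise
`Y 0 = ∅` because `c i ≤ i`).  `Y (n+1) = Y n \ F (i₀+n) l`, and `μ (Y n) ≤ K * μ (Y n ∩ F (i₀+n) l)` with `K = K2 l < ⊤`, so
`μ (Y (n+1)) = μ (Y n) - μ (Y n ∩ F) ≤ (1 - 1/K) μ (Y n)` → `0`.  (Or: the sets `Y n ∩ F (i₀+n) l` are disjoint, so the sum of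
their measures is `≤ 1`, so `μ (Y n ∩ F (i₀+n) l) → 0` and `μ (Y n) ≤ K * μ (Y n ∩ F (i₀+n) l) → 0`: simplest.)
-/

namespace Pool.Agent.RO

open MeasureTheory
open scoped ENNReal

variable {Ω : Type} [m0 : MeasurableSpace Ω]

private theorem mp_aux_le (F : ℕ → ℕ → Set Ω) (c : ℕ → Ω → ℕ)
    (hc0 : ∀ ω, c 0 ω = 0)
    (hc1 : ∀ i ω, ω ∈ F i (c i ω) → c (i + 1) ω = c i ω + 1)
    (hc2 : ∀ i ω, ω ∉ F i (c i ω) → c (i + 1) ω = c i ω) (ω : Ω) :
    ∀ i, c i ω ≤ i := by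
  intro i
  induction i with
  | zero => rw [hc0]
  | succ i ih =>
    by_cases h : ω ∈ F i (c i ω)
    · rw [hc1 i ω h]; omega
    · rw [hc2 i ω h]; omega

private theorem mp_aux_meas (𝓕 : ℕ → MeasurableSpace Ω)
    (hmono : Monotone 𝓕) (F : ℕ → ℕ → Set Ω) (c : ℕ → Ω → ℕ)
    (hF : ∀ i l, l ≤ i → MeasurableSet[𝓕 (i + 1)] (F i l))
    (hc0 : ∀ ω, c 0 ω = 0)
    (hc1 : ∀ i ω, ω ∈ F i (c i ω) → c (i + 1) ω = c i ω + 1)
    (hc2 : ∀ i ω, ω ∉ F i (c i ω) → c (i + 1) ω = c i ω) :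
    ∀ i l, MeasurableSet[𝓕 i] {ω | c i ω = l} := by
  intro i
  induction i with
  | zero =>
    intro l
    by_cases hl : 0 = l
    · have : {ω : Ω | c 0 ω = l} = Set.univ := by
        ext ω; simp only [Set.mem_setOf_eq, Set.mem_univ, iff_true]; rw [hc0]; exact hl
      rw [this]; exact @MeasurableSet.univ _ (𝓕 0)
    · have : {ω : Ω | c 0 ω = l} = ∅ := by
        ext ω; simp only [Set.mem_setOf_eq, Set.mem_empty_iff_false, iff_false]; rw [hc0]; exact hl
      rw [this]; exact @MeasurableSet.empty _ (𝓕 0)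
  | succ i ih =>
    intro l
    have hm : 𝓕 i ≤ 𝓕 (i + 1) := hmono (Nat.le_succ i)
    -- the two parts
    have hA : ∀ k, MeasurableSet[𝓕 (i + 1)] ({ω | c i ω = k} ∩ F i k) := by
      intro k
      by_cases hk : k ≤ i
      · exact @MeasurableSet.inter _ (𝓕 (i + 1)) _ _ (hm _ (ih k)) (hF i k hk)
      · have : ({ω | c i ω = k} ∩ F i k) = ∅ := by
          ext ω
          simp only [Set.mem_inter_iff, Set.mem_setOf_eq, Set.mem_empty_iff_false, iff_false]
          rintro ⟨h, _⟩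
          have := mp_aux_le F c hc0 hc1 hc2 ω i
          omega
        rw [this]; exact @MeasurableSet.empty _ (𝓕 (i + 1))
    have hB : ∀ k, MeasurableSet[𝓕 (i + 1)] ({ω | c i ω = k} \ F i k) := by
      intro k
      have : ({ω | c i ω = k} \ F i k) = {ω | c i ω = k} \ ({ω | c i ω = k} ∩ F i k) := by
        ext ω; simp only [Set.mem_diff, Set.mem_setOf_eq, Set.mem_inter_iff]; tauto
      rw [this]
      exact @MeasurableSet.diff _ (𝓕 (i + 1)) _ _ (hm _ (ih k)) (hA k)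
    cases l with
    | zero =>
      have : {ω | c (i + 1) ω = 0} = {ω | c i ω = 0} \ F i 0 := by
        ext ω
        simp only [Set.mem_diff, Set.mem_setOf_eq]
        by_cases h : ω ∈ F i (c i ω)
        · rw [hc1 i ω h]
          constructor
          · intro h'; omega
          · rintro ⟨h1, h2⟩; rw [h1] at h; exact absurd h h2
        · rw [hc2 i ω h]
          constructor
          · intro h'; refine ⟨h', ?_⟩; rw [h'] at h; exact h
          · intro h'; exact h'.1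
      rw [this]; exact hB 0
    | succ l =>
      have : {ω | c (i + 1) ω = l + 1} =
          ({ω | c i ω = l + 1} \ F i (l + 1)) ∪ ({ω | c i ω = l} ∩ F i l) := by
        ext ω
        simp only [Set.mem_diff, Set.mem_setOf_eq, Set.mem_union, Set.mem_inter_iff]
        by_cases h : ω ∈ F i (c i ω)
        · rw [hc1 i ω h]
          constructor
          · intro h'
            have h2 : c i ω = l := by omega
            rw [h2] at h
            exact Or.inr ⟨h2, h⟩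
          · rintro (⟨h1, h2⟩ | ⟨h1, h2⟩)
            · rw [h1] at h; exact absurd h h2
            · omega
        · rw [hc2 i ω h]
          constructor
          · intro h'
            rw [h'] at h
            exact Or.inl ⟨h', h⟩
          · rintro (⟨h1, h2⟩ | ⟨h1, h2⟩)
            · exact h1
            · rw [h1] at h; exact absurd h2 h
      rw [this]
      exact @MeasurableSet.union _ (𝓕 (i + 1)) _ _ (hB (l + 1)) (hA l)

private theorem mp_aux_null (μ : Measure Ω) [IsProbabilityMeasure μ] (𝓕 : ℕ → MeasurableSpace Ω)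
    (hmono : Monotone 𝓕) (hle : ∀ i, 𝓕 i ≤ m0) (F : ℕ → ℕ → Set Ω) (c : ℕ → Ω → ℕ)
    (hF : ∀ i l, l ≤ i → MeasurableSet[𝓕 (i + 1)] (F i l))
    (hc0 : ∀ ω, c 0 ω = 0)
    (hc1 : ∀ i ω, ω ∈ F i (c i ω) → c (i + 1) ω = c i ω + 1)
    (hc2 : ∀ i ω, ω ∉ F i (c i ω) → c (i + 1) ω = c i ω)
    (K2 : ℕ → ℝ≥0∞) (hK2 : ∀ l, K2 l ≠ ⊤)
    (h2 : ∀ i l, l ≤ i → ∀ Y, MeasurableSet[𝓕 i] Y → μ Y ≤ K2 l * μ (Y ∩ F i l))
    (i₀ l : ℕ) : μ {ω | ∀ i, i₀ ≤ i → c i ω = l} = 0 := by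
  by_cases hl : l ≤ i₀
  · set Y : ℕ → Set Ω := fun n => {ω | ∀ i, i₀ ≤ i → i ≤ i₀ + n → c i ω = l} with hY
    have hYm : ∀ n, MeasurableSet[𝓕 (i₀ + n)] (Y n) := by
      intro n
      have : Y n = ⋂ i ∈ Finset.Icc i₀ (i₀ + n), {ω | c i ω = l} := by
        ext ω
        simp only [hY, Set.mem_setOf_eq, Finset.mem_Icc, Set.mem_iInter, and_imp]
      rw [this]
      refine @Finset.measurableSet_biInter _ _ (𝓕 (i₀ + n)) _ _ ?_
      intro i hi
      have hi2 := (Finset.mem_Icc.mp hi).2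
      exact hmono hi2 _ (mp_aux_meas 𝓕 hmono F c hF hc0 hc1 hc2 i l)
    have hbd : ∀ n, μ (Y n) ≤ K2 l * μ (Y n ∩ F (i₀ + n) l) := by
      intro n
      exact h2 (i₀ + n) l (by omega) (Y n) (hYm n)
    have hZm : ∀ n, MeasurableSet (Y n ∩ F (i₀ + n) l) := by
      intro n
      refine MeasurableSet.inter (hle _ _ (hYm n)) (hle _ _ (hF (i₀ + n) l (by omega)))
    have hdis : Pairwise (Function.onFun Disjoint (fun n => Y n ∩ F (i₀ + n) l)) := by
      have key : ∀ m n, m < n → Disjoint (Y m ∩ F (i₀ + m) l) (Y n ∩ F (i₀ + n) l) := by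
        intro m n hmn
        rw [Set.disjoint_left]
        rintro ω ⟨h1, h3⟩ ⟨h4, _⟩
        have e1 : c (i₀ + m) ω = l := h1 (i₀ + m) (by omega) (by omega)
        have e2 : c (i₀ + m + 1) ω = l := h4 (i₀ + m + 1) (by omega) (by omega)
        have e3 := hc1 (i₀ + m) ω (by rw [e1]; exact h3)
        omega
      intro m n hmn
      rcases lt_or_gt_of_ne hmn with h | h
      · exact key m n h
      · exact (key n m h).symm
    have hsum : ∑' n, μ (Y n ∩ F (i₀ + n) l) ≠ ⊤ := by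
      rw [← measure_iUnion hdis hZm]
      exact measure_ne_top μ _
    have ht : Filter.Tendsto (fun n => μ (Y n ∩ F (i₀ + n) l)) Filter.atTop (nhds 0) :=
      ENNReal.tendsto_atTop_zero_of_tsum_ne_top hsum
    have ht2 : Filter.Tendsto (fun n => K2 l * μ (Y n ∩ F (i₀ + n) l)) Filter.atTop (nhds 0) := by
      have := ENNReal.Tendsto.const_mul ht (Or.inr (hK2 l))
      simpa using this
    refine le_antisymm ?_ zero_le
    refine ge_of_tendsto' ht2 ?_
    intro n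
    refine le_trans (measure_mono ?_) (hbd n)
    intro ω hω i hi _
    exact hω i hi
  · have : {ω | ∀ i, i₀ ≤ i → c i ω = l} = ∅ := by
      ext ω
      simp only [Set.mem_setOf_eq, Set.mem_empty_iff_false, iff_false]
      intro h
      have h1 := h i₀ le_rfl
      have h3 := mp_aux_le F c hc0 hc1 hc2 ω i₀
      omega
    rw [this]; exact measure_empty

theorem mp_fail (μ : Measure Ω) [IsProbabilityMeasure μ] (𝓕 : ℕ → MeasurableSpace Ω)
    (hmono : Monotone 𝓕) (hle : ∀ i, 𝓕 i ≤ m0) (F : ℕ → ℕ → Set Ω) (c : ℕ → Ω → ℕ)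
    (hF : ∀ i l, l ≤ i → MeasurableSet[𝓕 (i + 1)] (F i l))
    (hc0 : ∀ ω, c 0 ω = 0)
    (hc1 : ∀ i ω, ω ∈ F i (c i ω) → c (i + 1) ω = c i ω + 1)
    (hc2 : ∀ i ω, ω ∉ F i (c i ω) → c (i + 1) ω = c i ω)
    (K2 : ℕ → ℝ≥0∞) (hK2 : ∀ l, K2 l ≠ ⊤)
    (h2 : ∀ i l, l ≤ i → ∀ Y, MeasurableSet[𝓕 i] Y → μ Y ≤ K2 l * μ (Y ∩ F i l)) :
    ∀ᵐ ω ∂μ, ∀ l, ∃ i, c i ω = l ∧ ω ∈ F i l := by
  have hall : ∀ᵐ ω ∂μ, ∀ i₀ l, ¬ (∀ i, i₀ ≤ i → c i ω = l) := by
    rw [ae_all_iff]
    intro i₀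
    rw [ae_all_iff]
    intro l
    have := mp_aux_null μ 𝓕 hmono hle F c hF hc0 hc1 hc2 K2 hK2 h2 i₀ l
    rw [ae_iff]
    simpa only [not_not] using this
  filter_upwards [hall] with ω hω
  have step : ∀ l, (∃ i, c i ω = l) → ∃ i, c i ω = l ∧ ω ∈ F i l := by
    rintro l ⟨i₀, hi₀⟩
    have h := hω i₀ l
    push Not at h
    classical
    obtain ⟨i, ⟨hge, hne⟩, hmin⟩ : ∃ i, (i₀ ≤ i ∧ c i ω ≠ l) ∧
        ∀ m, m < i → ¬ (i₀ ≤ m ∧ c m ω ≠ l) :=
      ⟨Nat.find h, Nat.find_spec h, fun m hm => Nat.find_min h hm⟩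
    have hlt : i₀ < i := by
      rcases Nat.lt_or_ge i₀ i with h' | h'
      · exact h'
      · exfalso
        have : i = i₀ := le_antisymm h' hge
        rw [this] at hne
        exact hne hi₀
    obtain ⟨j, rfl⟩ : ∃ j, i = j + 1 := ⟨i - 1, by omega⟩
    have hj : c j ω = l := by
      by_contra hcon
      exact hmin j (by omega) ⟨by omega, hcon⟩
    refine ⟨j, hj, ?_⟩
    by_contra hcon
    apply hne
    rw [hc2 j ω (by rw [hj]; exact hcon), hj]
  intro l
  induction l with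
  | zero => exact step 0 ⟨0, hc0 ω⟩
  | succ l ih =>
    obtain ⟨i, hi, hFi⟩ := ih
    refine step (l + 1) ⟨i + 1, ?_⟩
    rw [hc1 i ω (by rw [hi]; exact hFi), hi]


end Pool.Agent.RO
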