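import Mathlib

set_option autoImplicit false

/-!
# Module RO-MPb: the abstract probabilistic argument, part 2 (only Mathlib)

`c i ω` counts the failures before the time `i`: `c 0 = 0`, `c (i+1) = c i + 1[ω ∈ F i (c i)]`.  So `c i ≤ i`, `c` is monotone and
the sets `{c i = l}` belong to `𝓕 i`.

PLAN of `mp_bad`.  `Q i = {ω | ∀ i' < i, ω ∉ I i' (c i' ω)}` (in `𝓕 i`), `D i l = Q i ∩ {c i = l}`, `D i l = ∅` for `l > i`.
`μ (Q i ∩ {ω ∈ B i (c i)}) = ∑_l μ (D i l ∩ B i l) ≤ K1 ∑_l μ (D i l ∩ I i l) + ∑_l p l * μ ({c i = l} ∩ F i l)`.  Sum over `i`: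
`∑_i ∑_l μ (D i l ∩ I i l) ≤ 1` (the sets `D i l ∩ I i l` are pairwise disjoint in `(i, l)`: first time with `I`), and for each `l`:
`∑_i μ ({c i = l} ∩ F i l) ≤ 1` (disjoint in `i`, because `c (i+1) = l + 1` there), so the total is `≤ K1 + ∑_l p l < ⊤`.
Borel-Cantelli (`MeasureTheory.ae_eventually_notMem` / `measure_limsup_atTop_eq_zero`): almost every `ω` is in `Q i ∩ {ω ∈ B i (c i)}` only
for finitely many `i`; if `ω ∉ I i (c i ω)` for all `i`, then `ω ∈ Q i` for all `i`.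
-/

namespace Pool.Agent.RO

open MeasureTheory
open scoped ENNReal

variable {Ω : Type} [m0 : MeasurableSpace Ω]

theorem mp_bad (μ : Measure Ω) [IsProbabilityMeasure μ] (𝓕 : ℕ → MeasurableSpace Ω)
    (hmono : Monotone 𝓕) (hle : ∀ i, 𝓕 i ≤ m0) (F I B : ℕ → ℕ → Set Ω) (c : ℕ → Ω → ℕ)
    (hF : ∀ i l, l ≤ i → MeasurableSet[𝓕 (i + 1)] (F i l))
    (hI : ∀ i l, l ≤ i → MeasurableSet[𝓕 (i + 1)] (I i l))
    (hB : ∀ i l, l ≤ i → MeasurableSet[𝓕 (i + 1)] (B i l))
    (hc0 : ∀ ω, c 0 ω = 0)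
    (hc1 : ∀ i ω, ω ∈ F i (c i ω) → c (i + 1) ω = c i ω + 1)
    (hc2 : ∀ i ω, ω ∉ F i (c i ω) → c (i + 1) ω = c i ω)
    (K1 : ℝ≥0∞) (hK1 : K1 ≠ ⊤) (p : ℕ → ℝ≥0∞) (hp : ∑' l, p l ≠ ⊤)
    (h1 : ∀ i l, l ≤ i → ∀ Y, MeasurableSet[𝓕 i] Y →
      μ (Y ∩ B i l) ≤ K1 * μ (Y ∩ I i l) + p l * μ (Y ∩ F i l)) :
    ∀ᵐ ω ∂μ, (∀ i, ω ∉ I i (c i ω)) → ∃ i₀, ∀ i, i₀ ≤ i → ω ∉ B i (c i ω) := by
  have hcle : ∀ i ω, c i ω ≤ i := by
    intro i ω
    induction i with
    | zero => rw [hc0]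
    | succ i ih =>
      by_cases h : ω ∈ F i (c i ω)
      · rw [hc1 i ω h]; omega
      · rw [hc2 i ω h]; omega
  have hcmono : ∀ i ω, c i ω ≤ c (i + 1) ω := by
    intro i ω
    by_cases h : ω ∈ F i (c i ω)
    · rw [hc1 i ω h]; omega
    · rw [hc2 i ω h]
  have hcmono' : ∀ ω, Monotone fun i => c i ω := fun ω => monotone_nat_of_le_succ fun i => hcmono i ω
  have hempty : ∀ i l, i < l → {ω | c i ω = l} = ∅ := by
    intro i l hil
    ext ω
    simp only [Set.mem_ofPred_eq, Set.mem_empty_iff_false, iff_false]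
    have := hcle i ω
    omega
  -- measurability of the level sets
  have hcm : ∀ i l, MeasurableSet[𝓕 i] {ω | c i ω = l} := by
    intro i
    induction i with
    | zero =>
      intro l
      by_cases hl : l = 0
      · have h2 : {ω | c 0 ω = l} = Set.univ := by
          ext ω
          simp [hc0, hl]
        rw [h2]
        exact MeasurableSet.univ
      · rw [hempty 0 l (by omega)]
        exact @MeasurableSet.empty _ (𝓕 0)
    | succ i ih =>
      intro l
      have hA : MeasurableSet[𝓕 (i + 1)] ({ω | c i ω = l} \ F i l) := by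
        by_cases hl : l ≤ i
        · exact MeasurableSet.diff (hmono (Nat.le_succ i) _ (ih l)) (hF i l hl)
        · rw [hempty i l (by omega), Set.empty_sdiff]
          exact @MeasurableSet.empty _ (𝓕 (i + 1))
      have hB' : MeasurableSet[𝓕 (i + 1)] {ω | ∃ l', l = l' + 1 ∧ c i ω = l' ∧ ω ∈ F i l'} := by
        rcases l with _ | l'
        · have : {ω | ∃ l', 0 = l' + 1 ∧ c i ω = l' ∧ ω ∈ F i l'} = ∅ := by
            ext ω
            simp
          rw [this]
          exact @MeasurableSet.empty _ (𝓕 (i + 1))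
        · have h2 : {ω | ∃ l'', l' + 1 = l'' + 1 ∧ c i ω = l'' ∧ ω ∈ F i l''} =
              {ω | c i ω = l'} ∩ F i l' := by
            ext ω
            constructor
            · rintro ⟨l'', h3, h4, h5⟩
              have : l' = l'' := by omega
              subst this
              exact ⟨h4, h5⟩
            · rintro ⟨h4, h5⟩
              exact ⟨l', rfl, h4, h5⟩
          rw [h2]
          by_cases hl : l' ≤ i
          · exact MeasurableSet.inter (hmono (Nat.le_succ i) _ (ih l')) (hF i l' hl)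
          · rw [hempty i l' (by omega), Set.empty_inter]
            exact @MeasurableSet.empty _ (𝓕 (i + 1))
      have h3 : {ω | c (i + 1) ω = l} =
          ({ω | c i ω = l} \ F i l) ∪ {ω | ∃ l', l = l' + 1 ∧ c i ω = l' ∧ ω ∈ F i l'} := by
        ext ω
        constructor
        · intro h
          have h' : c (i + 1) ω = l := h
          by_cases hf : ω ∈ F i (c i ω)
          · right
            exact ⟨c i ω, by rw [← h', hc1 i ω hf], rfl, hf⟩
          · left
            rw [hc2 i ω hf] at h'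
            refine ⟨h', ?_⟩
            rw [← h']
            exact hf
        · rintro (⟨h, hf⟩ | ⟨l', h, h', hf⟩)
          · have h' : c i ω = l := h
            rw [← h'] at hf
            change c (i + 1) ω = l
            rw [hc2 i ω hf, h']
          · change c (i + 1) ω = l
            rw [← h'] at hf
            rw [hc1 i ω hf, h, h']
      rw [h3]
      exact MeasurableSet.union hA hB'
  -- the sets where the selected event holds
  have hsel : ∀ (S : ℕ → ℕ → Set Ω), (∀ i l, l ≤ i → MeasurableSet[𝓕 (i + 1)] (S i l)) → ∀ i,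
      MeasurableSet[𝓕 (i + 1)] {ω | ω ∈ S i (c i ω)} := by
    intro S hS i
    have h2 : {ω | ω ∈ S i (c i ω)} = ⋃ l : ℕ, ({ω | c i ω = l} ∩ S i l) := by
      ext ω
      simp only [Set.mem_ofPred_eq, Set.mem_iUnion, Set.mem_inter_iff, exists_eq_left']
    rw [h2]
    refine MeasurableSet.iUnion fun l => ?_
    by_cases hl : l ≤ i
    · exact MeasurableSet.inter (hmono (Nat.le_succ i) _ (hcm i l)) (hS i l hl)
    · rw [hempty i l (by omega), Set.empty_inter]
      exact @MeasurableSet.empty _ (𝓕 (i + 1))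
  have hQ : ∀ i, MeasurableSet[𝓕 i] {ω | ∀ i' < i, ω ∉ I i' (c i' ω)} := by
    intro i
    have h2 : {ω | ∀ i' < i, ω ∉ I i' (c i' ω)} =
        ⋂ i' : ℕ, ⋂ _ : i' < i, {ω | ω ∈ I i' (c i' ω)}ᶜ := by
      ext ω
      simp only [Set.mem_ofPred_eq, Set.mem_iInter, Set.mem_compl_iff]
    rw [h2]
    refine MeasurableSet.iInter fun i' => MeasurableSet.iInter fun hi' => ?_
    exact MeasurableSet.compl (hmono (Nat.succ_le_of_lt hi') _ (hsel I hI i'))
  have hD : ∀ i l, MeasurableSet[𝓕 i] ({ω | ∀ i' < i, ω ∉ I i' (c i' ω)} ∩ {ω | c i ω = l}) :=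
    fun i l => MeasurableSet.inter (hQ i) (hcm i l)
  -- first sum
  have hU : ∀ i, ∑' l, μ (({ω | ∀ i' < i, ω ∉ I i' (c i' ω)} ∩ {ω | c i ω = l}) ∩ I i l) =
      μ ({ω | ∀ i' < i, ω ∉ I i' (c i' ω)} ∩ {ω | ω ∈ I i (c i ω)}) := by
    intro i
    have hm : ∀ l, MeasurableSet
        (({ω | ∀ i' < i, ω ∉ I i' (c i' ω)} ∩ {ω | c i ω = l}) ∩ I i l) := by
      intro l
      by_cases hl : l ≤ i
      · exact MeasurableSet.inter (hle _ _ (hD i l)) (hle _ _ (hI i l hl))
      · rw [hempty i l (by omega), Set.inter_empty, Set.empty_inter]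
        exact MeasurableSet.empty
    have hdis : Pairwise (Function.onFun Disjoint fun l =>
        ({ω | ∀ i' < i, ω ∉ I i' (c i' ω)} ∩ {ω | c i ω = l}) ∩ I i l) := by
      intro l l' hll
      refine Set.disjoint_left.mpr ?_
      rintro ω ⟨⟨_, h3⟩, _⟩ ⟨⟨_, h4⟩, _⟩
      exact hll ((show c i ω = l from h3).symm.trans h4)
    rw [← measure_iUnion hdis hm]
    congr 1
    ext ω
    constructor
    · intro h
      obtain ⟨l, ⟨h3, h4⟩, h5⟩ := Set.mem_iUnion.mp h
      refine ⟨h3, ?_⟩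
      change ω ∈ I i (c i ω)
      rw [show c i ω = l from h4]
      exact h5
    · rintro ⟨h3, h4⟩
      exact Set.mem_iUnion.mpr ⟨c i ω, ⟨h3, rfl⟩, h4⟩
  have hS1 : ∑' i, ∑' l,
      μ (({ω | ∀ i' < i, ω ∉ I i' (c i' ω)} ∩ {ω | c i ω = l}) ∩ I i l) ≤ 1 := by
    rw [tsum_congr hU]
    have hdis : Pairwise (Function.onFun Disjoint fun i =>
        ({ω | ∀ i' < i, ω ∉ I i' (c i' ω)} ∩ {ω | ω ∈ I i (c i ω)})) := by
      intro i j hij
      refine Set.disjoint_left.mpr ?_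
      rintro ω ⟨h3, h4⟩ ⟨h5, h6⟩
      rcases Nat.lt_or_gt_of_ne hij with h | h
      · exact h5 i h h4
      · exact h3 j h h6
    have hm : ∀ i, MeasurableSet
        ({ω | ∀ i' < i, ω ∉ I i' (c i' ω)} ∩ {ω | ω ∈ I i (c i ω)}) := fun i =>
      MeasurableSet.inter (hle _ _ (hQ i)) (hle _ _ (hsel I hI i))
    rw [← measure_iUnion hdis hm]
    exact prob_le_one
  -- second sum
  have hS2 : ∀ l, ∑' i, μ ({ω | c i ω = l} ∩ F i l) ≤ 1 := by
    intro l
    have hdis : Pairwise (Function.onFun Disjoint fun i => ({ω | c i ω = l} ∩ F i l)) := by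
      have key : ∀ i j, i < j → ∀ ω, c i ω = l → ω ∈ F i l → c j ω = l → False := by
        intro i j hij ω h3 h4 h5
        have h6 : c (i + 1) ω = l + 1 := by
          rw [← h3] at h4
          rw [hc1 i ω h4, h3]
        have h7 := hcmono' ω (Nat.succ_le_of_lt hij)
        have h8 : c (i + 1) ω ≤ c j ω := h7
        omega
      intro i j hij
      refine Set.disjoint_left.mpr ?_
      rintro ω ⟨h3, h4⟩ ⟨h5, h6⟩
      rcases Nat.lt_or_gt_of_ne hij with h | h
      · exact key i j h ω h3 h4 h5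
      · exact key j i h ω h5 h6 h3
    have hm : ∀ i, MeasurableSet ({ω | c i ω = l} ∩ F i l) := by
      intro i
      by_cases hl : l ≤ i
      · exact MeasurableSet.inter (hle _ _ (hcm i l)) (hle _ _ (hF i l hl))
      · rw [hempty i l (by omega), Set.empty_inter]
        exact MeasurableSet.empty
    rw [← measure_iUnion hdis hm]
    exact prob_le_one
  -- the bad sets
  have hE : ∀ i, μ ({ω | ∀ i' < i, ω ∉ I i' (c i' ω)} ∩ {ω | ω ∈ B i (c i ω)}) ≤
      ∑' l, (K1 * μ (({ω | ∀ i' < i, ω ∉ I i' (c i' ω)} ∩ {ω | c i ω = l}) ∩ I i l) +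
        p l * μ ({ω | c i ω = l} ∩ F i l)) := by
    intro i
    have h2 : {ω | ∀ i' < i, ω ∉ I i' (c i' ω)} ∩ {ω | ω ∈ B i (c i ω)} ⊆
        ⋃ l : ℕ, (({ω | ∀ i' < i, ω ∉ I i' (c i' ω)} ∩ {ω | c i ω = l}) ∩ B i l) := by
      rintro ω ⟨h3, h4⟩
      exact Set.mem_iUnion.mpr ⟨c i ω, ⟨h3, rfl⟩, h4⟩
    refine (measure_mono h2).trans ((measure_iUnion_le _).trans ?_)
    refine ENNReal.tsum_le_tsum fun l => ?_
    by_cases hl : l ≤ i
    · refine (h1 i l hl _ (hD i l)).trans ?_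
      gcongr
      exact Set.inter_subset_right
    · rw [hempty i l (by omega), Set.inter_empty, Set.empty_inter, measure_empty]
      exact zero_le
  have htot : ∑' i, μ ({ω | ∀ i' < i, ω ∉ I i' (c i' ω)} ∩ {ω | ω ∈ B i (c i ω)}) ≠ ⊤ := by
    have h2 : ∑' i, μ ({ω | ∀ i' < i, ω ∉ I i' (c i' ω)} ∩ {ω | ω ∈ B i (c i ω)}) ≤
        K1 * 1 + ∑' l, p l := by
      calc ∑' i, μ ({ω | ∀ i' < i, ω ∉ I i' (c i' ω)} ∩ {ω | ω ∈ B i (c i ω)})
          ≤ ∑' i, ∑' l,
            (K1 * μ (({ω | ∀ i' < i, ω ∉ I i' (c i' ω)} ∩ {ω | c i ω = l}) ∩ I i l) +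
              p l * μ ({ω | c i ω = l} ∩ F i l)) := ENNReal.tsum_le_tsum hE
        _ = ∑' i, ((K1 * ∑' l,
              μ (({ω | ∀ i' < i, ω ∉ I i' (c i' ω)} ∩ {ω | c i ω = l}) ∩ I i l)) +
              ∑' l, p l * μ ({ω | c i ω = l} ∩ F i l)) := by
            refine tsum_congr fun i => ?_
            rw [ENNReal.tsum_add, ENNReal.tsum_mul_left]
        _ = K1 * (∑' i, ∑' l,
              μ (({ω | ∀ i' < i, ω ∉ I i' (c i' ω)} ∩ {ω | c i ω = l}) ∩ I i l)) +
              ∑' i, ∑' l, p l * μ ({ω | c i ω = l} ∩ F i l) := by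
            rw [ENNReal.tsum_add, ENNReal.tsum_mul_left]
        _ ≤ K1 * 1 + ∑' l, p l := by
            refine add_le_add (mul_le_mul_right hS1 _) ?_
            rw [ENNReal.tsum_comm]
            refine ENNReal.tsum_le_tsum fun l => ?_
            rw [ENNReal.tsum_mul_left]
            calc p l * ∑' i, μ ({ω | c i ω = l} ∩ F i l) ≤ p l * 1 := mul_le_mul_right (hS2 l) _
              _ = p l := mul_one _
    refine ne_top_of_le_ne_top ?_ h2
    rw [mul_one]
    exact ENNReal.add_ne_top.mpr ⟨hK1, hp⟩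
  filter_upwards [ae_eventually_notMem htot] with ω hω hI'
  obtain ⟨i₀, hi₀⟩ := Filter.eventually_atTop.mp hω
  refine ⟨i₀, fun i hi hb => ?_⟩
  exact hi₀ i hi ⟨fun i' _ => hI' i', hb⟩

end Pool.Agent.RO
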