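import Mathlib
import Pool.Agent.RO.Defs

set_option autoImplicit false

/-!
# Module RO-CTq: runs with a table

`tabRun M T F a` runs `M` on `a` with the finite table: the words of `T` are answered by `true`, all others by `false`; the
result is `true` if the output is `true` and all the queries are in `T ++ F`.

PLAN.  `tabRun_FP`: `M.answers (wmem T) a (M.clock a).length` is in FP (see the proof of `FP.runOracle` in
Pool/Agent/Helper22/OracleTools.lean: `simStep`, `simStep_iter`); the `n`-th query is
`M.query (a, ans.drop (len - n))` for the complete list `ans` of the answers (latest first), so: all the queries are in `T ++ F` is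
`FP.any_ctx` over the list `(List.range len).map un` (or over all suffixes of `ans`: e.g. iterate `List.tail`, or use that the list of
the suffixes of a word is in FP by `FP.foldl`).
`tabRun_sound`: if `T ⊆ R`, `F ∩ R = ∅` then all the answers are correct (induction on `n`), so the run is that with `R`.
`tabRun_compl`: take `T` = the queries with answer `true`, `F` = those with answer `false` in the run with `R`: the lists are
sublists of `qs M R a`.
-/

namespace Pool.Agent.RO

open Pool.Agent.Helper22 N487b59b3 N68a2faeb N793a5b8e

variable {α : Type} [N487b59b3 α]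

/-- the run with a table: output `true` and all queries in the table -/
def tabRun (M : OracleProc α Bool) (T F : List (List Bool)) (a : α) : Bool :=
  M.run (fun q => wmem T q) a && (qs M (fun q => wmem T q) a).all fun q => wmem (T ++ F) q

private def simT (M : OracleProc α Bool)
    (s : (((List (List Bool) × List (List Bool)) × α) × List Bool) × Bool) :
    (((List (List Bool) × List (List Bool)) × α) × List Bool) × Bool :=
  ((s.1.1, wmem s.1.1.1.1 (M.query (s.1.1.2, s.1.2)) :: s.1.2),
    s.2 && wmem (s.1.1.1.1 ++ s.1.1.1.2) (M.query (s.1.1.2, s.1.2)))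

private theorem simT_iter (M : OracleProc α Bool) (c : (List (List Bool) × List (List Bool)) × α)
    (n : ℕ) :
    (simT M)^[n] ((c, []), true) = ((c, M.answers (fun q => wmem c.1.1 q) c.2 n),
      ((List.range n).map fun k => M.query (c.2, M.answers (fun q => wmem c.1.1 q) c.2 k)).all
        fun q => wmem (c.1.1 ++ c.1.2) q) := by
  induction n with
  | zero => rfl
  | succ n ih =>
    rw [Function.iterate_succ_apply', ih, List.range_succ, List.map_append, List.all_append]
    simp only [simT, List.map_cons, List.map_nil, List.all_cons, List.all_nil, Bool.and_true]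
    rfl

theorem tabRun_FP (M : OracleProc α Bool) :
    FP fun p : (List (List Bool) × List (List Bool)) × α => tabRun M p.1.1 p.1.2 p.2 := by
  have hc := (isPolyTime_iff _).1 M.clock_poly
  have hq := (isPolyTime_iff _).1 M.query_poly
  have hout := (isPolyTime_iff _).1 M.out_poly
  have h : FP fun p : List Bool ×
      ((((List (List Bool) × List (List Bool)) × α) × List Bool) × Bool) =>
      (simT M)^[p.1.length] p.2 := by
    refine FP.iterate (f := simT M) ?_ (B := fun n => 16 * n) (by fun_prop) ?_
    · have h1 : FP fun s : (((List (List Bool) × List (List Bool)) × α) × List Bool) × Bool =>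
          M.query (s.1.1.2, s.1.2) := hq.comp (by fun_prop)
      unfold simT
      fun_prop
    · intro l a i hi
      have h1 : ((simT M)^[i] a).1.1 = a.1.1 ∧
          ((simT M)^[i] a).1.2.length = i + a.1.2.length := by
        clear hi
        induction i with
        | zero => simp
        | succ i ih =>
          rw [Function.iterate_succ_apply']
          refine ⟨ih.1, ?_⟩
          simp only [simT, List.length_cons, ih.2]; omega
      rcases hr : (simT M)^[i] a with ⟨⟨c, d⟩, e⟩
      rw [hr] at h1
      obtain ⟨h1, h2⟩ := h1
      obtain ⟨⟨a1, a2⟩, a3⟩ := a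
      simp only [sz_pair, sz_bits, sz_bool] at *
      subst h1
      omega
  have h3 : FP fun c : (List (List Bool) × List (List Bool)) × α => M.clock c.2 :=
    hc.comp FP.snd
  have h4 := h.comp (h3.pair ((FP.id.pair (FP.const ([] : List Bool))).pair (FP.const true)))
  simp only [simT_iter] at h4
  have h5 := (hout.comp (FP.snd.pair h4.fst'.snd')).and h4.snd'
  exact h5

private theorem answers_eq (M : OracleProc α Bool) {X Y : Oracle} {a : α} {N : ℕ}
    (h : ∀ n < N, X (M.query (a, M.answers X a n)) = Y (M.query (a, M.answers X a n))) :
    ∀ n ≤ N, M.answers X a n = M.answers Y a n := by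
  intro n
  induction n with
  | zero => intro _; rfl
  | succ n ih =>
    intro hn
    have h1 := ih (by omega)
    rw [OracleProc.answers, OracleProc.answers, h n (by omega), h1]

theorem tabRun_sound (M : OracleProc α Bool) {T F : List (List Bool)} {R : Oracle} {a : α}
    (hT : ∀ q ∈ T, R q = true) (hF : ∀ q ∈ F, R q = false) (h : tabRun M T F a = true) :
    M.run R a = true := by
  rw [tabRun, Bool.and_eq_true, List.all_eq_true] at h
  obtain ⟨h1, h2⟩ := h
  have h3 : ∀ n < (M.clock a).length,
      (fun q => wmem T q) (M.query (a, M.answers (fun q => wmem T q) a n)) =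
        R (M.query (a, M.answers (fun q => wmem T q) a n)) := by
    intro n hn
    have h4 := (wmem_iff _ _).1 (h2 _ (List.mem_map_of_mem (List.mem_range.2 hn)))
    rcases List.mem_append.1 h4 with h5 | h5
    · rw [hT _ h5]
      exact (wmem_iff _ _).2 h5
    · rw [hF _ h5]
      by_contra h6
      have h7 : wmem T (M.query (a, M.answers (fun q => wmem T q) a n)) = true := by
        simpa using h6
      have h8 := hT _ ((wmem_iff _ _).1 h7)
      rw [hF _ h5] at h8
      exact absurd h8 (by decide)
  have h4 := answers_eq M h3 _ le_rfl
  rw [OracleProc.run, ← h4]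
  exact h1

/-- all queries of the run are in the table -/
theorem tabRun_compl (M : OracleProc α Bool) {T F : List (List Bool)} {R : Oracle} {a : α}
    (hT : ∀ q ∈ T, R q = true) (hF : ∀ q ∈ F, R q = false)
    (hq : ∀ q ∈ qs M R a, q ∈ T ++ F) (h : M.run R a = true) : tabRun M T F a = true := by
  have h3 : ∀ n < (M.clock a).length,
      R (M.query (a, M.answers R a n)) = (fun q => wmem T q) (M.query (a, M.answers R a n)) := by
    intro n hn
    have h4 := hq _ (List.mem_map_of_mem (List.mem_range.2 hn))
    rcases List.mem_append.1 h4 with h5 | h5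
    · rw [hT _ h5]
      exact ((wmem_iff _ _).2 h5).symm
    · rw [hF _ h5]
      by_contra h6
      have h7 : wmem T (M.query (a, M.answers R a n)) = true := by
        have h8 : ¬ (wmem T (M.query (a, M.answers R a n)) = false) := fun h9 => h6 h9.symm
        simpa using h8
      have h8 := hT _ ((wmem_iff _ _).1 h7)
      rw [hF _ h5] at h8
      exact absurd h8 (by decide)
  have h4 := answers_eq M h3
  rw [tabRun, Bool.and_eq_true, List.all_eq_true]
  constructor
  · rw [OracleProc.run, ← h4 _ le_rfl]
    exact h
  · intro q hq'
    obtain ⟨n, hn, rfl⟩ := List.mem_map.1 hq'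
    have hn' := List.mem_range.1 hn
    rw [← h4 n hn'.le]
    exact (wmem_iff _ _).2 (hq _ (List.mem_map_of_mem hn))

/-- the number and the length of the queries are bounded by a polynomial in the size of the input -/
theorem qs_bound (M : OracleProc α Bool) : ∃ B : ℕ → ℕ, PB B ∧ Monotone B ∧ ∀ (R : Oracle) (a : α),
    (qs M R a).length ≤ B (sz a) ∧ ∀ q ∈ qs M R a, q.length ≤ B (sz a) := by
  obtain ⟨B₁, p₁, m₁, b₁⟩ := ((isPolyTime_iff _).1 M.clock_poly).bound
  obtain ⟨B₂, p₂, m₂, b₂⟩ := ((isPolyTime_iff _).1 M.query_poly).bound
  refine ⟨fun n => B₁ n + B₂ (2 * n + 1 + 3 * B₁ n), ?_, ?_, ?_⟩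
  · refine p₁.add (p₂.comp ?_)
    exact ((PB.const 2).mul PB.id).add (PB.const 1) |>.add ((PB.const 3).mul p₁)
  · intro x y hxy
    have h1 := m₁ hxy
    have h2 : 2 * x + 1 + 3 * B₁ x ≤ 2 * y + 1 + 3 * B₁ y := by omega
    exact Nat.add_le_add h1 (m₂ h2)
  · intro R a
    have h1 : (M.clock a).length ≤ B₁ (sz a) := by
      have := b₁ a
      rw [sz_bits] at this
      omega
    constructor
    · rw [qs, List.length_map, List.length_range]
      exact h1.trans (Nat.le_add_right _ _)
    · intro q hq
      obtain ⟨n, hn, rfl⟩ := List.mem_map.1 hq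
      have hn' := List.mem_range.1 hn
      have h2 := b₂ (a, M.answers R a n)
      rw [sz_bits, sz_pair, sz_bits, OracleProc.answers_length] at h2
      have h3 : 2 * sz a + 1 + 3 * n ≤ 2 * sz a + 1 + 3 * B₁ (sz a) := by omega
      have h4 := m₂ h3
      show (M.query (a, M.answers R a n)).length ≤ B₁ (sz a) + B₂ (2 * sz a + 1 + 3 * B₁ (sz a))
      omega

end Pool.Agent.RO
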