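import Mathlib
import Pool.Agent.RO.CDefs

/-!
# RO-CTlA (job): polynomial time list operations

PLAN. `uns`: as `FP.strs` in `Helper22/Enum.lean` (iterate `s ↦ (true :: s.1, s.2 ++ [s.1])` on `([], [])`,
`FP.iterate`, sizes: the number of steps is at most the length of the word). `flatMap_ctx`: `FP.map_ctx` and then
concatenation by `FP.foldl` (`g a b = a ++ b`, `sz (l.foldl ..) ≤ sz l + sz a`; `sz_append`, `sz_cons`). `all_ctx`: negate
`FP.any_ctx`. `filter_ctx`: `flatMap` of `if P (c, b) then [b] else []`.
(`sz_nil, sz_cons, sz_append, sz_bits, sz_bool, sz_pair` are in `Helper22/Typed.lean`, `Tools.lean`.)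
-/

set_option autoImplicit false

namespace Pool.Agent.RO

open N68a2faeb N793a5b8e N487b59b3 Pool.Agent.Helper22

section

variable {α β γ δ : Type} [N487b59b3 α] [N487b59b3 β] [N487b59b3 γ] [N487b59b3 δ]

private theorem uns_iter (n : ℕ) :
    (fun s : List Bool × List (List Bool) => (true :: s.1, s.2 ++ [s.1]))^[n] ([], []) =
      (un n, (List.range n).map un) := by
  induction n with
  | zero => rfl
  | succ n ih =>
    rw [Function.iterate_succ_apply', ih]
    simp only [List.range_succ, List.map_append, List.map_cons, List.map_nil, Prod.mk.injEq,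
      and_true]
    rfl

private theorem uns_size (s : List Bool × List (List Bool)) (n : ℕ) :
    ((fun s : List Bool × List (List Bool) => (true :: s.1, s.2 ++ [s.1]))^[n] s).1.length ≤
      s.1.length + n ∧
    sz ((fun s : List Bool × List (List Bool) => (true :: s.1, s.2 ++ [s.1]))^[n] s).2 ≤
      sz s.2 + n * (6 * (s.1.length + n) + 1) := by
  induction n with
  | zero => simp
  | succ n ih =>
    obtain ⟨h1, h2⟩ := ih
    rw [Function.iterate_succ_apply']
    set r := (fun s : List Bool × List (List Bool) => (true :: s.1, s.2 ++ [s.1]))^[n] s with hr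
    refine ⟨by simp only [List.length_cons]; omega, ?_⟩
    simp only [sz_append, sz_cons, sz_nil, sz_bits]
    have h4 : n * (6 * (s.1.length + n) + 1) ≤ n * (6 * (s.1.length + (n + 1)) + 1) :=
      Nat.mul_le_mul_left _ (by omega)
    have h5 : (n + 1) * (6 * (s.1.length + (n + 1)) + 1) =
      n * (6 * (s.1.length + (n + 1)) + 1) + (6 * (s.1.length + (n + 1)) + 1) := by ring
    omega

@[fun_prop]
theorem FP.uns {f : α → List Bool} (hf : FP f) : FP fun a => RO.uns (f a) := by
  have h : FP fun p : List Bool × (List Bool × List (List Bool)) =>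
      (fun s : List Bool × List (List Bool) => (true :: s.1, s.2 ++ [s.1]))^[p.1.length]
        p.2 := by
    refine FP.iterate
      (f := fun s : List Bool × List (List Bool) => (true :: s.1, s.2 ++ [s.1])) ?_
      (B := fun n => 6 * (n + n) + 1 + (n + n * (6 * (n + n) + 1))) (by fun_prop) ?_
    · have : FP fun s : List Bool × List (List Bool) => [s.1] := FP.fst.cons (FP.const [])
      fun_prop
    · intro l a i hi
      obtain ⟨h1, h2⟩ := uns_size a i
      rcases hr : (fun s : List Bool × List (List Bool) => (true :: s.1, s.2 ++ [s.1]))^[i] a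
        with ⟨c, o⟩
      rw [hr] at h1 h2
      obtain ⟨c', o'⟩ := a
      simp only [sz_pair, sz_bits] at *
      have h3 : i ≤ 3 * l.length + (2 * (3 * c'.length) + 1 + sz o') := by omega
      have h4 : 6 * (c'.length + i) + 1 ≤
        6 * ((3 * l.length + (2 * (3 * c'.length) + 1 + sz o')) +
          (3 * l.length + (2 * (3 * c'.length) + 1 + sz o'))) + 1 := by omega
      have h5 := Nat.mul_le_mul h3 h4
      obtain ⟨N, hN⟩ : ∃ N, N = 3 * l.length + (2 * (3 * c'.length) + 1 + sz o') := ⟨_, rfl⟩
      rw [← hN] at h5 ⊢
      omega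
  have h2 := (h.comp (hf.pair (FP.const (([] : List Bool), ([] : List (List Bool)))))).snd'
  simp only [uns_iter] at h2
  exact h2

theorem mem_uns {r w : List Bool} : w ∈ uns r ↔ ∃ a < r.length, w = un a := by
  unfold uns
  rw [List.mem_map]
  constructor
  · rintro ⟨a, ha, rfl⟩
    exact ⟨a, List.mem_range.1 ha, rfl⟩
  · rintro ⟨a, ha, rfl⟩
    exact ⟨a, List.mem_range.2 ha, rfl⟩

private theorem foldl_append_flatten (l : List (List δ)) (a : List δ) :
    l.foldl (fun s b => s ++ b) a = a ++ l.flatten := by
  induction l generalizing a with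
  | nil => simp
  | cons b l ih => rw [List.foldl_cons, ih, List.flatten_cons, List.append_assoc]

theorem FP.flatMap_ctx [Inhabited β] {h : γ × β → List δ} (hh : FP h) :
    FP fun p : γ × List β => p.2.flatMap fun b => h (p.1, b) := by
  have h1 := FP.map_ctx hh
  have h2 : FP fun p : List (List δ) × List δ => p.1.foldl (fun s b => s ++ b) p.2 := by
    refine FP.foldl (g := fun s b : List δ => s ++ b) (FP.append FP.fst FP.snd)
      (B := fun n => n) (by fun_prop) ?_
    intro l a
    rw [foldl_append_flatten, sz_append]
    induction l with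
    | nil => simp
    | cons b l ih =>
      rw [List.flatten_cons, sz_append, sz_cons]
      omega
  have h3 := h2.comp (h1.pair (FP.const ([] : List δ)))
  refine (congrArg FP (funext fun p => ?_)).mp h3
  simp only [foldl_append_flatten, List.nil_append]
  rw [List.flatMap_def]

theorem FP.all_ctx [Inhabited β] {P : γ × β → Bool} (hP : FP P) :
    FP fun p : γ × List β => p.2.all fun b => P (p.1, b) := by
  have h1 := FP.not (FP.any_ctx (P := fun q : γ × β => !(P q)) (FP.not hP))
  refine (congrArg FP (funext fun p => ?_)).mp h1
  rw [List.not_any_eq_all_not]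
  simp only [Bool.not_not]

private theorem filter_eq (q : β → Bool) (l : List β) :
    (l.flatMap fun b => if q b then [b] else []) = l.filter q := by
  induction l with
  | nil => rfl
  | cons b l ih =>
    rw [List.flatMap_cons, ih, List.filter_cons]
    cases q b <;> rfl

theorem FP.filter_ctx [Inhabited β] {P : γ × β → Bool} (hP : FP P) :
    FP fun p : γ × List β => p.2.filter fun b => P (p.1, b) := by
  have h0 : FP fun q : γ × β => if P q then [q.2] else ([] : List β) :=
    FP.ite hP (FP.cons FP.snd (FP.const [])) (FP.const [])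
  have h1 := FP.flatMap_ctx h0
  refine (congrArg FP (funext fun p => ?_)).mp h1
  exact filter_eq (fun b => P (p.1, b)) p.2

end

end Pool.Agent.RO
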