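import Mathlib
import Pool.Agent.RO.CDefs

/-!
# RO-CTlB (job): more polynomial time list operations

PLAN. All by `FP.foldl`. `nodupB`: the state is `(seen, ok)`; `nodupB_iff`: induction with a general start
(`(l.foldl _ (m, b)).2 = true ↔ b = true ∧ l.Nodup ∧ ∀ w ∈ l, w ∉ m`, `wmem_iff`). `wx`: fold over the first word with the state
`(rest of the second word, output)`: if the rest is not empty append `xor b (headD false)` and take the tail; the output
has at most the length of the first word (see `weqStep` in `Helper22/OracleTools.lean` for the pattern, `xor b c = !(b == c)`).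
`zip`: fold over the first list with the state `(rest of the second list, output)`.
-/

set_option autoImplicit false

namespace Pool.Agent.RO

open N68a2faeb N793a5b8e N487b59b3 Pool.Agent.Helper22

private def ndStep (s : List (List Bool) × Bool) (w : List Bool) : List (List Bool) × Bool :=
  (w :: s.1, s.2 && !wmem s.1 w)

private theorem nodupB_eq (l : List (List Bool)) : nodupB l = (l.foldl ndStep ([], true)).2 := rfl

private theorem ndStep_foldl (l m : List (List Bool)) (b : Bool) :
    (l.foldl ndStep (m, b)).2 = true ↔ b = true ∧ l.Nodup ∧ ∀ w ∈ l, w ∉ m := by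
  induction l generalizing m b with
  | nil => simp
  | cons w l ih =>
    rw [List.foldl_cons]
    have h : ndStep (m, b) w = (w :: m, b && !wmem m w) := rfl
    rw [h, ih, List.nodup_cons, Bool.and_eq_true, Bool.not_eq_true', Bool.eq_false_iff]
    have h1 : wmem m w ≠ true ↔ w ∉ m := by rw [Ne, wmem_iff]
    rw [h1]
    constructor
    · rintro ⟨⟨h2, h3⟩, h4, h5⟩
      refine ⟨h2, ⟨fun h6 => h5 w h6 List.mem_cons_self, h4⟩, ?_⟩
      intro x hx
      rcases List.mem_cons.1 hx with rfl | hx
      · exact h3
      · exact fun h7 => h5 x hx (List.mem_cons_of_mem _ h7)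
    · rintro ⟨h2, ⟨h3, h4⟩, h5⟩
      refine ⟨⟨h2, h5 w List.mem_cons_self⟩, h4, ?_⟩
      intro x hx h6
      rcases List.mem_cons.1 h6 with rfl | h6
      · exact h3 hx
      · exact h5 x (List.mem_cons_of_mem _ hx) h6

theorem nodupB_iff (l : List (List Bool)) : nodupB l = true ↔ l.Nodup := by
  rw [nodupB_eq, ndStep_foldl]
  simp

private theorem sz_ndStep (l : List (List Bool)) (a : List (List Bool) × Bool) :
    sz (l.foldl ndStep a).1 = sz l + sz a.1 := by
  induction l generalizing a with
  | nil => simp
  | cons w l ih =>
    rw [List.foldl_cons, ih]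
    simp only [ndStep, sz_cons]
    omega

private def wxStep (s : List Bool × List Bool) (x : Bool) : List Bool × List Bool :=
  if s.1.isEmpty then s else (s.1.tail, s.2 ++ [!(x == s.1.headD false)])

private theorem wxStep_foldl (a b o : List Bool) :
    (a.foldl wxStep (b, o)).2 = o ++ RO.wx a b := by
  induction a generalizing b o with
  | nil => simp [RO.wx]
  | cons x a ih =>
    rw [List.foldl_cons]
    cases b with
    | nil =>
      have h : wxStep ([], o) x = ([], o) := rfl
      rw [h, ih]
      simp [RO.wx]
    | cons y b =>
      have h : wxStep (y :: b, o) x = (b, o ++ [!(x == y)]) := rfl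
      rw [h, ih, List.append_assoc]
      have h2 : (!(x == y)) = xor x y := by cases x <;> cases y <;> rfl
      rw [h2]
      rfl

private theorem wxStep_len (l : List Bool) (a : List Bool × List Bool) :
    (l.foldl wxStep a).1.length ≤ a.1.length ∧
      (l.foldl wxStep a).2.length ≤ l.length + a.2.length := by
  induction l generalizing a with
  | nil => simp
  | cons x l ih =>
    rw [List.foldl_cons]
    obtain ⟨h1, h2⟩ := ih (wxStep a x)
    have h3 : (wxStep a x).1.length ≤ a.1.length := by
      unfold wxStep
      split_ifs
      · exact le_rfl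
      · simp
    have h4 : (wxStep a x).2.length ≤ a.2.length + 1 := by
      unfold wxStep
      split_ifs
      · omega
      · rw [List.length_append]
        simp
    rw [List.length_cons]
    exact ⟨h1.trans h3, by omega⟩

section

variable {α β γ δ : Type} [N487b59b3 α] [N487b59b3 β] [N487b59b3 γ] [N487b59b3 δ]

@[fun_prop]
theorem FP.nodupB {f : α → List (List Bool)} (hf : FP f) : FP fun a => RO.nodupB (f a) := by
  have h : FP fun p : List (List Bool) × (List (List Bool) × Bool) => p.1.foldl ndStep p.2 := by
    refine FP.foldl (g := ndStep) ?_ (B := fun n => 2 * n + 2) (by fun_prop) ?_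
    · unfold ndStep
      fun_prop
    · intro l a
      have h1 := sz_ndStep l a
      rcases hr : l.foldl ndStep a with ⟨c, d⟩
      rw [hr] at h1
      obtain ⟨a1, a2⟩ := a
      simp only [sz_pair, sz_bool] at *
      omega
  have h2 := h.comp (hf.pair (FP.const (([] : List (List Bool)), true)))
  exact h2.snd'

@[fun_prop]
theorem FP.wx {f g : α → List Bool} (hf : FP f) (hg : FP g) : FP fun a => RO.wx (f a) (g a) := by
  have h : FP fun p : List Bool × (List Bool × List Bool) => p.1.foldl wxStep p.2 := by
    refine FP.foldl (g := wxStep) ?_ (B := fun n => n) (by fun_prop) ?_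
    · have h1 : FP fun p : (List Bool × List Bool) × Bool => p.1.1.headD false :=
        FP.headD (by fun_prop) _
      unfold wxStep
      fun_prop
    · intro l a
      have h1 := wxStep_len l a
      rcases hr : l.foldl wxStep a with ⟨c, d⟩
      rw [hr] at h1
      obtain ⟨a1, a2⟩ := a
      simp only [sz_pair, sz_bits] at *
      omega
  have h2 := (h.comp (hf.pair (hg.pair (FP.const ([] : List Bool))))).snd'
  refine (congrArg FP (funext fun a => ?_)).mp h2
  show ((f a).foldl wxStep (g a, [])).2 = _
  rw [wxStep_foldl, List.nil_append]

end

end Pool.Agent.RO
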