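import Mathlib
import Pool.Agent.RO.CTlA
import Pool.Agent.RO.CTlB

/-!
# RO-CFpA (job): the bounded versions are computable in polynomial time, part 1

PLAN. Unfold and combine: `fun_prop` for words; `FP.lc'` (`Helper20/Cons/CodeG.lean`), `FP.pw`, `FP.drop`, `FP.un_length`, `FP.wmem`,
`FP.any_ctx`, `FP.all_ctx` (with `.comp` to bring the arguments into the form `(context, element)`, see
`Pool/Agent/Hrd/LookFP.lean` for many examples of the pattern).
-/

set_option autoImplicit false

namespace Pool.Agent.RO

open N68a2faeb N793a5b8e N487b59b3 Pool.Agent.Helper22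

theorem kapU_FP : FP fun p : List Bool × List Bool => kapU p.1 p.2 := by
  unfold kapU
  exact FP.drop (by fun_prop) (by fun_prop)

theorem powU_FP : FP fun p : List Bool × (List Bool × List Bool) => powU p.1 p.2.1 p.2.2 := by
  unfold powU
  fun_prop

theorem markB_FP : FP fun p : List (List Bool) × (List Bool × List Bool) =>
    markB p.1 p.2.1 p.2.2 := by
  have h1 : FP fun p : (List (List Bool) × List Bool) × List Bool =>
      !wmem p.1.1 (p.1.2 ++ p.2) := by fun_prop
  have h2 := FP.all_ctx h1
  exact h2.comp (f := fun p : List (List Bool) × (List Bool × List Bool) =>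
    ((p.1, p.2.2), uns p.2.1)) (by fun_prop)

theorem instB_FP : FP fun p : List Bool × (List Bool × List Bool) =>
    instB p.1 p.2.1 p.2.2 := by
  have e0 : FP fun p : List Bool × (List Bool × List Bool) => ld p.2.2 := by fun_prop
  have e1 : FP fun p : List Bool × (List Bool × List Bool) => weq (lc (ld p.2.2)) p.2.2 :=
    FP.weq (Pool.Agent.Helper20.Cons.FP.lc'.comp e0) (by fun_prop)
  have e2 : FP fun p : List Bool × (List Bool × List Bool) => powU (un 4) p.2.1 p.2.2 :=
    powU_FP.comp (f := fun p : List Bool × (List Bool × List Bool) => (un 4, (p.2.1, p.2.2)))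
      ((FP.const _).pair (by fun_prop))
  have e3 : FP fun p : List Bool × (List Bool × List Bool) =>
      leneq (un (ld p.2.2).length) (powU (un 4) p.2.1 p.2.2 ++ powU (un 4) p.2.1 p.2.2) :=
    FP.leneq (FP.un_length e0) (FP.append e2 e2)
  have e4 : FP fun p : List Bool × (List Bool × List Bool) => nodupB (ld p.2.2) :=
    FP.nodupB e0
  have e5 : FP fun p : List Bool × (List Bool × List Bool) =>
      (ld p.2.2).all fun x => leneq x p.1 := by
    have h1 : FP fun p : List Bool × List Bool => leneq p.2 p.1 := by fun_prop
    exact (FP.all_ctx h1).comp (f := fun p : List Bool × (List Bool × List Bool) =>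
      (p.1, ld p.2.2)) (by fun_prop)
  unfold instB
  exact (e1.and e3).and (e4.and e5)

theorem satB_FP : FP fun p : List Bool × (List (List Bool) × (List Bool ×
    (List Bool × List Bool))) => satB p.1 p.2.1 p.2.2.1 p.2.2.2.1 p.2.2.2.2 := by
  -- context: `((T, (s, l)), y)` and the element `x`
  have h1 : FP fun p : ((List (List Bool) × (List Bool × List Bool)) × List Bool) × List Bool =>
      markB p.1.1.1 (kapU p.1.1.2.1 p.1.1.2.2) (wx p.1.2 p.2) := by
    have e1 : FP fun p : ((List (List Bool) × (List Bool × List Bool)) × List Bool) × List Bool =>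
        kapU p.1.1.2.1 p.1.1.2.2 := kapU_FP.comp (f := fun p : ((List (List Bool) ×
          (List Bool × List Bool)) × List Bool) × List Bool => (p.1.1.2.1, p.1.1.2.2))
        (by fun_prop)
    exact markB_FP.comp (f := fun p : ((List (List Bool) × (List Bool × List Bool)) ×
      List Bool) × List Bool => (p.1.1.1, (kapU p.1.1.2.1 p.1.1.2.2, wx p.1.2 p.2)))
      (FP.pair (by fun_prop) (FP.pair e1 (by fun_prop)))
  have h2 := FP.all_ctx h1
  -- context `((T, (s, l)), u)` and the element `y`
  have h3 : FP fun p : ((List (List Bool) × (List Bool × List Bool)) × List Bool) × List Bool =>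
      leneq p.2 p.1.1.2.1 && (ld p.1.2).all fun x =>
        markB p.1.1.1 (kapU p.1.1.2.1 p.1.1.2.2) (wx p.2 x) := by
    refine FP.and (by fun_prop) ?_
    exact h2.comp (f := fun p : ((List (List Bool) × (List Bool × List Bool)) × List Bool) ×
      List Bool => ((p.1.1, p.2), ld p.1.2)) (by fun_prop)
  have h4 := FP.any_ctx h3
  unfold satB
  exact h4.comp (f := fun p : List Bool × (List (List Bool) × (List Bool ×
    (List Bool × List Bool))) => (((p.2.1, (p.2.2.1, p.2.2.2.1)), p.2.2.2.2), strs p.1))
    (by fun_prop)

end Pool.Agent.RO
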