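import Mathlib
import Pool.Agent.RO.CFpA

/-!
# RO-CFpB (job): the bounded versions are computable in polynomial time, part 2

PLAN. `padB`: `FP.cd`, `FP.enumU`, `FP.pw`, `FP.append`, `FP.un_length`. `accB`: `FP.runOracle (V b).1 (orc := fun p => wmem p.1 p.2)` gives the
run as a function of `(T, (padB l u r, w))`, `FP.un_poly` for the bound of the witness, `FP.length_le`, `FP.any_ctx`, `FP.strs`. See
`accB_FP` in `Pool/Agent/Hrd/LookFP.lean`. `failB`: `instB_FP`, `satB_FP`, `accB_FP`, `FP.any_ctx`.
-/

set_option autoImplicit false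

namespace Pool.Agent.RO

open N68a2faeb N793a5b8e N487b59b3 Pool.Agent.Helper22

theorem padB_FP : FP fun p : List Bool × (List Bool × List Bool) =>
    padB p.1 p.2.1 p.2.2 := by
  have e1 : FP fun p : List Bool × (List Bool × List Bool) => cf (cs (enumU p.1)) := by
    fun_prop
  have e2 : FP fun p : List Bool × (List Bool × List Bool) => un (cf (cs (enumU p.1))).length :=
    FP.un_length e1
  unfold padB
  fun_prop

theorem accB_FP (V : Vp) (b : Bool) : FP fun p : List Bool × (List (List Bool) ×
    (List Bool × List Bool)) => accB V b p.1 p.2.1 p.2.2.1 p.2.2.2 := by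
  have hw : FP fun p : List (List Bool) × List Bool => wmem p.1 p.2 := by fun_prop
  have hr := FP.runOracle (V b).1 (orc := fun p : List (List Bool) × List Bool => wmem p.1 p.2) hw
  -- context `(T, padB l u r)`, element `w`
  have h1 : FP fun p : (List (List Bool) × List Bool) × List Bool =>
      decide (p.2.length ≤ (un ((V b).2.eval p.1.2.length)).length) &&
        (V b).1.run (wmem p.1.1) (p.1.2, p.2) := by
    refine FP.and ?_ ?_
    · exact FP.length_le FP.snd (FP.un_poly (by fun_prop) _)
    · exact hr.comp (f := fun p : (List (List Bool) × List Bool) × List Bool =>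
        (p.1.1, (p.1.2, p.2))) (by fun_prop)
  have h2 := FP.any_ctx h1
  have e1 : FP fun p : List Bool × (List (List Bool) × (List Bool × List Bool)) =>
      padB p.2.2.1 p.2.2.2 p.1 :=
    padB_FP.comp (f := fun p : List Bool × (List (List Bool) × (List Bool × List Bool)) =>
      (p.2.2.1, (p.2.2.2, p.1))) (by fun_prop)
  unfold accB
  exact h2.comp (f := fun p : List Bool × (List (List Bool) × (List Bool × List Bool)) =>
    ((p.2.1, padB p.2.2.1 p.2.2.2 p.1), strs p.1))
    (FP.pair (FP.pair (by fun_prop) e1) (by fun_prop))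

theorem failB_FP (V : Vp) : FP fun p : List Bool × (List (List Bool) ×
    (List Bool × List Bool)) => failB V p.1 p.2.1 p.2.2.1 p.2.2.2 := by
  -- context `(r, (T, (s, l)))`, element `u`
  have e1 : FP fun p : (List Bool × (List (List Bool) × (List Bool × List Bool))) × List Bool =>
      instB p.1.2.2.1 p.1.2.2.2 p.2 :=
    instB_FP.comp (f := fun p : (List Bool × (List (List Bool) × (List Bool × List Bool))) ×
      List Bool => (p.1.2.2.1, (p.1.2.2.2, p.2))) (by fun_prop)
  have e2 : ∀ b, FP fun p : (List Bool × (List (List Bool) × (List Bool × List Bool))) ×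
      List Bool => accB V b p.1.1 p.1.2.1 p.1.2.2.2 p.2 := fun b =>
    (accB_FP V b).comp (f := fun p : (List Bool × (List (List Bool) × (List Bool × List Bool))) ×
      List Bool => (p.1.1, (p.1.2.1, (p.1.2.2.2, p.2)))) (by fun_prop)
  have e3 : FP fun p : (List Bool × (List (List Bool) × (List Bool × List Bool))) × List Bool =>
      satB p.1.1 p.1.2.1 p.1.2.2.1 p.1.2.2.2 p.2 :=
    satB_FP.comp (f := fun p : (List Bool × (List (List Bool) × (List Bool × List Bool))) ×
      List Bool => (p.1.1, (p.1.2.1, (p.1.2.2.1, (p.1.2.2.2, p.2))))) (by fun_prop)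
  have h1 := FP.any_ctx (e1.and ((((e2 true).beq e3).not).or ((e2 false).beq e3)))
  unfold failB
  exact h1.comp (f := fun p : List Bool × (List (List Bool) × (List Bool × List Bool)) =>
    (p, strs p.1)) (by fun_prop)

end Pool.Agent.RO
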