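import Mathlib
import Pool.Agent.RO.CFpB

/-!
# RO-CFpC (job): the bounded versions are computable in polynomial time, part 3

PLAN. `lstep`: `FP.pw`, `FP.length_le`, `FP.ite`, `failB_FP`. `look`: `FP.iterate` for the map
`(r, (T, p)) ↦ (r, (T, lstep V r T p))`, iterated `|r|` times from `(r, (T, (un S, [])))`; bounds after `i` steps: `|p.1| ≤ |start.1| + |r|`
and `|p.2| ≤ |start.2| + i` (see `kap_FP`, `step_sz` in `Pool/Agent/Hrd/LookFP.lean`). `levB`: composition.
-/

set_option autoImplicit false

namespace Pool.Agent.RO

open N68a2faeb N793a5b8e N487b59b3 Pool.Agent.Helper22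

theorem lstep_FP (V : Vp) : FP fun p : List Bool × (List (List Bool) × (List Bool × List Bool)) =>
    lstep V p.1 p.2.1 p.2.2 := by
  have e1 : FP fun p : List Bool × (List (List Bool) × (List Bool × List Bool)) =>
      nxtU p.2.2.1 p.1 := by
    unfold nxtU
    have h1 : FP fun p : List Bool × (List (List Bool) × (List Bool × List Bool)) =>
        ([true, true] : List Bool) := FP.const _
    fun_prop
  have e2 := failB_FP V
  have e3 : FP fun p : List Bool × (List (List Bool) × (List Bool × List Bool)) =>
      if failB V p.1 p.2.1 p.2.2.1 p.2.2.2 then true :: p.2.2.2 else p.2.2.2 :=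
    FP.ite e2 ((FP.const true).cons (by fun_prop)) (by fun_prop)
  unfold lstep
  exact FP.ite (FP.length_le e1 FP.fst) (e1.pair e3) (by fun_prop)

/-- the step with its context -/
private def cstep (V : Vp) (p : List Bool × (List (List Bool) × (List Bool × List Bool))) :
    List Bool × (List (List Bool) × (List Bool × List Bool)) :=
  (p.1, (p.2.1, lstep V p.1 p.2.1 p.2.2))

private theorem cstep_iter (V : Vp) (r : List Bool) (T : List (List Bool))
    (q : List Bool × List Bool) (i : ℕ) :
    (cstep V)^[i] (r, (T, q)) = (r, (T, (lstep V r T)^[i] q)) := by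
  induction i with
  | zero => rfl
  | succ i ih => rw [Function.iterate_succ_apply', ih, Function.iterate_succ_apply']; rfl

private theorem lstep_len (V : Vp) (r : List Bool) (T : List (List Bool))
    (q : List Bool × List Bool) (i : ℕ) :
    ((lstep V r T)^[i] q).1.length ≤ q.1.length + r.length ∧
      ((lstep V r T)^[i] q).2.length ≤ q.2.length + i := by
  induction i with
  | zero => simp
  | succ i ih =>
    rw [Function.iterate_succ_apply']
    obtain ⟨h1, h2⟩ := ih
    generalize (lstep V r T)^[i] q = p at h1 h2
    rw [lstep]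
    split_ifs with h3 h4
    · rw [decide_eq_true_eq] at h3
      exact ⟨by simp only; omega, by simp only [List.length_cons]; omega⟩
    · rw [decide_eq_true_eq] at h3
      exact ⟨by simp only; omega, by simp only; omega⟩
    · exact ⟨h1, by omega⟩

theorem look_FP (V : Vp) (S : ℕ) : FP fun p : List Bool × List (List Bool) =>
    look V S p.1 p.2 := by
  have h1 : FP fun p : List Bool × (List Bool × (List (List Bool) × (List Bool × List Bool))) =>
      (cstep V)^[p.1.length] p.2 := by
    refine FP.iterate (f := cstep V) ?_ (B := fun n => 20 * n) (by fun_prop) ?_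
    · unfold cstep
      exact FP.fst.pair (FP.pair (by fun_prop) (lstep_FP V))
    · rintro l ⟨r, T, q⟩ i hi
      rw [cstep_iter]
      obtain ⟨h2, h3⟩ := lstep_len V r T q i
      have h4 := length_le_sz l
      rcases hq : (lstep V r T)^[i] q with ⟨a, b⟩
      rw [hq] at h2 h3
      obtain ⟨q1, q2⟩ := q
      simp only [sz_pair, sz_bits] at *
      omega
  have h2 := h1.comp (f := fun p : List Bool × List (List Bool) =>
    (p.1, (p.1, (p.2, (un S, ([] : List Bool)))))) (FP.pair (by fun_prop) (FP.pair (by fun_prop)
      (FP.pair (by fun_prop) (FP.const _))))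
  refine (congrArg FP (funext fun p => ?_)).mp h2.snd'.snd'
  rw [cstep_iter]
  rfl

theorem nz_FP : FP fun z : List Bool => nz z := by
  have h1 : FP fun z : List Bool => (ld z).headD [] := FP.headD (by fun_prop) []
  exact FP.un_length h1

private theorem lookz_FP (V : Vp) (S : ℕ) : FP fun p : List Bool × List (List Bool) => look V S (nz p.1) p.2 := by
  have e0 : FP fun p : List Bool × List (List Bool) => nz p.1 := nz_FP.comp FP.fst
  have e1 : FP fun p : List Bool × List (List Bool) => (nz p.1, p.2) := e0.pair FP.snd
  have e2 := FP.comp (look_FP V S) e1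
  exact e2
private theorem len_FP (n : ℕ) : FP fun p : List Bool × List (List Bool) =>
      decide ((un n).length ≤ (nz p.1).length) := by
  have e0 : FP fun p : List Bool × List (List Bool) => nz p.1 := nz_FP.comp FP.fst
  exact FP.length_le (FP.const _) e0
private theorem leq_FP (V : Vp) (S : ℕ) : FP fun p : List Bool × List (List Bool) =>
      leneq (look V S (nz p.1) p.2).1 (nz p.1) := by
  have e0 : FP fun p : List Bool × List (List Bool) => nz p.1 := nz_FP.comp FP.fst
  exact FP.leneq (lookz_FP V S).fst' e0
private theorem insz_FP (V : Vp) (S : ℕ) : FP fun p : List Bool × List (List Bool) =>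
      instB (look V S (nz p.1) p.2).1 (look V S (nz p.1) p.2).2 p.1 := by
    have e1 := lookz_FP V S
    exact instB_FP.comp (f := fun p : List Bool × List (List Bool) =>
      ((look V S (nz p.1) p.2).1, ((look V S (nz p.1) p.2).2, p.1)))
      (e1.fst'.pair (e1.snd'.pair FP.fst))
theorem levB_FP (V : Vp) (S i₀ : ℕ) : FP fun p : List Bool × List (List Bool) =>
    levB V S i₀ p.1 p.2 := ((leq_FP V S).and (len_FP (lev S i₀))).and (insz_FP V S)
end Pool.Agent.RO
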