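import Mathlib
import Pool.Agent.RO.CDefs

/-!
# RO-CCnt: the levels and their numbers
-/

set_option autoImplicit false

namespace Pool.Agent.RO

open N68a2faeb N793a5b8e N487b59b3 Pool.Agent.Helper22

theorem lvl_mono (S : ℕ) : StrictMono (lev S) :=
  strictMono_nat_of_lt_succ fun i => lt_of_lt_of_le (Nat.lt_two_pow_self)
    (Nat.pow_le_pow_right (by norm_num) (Nat.lt_two_pow_self (n := lev S i)).le)

theorem cnt_le_i (V : Vp) (S : ℕ) (R : Oracle) (i : ℕ) : cnt V S R i ≤ i := by
  induction i with
  | zero => exact le_rfl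
  | succ i ih =>
    rw [cnt]
    split_ifs <;> omega

end Pool.Agent.RO
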