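import Mathlib
import Pool.Agent.RO.CDefs
import Pool.Agent.RO.LinkA

/-!
# RO-CAcc (job): the bounded version of acceptance is correct

PLAN. `padB_eq`: `enumU_eq`, `pw_eq`; `|u|^(pe l) ≤ |pads l u| ≤ |r|`, so the minimum is `|u|^(pe l)`; `un_add`.
`accB_iff`: every witness has length at most `h` (`HB.wit`), so it is in `strs r` (`Hrd.mem_strs_of_length`); the run with
oracle `wmem T` equals the run with oracle `R` by `run_congr` (LinkA) and `HB.len` (applied to the oracle `wmem T`).
-/

set_option autoImplicit false

namespace Pool.Agent.RO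

open N68a2faeb N793a5b8e N487b59b3 Pool.Agent.Helper22

theorem padB_eq {l u r : List Bool} (h : (pads l.length u).length ≤ r.length) :
    padB l u r = pads l.length u := by
  rw [pads, pad, cd_length, cd_length, un_length] at h
  rw [padB, pads, pad, enumU_eq, pw_eq, pj, pe, un_add]
  rw [pe] at h
  rw [min_eq_left (by omega)]

theorem accB_iff {V : Vp} {b : Bool} {r : List Bool} {T : List (List Bool)} {R : Oracle}
    {s h : ℕ} {l u : List Bool} (hb : HB V s l.length h) (hr : 2 ^ (h + 1) ≤ r.length)
    (hT : ∀ w : List Bool, w.length ≤ h → wmem T w = R w) (hu : IsInst s l.length u) :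
    accB V b r T l u = true ↔ acc V b R l.length u := by
  have h0 : h < 2 ^ (h + 1) := lt_trans (Nat.lt_succ_self h) Nat.lt_two_pow_self
  have h1 : padB l u r = pads l.length u := padB_eq (by
    have := hb.pad u hu
    omega)
  have key : ∀ w : List Bool, w.length ≤ (V b).2.eval (pads l.length u).length →
      (V b).1.run (wmem T) (pads l.length u, w) = (V b).1.run R (pads l.length u, w) := by
    intro w hw
    exact run_congr _ fun q hq => hT q (hb.len u hu b (wmem T) w hw q hq)
  rw [accB, h1, List.any_eq_true, acc, Accepts]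
  constructor
  · rintro ⟨w, -, hw⟩
    rw [Bool.and_eq_true, decide_eq_true_eq, un_length] at hw
    exact ⟨w, hw.1, by rw [← key w hw.1]; exact hw.2⟩
  · rintro ⟨w, hw1, hw2⟩
    refine ⟨w, Hrd.mem_strs_of_length (le_trans ?_ hr), ?_⟩
    · have := hb.wit u hu b
      exact Nat.pow_le_pow_right (by norm_num) (by omega)
    · rw [Bool.and_eq_true, decide_eq_true_eq, un_length]
      exact ⟨hw1, by rw [key w hw1]; exact hw2⟩

end Pool.Agent.RO
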