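import Mathlib
import Pool.Agent.RO.CTlB

/-!
# RO-CIns (job): the bounded version of the set of the instances is correct

PLAN. `powU_eq`: `pw_eq`. `length_ld_le`: if `lc (ld u) = u` then `|ld u| ≤ |u|` (`cd_length`, induction). `instB_iff`: `weq_iff`,
`leneq_iff`, `nodupB_iff`; `(powU (un 4) l u ++ powU (un 4) l u).length = 2 * min (4^(l+3)) (|u|+1)`, which equals
`|ld u| ≤ |u|` iff `jj l = |ld u|` (if `4^(l+3) > |u| + 1` both are false).
-/

set_option autoImplicit false

namespace Pool.Agent.RO

open N68a2faeb N793a5b8e N487b59b3 Pool.Agent.Helper22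

theorem powU_eq (b l t : List Bool) :
    powU b l t = un (min (b.length ^ (l.length + 3)) (t.length + 1)) := by
  rw [powU, pw_eq]
  rfl

private theorem length_lc_ge (l : List (List Bool)) : l.length ≤ (lc l).length := by
  induction l with
  | nil => simp
  | cons a l ih =>
    rw [lc, cd_length, List.length_cons]
    omega

theorem length_ld_le {u : List Bool} (h : lc (ld u) = u) : (ld u).length ≤ u.length := by
  have h1 := length_lc_ge (ld u)
  rwa [h] at h1

theorem instB_iff (s l u : List Bool) :
    instB s l u = true ↔ IsInst s.length l.length u := by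
  rw [instB, Bool.and_eq_true, Bool.and_eq_true, Bool.and_eq_true, weq_iff, leneq_iff,
    nodupB_iff, List.all_eq_true, IsInst, powU_eq, un_length, List.length_append, un_length,
    un_length]
  have key : lc (ld u) = u →
      ((ld u).length = min (4 ^ (l.length + 3)) (u.length + 1) +
        min (4 ^ (l.length + 3)) (u.length + 1) ↔ (ld u).length = jj l.length) := by
    intro h
    have h1 := length_ld_le h
    rw [jj]
    rcases le_total (4 ^ (l.length + 3)) (u.length + 1) with h2 | h2
    · rw [min_eq_left h2]; omega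
    · rw [min_eq_right h2]; omega
  constructor
  · rintro ⟨⟨h1, h2⟩, h3, h4⟩
    exact ⟨h1, (key h1).1 h2, h3, fun x hx => (leneq_iff _ _).1 (h4 x hx)⟩
  · rintro ⟨h1, h2, h3, h4⟩
    exact ⟨⟨h1, (key h1).2 h2⟩, h3, fun x hx => (leneq_iff _ _).2 (h4 x hx)⟩

end Pool.Agent.RO
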