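import Mathlib
import Pool.Agent.RO.CTlA

/-!
# RO-CMk (job): the bounded versions of marks and translates are correct

PLAN. `markB_iff`: `mem_uns`; for `a < kap s l` the word `w ++ un a` has length at most `h`, or is one of the words where
the list `T` is correct. `satB_iff`: every word `y` of length `s` is in `strs r` (`Hrd.mem_strs_of_length` in
`Pool/Agent/Hrd/Bad.lean`, `2^(s+1) ≤ 2^(h+1) ≤ |r|`), the words `wx y x` have length `s`.
-/

set_option autoImplicit false

namespace Pool.Agent.RO

open N68a2faeb N793a5b8e N487b59b3 Pool.Agent.Helper22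

theorem kapU_length (s l : List Bool) : (kapU s l).length = kap s.length l.length := by
  rw [kapU, List.length_drop, kap]
  simp only [List.length_append, un_length]
  omega

theorem markB_iff {T : List (List Bool)} {R : Oracle} {k w : List Bool}
    (hT : ∀ a < k.length, wmem T (w ++ un a) = R (w ++ un a)) :
    markB T k w = true ↔ Mark R k.length w := by
  rw [markB, List.all_eq_true, Mark]
  constructor
  · intro h a ha
    have h1 := h (un a) (mem_uns.2 ⟨a, ha, rfl⟩)
    rw [hT a ha] at h1
    simpa using h1
  · intro h x hx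
    obtain ⟨a, ha, rfl⟩ := mem_uns.1 hx
    rw [hT a ha, h a ha]
    rfl

theorem satB_iff {r : List Bool} {T : List (List Bool)} {R : Oracle} {s l u : List Bool} {h : ℕ}
    (h2 : 2 * s.length ≤ h) (hr : 2 ^ (h + 1) ≤ r.length)
    (hT : ∀ w : List Bool, w.length ≤ h → wmem T w = R w)
    (hu : IsInst s.length l.length u) :
    satB r T s l u = true ↔ Sat R s.length l.length u := by
  have key : ∀ y : List Bool, y.length = s.length → ∀ x ∈ ld u,
      (markB T (kapU s l) (wx y x) = true ↔ Mark R (kap s.length l.length) (wx y x)) := by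
    intro y hy x hx
    have h3 : (wx y x).length = s.length := by
      rw [wx, List.length_zipWith, hy, hu.2.2.2 x hx, min_self]
    rw [← kapU_length]
    refine markB_iff fun a ha => hT _ ?_
    rw [kapU_length, kap] at ha
    rw [List.length_append, un_length, h3]
    omega
  rw [satB, List.any_eq_true, Sat]
  constructor
  · rintro ⟨y, -, hy⟩
    rw [Bool.and_eq_true, leneq_iff, List.all_eq_true] at hy
    exact ⟨y, hy.1, fun x hx => (key y hy.1 x hx).1 (hy.2 x hx)⟩
  · rintro ⟨y, hy1, hy2⟩
    refine ⟨y, Hrd.mem_strs_of_length (le_trans ?_ hr), ?_⟩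
    · exact Nat.pow_le_pow_right (by norm_num) (by omega)
    · rw [Bool.and_eq_true, leneq_iff, List.all_eq_true]
      exact ⟨hy1, fun x hx => (key y hy1 x hx).2 (hy2 x hx)⟩

end Pool.Agent.RO
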