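import Mathlib
import Pool.Agent.RO.CMk
import Pool.Agent.RO.CIns
import Pool.Agent.RO.CAcc

/-!
# RO-CFail (job): the bounded version of failure is correct

PLAN. Every instance has length at most `h` (`HB.inst`), so it is in `strs r`; `instB_iff`, `satB_iff`, `accB_iff`; case
distinction over the three truth values.
-/

set_option autoImplicit false

namespace Pool.Agent.RO

open N68a2faeb N793a5b8e N487b59b3 Pool.Agent.Helper22

theorem failB_iff {V : Vp} {r : List Bool} {T : List (List Bool)} {R : Oracle}
    {h : ℕ} {s l : List Bool} (hb : HB V s.length l.length h) (hr : 2 ^ (h + 1) ≤ r.length)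
    (hT : ∀ w : List Bool, w.length ≤ h → wmem T w = R w) :
    failB V r T s l = true ↔ Fail V R s.length l.length := by
  have key : ∀ u, IsInst s.length l.length u →
      ((!(accB V true r T l u == satB r T s l u) || (accB V false r T l u == satB r T s l u)) =
        true ↔ (¬ (acc V true R l.length u ↔ Sat R s.length l.length u) ∨
        ¬ (acc V false R l.length u ↔ ¬ Sat R s.length l.length u))) := by
    intro u hu
    rw [← accB_iff hb hr hT hu, ← accB_iff hb hr hT hu, ← satB_iff hb.two hr hT hu]
    cases accB V true r T l u <;> cases accB V false r T l u <;> cases satB r T s l u <;> simp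
  rw [failB, List.any_eq_true, Fail]
  constructor
  · rintro ⟨u, -, hu⟩
    rw [Bool.and_eq_true, instB_iff] at hu
    exact ⟨u, hu.1, (key u hu.1).1 hu.2⟩
  · rintro ⟨u, hu1, hu2⟩
    refine ⟨u, Hrd.mem_strs_of_length (le_trans ?_ hr), ?_⟩
    · have := hb.inst u hu1
      exact Nat.pow_le_pow_right (by norm_num) (by omega)
    · rw [Bool.and_eq_true, instB_iff]
      exact ⟨hu1, (key u hu1).2 hu2⟩

end Pool.Agent.RO
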