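import Mathlib
import Pool.Agent.RO.CFail
import Pool.Agent.RO.CCnt

/-!
# RO-CLook (job): looking back is correct

PLAN. (`lvl_mono`, `cnt_le_i` are in CCnt.) `nxtU_eq`: `pw_eq` twice: `nxtU s r = un (min (2 ^ min (2^|s|) (|r|+1)) (|r|+1))`;
if `2^(2^|s|) ≤ |r|` it is `un (2^(2^|s|))`, otherwise it is longer than `r` (`|r| < 2^|r|`). `look_iter`: induction on `m`:
if `lev S m ≤ |r|` then `(lstep V r T)^[m] (un S, []) = (un (lev S m), un (cnt V S R m))`: the step from `m` to `m+1` uses `failB_iff` with `h` of
`Big` for the level `m` and `l = cnt m ≤ m`: `h + 1 ≤ 2^(lev S m)`, so `2^(h+1) ≤ 2^(2^(lev S m)) = lev S (m+1) ≤ |r|`, and all words of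
length at most `h` are in `strs r` (`Hrd.mem_strs_of_length`), where `T` is correct. `look_eq`: `i ≤ lev S i ≤ |r|`, and after
`i` steps the state is a fixed point of `lstep` as `lev S (i+1) > |r|`. `look_lt`: the start is a fixed point.
-/

set_option autoImplicit false

namespace Pool.Agent.RO

open N68a2faeb N793a5b8e N487b59b3 Pool.Agent.Helper22

private theorem nxtU_eq (s r : List Bool) :
    nxtU s r = un (min (2 ^ (min (2 ^ s.length) (r.length + 1))) (r.length + 1)) := by
  rw [nxtU, pw_eq, pw_eq, un_length]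
  rfl

private theorem nxtU_small {s r : List Bool} (h : 2 ^ 2 ^ s.length ≤ r.length) :
    nxtU s r = un (2 ^ 2 ^ s.length) := by
  have h1 : 2 ^ s.length < 2 ^ 2 ^ s.length := Nat.lt_two_pow_self
  rw [nxtU_eq, min_eq_left (show 2 ^ s.length ≤ r.length + 1 by omega),
    min_eq_left (show 2 ^ 2 ^ s.length ≤ r.length + 1 by omega)]

private theorem nxtU_large {s r : List Bool} (h : r.length < 2 ^ 2 ^ s.length) :
    r.length < (nxtU s r).length := by
  have h1 : r.length + 1 < 2 ^ (r.length + 1) := Nat.lt_two_pow_self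
  rw [nxtU_eq, un_length]
  rcases le_total (2 ^ s.length) (r.length + 1) with h2 | h2
  · rw [min_eq_left h2]
    exact lt_min h (Nat.lt_succ_self _)
  · rw [min_eq_right h2]
    exact lt_min (by omega) (Nat.lt_succ_self _)

private theorem lstep_fix {V : Vp} {r : List Bool} {T : List (List Bool)}
    {p : List Bool × List Bool} (h : r.length < 2 ^ 2 ^ p.1.length) : lstep V r T p = p := by
  have h1 := nxtU_large h
  rw [lstep, if_neg]
  rw [decide_eq_true_eq]
  omega

private theorem look_iter {V : Vp} {S : ℕ} (hV : Big V S) {R : Oracle} {r : List Bool}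
    {T : List (List Bool)} (hT : ∀ w ∈ strs r, wmem T w = R w) (m : ℕ)
    (h1 : lev S m ≤ r.length) :
    (lstep V r T)^[m] (un S, []) = (un (lev S m), un (cnt V S R m)) := by
  induction m with
  | zero => rfl
  | succ m ih =>
    have h2 : lev S m < lev S (m + 1) := lvl_mono S (Nat.lt_succ_self m)
    rw [Function.iterate_succ_apply', ih (by omega)]
    obtain ⟨h, hb, hh⟩ := hV m (cnt V S R m) (cnt_le_i V S R m)
    have h3 : h + 1 ≤ 2 ^ lev S m := by
      refine le_trans (Nat.le_mul_of_pos_left _ (by positivity)) hh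
    have h4 : 2 ^ (h + 1) ≤ r.length :=
      le_trans (Nat.pow_le_pow_right (by norm_num) h3) h1
    have h5 : ∀ w : List Bool, w.length ≤ h → wmem T w = R w := by
      intro w hw
      refine hT w (Hrd.mem_strs_of_length (le_trans ?_ h4))
      exact Nat.pow_le_pow_right (by norm_num) (by omega)
    have h6 : nxtU (un (lev S m)) r = un (lev S (m + 1)) := by
      rw [nxtU_small (by rw [un_length]; exact h1), un_length]
      rfl
    have h7 : failB V r T (un (lev S m)) (un (cnt V S R m)) = true ↔
        Fail V R (lev S m) (cnt V S R m) := by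
      have := failB_iff (V := V) (r := r) (T := T) (R := R) (h := h) (s := un (lev S m))
        (l := un (cnt V S R m)) (by rw [un_length, un_length]; exact hb) h4 h5
      rwa [un_length, un_length] at this
    rw [lstep, if_pos (by
      rw [decide_eq_true_eq]
      show (nxtU (un (lev S m)) r).length ≤ r.length
      rw [h6, un_length]; exact h1)]
    show (nxtU (un (lev S m)) r, _) = _
    rw [h6, Prod.mk.injEq]
    refine ⟨rfl, ?_⟩
    rw [cnt]
    by_cases hf : Fail V R (lev S m) (cnt V S R m)
    · rw [if_pos (h7.2 hf), if_pos hf]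
      rfl
    · rw [if_neg (fun h => hf (h7.1 h)), if_neg hf]
      rfl

theorem look_eq {V : Vp} {S : ℕ} (hV : Big V S) {R : Oracle} {r : List Bool}
    {T : List (List Bool)} (hT : ∀ w ∈ strs r, wmem T w = R w) {i : ℕ}
    (h1 : lev S i ≤ r.length) (h2 : r.length < lev S (i + 1)) :
    look V S r T = (un (lev S i), un (cnt V S R i)) := by
  have h3 : i ≤ lev S i := (lvl_mono S).le_apply
  obtain ⟨k, hk⟩ : ∃ k, r.length = k + i := ⟨r.length - i, by omega⟩
  rw [look, hk, Function.iterate_add_apply, look_iter hV hT i h1]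
  exact Function.iterate_fixed (lstep_fix (by
    show r.length < 2 ^ 2 ^ (un (lev S i)).length
    rw [un_length]; exact h2)) k

theorem look_lt {V : Vp} {S : ℕ} {r : List Bool} {T : List (List Bool)} (h : r.length < S) :
    look V S r T = (un S, []) := by
  rw [look]
  refine Function.iterate_fixed (lstep_fix ?_) _
  show r.length < 2 ^ 2 ^ (un S).length
  rw [un_length]
  exact h.trans (lt_of_lt_of_le Nat.lt_two_pow_self
    (Nat.pow_le_pow_right (by norm_num) (Nat.lt_two_pow_self (n := S)).le))

end Pool.Agent.RO
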