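import Mathlib
import Pool.Agent.RO.CLook

/-!
# RO-CLev (job): the bounded version of the set of all instances is correct

PLAN. `wmem_filter`: `wmem_iff`, `List.mem_filter`. `nz_eq`: an instance has at least one word (`jj l > 0`), of length `s`.
`levB_iff`: let `n = |nz z|`. (→) if `n < S` then `look_lt` gives `look.1 = un S`, not of length `n`. Otherwise there is `i` with
`lev S i ≤ n < lev S (i+1)` (`lvl_mono`, `lev S 0 = S`; `Nat.findGreatest` or induction), `look_eq`; `leneq` gives
`n = lev S i`, the second condition gives `i₀ ≤ i`, `instB_iff`. (←) `nz_eq` gives `n = lev S i`, `look_eq` etc.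
`look_of_inst`: the same.
-/

set_option autoImplicit false

namespace Pool.Agent.RO

open N68a2faeb N793a5b8e N487b59b3 Pool.Agent.Helper22

theorem wmem_filter {Q : List (List Bool)} {R : Oracle} {q : List Bool} (h : q ∈ Q) :
    wmem (Q.filter fun q => R q) q = R q := by
  rw [Bool.eq_iff_iff, wmem_iff, List.mem_filter]
  exact ⟨fun h => h.2, fun h' => ⟨h, h'⟩⟩

theorem nz_eq {s l : ℕ} {z : List Bool} (h : IsInst s l z) : nz z = un s := by
  obtain ⟨-, h2, -, h4⟩ := h
  have h5 : 0 < jj l := by unfold jj; positivity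
  rw [nz]
  cases h6 : ld z with
  | nil => rw [h6, List.length_nil] at h2; omega
  | cons x l' => rw [List.headD_cons, h4 x (by rw [h6]; exact List.mem_cons_self)]

theorem look_of_inst {V : Vp} {S : ℕ} (hV : Big V S) {R : Oracle} {z : List Bool}
    {T : List (List Bool)} (hT : ∀ w ∈ strs (nz z), wmem T w = R w) {i : ℕ}
    (hz : IsInst (lev S i) (cnt V S R i) z) :
    look V S (nz z) T = (un (lev S i), un (cnt V S R i)) := by
  refine look_eq hV hT ?_ ?_
  · rw [nz_eq hz, un_length]
  · rw [nz_eq hz, un_length]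
    exact lvl_mono S (Nat.lt_succ_self i)

private theorem exists_lvl {S n : ℕ} (h : S ≤ n) : ∃ i, lev S i ≤ n ∧ n < lev S (i + 1) := by
  classical
  have h1 : ∃ i, n < lev S (i + 1) :=
    ⟨n, lt_of_lt_of_le (Nat.lt_succ_self n) ((lvl_mono S).le_apply (x := n + 1))⟩
  refine ⟨Nat.find h1, ?_, Nat.find_spec h1⟩
  rcases h2 : Nat.find h1 with _ | k
  · exact h
  · have h3 := Nat.find_min h1 (m := k) (by omega)
    omega

theorem levB_iff {V : Vp} {S : ℕ} (hV : Big V S) (i₀ : ℕ) {R : Oracle} {z : List Bool}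
    {T : List (List Bool)} (hT : ∀ w ∈ strs (nz z), wmem T w = R w) :
    levB V S i₀ z T = true ↔ ∃ i, i₀ ≤ i ∧ IsInst (lev S i) (cnt V S R i) z := by
  constructor
  · intro h
    rw [levB, Bool.and_eq_true, Bool.and_eq_true, leneq_iff, decide_eq_true_eq, un_length,
      instB_iff] at h
    obtain ⟨⟨h1, h2⟩, h3⟩ := h
    by_cases hS : S ≤ (nz z).length
    · obtain ⟨i, hi1, hi2⟩ := exists_lvl hS
      rw [look_eq hV hT hi1 hi2] at h1 h3
      rw [un_length] at h1 h3
      rw [un_length] at h3
      refine ⟨i, ?_, h3⟩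
      rw [← h1] at h2
      exact (lvl_mono S).le_iff_le.1 h2
    · rw [look_lt (by omega), un_length] at h1
      omega
  · rintro ⟨i, hi, hz⟩
    have h1 := look_of_inst hV hT hz
    rw [levB, h1, Bool.and_eq_true, Bool.and_eq_true, leneq_iff, decide_eq_true_eq, un_length,
      instB_iff, un_length, un_length, nz_eq hz, un_length]
    refine ⟨⟨rfl, (lvl_mono S).monotone hi⟩, ?_⟩
    rw [un_length]
    exact hz

/-- the level of an instance is unique -/
theorem level_unique {V : Vp} {S : ℕ} {R : Oracle} {z : List Bool} {i i' : ℕ}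
    (h : IsInst (lev S i) (cnt V S R i) z) (h' : IsInst (lev S i') (cnt V S R i') z) :
    i = i' := by
  have h1 := (nz_eq h).symm.trans (nz_eq h')
  have h2 := congrArg List.length h1
  rw [un_length, un_length] at h2
  exact (lvl_mono S).injective h2

end Pool.Agent.RO
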