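import Mathlib
import Pool.Agent.RO.Defs

set_option autoImplicit false

/-!
# Module RO-CTask: one round of non-adaptive queries

PLAN of `ask`.  `clock a = un (Q a).length`, `query (a, ans) = ((Q a).drop ans.length).headD []`,
`out (a, ans) = D (a, sel (Q a) ans.reverse)` where `sel qs bs` selects the queries with answer `true`:
`sel qs bs = (qs.foldl (fun s q => (s.1.tail, if s.1.headD false then s.2 ++ [q] else s.2)) (bs, [])).2` (in FP by `FP.foldl`;
size of the state `≤` sizes of the arguments).  By induction `answers R a n = ((Q a).take n |>.map R).reverse` for
`n ≤ (Q a).length`.  `FP` versions: `isPolyTime_iff`, `FP.un_length`, `FP.drop`, `FP.headD`, `FP.reverse` (the one of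
Pool.Agent.Helper22.Cons.SimJoin).
-/

namespace Pool.Agent.RO

open Pool.Agent.Helper22 N487b59b3 N68a2faeb N793a5b8e

/-- one step of the selection of the queries with a positive answer -/
private def selStep (s : List Bool × List (List Bool)) (q : List Bool) :
    List Bool × List (List Bool) :=
  (s.1.tail, if s.1.headD false then s.2 ++ [q] else s.2)

private theorem selStep_foldl (R : Oracle) (qs : List (List Bool)) (acc : List (List Bool)) :
    qs.foldl selStep (qs.map R, acc) = ([], acc ++ qs.filter fun q => R q) := by
  induction qs generalizing acc with
  | nil => simp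
  | cons q qs ih =>
    rw [List.foldl_cons, List.map_cons]
    have h : selStep (R q :: qs.map R, acc) q =
        (qs.map R, if R q then acc ++ [q] else acc) := by
      simp [selStep]
    rw [h, ih, List.filter_cons]
    cases R q <;> simp

private theorem sz_selStep (l : List (List Bool)) (a : List Bool × List (List Bool)) :
    sz (l.foldl selStep a) ≤ sz l + sz a := by
  induction l generalizing a with
  | nil => simp
  | cons q l ih =>
    rw [List.foldl_cons]
    refine (ih _).trans ?_
    obtain ⟨bs, acc⟩ := a
    have h1 : sz (bs.tail) ≤ sz bs := by
      rw [sz_bits, sz_bits, List.length_tail]; omega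
    have h2 : sz (if bs.headD false then acc ++ [q] else acc) ≤ sz acc + (2 * sz q + 1) := by
      split_ifs
      · rw [sz_append, sz_cons, sz_nil]
      · omega
    unfold selStep
    simp only [sz_pair, sz_cons] at *
    omega

private theorem selStep_FP : FP fun p : List (List Bool) × (List Bool × List (List Bool)) =>
    p.1.foldl selStep p.2 := by
  refine FP.foldl (g := selStep) ?_ (B := fun n => n) (by fun_prop) sz_selStep
  have h1 : FP fun p : (List Bool × List (List Bool)) × List Bool => p.1.1.headD false :=
    FP.headD (by fun_prop) _
  unfold selStep
  fun_prop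

theorem ask {α : Type} [N487b59b3 α] (Q : α → List (List Bool))
    (D : α × List (List Bool) → Bool) (hQ : FP Q) (hD : FP D) :
    ∃ M : OracleProc α Bool, ∀ (R : Oracle) (a : α), M.run R a = D (a, (Q a).filter fun q => R q) := by
  have hQ1 : FP fun a : α × List Bool => Q a.1 := hQ.comp FP.fst
  have hq : FP fun a : α × List Bool => ((Q a.1).drop a.2.length).headD [] :=
    FP.headD (FP.drop hQ1 FP.snd) _
  have ho : FP fun a : α × List Bool =>
      D (a.1, ((Q a.1).foldl selStep (a.2.reverse, [])).2) := by
    have h1 : FP fun a : α × List Bool => (Q a.1, (a.2.reverse, ([] : List (List Bool)))) :=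
      hQ1.pair (FP.pair (FP.reverse FP.snd) (FP.const _))
    have h2 := (selStep_FP.comp h1).snd'
    exact hD.comp (FP.fst.pair h2)
  let M : OracleProc α Bool :=
    { clock := fun a => un (Q a).length
      query := fun a => ((Q a.1).drop a.2.length).headD []
      out := fun a => D (a.1, ((Q a.1).foldl selStep (a.2.reverse, [])).2)
      clock_poly := (isPolyTime_iff _).2 (FP.un_length hQ)
      query_poly := (isPolyTime_iff _).2 hq
      out_poly := (isPolyTime_iff _).2 ho }
  refine ⟨M, fun R a => ?_⟩
  have hans : ∀ n, n ≤ (Q a).length → M.answers R a n = (((Q a).take n).map R).reverse := by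
    intro n
    induction n with
    | zero => intro _; simp [OracleProc.answers]
    | succ n ih =>
      intro hn
      have hn' : n < (Q a).length := hn
      have hlen := OracleProc.answers_length M R a n
      have e1 : M.query (a, M.answers R a n) = (Q a)[n] := by
        show ((Q a).drop (M.answers R a n).length).headD [] = (Q a)[n]
        rw [hlen, List.drop_eq_getElem_cons hn']
        rfl
      rw [OracleProc.answers, e1, ih hn'.le, List.take_add_one, List.getElem?_eq_getElem hn',
        List.map_append, List.reverse_append]
      rfl
  show D (a, ((Q a).foldl selStep ((M.answers R a (un (Q a).length).length).reverse, [])).2) = _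
  rw [un_length, hans _ le_rfl, List.reverse_reverse, List.take_length, selStep_foldl]
  simp

end Pool.Agent.RO
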