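import Mathlib
import Pool.Agent.RO.CTask
import Pool.Agent.RO.CTq

set_option autoImplicit false

/-!
# Module RO-CTlow: NP relative to `R` and a language of NP ∩ coNP (relative to `R`)

PLAN.  `C q ↔ ∃ c, |c| ≤ p₁(|q|), M₁.run R (q, c)`; `¬ C q ↔ ∃ c, |c| ≤ p₀(|q|), M₀.run R (q, c)`; let `L x ↔ ∃ w, |w| ≤ p(|x|),
M.run (join R C) (x, w)`.  New witness: `W = cd w (cd (lc Pp) (cd (lc Pm) (cd (lc T) (cd (lc F) (lc Cs)))))`:
`Pp, Pm` = queries of `M` with claimed answers `true`, `false`; `T, F` = queries to `R` with claimed answers; `Cs` = certificates.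
Check (`D`, in FP, from `x`, `W` and the sublist `pos` of the words of `T ++ F` which are in `R`):
* `|w| ≤ p(|x|)` (`wL`-like: `FP` of the comparison with a polynomial: see `wL_FP`), `tabRun M Pp Pm (x, w) = true`;
* all `q ∈ Pp`: `q = false :: u` with `u ∈ T`, or `q = true :: u` and some `c ∈ Cs` with `|c| ≤ p₁(|u|)` and
  `tabRun M₁ T F (u, c) = true`;
* all `q ∈ Pm`: `q = []`, or `q = false :: u` with `u ∈ F`, or `q = true :: u` and some `c ∈ Cs` with `|c| ≤ p₀(|u|)`,
  `tabRun M₀ T F (u, c) = true`;
* all `q ∈ T` are in `pos`, no `q ∈ F` is in `pos`.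
By `ask` with `Q = T ++ F` this is an oracle procedure.  Soundness: `T ⊆ R`, `F ∩ R = ∅`, so by `tabRun_sound` all the claimed answers
in `Pp, Pm` are those of `join R C`, and again by `tabRun_sound` (for the oracle `join R C`) `M` accepts.
Completeness: `Pp, Pm` from `qs M (join R C) (x, w)`, for each `true :: u` there one certificate `c`, `T, F` = the `R`-queries in
`Pp, Pm` and all queries of the runs on `(u, c)`; the length of `W` is polynomially bounded by `qs_bound` (`lc` of a list of `n` words of
length `≤ b` has length `≤ n (2 b + 1)`).  `exists_poly` turns `PB` into a polynomial.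
(Compare Pool/Agent/Hrd/Close.lean, `NPo_low`, for the same theorem without `R`.)
-/

namespace Pool.Agent.RO

open Pool.Agent.Helper22 N487b59b3 N68a2faeb N793a5b8e
open Pool.Agent.Helper20.Cons (join Po cRun)
open Pool.Agent.Helper21.Off (lc_length_le)

/-- a word of `Cs` is a certificate for `u` -/
def cert (M : OracleProc (List Bool × List Bool) Bool) (p : Polynomial ℕ)
    (T F Cs : List (List Bool)) (u : List Bool) : Bool :=
  Cs.any fun c => decide (c.length ≤ (un (p.eval u.length)).length) && tabRun M T F (u, c)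

theorem cert_iff {M : OracleProc (List Bool × List Bool) Bool} {p : Polynomial ℕ}
    {T F Cs : List (List Bool)} {u : List Bool} : cert M p T F Cs u = true ↔
      ∃ c ∈ Cs, c.length ≤ p.eval u.length ∧ tabRun M T F (u, c) = true := by
  simp [cert]

theorem cert_FP (M : OracleProc (List Bool × List Bool) Bool) (p : Polynomial ℕ) :
    FP fun a : ((List (List Bool) × List (List Bool)) × List Bool) × List (List Bool) =>
      cert M p a.1.1.1 a.1.1.2 a.2 a.1.2 := by
  have h1 : FP fun b : ((List (List Bool) × List (List Bool)) × List Bool) × List Bool =>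
      un (p.eval b.1.2.length) := FP.un_poly (FP.snd.comp FP.fst) p
  have h2 : FP fun b : ((List (List Bool) × List (List Bool)) × List Bool) × List Bool =>
      decide (b.2.length ≤ (un (p.eval b.1.2.length)).length) := FP.length_le FP.snd h1
  have h3 : FP fun b : ((List (List Bool) × List (List Bool)) × List Bool) × List Bool =>
      tabRun M b.1.1.1 b.1.1.2 (b.1.2, b.2) := by
    have e1 : FP fun b : ((List (List Bool) × List (List Bool)) × List Bool) × List Bool =>
        (b.1.1, (b.1.2, b.2)) :=
      (FP.fst.comp FP.fst).pair ((FP.snd.comp FP.fst).pair FP.snd)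
    exact (tabRun_FP M).comp e1
  have h4 : FP fun b : ((List (List Bool) × List (List Bool)) × List Bool) × List Bool =>
      decide (b.2.length ≤ (un (p.eval b.1.2.length)).length) &&
        tabRun M b.1.1.1 b.1.1.2 (b.1.2, b.2) := h2.and h3
  exact FP.any_ctx h4

/-- the answer `b` to the query `q` is verified -/
def chq (b : Bool) (M : OracleProc (List Bool × List Bool) Bool) (p : Polynomial ℕ)
    (S T F Cs : List (List Bool)) (q : List Bool) : Bool :=
  if q.isEmpty then !b else if q.headD false then cert M p T F Cs q.tail else wmem S q.tail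

theorem chq_FP (b : Bool) (M : OracleProc (List Bool × List Bool) Bool) (p : Polynomial ℕ) :
    FP fun a : ((List (List Bool) × List (List Bool)) × (List (List Bool) × List (List Bool))) ×
      List Bool => chq b M p a.1.1.1 a.1.1.2 a.1.2.1 a.1.2.2 a.2 := by
  have h0 : FP fun a : ((List (List Bool) × List (List Bool)) ×
      (List (List Bool) × List (List Bool))) × List Bool => a.2.isEmpty := FP.isEmpty FP.snd
  have h1 : FP fun a : ((List (List Bool) × List (List Bool)) ×
      (List (List Bool) × List (List Bool))) × List Bool => a.2.headD false := FP.headD FP.snd _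
  have h2 : FP fun a : ((List (List Bool) × List (List Bool)) ×
      (List (List Bool) × List (List Bool))) × List Bool => a.2.tail := FP.tail FP.snd
  have h3 : FP fun a : ((List (List Bool) × List (List Bool)) ×
      (List (List Bool) × List (List Bool))) × List Bool => wmem a.1.1.1 a.2.tail :=
    FP.wmem (FP.fst.comp (FP.fst.comp FP.fst)) h2
  have h4 : FP fun a : ((List (List Bool) × List (List Bool)) ×
      (List (List Bool) × List (List Bool))) × List Bool =>
      (((a.1.1.2, a.1.2.1), a.2.tail), a.1.2.2) :=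
    (((FP.snd.comp (FP.fst.comp FP.fst)).pair (FP.fst.comp (FP.snd.comp FP.fst))).pair h2).pair
      (FP.snd.comp (FP.snd.comp FP.fst))
  have h5 : FP fun a : ((List (List Bool) × List (List Bool)) ×
      (List (List Bool) × List (List Bool))) × List Bool =>
      cert M p a.1.1.2 a.1.2.1 a.1.2.2 a.2.tail := (cert_FP M p).comp h4
  exact FP.ite h0 (FP.const (!b)) (FP.ite h1 h5 h3)

theorem chq_sound {b : Bool} {M : OracleProc (List Bool × List Bool) Bool} {p : Polynomial ℕ}
    {R : Oracle} {C : DecisionProblem} (hC : ∀ u, C u = b ↔ Accepts M p R u)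
    {S T F Cs : List (List Bool)} (hS : ∀ u ∈ S, R u = b) (hT : ∀ u ∈ T, R u = true)
    (hF : ∀ u ∈ F, R u = false) {q : List Bool} (h : chq b M p S T F Cs q = true) :
    join R C q = b := by
  rcases q with _ | ⟨d, u⟩
  · simp only [chq, List.isEmpty_nil, if_true, Bool.not_eq_true'] at h
    rw [h]
    rfl
  · cases d
    · simp only [chq, List.isEmpty_cons, List.headD_cons, List.tail_cons, Bool.false_eq_true,
        if_false] at h
      exact hS u ((wmem_iff _ _).1 h)
    · simp only [chq, List.isEmpty_cons, List.headD_cons, List.tail_cons, Bool.false_eq_true,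
        if_false, if_true] at h
      obtain ⟨c, -, h1, h2⟩ := cert_iff.1 h
      exact (hC u).2 ⟨c, h1, tabRun_sound M hT hF h2⟩

theorem chq_compl {b : Bool} {M : OracleProc (List Bool × List Bool) Bool} {p : Polynomial ℕ}
    {R : Oracle} {C : DecisionProblem}
    {S T F Cs : List (List Bool)} (hT : ∀ u ∈ T, R u = true)
    (hF : ∀ u ∈ F, R u = false) {q : List Bool} (hq : join R C q = b)
    (hS : R q.tail = b → q.tail ∈ S)
    (hCs : C q.tail = b → ∃ c ∈ Cs, c.length ≤ p.eval q.tail.length ∧ M.run R (q.tail, c) = true ∧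
      ∀ r ∈ qs M R (q.tail, c), r ∈ T ++ F) :
    chq b M p S T F Cs q = true := by
  rcases q with _ | ⟨d, u⟩
  · have h1 : b = false := hq.symm
    subst h1
    simp [chq]
  · cases d
    · have h1 : R u = b := hq
      simp only [chq, List.isEmpty_cons, List.headD_cons, List.tail_cons, Bool.false_eq_true,
        if_false]
      exact (wmem_iff _ _).2 (hS h1)
    · have h1 : C u = b := hq
      simp only [chq, List.isEmpty_cons, List.headD_cons, List.tail_cons, Bool.false_eq_true,
        if_false, if_true]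
      obtain ⟨c, h2, h3, h4, h5⟩ := hCs h1
      exact cert_iff.2 ⟨c, h2, h3, tabRun_compl M hT hF h5 h4⟩

/-- verification of all the elements of a list -/
private theorem FP.all_ctx {β γ : Type} [N487b59b3 β] [N487b59b3 γ] [Inhabited β] {P : γ × β → Bool}
    (hP : FP P) : FP fun p : γ × List β => p.2.all fun b => P (p.1, b) := by
  have h1 : FP fun p : γ × List β => p.2.any fun b => !P (p.1, b) := FP.any_ctx hP.not
  refine (congrArg FP (funext fun p => ?_)).mp h1.not
  rw [List.not_any_eq_all_not]
  simp

/-! The parts of the witness -/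

def wP (W : List Bool) : List (List Bool) := ld (cf (cs W))
def wM (W : List Bool) : List (List Bool) := ld (cf (cs (cs W)))
def wT (W : List Bool) : List (List Bool) := ld (cf (cs (cs (cs W))))
def wF' (W : List Bool) : List (List Bool) := ld (cf (cs (cs (cs (cs W)))))
def wC (W : List Bool) : List (List Bool) := ld (cs (cs (cs (cs (cs W)))))

theorem wP_FP : FP wP := FP.ld (FP.cf (FP.cs FP.id))
theorem wM_FP : FP wM := FP.ld (FP.cf (FP.cs (FP.cs FP.id)))
theorem wT_FP : FP wT := FP.ld (FP.cf (FP.cs (FP.cs (FP.cs FP.id))))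
theorem wF'_FP : FP wF' := FP.ld (FP.cf (FP.cs (FP.cs (FP.cs (FP.cs FP.id)))))
theorem wC_FP : FP wC := FP.ld (FP.cs (FP.cs (FP.cs (FP.cs (FP.cs FP.id)))))

section

variable (M M₁ M₀ : OracleProc (List Bool × List Bool) Bool) (p p₁ p₀ : Polynomial ℕ)

/-- the check of the witness -/
def chk2 (a : (List Bool × List Bool) × List (List Bool)) : Bool :=
  (decide ((cf a.1.2).length ≤ (un (p.eval a.1.1.length)).length) &&
    tabRun M (wP a.1.2) (wM a.1.2) (a.1.1, cf a.1.2)) &&
  (((wP a.1.2).all fun q =>
      chq true M₁ p₁ (wT a.1.2) (wT a.1.2) (wF' a.1.2) (wC a.1.2) q) &&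
    ((wM a.1.2).all fun q =>
      chq false M₀ p₀ (wF' a.1.2) (wT a.1.2) (wF' a.1.2) (wC a.1.2) q)) &&
  (((wT a.1.2).all fun q => wmem a.2 q) && ((wF' a.1.2).all fun q => !wmem a.2 q))

theorem chk2_FP : FP (chk2 M M₁ M₀ p p₁ p₀) := by
  have hW : FP fun a : (List Bool × List Bool) × List (List Bool) => a.1.2 := FP.snd.comp FP.fst
  have hx : FP fun a : (List Bool × List Bool) × List (List Bool) => a.1.1 := FP.fst.comp FP.fst
  have hP : FP fun a : (List Bool × List Bool) × List (List Bool) => wP a.1.2 := wP_FP.comp hW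
  have hM : FP fun a : (List Bool × List Bool) × List (List Bool) => wM a.1.2 := wM_FP.comp hW
  have hT : FP fun a : (List Bool × List Bool) × List (List Bool) => wT a.1.2 := wT_FP.comp hW
  have hF : FP fun a : (List Bool × List Bool) × List (List Bool) => wF' a.1.2 := wF'_FP.comp hW
  have hC : FP fun a : (List Bool × List Bool) × List (List Bool) => wC a.1.2 := wC_FP.comp hW
  have hw : FP fun a : (List Bool × List Bool) × List (List Bool) => cf a.1.2 := FP.cf hW
  have h1 : FP fun a : (List Bool × List Bool) × List (List Bool) =>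
      decide ((cf a.1.2).length ≤ (un (p.eval a.1.1.length)).length) :=
    FP.length_le hw (FP.un_poly hx p)
  have h2 : FP fun a : (List Bool × List Bool) × List (List Bool) =>
      tabRun M (wP a.1.2) (wM a.1.2) (a.1.1, cf a.1.2) :=
    (tabRun_FP M).comp ((hP.pair hM).pair (hx.pair hw))
  have h3 : FP fun a : (List Bool × List Bool) × List (List Bool) =>
      (wP a.1.2).all fun q =>
        chq true M₁ p₁ (wT a.1.2) (wT a.1.2) (wF' a.1.2) (wC a.1.2) q :=
    (FP.all_ctx (chq_FP true M₁ p₁)).comp (((hT.pair hT).pair (hF.pair hC)).pair hP)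
  have h4 : FP fun a : (List Bool × List Bool) × List (List Bool) =>
      (wM a.1.2).all fun q =>
        chq false M₀ p₀ (wF' a.1.2) (wT a.1.2) (wF' a.1.2) (wC a.1.2) q :=
    (FP.all_ctx (chq_FP false M₀ p₀)).comp (((hF.pair hT).pair (hF.pair hC)).pair hM)
  have e1 : FP fun a : List (List Bool) × List Bool => wmem a.1 a.2 := FP.wmem FP.fst FP.snd
  have e2 : FP fun a : List (List Bool) × List Bool => !wmem a.1 a.2 := e1.not
  have h5 : FP fun a : (List Bool × List Bool) × List (List Bool) =>
      (wT a.1.2).all fun q => wmem a.2 q := (FP.all_ctx e1).comp (FP.snd.pair hT)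
  have h6 : FP fun a : (List Bool × List Bool) × List (List Bool) =>
      (wF' a.1.2).all fun q => !wmem a.2 q := (FP.all_ctx e2).comp (FP.snd.pair hF)
  exact ((h1.and h2).and (h3.and h4)).and (h5.and h6)

end

theorem NPo_join_low {R : Oracle} {C : DecisionProblem} (hC : C ∈ NPo R ∩ coNPo R) :
    NPo (join R C) ⊆ NPo R := by
  rintro L ⟨p, M, hL⟩
  obtain ⟨⟨p₁, M₁, hC₁⟩, ⟨p₀, M₀, hC₀⟩⟩ := hC
  have hC₀' : ∀ u, C u = false ↔ Accepts M₀ p₀ R u := by
    intro u
    have h1 := hC₀ u
    rw [compl_true] at h1
    rw [← h1, Bool.not_eq_true]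
  obtain ⟨N, hN⟩ := ask (α := List Bool × List Bool) (fun a => wT a.2 ++ wF' a.2)
    (chk2 M M₁ M₀ p p₁ p₀) (FP.append (wT_FP.comp FP.snd) (wF'_FP.comp FP.snd))
    (chk2_FP M M₁ M₀ p p₁ p₀)
  obtain ⟨B, hB, hBm, hBq⟩ := qs_bound M
  obtain ⟨B₁, hB₁, hBm₁, hBq₁⟩ := qs_bound M₁
  obtain ⟨B₀, hB₀, hBm₀, hBq₀⟩ := qs_bound M₀
  let E : ℕ → ℕ := fun n => B (6 * n + 1 + 3 * p.eval n)
  let D : ℕ → ℕ := fun n => p₁.eval (E n) + p₀.eval (E n)
  let G : ℕ → ℕ := fun n => B₁ (6 * E n + 1 + 3 * D n) + B₀ (6 * E n + 1 + 3 * D n)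
  have hp : PB fun n => p.eval n := PB.poly p
  have hE : PB E := by
    have h1 : PB fun n => 6 * n + 1 + 3 * p.eval n := by fun_prop
    exact hB.comp h1
  have hD : PB D := ((PB.poly p₁).comp hE).add ((PB.poly p₀).comp hE)
  have hG : PB G := by
    have h1 : PB fun n => 6 * E n + 1 + 3 * D n := by fun_prop
    exact (hB₁.comp h1).add (hB₀.comp h1)
  have hPB : PB fun n => (2 * p.eval n + 1) + (2 * (E n * (2 * E n + 1)) + 1) +
      (2 * (E n * (2 * E n + 1)) + 1) +
      (2 * ((E n + E n * G n) * (2 * (E n + G n) + 1)) + 1) +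
      (2 * ((E n + E n * G n) * (2 * (E n + G n) + 1)) + 1) + E n * (2 * D n + 1) := by fun_prop
  obtain ⟨P, hP⟩ := exists_poly hPB
  refine ⟨P, N, fun x => ?_⟩
  rw [hL]
  constructor
  · rintro ⟨w, hw, hrun⟩
    have hsz : sz (x, w) ≤ 6 * x.length + 1 + 3 * p.eval x.length := by
      simp only [sz_pair, sz_bits]; omega
    set n := x.length with hn
    obtain ⟨hq1, hq2⟩ := hBq (join R C) (x, w)
    have hE1 : (qs M (join R C) (x, w)).length ≤ E n := hq1.trans (hBm hsz)
    have hE2 : ∀ q ∈ qs M (join R C) (x, w), q.length ≤ E n := fun q hq =>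
      (hq2 q hq).trans (hBm hsz)
    -- the certificates
    have hct : ∀ u : List Bool, ∃ c : List Bool, (C u = true → c.length ≤ p₁.eval u.length ∧
        M₁.run R (u, c) = true) ∧ (C u = false → c.length ≤ p₀.eval u.length ∧
        M₀.run R (u, c) = true) := by
      intro u
      cases hu : C u
      · obtain ⟨c, h1, h2⟩ := (hC₀' u).1 hu
        exact ⟨c, by simp, fun _ => ⟨h1, h2⟩⟩
      · obtain ⟨c, h1, h2⟩ := (hC₁ u).1 hu
        exact ⟨c, fun _ => ⟨h1, h2⟩, by simp⟩
    choose ct hct1 hct0 using hct
    have hctl : ∀ u : List Bool, u.length ≤ E n → (ct u).length ≤ D n := by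
      intro u hu
      have h1 : p₁.eval u.length ≤ p₁.eval (E n) := poly_mono p₁ hu
      have h0 : p₀.eval u.length ≤ p₀.eval (E n) := poly_mono p₀ hu
      show _ ≤ p₁.eval (E n) + p₀.eval (E n)
      cases hb : C u
      · have := (hct0 u hb).1
        omega
      · have := (hct1 u hb).1
        omega
    -- the queries to `R`
    let sub : List Bool → List (List Bool) := fun u =>
      if C u then qs M₁ R (u, ct u) else qs M₀ R (u, ct u)
    have hsub : ∀ u : List Bool, u.length ≤ E n → (sub u).length ≤ G n ∧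
        ∀ r ∈ sub u, r.length ≤ G n := by
      intro u hu
      have hs : sz (u, ct u) ≤ 6 * E n + 1 + 3 * D n := by
        have := hctl u hu
        simp only [sz_pair, sz_bits]; omega
      obtain ⟨a1, a2⟩ := hBq₁ R (u, ct u)
      obtain ⟨b1, b2⟩ := hBq₀ R (u, ct u)
      have m1 := hBm₁ hs
      have m0 := hBm₀ hs
      have hGn : G n = B₁ (6 * E n + 1 + 3 * D n) + B₀ (6 * E n + 1 + 3 * D n) := rfl
      cases hb : C u
      · have e1 : sub u = qs M₀ R (u, ct u) := by simp [sub, hb]
        rw [e1]
        refine ⟨by omega, fun r hr => ?_⟩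
        have := b2 r hr
        omega
      · have e1 : sub u = qs M₁ R (u, ct u) := by simp [sub, hb]
        rw [e1]
        refine ⟨by omega, fun r hr => ?_⟩
        have := a2 r hr
        omega
    set Q := qs M (join R C) (x, w) with hQ
    set RQ : List (List Bool) := Q.map List.tail ++ Q.flatMap fun q => sub q.tail with hRQ
    have htl : ∀ q ∈ Q, q.tail.length ≤ E n := fun q hq => by
      have := hE2 q hq
      rw [List.length_tail]; omega
    have hR1 : RQ.length ≤ E n + E n * G n := by
      rw [hRQ, List.length_append, List.length_map, List.length_flatMap]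
      have h1 : (Q.map fun q => (sub q.tail).length).sum ≤ Q.length * G n := by
        have h2 := List.sum_le_card_nsmul (Q.map fun q => (sub q.tail).length) (G n) (by
          intro k hk
          obtain ⟨q, hq, rfl⟩ := List.mem_map.1 hk
          exact (hsub _ (htl q hq)).1)
        rwa [List.length_map, smul_eq_mul] at h2
      have h2 : Q.length * G n ≤ E n * G n := Nat.mul_le_mul_right _ hE1
      omega
    have hR2 : ∀ r ∈ RQ, r.length ≤ E n + G n := by
      intro r hr
      rcases List.mem_append.1 hr with h | h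
      · obtain ⟨q, hq, rfl⟩ := List.mem_map.1 h
        have := htl q hq
        omega
      · obtain ⟨q, hq, hr'⟩ := List.mem_flatMap.1 h
        have := (hsub _ (htl q hq)).2 r hr'
        omega
    set T := RQ.filter fun q => R q with hT
    set F := RQ.filter fun q => !R q with hF
    set Pp := Q.filter fun q => join R C q with hPp
    set Pm := Q.filter fun q => !join R C q with hPm
    set Cs := Q.map fun q => ct q.tail with hCs
    have hTR : ∀ u ∈ T, R u = true := fun u hu => (List.mem_filter.1 hu).2
    have hFR : ∀ u ∈ F, R u = false := fun u hu => by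
      simpa using (List.mem_filter.1 hu).2
    have hPpR : ∀ u ∈ Pp, join R C u = true := fun u hu => (List.mem_filter.1 hu).2
    have hPmR : ∀ u ∈ Pm, join R C u = false := fun u hu => by
      simpa using (List.mem_filter.1 hu).2
    have hTF : ∀ u ∈ RQ, u ∈ T ++ F := by
      intro u hu
      cases hb : R u
      · exact List.mem_append_right _ (List.mem_filter.2 ⟨hu, by simp [hb]⟩)
      · exact List.mem_append_left _ (List.mem_filter.2 ⟨hu, hb⟩)
    have hPQ : ∀ u ∈ Q, u ∈ Pp ++ Pm := by
      intro u hu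
      cases hb : join R C u
      · exact List.mem_append_right _ (List.mem_filter.2 ⟨hu, by simp [hb]⟩)
      · exact List.mem_append_left _ (List.mem_filter.2 ⟨hu, hb⟩)
    have hlen : ∀ (l : List (List Bool)) (a b : ℕ), l.length ≤ a → (∀ u ∈ l, u.length ≤ b) →
        (lc l).length ≤ a * (2 * b + 1) := fun l a b h1 h2 =>
      (lc_length_le l b h2).trans (Nat.mul_le_mul_right _ h1)
    have l1 : (lc Pp).length ≤ E n * (2 * E n + 1) :=
      hlen _ _ _ ((List.length_filter_le _ _).trans hE1) fun u hu =>
        hE2 u (List.mem_filter.1 hu).1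
    have l2 : (lc Pm).length ≤ E n * (2 * E n + 1) :=
      hlen _ _ _ ((List.length_filter_le _ _).trans hE1) fun u hu =>
        hE2 u (List.mem_filter.1 hu).1
    have l3 : (lc T).length ≤ (E n + E n * G n) * (2 * (E n + G n) + 1) :=
      hlen _ _ _ ((List.length_filter_le _ _).trans hR1) fun u hu =>
        hR2 u (List.mem_filter.1 hu).1
    have l4 : (lc F).length ≤ (E n + E n * G n) * (2 * (E n + G n) + 1) :=
      hlen _ _ _ ((List.length_filter_le _ _).trans hR1) fun u hu =>
        hR2 u (List.mem_filter.1 hu).1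
    have l5 : (lc Cs).length ≤ E n * (2 * D n + 1) := by
      refine hlen _ _ _ ?_ ?_
      · rw [hCs, List.length_map]
        exact hE1
      · intro c hc
        obtain ⟨q, hq, rfl⟩ := List.mem_map.1 hc
        exact hctl _ (htl q hq)
    refine ⟨cd w (cd (lc Pp) (cd (lc Pm) (cd (lc T) (cd (lc F) (lc Cs))))), ?_, ?_⟩
    · rw [cd_length, cd_length, cd_length, cd_length, cd_length, ← hn]
      have h6 := hP n
      omega
    · rw [hN]
      have eP : wP (cd w (cd (lc Pp) (cd (lc Pm) (cd (lc T) (cd (lc F) (lc Cs)))))) = Pp := by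
        simp only [wP, cs_cd, cf_cd, ld_lc]
      have eM : wM (cd w (cd (lc Pp) (cd (lc Pm) (cd (lc T) (cd (lc F) (lc Cs)))))) = Pm := by
        simp only [wM, cs_cd, cf_cd, ld_lc]
      have eT : wT (cd w (cd (lc Pp) (cd (lc Pm) (cd (lc T) (cd (lc F) (lc Cs)))))) = T := by
        simp only [wT, cs_cd, cf_cd, ld_lc]
      have eF : wF' (cd w (cd (lc Pp) (cd (lc Pm) (cd (lc T) (cd (lc F) (lc Cs)))))) = F := by
        simp only [wF', cs_cd, cf_cd, ld_lc]
      have eC : wC (cd w (cd (lc Pp) (cd (lc Pm) (cd (lc T) (cd (lc F) (lc Cs)))))) = Cs := by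
        simp only [wC, cs_cd, ld_lc]
      simp only [chk2, eP, eM, eT, eF, eC, cf_cd, Bool.and_eq_true, decide_eq_true_eq, un_length,
        List.all_eq_true, wmem_iff, Bool.not_eq_true']
      refine ⟨⟨⟨hw, tabRun_compl M hPpR hPmR hPQ hrun⟩, ?_, ?_⟩, ?_, ?_⟩
      · intro q hq
        have hqQ : q ∈ Q := (List.mem_filter.1 hq).1
        have hRt : q.tail ∈ RQ := List.mem_append_left _ (List.mem_map_of_mem hqQ)
        refine chq_compl (C := C) hTR hFR (hPpR q hq)
          (fun h => List.mem_filter.2 ⟨hRt, h⟩) fun h => ?_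
        refine ⟨ct q.tail, List.mem_map_of_mem (f := fun q => ct q.tail) hqQ,
          (hct1 _ h).1, (hct1 _ h).2, fun r hr => hTF r ?_⟩
        refine List.mem_append_right _ (List.mem_flatMap.2 ⟨q, hqQ, ?_⟩)
        simp only [sub, h, if_true]
        exact hr
      · intro q hq
        have hqQ : q ∈ Q := (List.mem_filter.1 hq).1
        have hRt : q.tail ∈ RQ := List.mem_append_left _ (List.mem_map_of_mem hqQ)
        refine chq_compl (C := C) hTR hFR (hPmR q hq)
          (fun h => List.mem_filter.2 ⟨hRt, by simp [h]⟩) fun h => ?_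
        refine ⟨ct q.tail, List.mem_map_of_mem (f := fun q => ct q.tail) hqQ,
          (hct0 _ h).1, (hct0 _ h).2, fun r hr => hTF r ?_⟩
        refine List.mem_append_right _ (List.mem_flatMap.2 ⟨q, hqQ, ?_⟩)
        simp only [sub, h, Bool.false_eq_true, if_false]
        exact hr
      · intro q hq
        exact List.mem_filter.2 ⟨List.mem_append_left _ hq, hTR q hq⟩
      · intro q hq
        rw [← Bool.not_eq_true, wmem_iff]
        intro h
        have h1 := (List.mem_filter.1 h).2
        rw [hFR q hq] at h1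
        exact Bool.false_ne_true h1
  · rintro ⟨W, -, hW⟩
    rw [hN] at hW
    simp only [chk2, Bool.and_eq_true, decide_eq_true_eq, un_length,
      List.all_eq_true, wmem_iff, Bool.not_eq_true'] at hW
    obtain ⟨⟨⟨h1, h2⟩, h3, h4⟩, h5, h6⟩ := hW
    have hT : ∀ u ∈ wT W, R u = true := fun u hu => (List.mem_filter.1 (h5 u hu)).2
    have hF : ∀ u ∈ wF' W, R u = false := by
      intro u hu
      have h7 := h6 u hu
      rw [← Bool.not_eq_true, wmem_iff] at h7
      by_contra h8
      rw [Bool.not_eq_false] at h8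
      exact h7 (List.mem_filter.2 ⟨List.mem_append_right _ hu, h8⟩)
    refine ⟨cf W, h1, tabRun_sound M (fun q hq => ?_) (fun q hq => ?_) h2⟩
    · exact chq_sound hC₁ hT hT hF (h3 q hq)
    · exact chq_sound hC₀' hF hT hF (h4 q hq)

end Pool.Agent.RO
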