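import Mathlib
import Pool.Agent.RO.CTlow

set_option autoImplicit false

/-!
# Module RO-CTk: the universal language

PLAN.  `KK R C` and its complement are in `NPo (join R C)`: verifier `(z, w) ↦ cRun (cf z) (cs (cs z)) (cf (cs z))` (resp. its negation),
ignoring `w`: precompose `Pool.Agent.Helper20.ConsG.runB` (`runB_run`) with `fun s => (cf s.1, (cs (cs s.1), cf (cs s.1)))`
(`Pool.Agent.Helper49.Cons.pre`, `pre_run`), and for the complement `exists_post` with `not`; witness bound `0`.  Then `NPo_join_low`.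
(`coNPo R` is `{L | Lᶜ ∈ NPo R}`.)
`KK_univ`: `exists_codeG M (fun y => y) FP.id (fun b => [b]) _` gives `j` and `P` with `PB P`; `exists_poly`, `poly_le_pow`:
`P n ≤ n^e + e`; so `cRun j (un (|x|^e+e)) x (join R C) = M.run (join R C) x = A x`, and `pad j e x = cd j (cd x (un (|x|^e+e)))`
(`cf_cd`, `cs_cd`).
-/

namespace Pool.Agent.RO

open Pool.Agent.Helper22 N487b59b3 N68a2faeb N793a5b8e
open Pool.Agent.Helper20.Cons (join Po cRun)

/-- the universal language -/
def KK (R : Oracle) (C : DecisionProblem) : DecisionProblem :=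
  fun z => cRun (cf z) (cs (cs z)) (cf (cs z)) (join R C)

private theorem kk_fp : FP fun s : List Bool × List Bool =>
    ((cf s.1, (cs (cs s.1), cf (cs s.1))) : List Bool × (List Bool × List Bool)) := by
  fun_prop

private theorem kk_join {R : Oracle} {C : DecisionProblem} :
    KK R C ∈ NPo (join R C) ∩ coNPo (join R C) := by
  constructor
  · refine ⟨0, Pool.Agent.Helper49.Cons.pre Pool.Agent.Helper20.ConsG.runB _ kk_fp, fun x => ?_⟩
    constructor
    · intro h
      refine ⟨[], by simp, ?_⟩
      rw [Pool.Agent.Helper49.Cons.pre_run, Pool.Agent.Helper20.ConsG.runB_run]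
      exact h
    · rintro ⟨w, -, h⟩
      rw [Pool.Agent.Helper49.Cons.pre_run, Pool.Agent.Helper20.ConsG.runB_run] at h
      exact h
  · obtain ⟨K, hK⟩ := Pool.Agent.Helper49.Cons.exists_post
      (Pool.Agent.Helper49.Cons.pre Pool.Agent.Helper20.ConsG.runB _ kk_fp)
      (fun s : (List Bool × List Bool) × Bool => !s.2) (by fun_prop)
    have hK' : ∀ x w, K.run (join R C) (x, w) = !(KK R C x) := by
      intro x w
      rw [hK, Pool.Agent.Helper49.Cons.pre_run, Pool.Agent.Helper20.ConsG.runB_run]
      rfl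
    refine ⟨0, K, fun x => ?_⟩
    constructor
    · intro h
      refine ⟨[], by simp, ?_⟩
      rw [hK']
      exact h
    · rintro ⟨w, -, h⟩
      rw [hK'] at h
      exact h

theorem KK_mem {R : Oracle} {C : DecisionProblem} (hC : C ∈ NPo R ∩ coNPo R) :
    KK R C ∈ NPo R ∩ coNPo R := by
  have h := kk_join (R := R) (C := C)
  exact ⟨NPo_join_low hC h.1, NPo_join_low hC h.2⟩

theorem KK_univ {R : Oracle} {A C : DecisionProblem} (h : TuringRel R A C) :
    ∃ (j : List Bool) (e : ℕ), ∀ x, A x = KK R C (pad j e x) := by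
  obtain ⟨M, hM⟩ := h
  obtain ⟨j, P, hP, hPm, hj⟩ := Pool.Agent.Helper20.Cons.exists_codeG M (fun y => y) FP.id
    (fun b : Bool => [b]) (by fun_prop)
  obtain ⟨p, hp⟩ := exists_poly hP
  obtain ⟨e, he⟩ := poly_le_pow p
  refine ⟨j, e, fun x => ?_⟩
  have h1 := (hj (join R C) x (un (x.length ^ e + e)) (by
    rw [un_length]
    exact (hp _).trans (he _))).2
  rw [hM, KK, pad, cf_cd, cs_cd, cs_cd, cf_cd, h1]
  rfl

private theorem enum_length_le (n : ℕ) : (enum n).length ≤ n := by
  induction n with
  | zero => simp [enum]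
  | succ n ih =>
    have h1 : enum (n + 1) = nxt (enum n) := by
      rw [enum, enum, Function.iterate_succ_apply']
    rw [h1]
    exact (nxt_length _).trans (Nat.succ_le_succ ih)

/-- every trivial reduction has arbitrarily large numbers -/
theorem exists_number (j : List Bool) (e n₀ : ℕ) : ∃ l, n₀ ≤ l ∧ pj l = j ∧ pe l = e := by
  obtain ⟨l, hl⟩ := enum_surj (cd j (cd (un e) (un n₀)))
  refine ⟨l, ?_, ?_, ?_⟩
  · have h1 := enum_length_le l
    rw [hl, cd_length, cd_length, un_length, un_length] at h1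
    omega
  · rw [pj, hl, cf_cd]
  · rw [pe, hl, cs_cd, cf_cd, un_length]

end Pool.Agent.RO
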