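import Mathlib
import Pool.Agent.RO.CTq

set_option autoImplicit false

/-!
# Module RO-C1a: a bound for everything which occurs at one level

Let `B = 2 * 4^(l+3) * (2 s + 1) + l + 9`, `Z = B^(l+2)`. An instance has length `≤ B`, its image under the
reduction number `l` has length `≤ Z`; the witnesses, the numbers and the lengths of the queries are bounded by a
polynomial `F` in `Z`, and `F Z ≤ Z ^ e + e ≤ (Z + D) ^ D`, `D = e + 1`.
-/

namespace Pool.Agent.RO

open Pool.Agent.Helper22 N487b59b3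

/-- the bound -/
def hbd (D s l : ℕ) : ℕ := ((2 * 4 ^ (l + 3) * (2 * s + 1) + l + 9) ^ (l + 2) + D) ^ D

private theorem c1a_enum_length (n : ℕ) : (enum n).length ≤ n := by
  induction n with
  | zero => simp [enum]
  | succ n ih =>
    have h1 : enum (n + 1) = nxt (enum n) := by
      rw [enum, enum, Function.iterate_succ_apply']
    rw [h1]
    exact (nxt_length _).trans (Nat.succ_le_succ ih)

private theorem c1a_pj (l : ℕ) : (pj l).length ≤ l := (cf_length_le _).trans (c1a_enum_length l)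

private theorem c1a_pe (l : ℕ) : pe l ≤ l :=
  (cf_length_le _).trans ((cs_length _).trans (c1a_enum_length l))

private theorem c1a_lc (l : List (List Bool)) (C : ℕ) (h : ∀ u ∈ l, u.length ≤ C) :
    (lc l).length ≤ l.length * (2 * C + 1) := by
  induction l with
  | nil => simp [lc]
  | cons a l ih =>
    have h1 := ih fun u hu => h u (by simp [hu])
    have h2 := h a (by simp)
    rw [lc, cd_length, List.length_cons]
    have h3 : (l.length + 1) * (2 * C + 1) = l.length * (2 * C + 1) + (2 * C + 1) := by ring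
    omega

private theorem c1a_inst {s l : ℕ} {u : List Bool} (h : IsInst s l u) :
    u.length ≤ 2 * 4 ^ (l + 3) * (2 * s + 1) := by
  obtain ⟨h1, h2, -, h4⟩ := h
  have h5 := c1a_lc (ld u) s fun x hx => (h4 x hx).le
  rw [h1, h2] at h5
  exact h5

private theorem c1a_pads {l : ℕ} {u : List Bool} {A B : ℕ} (hu : u.length ≤ A)
    (hB : B = A + l + 9) : (pads l u).length ≤ B ^ (l + 2) := by
  have e1 : (pads l u).length =
      2 * (pj l).length + 1 + (2 * u.length + 1 + (u.length ^ pe l + pe l)) := by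
    rw [pads, pad, cd_length, cd_length, un_length]
  have h1 := c1a_pj l
  have h2 := c1a_pe l
  have hB1 : 1 ≤ B := by omega
  have h3 : u.length ^ pe l ≤ B ^ l :=
    (Nat.pow_le_pow_left (by omega : u.length ≤ B) _).trans (Nat.pow_le_pow_right hB1 h2)
  have h4 : 1 ≤ B ^ l := Nat.one_le_pow _ _ hB1
  have h5 : 3 * B + B ^ l ≤ B ^ (l + 2) := by
    have e2 : B ^ (l + 2) = B ^ l * (B * B) := by ring
    have h6 : 9 * B ≤ B * B := Nat.mul_le_mul_right B (by omega)
    have h7 : B ^ l * (9 * B) ≤ B ^ l * (B * B) := Nat.mul_le_mul_left _ h6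
    have h8 : 1 * B ≤ B ^ l * B := Nat.mul_le_mul_right B h4
    have h9 : B ^ l * 1 ≤ B ^ l * B := Nat.mul_le_mul_left _ hB1
    have e3 : B ^ l * (9 * B) = 9 * (B ^ l * B) := by ring
    rw [e2]
    omega
  omega

private theorem c1a_pow (Z e : ℕ) : Z ^ e + e ≤ (Z + (e + 1)) ^ (e + 1) := by
  have h1 : Z ^ e ≤ (Z + (e + 1)) ^ e := Nat.pow_le_pow_left (by omega) _
  have h2 : 1 ≤ (Z + (e + 1)) ^ e := Nat.one_le_pow _ _ (by omega)
  have h3 : 1 * e ≤ (Z + (e + 1)) ^ e * e := Nat.mul_le_mul_right _ h2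
  have e1 : (Z + (e + 1)) ^ (e + 1) =
      (Z + (e + 1)) ^ e * Z + (Z + (e + 1)) ^ e * e + (Z + (e + 1)) ^ e := by ring
  rw [e1]
  omega

private theorem c1a_Z (Z e : ℕ) : Z ≤ (Z + (e + 1)) ^ (e + 1) := by
  have h1 : Z + (e + 1) ≤ (Z + (e + 1)) ^ (e + 1) := Nat.le_self_pow (by omega) _
  omega

/-- the polynomial bound for one of the procedures -/
private theorem c1a_one (M : OracleProc (List Bool × List Bool) Bool) (p : Polynomial ℕ) :
    ∃ F : ℕ → ℕ, PB F ∧ (∀ n m, n ≤ m → p.eval n ≤ F m) ∧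
      ∀ (R : Oracle) (z w : List Bool) (n : ℕ), z.length ≤ n → w.length ≤ p.eval z.length →
        (qs M R (z, w)).length ≤ F n ∧ ∀ q ∈ qs M R (z, w), q.length ≤ F n := by
  obtain ⟨B, hB, hBm, hq⟩ := qs_bound M
  refine ⟨fun n => p.eval n + B (6 * n + 1 + 3 * p.eval n), ?_, ?_, ?_⟩
  · refine (PB.poly p).add (hB.comp ?_)
    exact (((PB.const 6).mul PB.id).add (PB.const 1)).add ((PB.const 3).mul (PB.poly p))
  · intro n m hnm
    exact (poly_mono p hnm).trans (Nat.le_add_right _ _)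
  · intro R z w n hz hw
    have h1 : sz (z, w) ≤ 6 * n + 1 + 3 * p.eval n := by
      have h2 : p.eval z.length ≤ p.eval n := poly_mono p hz
      rw [sz_pair, sz_bits, sz_bits]
      omega
    have h3 := hBm h1
    obtain ⟨h4, h5⟩ := hq R (z, w)
    refine ⟨?_, ?_⟩
    · show (qs M R (z, w)).length ≤ p.eval n + B (6 * n + 1 + 3 * p.eval n)
      omega
    · intro q hqq
      have h6 := h5 q hqq
      show q.length ≤ p.eval n + B (6 * n + 1 + 3 * p.eval n)
      omega

theorem exists_hb (V : Vp) : ∃ D, ∀ s l, HB V s l (hbd D s l) := by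
  obtain ⟨F1, hF1, hm1, hq1⟩ := c1a_one (V true).1 (V true).2
  obtain ⟨F2, hF2, hm2, hq2⟩ := c1a_one (V false).1 (V false).2
  obtain ⟨p, hp⟩ := exists_poly (hF1.add hF2)
  obtain ⟨e, he⟩ := poly_le_pow p
  refine ⟨e + 1, ?_⟩
  intro s l
  set A : ℕ := 2 * 4 ^ (l + 3) * (2 * s + 1) with hA
  set Z : ℕ := (A + l + 9) ^ (l + 2) with hZ
  have hh : hbd (e + 1) s l = (Z + (e + 1)) ^ (e + 1) := rfl
  have hF : F1 Z + F2 Z ≤ hbd (e + 1) s l := by
    rw [hh]
    exact ((hp Z).trans (he Z)).trans (c1a_pow Z e)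
  have hAZ : A + l + 9 ≤ Z := Nat.le_self_pow (by omega) _
  have hZh : Z ≤ hbd (e + 1) s l := by
    rw [hh]
    exact c1a_Z Z e
  have hsA : 2 * s ≤ A := by
    have h1 : 1 ≤ 2 * 4 ^ (l + 3) := by
      have : 0 < 4 ^ (l + 3) := by positivity
      omega
    have h2 := Nat.mul_le_mul_right (2 * s + 1) h1
    rw [hA]
    omega
  have hb : ∀ b : Bool, (∀ n m, n ≤ m → (V b).2.eval n ≤ F1 m + F2 m) ∧
      ∀ (R : Oracle) (z w : List Bool) (n : ℕ), z.length ≤ n →
        w.length ≤ (V b).2.eval z.length →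
        (qs (V b).1 R (z, w)).length ≤ F1 n + F2 n ∧
          ∀ q ∈ qs (V b).1 R (z, w), q.length ≤ F1 n + F2 n := by
    intro b
    cases b with
    | true =>
      refine ⟨fun n m hnm => (hm1 n m hnm).trans (Nat.le_add_right _ _), ?_⟩
      intro R z w n hz hw
      obtain ⟨h1, h2⟩ := hq1 R z w n hz hw
      exact ⟨h1.trans (Nat.le_add_right _ _), fun q hq => (h2 q hq).trans (Nat.le_add_right _ _)⟩
    | false =>
      refine ⟨fun n m hnm => (hm2 n m hnm).trans (Nat.le_add_left _ _), ?_⟩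
      intro R z w n hz hw
      obtain ⟨h1, h2⟩ := hq2 R z w n hz hw
      exact ⟨h1.trans (Nat.le_add_left _ _), fun q hq => (h2 q hq).trans (Nat.le_add_left _ _)⟩
  refine ⟨?_, ?_, ?_, ?_, ?_, ?_⟩
  · omega
  · intro u hu
    have := c1a_inst hu
    omega
  · intro u hu
    exact (c1a_pads (c1a_inst hu) rfl).trans hZh
  · intro u hu b
    exact ((hb b).1 _ _ (c1a_pads (c1a_inst hu) rfl)).trans hF
  · intro u hu b R w hw
    exact ((hb b).2 R _ w Z (c1a_pads (c1a_inst hu) rfl) hw).1.trans hF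
  · intro u hu b R w hw q hq
    exact (((hb b).2 R _ w Z (c1a_pads (c1a_inst hu) rfl) hw).2 q hq).trans hF

end Pool.Agent.RO
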