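import Mathlib
import Pool.Agent.RO.C1a

set_option autoImplicit false

/-!
# Module RO-C1b: the levels grow fast enough (arithmetic)

PLAN.  `lev S (i+1) = 2^(2^(lev S i))`.
* If `4^9 ≤ S` then `4^(i+9) ≤ lev S i` for all `i` (induction: `2^(2^x) ≥ 4 x` for all `x`... e.g. `2^(2^x) ≥ 2^(x+1) ≥ ..`; for `x ≥ 4`:
  `2^(2^x) ≥ 2^(2 x) ≥ 4 x`).
* Let `s = lev S i`, `l ≤ i`, `m = Nat.log 2 s`, so `2^m ≤ s < 2^(m+1)`, and `4^(l+9) ≤ s` gives `2 (l + 9) ≤ m`.  Then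
  `B = 2*4^(l+3)*(2s+1)+l+9 ≤ s^2`, `B^(l+2) ≤ s^(2(l+2)) ≤ s^m ≤ 2^((m+1) m)`, and `2^x + D ≤ 2^(x + D)`... so
  `hbd D s l ≤ 2^(D ((m+1) m + D))` and `200 * 64^(l+3) * (hbd + 1) ≤ 2^(8 + 6(l+3) + D((m+1)m+D) + 1) ≤ 2^(9 + 3 m + D((m+1)m+D))`.
* `9 + 3 m + D((m+1) m + D) ≤ 2^m ≤ s` for all `m ≥ m₀(D)` (e.g. `m₀ = 20 (D + 1) + 100`... : `m^3 ≤ 2^m` for `m ≥ 10`, choose
  `m₀ = 10 D + 100`), and `m ≥ m₀` if `S ≥ 2^m₀` (`lev S i ≥ S`).
Then `exists_big` from `exists_hb`.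
-/

namespace Pool.Agent.RO

open Pool.Agent.Helper22 N487b59b3

private lemma two_mul_le_pow (x : ℕ) : 2 * x ≤ 2 ^ x := by
  rcases x with _ | x
  · simp
  · have h := (Nat.lt_two_pow_self (n := x))
    rw [pow_succ]
    omega

private lemma four_mul_le (x : ℕ) : 4 * x ≤ 2 ^ (2 ^ x) := by
  have h1 : x + 1 ≤ 2 ^ x := Nat.lt_two_pow_self
  have h2 : 2 ^ (x + 1) ≤ 2 ^ (2 ^ x) := Nat.pow_le_pow_right (by norm_num) h1
  have h3 := two_mul_le_pow x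
  rw [pow_succ] at h2
  omega

private lemma lev_ge (S : ℕ) (i : ℕ) : S ≤ lev S i := by
  induction i with
  | zero => exact le_rfl
  | succ i ih =>
    have h := four_mul_le (lev S i)
    have e : lev S (i + 1) = 2 ^ (2 ^ lev S i) := rfl
    rw [e]
    omega

private lemma lev_four (S : ℕ) (hS : 4 ^ 9 ≤ S) (i : ℕ) : 4 ^ (i + 9) ≤ lev S i := by
  induction i with
  | zero => simpa [lev] using hS
  | succ i ih =>
    have h := four_mul_le (lev S i)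
    have e : lev S (i + 1) = 2 ^ (2 ^ lev S i) := rfl
    rw [e, show i + 1 + 9 = (i + 9) + 1 by omega, pow_succ]
    omega

private lemma cube_le (m : ℕ) (hm : 10 ≤ m) : m ^ 3 ≤ 2 ^ m := by
  induction m, hm using Nat.le_induction with
  | base => norm_num
  | succ m hm ih =>
    have h1 : (m + 1) ^ 3 ≤ 2 * m ^ 3 := by nlinarith [sq_nonneg (m : ℤ), mul_le_mul hm hm (by norm_num) (by omega)]
    calc (m + 1) ^ 3 ≤ 2 * m ^ 3 := h1
      _ ≤ 2 * 2 ^ m := by omega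
      _ = 2 ^ (m + 1) := by rw [pow_succ]; ring

private lemma exp_le (D m : ℕ) (hm : 10 * D + 100 ≤ m) :
    9 + 3 * m + ((m + 1) * m + D) * D ≤ 2 ^ m := by
  have h1 := cube_le m (by omega)
  refine le_trans ?_ h1
  have hD : 10 * D ≤ m := by omega
  have h2 : 10 * (((m + 1) * m + D) * D) ≤ ((m + 1) * m + m) * m := by
    calc 10 * (((m + 1) * m + D) * D) = ((m + 1) * m + D) * (10 * D) := by ring
      _ ≤ ((m + 1) * m + m) * m := Nat.mul_le_mul (by omega) hD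
  have h3 : ((m + 1) * m + m) * m = m ^ 3 + 2 * m ^ 2 := by ring
  have h4 : 100 * m ^ 2 ≤ m ^ 3 := by
    rw [show m ^ 3 = m * m ^ 2 by ring]
    exact Nat.mul_le_mul_right _ (by omega)
  have h5 : 100 * m ≤ m ^ 2 := by
    rw [show m ^ 2 = m * m by ring]
    exact Nat.mul_le_mul_right _ (by omega)
  rw [h3] at h2
  omega

private lemma pow_add_le (a D : ℕ) : 2 ^ a + D ≤ 2 ^ (a + D) := by
  have h1 : 1 ≤ 2 ^ a := Nat.one_le_two_pow
  have h2 : D + 1 ≤ 2 ^ D := Nat.lt_two_pow_self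
  rw [pow_add]
  nlinarith

private lemma key (D s l : ℕ) (h4 : 4 ^ (l + 9) ≤ s) (hs : 2 ^ (10 * D + 100) ≤ s) :
    200 * 64 ^ (l + 3) * (hbd D s l + 1) ≤ 2 ^ s := by
  set m := Nat.log 2 s with hm
  have hs0 : s ≠ 0 := by
    have : 1 ≤ 2 ^ (10 * D + 100) := Nat.one_le_two_pow
    omega
  have hm1 : 2 ^ m ≤ s := Nat.pow_log_le_self 2 hs0
  have hm2 : s < 2 ^ (m + 1) := Nat.lt_pow_succ_log_self (by norm_num) s
  have hmD : 10 * D + 100 ≤ m := by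
    by_contra hlt
    have : 2 ^ (m + 1) ≤ 2 ^ (10 * D + 100) := Nat.pow_le_pow_right (by norm_num) (by omega)
    omega
  have hl : 2 * (l + 9) ≤ m := by
    by_contra hlt
    have h5 : 2 ^ (m + 1) ≤ 2 ^ (2 * (l + 9)) := Nat.pow_le_pow_right (by norm_num) (by omega)
    have h6 : 2 ^ (2 * (l + 9)) = 4 ^ (l + 9) := by rw [pow_mul]; norm_num
    omega
  have hms : m ≤ s := by
    have := (Nat.lt_two_pow_self (n := m))
    omega
  have hB : 2 * 4 ^ (l + 3) * (2 * s + 1) + l + 9 ≤ s ^ 2 := by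
    have h7 : 4 ^ (l + 9) = 4096 * 4 ^ (l + 3) := by
      rw [show l + 9 = 6 + (l + 3) by omega, pow_add]; norm_num
    have h8 : 4096 * (2 * 4 ^ (l + 3) * (2 * s + 1)) ≤ 6 * s ^ 2 := by
      calc 4096 * (2 * 4 ^ (l + 3) * (2 * s + 1)) = 4 ^ (l + 9) * (2 * (2 * s + 1)) := by
            rw [h7]; ring
        _ ≤ s * (2 * (3 * s)) := Nat.mul_le_mul h4 (by omega)
        _ = 6 * s ^ 2 := by ring
    have h9 : s ≤ s ^ 2 := by
      rw [show s ^ 2 = s * s by ring]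
      exact Nat.le_mul_of_pos_left s (by omega)
    omega
  have hpow : (2 * 4 ^ (l + 3) * (2 * s + 1) + l + 9) ^ (l + 2) ≤ 2 ^ ((m + 1) * m) := by
    calc (2 * 4 ^ (l + 3) * (2 * s + 1) + l + 9) ^ (l + 2) ≤ (s ^ 2) ^ (l + 2) :=
          Nat.pow_le_pow_left hB _
      _ = s ^ (2 * (l + 2)) := by rw [← pow_mul]
      _ ≤ (2 ^ (m + 1)) ^ (2 * (l + 2)) := Nat.pow_le_pow_left hm2.le _
      _ = 2 ^ ((m + 1) * (2 * (l + 2))) := by rw [← pow_mul]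
      _ ≤ 2 ^ ((m + 1) * m) := Nat.pow_le_pow_right (by norm_num)
          (Nat.mul_le_mul_left _ (by omega))
  have hh : hbd D s l ≤ 2 ^ (((m + 1) * m + D) * D) := by
    unfold hbd
    calc ((2 * 4 ^ (l + 3) * (2 * s + 1) + l + 9) ^ (l + 2) + D) ^ D
        ≤ (2 ^ ((m + 1) * m) + D) ^ D := Nat.pow_le_pow_left (by omega) _
      _ ≤ (2 ^ ((m + 1) * m + D)) ^ D := Nat.pow_le_pow_left (pow_add_le _ _) _
      _ = 2 ^ (((m + 1) * m + D) * D) := by rw [← pow_mul]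
  have hh1 : hbd D s l + 1 ≤ 2 ^ (((m + 1) * m + D) * D + 1) := by
    have : 1 ≤ 2 ^ (((m + 1) * m + D) * D) := Nat.one_le_two_pow
    rw [pow_succ]
    omega
  have h64 : 64 ^ (l + 3) = 2 ^ (6 * (l + 3)) := by rw [pow_mul]; norm_num
  calc 200 * 64 ^ (l + 3) * (hbd D s l + 1)
      ≤ 2 ^ 8 * 2 ^ (6 * (l + 3)) * 2 ^ (((m + 1) * m + D) * D + 1) := by
        rw [h64]
        exact Nat.mul_le_mul (Nat.mul_le_mul_right _ (by norm_num)) hh1
    _ = 2 ^ (8 + 6 * (l + 3) + (((m + 1) * m + D) * D + 1)) := by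
        rw [← pow_add, ← pow_add]
    _ ≤ 2 ^ s := by
        apply Nat.pow_le_pow_right (by norm_num)
        have h10 := exp_le D m hmD
        omega

theorem exists_lev (D : ℕ) : ∃ S, ∀ i l, l ≤ i →
    200 * 64 ^ (l + 3) * (hbd D (lev S i) l + 1) ≤ 2 ^ lev S i := by
  refine ⟨2 ^ (10 * D + 100), ?_⟩
  intro i l hli
  apply key
  · have h1 : 4 ^ 9 ≤ 2 ^ (10 * D + 100) := by
      calc 4 ^ 9 = 2 ^ 18 := by norm_num
        _ ≤ 2 ^ (10 * D + 100) := Nat.pow_le_pow_right (by norm_num) (by omega)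
    exact (Nat.pow_le_pow_right (by norm_num) (by omega)).trans (lev_four _ h1 i)
  · exact lev_ge _ i

theorem exists_big (V : Vp) : ∃ S, Big V S := by
  obtain ⟨D, hD⟩ := exists_hb V
  obtain ⟨S, hS⟩ := exists_lev D
  exact ⟨S, fun i l hli => ⟨hbd D (lev S i) l, hD _ _, hS i l hli⟩⟩

end Pool.Agent.RO
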