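import Mathlib
import Pool.Agent.RO.CMk
import Pool.Agent.RO.CIns

/-!
# RO-CCrt (job): the bounded version of certificates is correct, their length

PLAN. `crtB_iff`: `nodupB_iff`, `leneq_iff`, `powU_eq`, `markB_iff` with `kapU_length`, `wmem_iff`; since `u` is an instance,
`4^(l+3) ≤ jj l = |ld u| ≤ |u|` (`length_ld_le`) and `8^(l+3) ≤ (4^(l+3))^2 ≤ |u|^2`, so the minima in `powU_eq` are `4^(l+3)` and `8^(l+3)`.
`crt_length`: all words have length `s`, `|E| + dd l = mu l`, `|lc E| = |E| (2 s + 1)`, `|lc F| = |E| |ld u| (2 s + 1)` and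
`|u| = |ld u| (2 s + 1)`, `|E| ≤ 8^(l+3) ≤ |ld u|^2`: `|lc F| ≤ |E| |u| ≤ |u|^3`, `|lc E| ≤ |u|^2`... and `cd_length`.
-/

set_option autoImplicit false

namespace Pool.Agent.RO

open N68a2faeb N793a5b8e N487b59b3 Pool.Agent.Helper22

private theorem pow_bounds {U k : ℕ} (h : 2 * 4 ^ k ≤ U) : 4 ^ k ≤ U + 1 ∧ 8 ^ k ≤ U * U + 1 := by
  have h1 : 8 ^ k ≤ 4 ^ k * 4 ^ k := by
    rw [← mul_pow]
    exact Nat.pow_le_pow_left (by norm_num) k
  have h2 : 4 ^ k * 4 ^ k ≤ U * U := Nat.mul_le_mul (by omega) (by omega)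
  constructor <;> omega

theorem crtB_iff {T : List (List Bool)} {R : Oracle} {s l u : List Bool} {E F : List (List Bool)}
    (hu : IsInst s.length l.length u)
    (hT : ∀ e ∈ E ++ F, ∀ a < s.length, wmem T (e ++ un a) = R (e ++ un a)) :
    crtB T s l u E F = true ↔ Crt R s.length l.length u E F := by
  have hU : 2 * 4 ^ (l.length + 3) ≤ u.length := by
    have h1 := length_ld_le hu.1
    rw [hu.2.1, jj] at h1
    exact h1
  obtain ⟨h4, h8⟩ := pow_bounds hU
  have hkap : kap s.length l.length ≤ s.length := Nat.sub_le _ _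
  have hmk : ∀ e ∈ E ++ F, (markB T (kapU s l) e = true ↔ Mark R (kap s.length l.length) e) := by
    intro e he
    rw [← kapU_length]
    refine markB_iff fun a ha => hT e he a ?_
    rw [kapU_length] at ha
    omega
  have hlen : leneq (un E.length ++ powU (un 4) l u) (powU (un 8) l (un (u.length * u.length))) =
      true ↔ E.length + dd l.length = mu l.length := by
    rw [leneq_iff, powU_eq, powU_eq, List.length_append, un_length, un_length, un_length,
      un_length, un_length, un_length, min_eq_left h4, min_eq_left h8, dd, mu]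
  rw [crtB, Bool.and_eq_true, Bool.and_eq_true, Bool.and_eq_true, Bool.and_eq_true, nodupB_iff,
    hlen, List.all_eq_true, List.all_eq_true, List.all_eq_true, Crt]
  have e1 : (∀ x ∈ E, (leneq x s && markB T (kapU s l) x) = true) ↔
      ∀ e ∈ E, e.length = s.length ∧ Mark R (kap s.length l.length) e := by
    refine forall₂_congr fun e he => ?_
    rw [Bool.and_eq_true, leneq_iff, hmk e (List.mem_append_left _ he)]
  have e2 : (∀ x ∈ F, (!markB T (kapU s l) x) = true) ↔
      ∀ f ∈ F, ¬ Mark R (kap s.length l.length) f := by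
    refine forall₂_congr fun f hf => ?_
    rw [← hmk f (List.mem_append_right _ hf)]
    simp
  have e3 : (∀ x ∈ E, ((ld u).all fun y => (ld u).any fun x' => wmem F (wx (wx x y) x')) = true) ↔
      ∀ e ∈ E, ∀ x ∈ ld u, ∃ x' ∈ ld u, wx (wx e x) x' ∈ F := by
    refine forall₂_congr fun e he => ?_
    rw [List.all_eq_true]
    refine forall₂_congr fun x hx => ?_
    rw [List.any_eq_true]
    simp only [wmem_iff]
  rw [e1, e2, e3]
  tauto

private theorem lc_len (l : List (List Bool)) (s : ℕ) (h : ∀ w ∈ l, w.length = s) :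
    (lc l).length = l.length * (2 * s + 1) := by
  induction l with
  | nil => simp [lc]
  | cons a l ih =>
    rw [lc, cd_length, h a List.mem_cons_self, ih fun w hw => h w (List.mem_cons_of_mem _ hw),
      List.length_cons]
    ring

theorem crt_length {R : Oracle} {s l : ℕ} {u : List Bool} (hu : IsInst s l u)
    {E F : List (List Bool)} (hc : Crt R s l u E F) (h1 : F.length = E.length * (ld u).length)
    (h2 : ∀ f ∈ F, f.length = s) : (cd (lc E) (lc F)).length ≤ 3 * u.length ^ 3 + 1 := by
  have hE := lc_len E s fun e he => (hc.2.1 e he).1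
  have hF := lc_len F s h2
  have hU : u.length = (ld u).length * (2 * s + 1) := by
    have h3 := lc_len (ld u) s hu.2.2.2
    rwa [hu.1] at h3
  rw [cd_length, hE, hF, h1, hU]
  have hJ : (ld u).length = 2 * 4 ^ (l + 3) := hu.2.1
  have h8 : 8 ^ (l + 3) ≤ 4 ^ (l + 3) * 4 ^ (l + 3) := by
    rw [← mul_pow]
    exact Nat.pow_le_pow_left (by norm_num) _
  have hEJ : E.length ≤ (ld u).length ^ 2 := by
    have h3 := hc.1.2
    rw [mu] at h3
    rw [hJ]
    nlinarith
  have hJ1 : 1 ≤ (ld u).length := by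
    rw [hJ]
    have : 0 < 4 ^ (l + 3) := by positivity
    omega
  generalize (ld u).length = J at *
  generalize E.length = m at *
  have hw : 1 ≤ 2 * s + 1 := by omega
  generalize 2 * s + 1 = w at *
  have g1 : m * w ≤ (J * w) ^ 3 := by
    calc m * w ≤ J ^ 2 * w := Nat.mul_le_mul_right _ hEJ
      _ ≤ J ^ 3 * w ^ 3 := by
        apply Nat.mul_le_mul
        · exact Nat.pow_le_pow_right hJ1 (by norm_num)
        · exact Nat.le_self_pow (by norm_num) w
      _ = (J * w) ^ 3 := (mul_pow _ _ _).symm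
  have g2 : m * J * w ≤ (J * w) ^ 3 := by
    calc m * J * w ≤ J ^ 2 * J * w := by
          apply Nat.mul_le_mul_right
          exact Nat.mul_le_mul_right _ hEJ
      _ = J ^ 3 * w := by ring
      _ ≤ J ^ 3 * w ^ 3 := Nat.mul_le_mul_left _ (Nat.le_self_pow (by norm_num) w)
      _ = (J * w) ^ 3 := (mul_pow _ _ _).symm
  omega

end Pool.Agent.RO
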