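import Mathlib
import Pool.Agent.RO.CWx

/-!
# RO-CFactA (job): certificates for the non-existence of a translate, existence

PLAN. `marks R s κ` has at least `mu l - dd l` elements (`Win`); let `E` be the list of the words of a subset with
`mu l - dd l` elements (`Finset.exists_subset_card_eq`, `Finset.toList`, `List.Vector`, map to the underlying words: injective).
For every pair `(e, x)`, `e ∈ E`, `x ∈ ld u`, the word `wx e x` is not a translate (`¬ Sat`, it has length `s`: `wl_length`), so there is
`x' ∈ ld u` such that `wx (wx e x) x'` is no mark; choose one; `F` is the list of all these words, `|E| * |ld u|` elements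
(`List.flatMap`/`List.product` and `map`). (`dd l ≤ mu l`: `4^n ≤ 8^n`.)
-/

set_option autoImplicit false

namespace Pool.Agent.RO

open N68a2faeb N793a5b8e N487b59b3 Pool.Agent.Helper22

theorem exists_crt {R : Oracle} {s l : ℕ} {u : List Bool} (hu : IsInst s l u) (hw : Win R s l)
    (hS : ¬ Sat R s l u) : ∃ E F : List (List Bool), Crt R s l u E F ∧
      F.length = E.length * (ld u).length ∧ ∀ f ∈ F, f.length = s := by
  classical
  obtain ⟨E0, hE0, hc⟩ := Finset.exists_subset_card_eq hw.1
  have hdm : dd l ≤ mu l := Nat.pow_le_pow_left (by norm_num) _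
  have hEm : ∀ e ∈ E0.toList.map (fun w : List.Vector Bool s => w.1),
      e.length = s ∧ Mark R (kap s l) e := by
    intro e he
    obtain ⟨w, hw', rfl⟩ := List.mem_map.1 he
    refine ⟨w.2, ?_⟩
    have h1 := hE0 (Finset.mem_toList.1 hw')
    simp only [marks, Finset.mem_filter] at h1
    exact h1.2
  have hch : ∀ e x : List Bool, ∃ x' : List Bool,
      e ∈ E0.toList.map (fun w : List.Vector Bool s => w.1) → x ∈ ld u →
        x' ∈ ld u ∧ ¬ Mark R (kap s l) (wx (wx e x) x') := by
    intro e x
    by_cases h : e ∈ E0.toList.map (fun w : List.Vector Bool s => w.1) ∧ x ∈ ld u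
    · have hl : (wx e x).length = s := by
        rw [wl_length ((hEm e h.1).1.trans (hu.2.2.2 x h.2).symm), (hEm e h.1).1]
      have h2 : ¬ ∀ x' ∈ ld u, Mark R (kap s l) (wx (wx e x) x') := fun h3 => hS ⟨_, hl, h3⟩
      push Not at h2
      obtain ⟨x', hx', h4⟩ := h2
      exact ⟨x', fun _ _ => ⟨hx', h4⟩⟩
    · exact ⟨[], fun h1 h2 => absurd ⟨h1, h2⟩ h⟩
  choose g hg using hch
  refine ⟨E0.toList.map (fun w : List.Vector Bool s => w.1),
    (E0.toList.map (fun w : List.Vector Bool s => w.1)).flatMap
      (fun e => (ld u).map (fun x => wx (wx e x) (g e x))), ⟨⟨?_, ?_⟩, hEm, ?_, ?_⟩, ?_, ?_⟩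
  · exact (Finset.nodup_toList E0).map Subtype.val_injective
  · rw [List.length_map, Finset.length_toList, hc]
    omega
  · intro f hf
    obtain ⟨e, he, hf⟩ := List.mem_flatMap.1 hf
    obtain ⟨x, hx, rfl⟩ := List.mem_map.1 hf
    exact (hg e x he hx).2
  · intro e he x hx
    exact ⟨g e x, (hg e x he hx).1,
      List.mem_flatMap.2 ⟨e, he, List.mem_map.2 ⟨x, hx, rfl⟩⟩⟩
  · rw [List.length_flatMap]
    simp
  · intro f hf
    obtain ⟨e, he, hf⟩ := List.mem_flatMap.1 hf
    obtain ⟨x, hx, rfl⟩ := List.mem_map.1 hf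
    have h1 : (wx e x).length = s := by
      rw [wl_length ((hEm e he).1.trans (hu.2.2.2 x hx).symm), (hEm e he).1]
    rw [wl_length (h1.trans (hu.2.2.2 _ (hg e x he hx).1).symm), h1]

end Pool.Agent.RO
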