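import Mathlib
import Pool.Agent.RO.CWx

/-!
# RO-CFactB (job): certificates for the non-existence of a translate, soundness

PLAN. Let `y` be a translate. The `jj l` words `wx y x`, `x ∈ ld u`, are different marks (`wl_inj`); `E` consists of
`mu l - dd l` different marks, and there are less than `mu l + dd l = (mu l - dd l) + jj l` marks (`jj l = 2 * dd l`), so some
`wx y x = e ∈ E` (otherwise the union of the two sets of marks has too many elements; work with `Finset (List.Vector Bool s)` or with the
`Finset` of words `(marks R s κ).image Subtype.val`). Then `wx e x = y` (`wl_cancel`), and for the `x'` belonging to `(e, x)`, `wx y x' ∈ F` is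
no mark, a contradiction. (`dd l ≤ mu l`: `4^n ≤ 8^n`.)
-/

set_option autoImplicit false

namespace Pool.Agent.RO

open N68a2faeb N793a5b8e N487b59b3 Pool.Agent.Helper22

theorem crt_sound {R : Oracle} {s l : ℕ} {u : List Bool} (hu : IsInst s l u) (hw : Win R s l)
    {E F : List (List Bool)} (hc : Crt R s l u E F) : ¬ Sat R s l u := by
  classical
  rintro ⟨y, hy, hm⟩
  obtain ⟨⟨hnd, hlen⟩, hE, hF, hx⟩ := hc
  set M : Finset (List Bool) := (marks R s (kap s l)).image Subtype.val with hM
  have hMc : M.card < mu l + dd l :=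
    lt_of_le_of_lt (Finset.card_image_le) hw.2
  have hmem : ∀ w : List Bool, w.length = s → Mark R (kap s l) w → w ∈ M := by
    intro w h1 h2
    have h3 : ∀ v : List.Vector Bool s, Mark R (kap s l) v.1 → v ∈ marks R s (kap s l) := by
      intro v hv
      rw [marks]
      exact (Finset.mem_filter (α := List.Vector Bool s)).2 ⟨Finset.mem_univ v, hv⟩
    exact Finset.mem_image.2 ⟨⟨w, h1⟩, h3 ⟨w, h1⟩ h2, rfl⟩
  have hXnd : ((ld u).map (wx y)).Nodup := by
    refine List.Nodup.map_on ?_ hu.2.2.1
    intro a ha b hb hab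
    exact wl_inj (hy.trans (hu.2.2.2 a ha).symm) (hy.trans (hu.2.2.2 b hb).symm) hab
  have hXM : ((ld u).map (wx y)).toFinset ⊆ M := by
    intro w h1
    rw [List.mem_toFinset] at h1
    obtain ⟨x, hx', rfl⟩ := List.mem_map.1 h1
    exact hmem _ (by rw [wl_length (hy.trans (hu.2.2.2 x hx').symm), hy]) (hm x hx')
  have hEM : E.toFinset ⊆ M := by
    intro w h1
    rw [List.mem_toFinset] at h1
    exact hmem w (hE w h1).1 (hE w h1).2
  have hXc : ((ld u).map (wx y)).toFinset.card = jj l := by
    rw [List.toFinset_card_of_nodup hXnd, List.length_map, hu.2.1]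
  have hEc : E.toFinset.card = E.length := List.toFinset_card_of_nodup hnd
  have hnd2 : ¬ Disjoint E.toFinset ((ld u).map (wx y)).toFinset := by
    intro hd
    have h1 := Finset.card_union_of_disjoint hd
    have h2 := Finset.card_le_card (Finset.union_subset hEM hXM)
    have h3 : jj l = 2 * dd l := rfl
    omega
  obtain ⟨e, he1, he2⟩ := Finset.not_disjoint_iff.1 hnd2
  rw [List.mem_toFinset] at he1 he2
  obtain ⟨x, hxu, rfl⟩ := List.mem_map.1 he2
  obtain ⟨x', hx', hxF⟩ := hx _ he1 x hxu
  rw [wl_cancel (hy.trans (hu.2.2.2 x hxu).symm)] at hxF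
  exact hF _ hxF (hm x' hx')

end Pool.Agent.RO
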