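import Mathlib
import Pool.Agent.RO.CFpC
import Pool.Agent.RO.CLev
import Pool.Agent.RO.CTask

/-!
# RO-CYes (job): the new language is in NP relative to `R`

PLAN. `qY_FP`, `dY_FP`: composition (`FP.flatMap_ctx`, `FP.map_ctx`, `FP.all_ctx`, `levB_FP`, `look_FP`, `markB_FP`). `np_side`: `ask` (CTask) with `qY`, `dY`, and
the polynomial `X`. Let `T = (qY (z, y)).filter R`; by `wmem_filter` `T` is correct on `strs (nz z)` and on the words
`wx y x ++ un a`, `x ∈ ld z`, `a < |nz z|`. So `levB_iff`, `look_of_inst`, `markB_iff` (`kap s l ≤ s = |nz z|`, `kapU_length`) show that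
`dY = true` iff there is `i ≥ i₀` with `IsInst (lev S i) (cnt i) z`, `|y| = lev S i` and all `wx y x` are marks. The length of the
witness `y` is that of a word of `ld z`, at most `|z|` (`lc (ld z) = z`).
-/

set_option autoImplicit false

namespace Pool.Agent.RO

open N68a2faeb N793a5b8e N487b59b3 Pool.Agent.Helper22

theorem qY_FP : FP qY := by
  have h1 : FP fun p : ((List Bool × List Bool) × List Bool) × List Bool =>
      wx p.1.1.2 p.1.2 ++ p.2 := by fun_prop
  have h2 := FP.map_ctx h1
  have h3 : FP fun p : (List Bool × List Bool) × List Bool =>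
      (uns (nz p.1.1)).map fun t => wx p.1.2 p.2 ++ t := by
    have e1 : FP fun p : (List Bool × List Bool) × List Bool => nz p.1.1 :=
      nz_FP.comp (f := fun p : (List Bool × List Bool) × List Bool => p.1.1) (by fun_prop)
    exact h2.comp (FP.id.pair (FP.uns e1))
  have h4 := FP.flatMap_ctx h3
  have h5 : FP fun a : List Bool × List Bool => (ld a.1).flatMap fun x =>
      (uns (nz a.1)).map fun t => wx a.2 x ++ t :=
    h4.comp (FP.id.pair (FP.ld FP.fst))
  have h6 : FP fun a : List Bool × List Bool => nz a.1 := nz_FP.comp FP.fst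
  exact FP.append (FP.strs h6) h5

private theorem d0 : FP fun c : (List Bool × List Bool) × List (List Bool) => nz c.1.1 :=
  nz_FP.comp (f := fun c : (List Bool × List Bool) × List (List Bool) => c.1.1) (by fun_prop)

private theorem d1 (V : Vp) (S i₀ : ℕ) :
    FP fun c : (List Bool × List Bool) × List (List Bool) => levB V S i₀ c.1.1 c.2 :=
  (levB_FP V S i₀).comp (f := fun c : (List Bool × List Bool) × List (List Bool) =>
    (c.1.1, c.2)) (by fun_prop)

private theorem d3 (V : Vp) (S : ℕ) :
    FP fun c : (List Bool × List Bool) × List (List Bool) => look V S (nz c.1.1) c.2 :=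
  (look_FP V S).comp (f := fun c : (List Bool × List Bool) × List (List Bool) =>
    (nz c.1.1, c.2)) (d0.pair FP.snd)

private theorem d4 (V : Vp) (S : ℕ) :
    FP fun c : (List Bool × List Bool) × List (List Bool) =>
      kapU (nz c.1.1) (look V S (nz c.1.1) c.2).2 :=
  kapU_FP.comp (f := fun c : (List Bool × List Bool) × List (List Bool) =>
    (nz c.1.1, (look V S (nz c.1.1) c.2).2)) (d0.pair (d3 V S).snd')

private theorem d5 (V : Vp) (S : ℕ) :
    FP fun p : ((List Bool × List Bool) × List (List Bool)) × List Bool =>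
      markB p.1.2 (kapU (nz p.1.1.1) (look V S (nz p.1.1.1) p.1.2).2) (wx p.1.1.2 p.2) := by
  have e1 : FP fun p : ((List Bool × List Bool) × List (List Bool)) × List Bool =>
      kapU (nz p.1.1.1) (look V S (nz p.1.1.1) p.1.2).2 :=
    (d4 V S).comp (f := fun p : ((List Bool × List Bool) × List (List Bool)) × List Bool =>
      p.1) FP.fst
  have e2 : FP fun p : ((List Bool × List Bool) × List (List Bool)) × List Bool =>
      p.1.2 := by fun_prop
  have e3 : FP fun p : ((List Bool × List Bool) × List (List Bool)) × List Bool =>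
      wx p.1.1.2 p.2 := by fun_prop
  exact markB_FP.comp (f := fun p : ((List Bool × List Bool) × List (List Bool)) × List Bool =>
    (p.1.2, (kapU (nz p.1.1.1) (look V S (nz p.1.1.1) p.1.2).2, wx p.1.1.2 p.2)))
    (e2.pair (e1.pair e3))

private theorem d7 (V : Vp) (S : ℕ) :
    FP fun c : (List Bool × List Bool) × List (List Bool) =>
      (ld c.1.1).all fun x =>
        markB c.2 (kapU (nz c.1.1) (look V S (nz c.1.1) c.2).2) (wx c.1.2 x) := by
  have e1 : FP fun c : (List Bool × List Bool) × List (List Bool) => ld c.1.1 := by fun_prop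
  exact (FP.all_ctx (d5 V S)).comp (f := fun c : (List Bool × List Bool) × List (List Bool) =>
    (c, ld c.1.1)) (FP.id.pair e1)

private theorem d2 : FP fun c : (List Bool × List Bool) × List (List Bool) =>
    leneq c.1.2 (nz c.1.1) := FP.leneq (by fun_prop) d0

theorem dY_FP (V : Vp) (S i₀ : ℕ) : FP (dY V S i₀) := by
  have h := (d1 V S i₀).and (d2.and (d7 V S))
  exact h

private theorem length_le_lc {l : List (List Bool)} {x : List Bool} (hx : x ∈ l) :
    x.length ≤ (lc l).length := by
  induction l with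
  | nil => exact absurd hx List.not_mem_nil
  | cons y l ih =>
    have h : lc (y :: l) = cd y (lc l) := rfl
    rw [h, cd_length]
    rcases List.mem_cons.1 hx with rfl | h1
    · omega
    · have := ih h1
      omega

private theorem dY_iff {V : Vp} {S : ℕ} (hV : Big V S) (i₀ : ℕ) (R : Oracle)
    (z y : List Bool) :
    dY V S i₀ ((z, y), (qY (z, y)).filter fun q => R q) = true ↔
      ∃ i, i₀ ≤ i ∧ IsInst (lev S i) (cnt V S R i) z ∧ y.length = lev S i ∧
        ∀ x ∈ ld z, Mark R (kap (lev S i) (cnt V S R i)) (wx y x) := by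
  set T := (qY (z, y)).filter fun q => R q with hT
  have hT1 : ∀ w ∈ strs (nz z), wmem T w = R w := by
    intro w hw
    exact wmem_filter (List.mem_append_left _ hw)
  have hT2 : ∀ x ∈ ld z, ∀ a < (nz z).length, wmem T (wx y x ++ un a) = R (wx y x ++ un a) := by
    intro x hx a ha
    refine wmem_filter (List.mem_append_right _ ?_)
    rw [List.mem_flatMap]
    refine ⟨x, hx, ?_⟩
    rw [List.mem_map]
    exact ⟨un a, mem_uns.2 ⟨a, ha, rfl⟩, rfl⟩
  have hmark : ∀ i, IsInst (lev S i) (cnt V S R i) z → ∀ x ∈ ld z,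
      (markB T (kapU (nz z) (look V S (nz z) T).2) (wx y x) = true ↔
        Mark R (kap (lev S i) (cnt V S R i)) (wx y x)) := by
    intro i hi x hx
    have e1 : (kapU (nz z) (look V S (nz z) T).2).length =
        kap (lev S i) (cnt V S R i) := by
      rw [look_of_inst hV hT1 hi, kapU_length, nz_eq hi, un_length, un_length]
    have e2 : (nz z).length = lev S i := by rw [nz_eq hi, un_length]
    rw [markB_iff (R := R), e1]
    intro a ha
    refine hT2 x hx a ?_
    rw [e1] at ha
    rw [e2]
    unfold kap at ha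
    omega
  show (levB V S i₀ z T && (leneq y (nz z) && (ld z).all fun x =>
    markB T (kapU (nz z) (look V S (nz z) T).2) (wx y x))) = true ↔ _
  rw [Bool.and_eq_true, Bool.and_eq_true, levB_iff hV i₀ hT1, leneq_iff, List.all_eq_true]
  constructor
  · rintro ⟨⟨i, hi, hinst⟩, hlen, hall⟩
    refine ⟨i, hi, hinst, ?_, fun x hx => (hmark i hinst x hx).1 (hall x hx)⟩
    rw [hlen, nz_eq hinst, un_length]
  · rintro ⟨i, hi, hinst, hlen, hall⟩
    refine ⟨⟨i, hi, hinst⟩, ?_, fun x hx => (hmark i hinst x hx).2 (hall x hx)⟩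
    rw [hlen, nz_eq hinst, un_length]

open Classical in
theorem np_side {V : Vp} {S : ℕ} (hV : Big V S) (i₀ : ℕ) (R : Oracle) :
    (fun z => decide (Lng V S i₀ R z)) ∈ NPo R := by
  obtain ⟨M, hM⟩ := ask qY (dY V S i₀) qY_FP (dY_FP V S i₀)
  refine ⟨Polynomial.X, M, fun z => ?_⟩
  rw [decide_eq_true_iff]
  unfold Accepts
  constructor
  · rintro ⟨i, hi, hinst, y, hy, hall⟩
    refine ⟨y, ?_, ?_⟩
    · rw [Polynomial.eval_X]
      obtain ⟨h1, h2, -, h4⟩ := hinst
      have h5 : 0 < (ld z).length := by
        rw [h2]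
        unfold jj
        positivity
      obtain ⟨x, hx⟩ := List.exists_mem_of_length_pos h5
      have h6 := length_le_lc hx
      rw [h1, h4 x hx] at h6
      rw [hy]
      exact h6
    · rw [hM, dY_iff hV]
      exact ⟨i, hi, hinst, hy, hall⟩
  · rintro ⟨y, -, h⟩
    rw [hM, dY_iff hV] at h
    obtain ⟨i, hi, hinst, hy, hall⟩ := h
    exact ⟨i, hi, hinst, y, hy, hall⟩

end Pool.Agent.RO
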