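import Mathlib
import Pool.Agent.RO.CYes
import Pool.Agent.RO.CFactA
import Pool.Agent.RO.CFactB
import Pool.Agent.RO.CCrt

/-!
# RO-CNo (job): the new language is in coNP relative to `R`

PLAN. `qN_FP`, `crtB_FP`, `dN_FP`: composition. `conp_side`: `ask` (CTask) with `qN`, `dN`, polynomial `3 X^3 + 1`. Let
`T = (qN (z, w)).filter R`, `E = ld (cf w)`, `F = ld (cs w)`: `T` is correct on `strs (nz z)` and on `e ++ un a` for `e ∈ E ++ F`, `a < |nz z|`
(`wmem_filter`). If `z` is not an instance of a level `≥ i₀` then `dN = true` for every witness (`levB_iff`) and `z` is not in the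
language. If it is (level `i`, unique by `level_unique`), `dN = true` iff `Crt R s l z E F` (`look_of_inst`, `nz_eq`, `crtB_iff`), and by `exists_crt`, `crt_sound` (with `Win`)
such `E, F` exist iff `¬ Sat`; length: `crt_length`, `ld_lc`, `cf_cd`, `cs_cd`. `compl_true` is in `Helper22/OracleBaire.lean`.
-/

set_option autoImplicit false

namespace Pool.Agent.RO

open N68a2faeb N793a5b8e N487b59b3 Pool.Agent.Helper22

theorem qN_FP : FP qN := by
  have h0 : FP fun p : List Bool × List Bool => p.1 ++ p.2 := by fun_prop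
  have h1 : FP fun p : List Bool × List (List Bool) => p.2.map fun t => p.1 ++ t :=
    FP.map_ctx h0
  have h2 : FP fun p : List Bool × List Bool => (uns p.1).map fun t => p.2 ++ t :=
    h1.comp (FP.snd.pair (FP.uns FP.fst))
  have h3 : FP fun p : List Bool × List (List Bool) =>
      p.2.flatMap fun e => (uns p.1).map fun t => e ++ t := FP.flatMap_ctx h2
  have h4 : FP fun a : List Bool × List Bool => nz a.1 := nz_FP.comp FP.fst
  have h5 : FP fun a : List Bool × List Bool => ld (cf a.2) ++ ld (cs a.2) := by fun_prop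
  have h6 : FP fun a : List Bool × List Bool =>
      (ld (cf a.2) ++ ld (cs a.2)).flatMap fun e => (uns (nz a.1)).map fun t => e ++ t :=
    h3.comp (h4.pair h5)
  have h7 : FP fun a : List Bool × List Bool => strs (nz a.1) := FP.strs h4
  exact FP.append h7 h6

private theorem crtB_FP {α : Type} [N487b59b3 α] {T E F : α → List (List Bool)}
    {s l u : α → List Bool} (hT : FP T) (hs : FP s) (hl : FP l) (hu : FP u) (hE : FP E)
    (hF : FP F) : FP fun a => crtB (T a) (s a) (l a) (u a) (E a) (F a) := by
  have h1 : FP fun a => nodupB (E a) := FP.nodupB hE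
  have h2 : FP fun a => powU (un 4) (l a) (u a) :=
    powU_FP.comp ((FP.const (un 4)).pair (hl.pair hu))
  have h3 : FP fun a => un ((u a).length * (u a).length) := by
    have := FP.un_poly hu (Polynomial.X * Polynomial.X)
    simpa using this
  have h4 : FP fun a => powU (un 8) (l a) (un ((u a).length * (u a).length)) :=
    powU_FP.comp ((FP.const (un 8)).pair (hl.pair h3))
  have h5 : FP fun a => leneq (un (E a).length ++ powU (un 4) (l a) (u a))
      (powU (un 8) (l a) (un ((u a).length * (u a).length))) :=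
    FP.leneq (FP.append (FP.un_length hE) h2) h4
  have hk : FP fun a => kapU (s a) (l a) := kapU_FP.comp (hs.pair hl)
  have h6 : FP fun p : (List (List Bool) × (List Bool × List Bool)) × List Bool =>
      markB p.1.1 p.1.2.1 p.2 :=
    markB_FP.comp ((FP.fst.comp FP.fst).pair ((FP.fst.comp (FP.snd.comp FP.fst)).pair FP.snd))
  have h7 : FP fun p : (List (List Bool) × (List Bool × List Bool)) × List Bool =>
      leneq p.2 p.1.2.2 && markB p.1.1 p.1.2.1 p.2 :=
    (FP.leneq FP.snd (FP.snd.comp (FP.snd.comp FP.fst))).and h6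
  have hctx : FP fun a => (T a, (kapU (s a) (l a), s a)) := hT.pair (hk.pair hs)
  have h8 : FP fun a => (E a).all fun e => leneq e (s a) && markB (T a) (kapU (s a) (l a)) e :=
    (FP.all_ctx h7).comp (hctx.pair hE)
  have h9 : FP fun a => (F a).all fun f => !markB (T a) (kapU (s a) (l a)) f :=
    (FP.all_ctx h6.not).comp (hctx.pair hF)
  have g1 : FP fun p : ((List (List Bool) × List Bool) × List Bool) × List Bool =>
      wmem p.1.1.1 (wx (wx p.1.1.2 p.1.2) p.2) :=
    FP.wmem (FP.fst.comp (FP.fst.comp FP.fst))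
      (FP.wx (FP.wx (FP.snd.comp (FP.fst.comp FP.fst)) (FP.snd.comp FP.fst)) FP.snd)
  have g2 : FP fun p : ((List (List Bool) × List Bool) × List Bool) × List (List Bool) =>
      p.2.any fun x' => wmem p.1.1.1 (wx (wx p.1.1.2 p.1.2) x') := FP.any_ctx g1
  have g3 : FP fun p : ((List (List Bool) × List (List Bool)) × List Bool) × List Bool =>
      p.1.1.2.any fun x' => wmem p.1.1.1 (wx (wx p.1.2 p.2) x') :=
    g2.comp ((((FP.fst.comp (FP.fst.comp FP.fst)).pair (FP.snd.comp FP.fst)).pair FP.snd).pair
      (FP.snd.comp (FP.fst.comp FP.fst)))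
  have g4 : FP fun p : ((List (List Bool) × List (List Bool)) × List Bool) × List (List Bool) =>
      p.2.all fun x => p.1.1.2.any fun x' => wmem p.1.1.1 (wx (wx p.1.2 x) x') := FP.all_ctx g3
  have g5 : FP fun p : (List (List Bool) × List (List Bool)) × List Bool =>
      p.1.2.all fun x => p.1.2.any fun x' => wmem p.1.1 (wx (wx p.2 x) x') :=
    g4.comp (FP.id.pair (FP.snd.comp FP.fst))
  have g6 : FP fun p : (List (List Bool) × List (List Bool)) × List (List Bool) =>
      p.2.all fun e => p.1.2.all fun x => p.1.2.any fun x' => wmem p.1.1 (wx (wx e x) x') :=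
    FP.all_ctx g5
  have g7 : FP fun a => (E a).all fun e => (ld (u a)).all fun x =>
      (ld (u a)).any fun x' => wmem (F a) (wx (wx e x) x') :=
    g6.comp ((hF.pair (FP.ld hu)).pair hE)
  exact ((h1.and h5).and (h8.and h9)).and g7

theorem dN_FP (V : Vp) (S i₀ : ℕ) : FP (dN V S i₀) := by
  have hz : FP fun c : (List Bool × List Bool) × List (List Bool) => c.1.1 :=
    FP.fst.comp FP.fst
  have hw : FP fun c : (List Bool × List Bool) × List (List Bool) => c.1.2 :=
    FP.snd.comp FP.fst
  have hT : FP fun c : (List Bool × List Bool) × List (List Bool) => c.2 := FP.snd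
  have hn : FP fun c : (List Bool × List Bool) × List (List Bool) => nz c.1.1 := nz_FP.comp hz
  have hf : FP fun c : (List Bool × List Bool) × List (List Bool) => (nz c.1.1, c.2) :=
    hn.pair hT
  have hl0 := (look_FP V S).comp hf
  dsimp only at hl0
  have hl : FP fun c : (List Bool × List Bool) × List (List Bool) =>
      (look V S (nz c.1.1) c.2).2 := hl0.snd'
  have hf' : FP fun c : (List Bool × List Bool) × List (List Bool) => (c.1.1, c.2) :=
    hz.pair hT
  have h1 := (levB_FP V S i₀).comp hf'
  dsimp only at h1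
  have h2 : FP fun c : (List Bool × List Bool) × List (List Bool) =>
      crtB c.2 (nz c.1.1) (look V S (nz c.1.1) c.2).2 c.1.1 (ld (cf c.1.2)) (ld (cs c.1.2)) :=
    crtB_FP hT hn hl hz (FP.ld (FP.cf hw)) (FP.ld (FP.cs hw))
  have h3 : dN V S i₀ = fun c : (List Bool × List Bool) × List (List Bool) =>
      !levB V S i₀ c.1.1 c.2 ||
        crtB c.2 (nz c.1.1) (look V S (nz c.1.1) c.2).2 c.1.1 (ld (cf c.1.2)) (ld (cs c.1.2)) := by
    funext c
    rw [dN]
  rw [h3]
  exact FP.or (FP.not h1) h2

open Classical in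
theorem conp_side {V : Vp} {S : ℕ} (hV : Big V S) (i₀ : ℕ) (R : Oracle)
    (hw : ∀ i, i₀ ≤ i → Win R (lev S i) (cnt V S R i)) :
    (fun z => decide (Lng V S i₀ R z)) ∈ coNPo R := by
  obtain ⟨M, hM⟩ := ask qN (dN V S i₀) qN_FP (dN_FP V S i₀)
  refine ⟨3 * Polynomial.X ^ 3 + 1, M, fun z => ?_⟩
  rw [compl_true, decide_eq_true_eq]
  have hT : ∀ w : List Bool, ∀ v ∈ strs (nz z),
      wmem ((qN (z, w)).filter fun q => R q) v = R v := fun w v hv =>
    wmem_filter (List.mem_append_left _ hv)
  have hT' : ∀ w : List Bool, ∀ e ∈ ld (cf w) ++ ld (cs w), ∀ a < (nz z).length,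
      wmem ((qN (z, w)).filter fun q => R q) (e ++ un a) = R (e ++ un a) :=
    fun w e he a ha => wmem_filter (List.mem_append_right _ (List.mem_flatMap.2
      ⟨e, he, List.mem_map.2 ⟨un a, mem_uns.2 ⟨a, ha, rfl⟩, rfl⟩⟩))
  have heval : ∀ n : ℕ, (3 * Polynomial.X ^ 3 + 1 : Polynomial ℕ).eval n = 3 * n ^ 3 + 1 := by
    intro n
    simp
  by_cases hz : ∃ i, i₀ ≤ i ∧ IsInst (lev S i) (cnt V S R i) z
  · obtain ⟨i, hi, hinst⟩ := hz
    have hnz : nz z = un (lev S i) := nz_eq hinst
    have hd : ∀ w : List Bool, (M.run R (z, w) = true ↔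
        Crt R (lev S i) (cnt V S R i) z (ld (cf w)) (ld (cs w))) := by
      intro w
      have h1 : levB V S i₀ z ((qN (z, w)).filter fun q => R q) = true :=
        (levB_iff hV i₀ (hT w)).2 ⟨i, hi, hinst⟩
      have h2 := look_of_inst hV (hT w) hinst
      have h3 := crtB_iff (T := (qN (z, w)).filter fun q => R q) (R := R)
        (s := un (lev S i)) (l := un (cnt V S R i)) (u := z) (E := ld (cf w)) (F := ld (cs w))
        (by rw [un_length, un_length]; exact hinst)
        (by rw [← hnz]; exact hT' w)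
      rw [un_length, un_length] at h3
      rw [hM, ← h3]
      show (!levB V S i₀ z ((qN (z, w)).filter fun q => R q) ||
        crtB ((qN (z, w)).filter fun q => R q) (nz z)
          (look V S (nz z) ((qN (z, w)).filter fun q => R q)).2 z (ld (cf w)) (ld (cs w))) = true
          ↔ _
      rw [h1, h2, hnz]
      simp
    constructor
    · intro hL
      have hS : ¬ Sat R (lev S i) (cnt V S R i) z := fun h => hL ⟨i, hi, hinst, h⟩
      obtain ⟨E, F, hc, hF, hFl⟩ := exists_crt hinst (hw i hi) hS
      refine ⟨cd (lc E) (lc F), ?_, ?_⟩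
      · rw [heval]
        exact crt_length hinst hc hF hFl
      · rw [hd, cf_cd, cs_cd, ld_lc, ld_lc]
        exact hc
    · rintro ⟨w, -, hr⟩ ⟨i', hi', hinst', hsat⟩
      have hii : i' = i := level_unique hinst' hinst
      subst hii
      exact crt_sound hinst (hw i' hi) ((hd w).1 hr) hsat
  · have h1 : ¬ Lng V S i₀ R z := fun ⟨i, hi, h, _⟩ => hz ⟨i, hi, h⟩
    refine iff_of_true h1 ⟨[], by simp, ?_⟩
    rw [hM]
    have h2 : levB V S i₀ z ((qN (z, ([] : List Bool))).filter fun q => R q) = false := by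
      by_contra h
      rw [Bool.not_eq_false] at h
      exact hz ((levB_iff hV i₀ (hT [])).1 h)
    show (!levB V S i₀ z ((qN (z, [])).filter fun q => R q) || _) = true
    rw [h2]
    rfl

end Pool.Agent.RO
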