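import Mathlib
import Pool.Agent.RO.AE
import Pool.Agent.RO.C1b
import Pool.Agent.RO.CTk
import Pool.Agent.RO.CYes
import Pool.Agent.RO.CNo

set_option autoImplicit false

/-!
# NP ∩ coNP relative to a random oracle: assembly
-/

namespace Pool.Agent.RO

open MeasureTheory Pool.Agent.Helper22 N487b59b3 N68a2faeb N793a5b8e
open Pool.Agent.Helper20.Cons (join Po cRun)

theorem jj_pos (l : ℕ) : 0 < jj l := by unfold jj; positivity

theorem inst_level {V : Vp} {S : ℕ} {s l s' l' : ℕ} {u : List Bool} (h : IsInst s l u)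
    (h' : IsInst s' l' u) : s = s' := by
  have h1 : 0 < (ld u).length := by rw [h.2.1]; exact jj_pos l
  obtain ⟨x, hx⟩ := List.exists_mem_of_length_pos h1
  rw [← h.2.2.2 x hx, h'.2.2.2 x hx]

theorem lng_iff {V : Vp} {S i₀ i : ℕ} {R : Oracle} {u : List Bool} (hi : i₀ ≤ i)
    (h : IsInst (lev S i) (cnt V S R i) u) :
    Lng V S i₀ R u ↔ Sat R (lev S i) (cnt V S R i) u := by
  constructor
  · rintro ⟨i', _, h1, h2⟩
    have h3 : i' = i := (lev_strictMono S).injective (inst_level (V := V) (S := S) h1 h)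
    subst h3
    exact h2
  · exact fun h1 => ⟨i, hi, h, h1⟩

theorem cnt_le (V : Vp) (S : ℕ) (R : Oracle) (i : ℕ) : cnt V S R i ≤ i := by
  induction i with
  | zero => exact le_rfl
  | succ i ih =>
    rw [cnt]
    split_ifs <;> omega

/-- the statement for one oracle, from the almost sure statements for all pairs of verifiers -/
theorem no_complete {S : Vp → ℕ} (hS : ∀ V, Big V (S V)) {R : Oracle}
    (hR : ∀ V : Vp, (∀ l, ∃ i, cnt V (S V) R i = l ∧ Fail V R (lev (S V) i) l) ∧
      ((∀ i, ¬ Inv V R (lev (S V) i) (cnt V (S V) R i)) →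
        ∃ i₀, ∀ i, i₀ ≤ i → Win R (lev (S V) i) (cnt V (S V) R i))) :
    ¬ ∃ C ∈ NPo R ∩ coNPo R, ∀ A ∈ NPo R ∩ coNPo R, TuringRel R A C := by
  classical
  rintro ⟨C, hC, hcomp⟩
  obtain ⟨⟨p₁, M₁, h₁⟩, ⟨p₂, M₂, h₂⟩⟩ := KK_mem hC
  have h₂' : ∀ x, (KK R C x = false) ↔ Accepts M₂ p₂ R x := by
    intro x
    rw [← h₂ x]
    simp
  let V : Vp := fun b => if b then (M₁, p₁) else (M₂, p₂)
  have hV1 : ∀ l u, acc V true R l u ↔ KK R C (pads l u) = true := fun l u => (h₁ _).symm
  have hV2 : ∀ l u, acc V false R l u ↔ KK R C (pads l u) = false := fun l u => (h₂' _).symm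
  obtain ⟨hfail, hwin⟩ := hR V
  obtain ⟨i₀, hi₀⟩ := hwin (by
    rintro i ⟨u, _, hu⟩
    rw [hV1, hV2] at hu
    cases h : KK R C (pads (cnt V (S V) R i) u) <;> simp [h] at hu)
  have hmem : (fun z => decide (Lng V (S V) i₀ R z)) ∈ NPo R ∩ coNPo R :=
    ⟨np_side (hS V) i₀ R, conp_side (hS V) i₀ R hi₀⟩
  obtain ⟨j, e, hje⟩ := KK_univ (hcomp _ hmem)
  obtain ⟨l, hl, hj, he⟩ := exists_number j e i₀
  obtain ⟨i, hi, u, hu, hf⟩ := hfail l
  have hi' : i₀ ≤ i := by
    have := cnt_le V (S V) R i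
    omega
  have hu' : IsInst (lev (S V) i) (cnt V (S V) R i) u := by rw [hi]; exact hu
  have h5 := hje u
  have h6 : pad j e u = pads l u := by rw [pads, hj, he]
  rw [h6] at h5
  have h7 := lng_iff (V := V) hi' hu'
  rw [hi] at h7
  rw [hV1, hV2, ← h5, ← h7] at hf
  simp at hf

/-- a language in P relative to `R` is Turing reducible to every language, relative to `R` -/
theorem turing_of_Po {R : Oracle} {A C : DecisionProblem} (h : A ∈ Po R) : TuringRel R A C := by
  obtain ⟨M, hM⟩ := h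
  have fc := (isPolyTime_iff _).1 M.clock_poly
  have fq := (isPolyTime_iff _).1 M.query_poly
  have fo := (isPolyTime_iff _).1 M.out_poly
  refine ⟨⟨M.clock, fun s => false :: M.query s, M.out, M.clock_poly,
    (isPolyTime_iff _).2 ((FP.const false).cons fq), M.out_poly⟩, fun x => ?_⟩
  rw [hM x]
  have key : ∀ n, OracleProc.answers (⟨M.clock, fun s => false :: M.query s, M.out, M.clock_poly,
    (isPolyTime_iff _).2 ((FP.const false).cons fq), M.out_poly⟩ : OracleProc (List Bool) Bool)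
      (join R C) x n = M.answers R x n := by
    intro n
    induction n with
    | zero => rfl
    | succ n ih =>
      rw [OracleProc.answers, ih, OracleProc.answers]
      rfl
  rw [OracleProc.run, OracleProc.run, key]

/-- For almost every oracle `R`, NP ∩ coNP relative to `R` has no complete language, not even under
Turing reductions with the oracle `R`; in particular it differs from P relative to `R`. -/
theorem random_oracle : ∀ᵐ R ∂coin,
    (¬ ∃ C ∈ NPo R ∩ coNPo R, ∀ A ∈ NPo R ∩ coNPo R, TuringRel R A C) ∧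
      Po R ≠ NPo R ∩ coNPo R := by
  choose S hS using exists_big
  have h : ∀ᵐ R ∂coin, ∀ V : Vp, (∀ l, ∃ i, cnt V (S V) R i = l ∧ Fail V R (lev (S V) i) l) ∧
      ((∀ i, ¬ Inv V R (lev (S V) i) (cnt V (S V) R i)) →
        ∃ i₀, ∀ i, i₀ ≤ i → Win R (lev (S V) i) (cnt V (S V) R i)) :=
    ae_all_iff.2 fun V => ae_main (hS V)
  filter_upwards [h] with R hR
  have h1 := no_complete hS hR
  refine ⟨h1, fun h2 => h1 ?_⟩
  have h3 : (fun _ => false : DecisionProblem) ∈ Po R :=
    ⟨⟨fun _ => [], fun _ => [], fun _ => false, (isPolyTime_iff _).2 (FP.const _),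
      (isPolyTime_iff _).2 (FP.const _), (isPolyTime_iff _).2 (FP.const _)⟩, fun _ => rfl⟩
  exact ⟨fun _ => false, h2 ▸ h3, fun A hA => turing_of_Po (h2 ▸ hA)⟩

end Pool.Agent.RO
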